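import Pool.Agent.Lib.MP_cd184e_ag.T.Coh

set_option autoImplicit false

open CategoryTheory Limits

namespace Pool.Agent.Lib.MP_cd184e_ag.T

/-- `T` is tilting in the abelian category `C`: no higher self extensions, and the smallest thick
triangulated subcategory of the derived category containing `T` contains every bounded object. -/
def IsTilting {C : Type 1} [Category.{0} C] [Abelian C] (T : C) : Prop :=
  letI := HasDerivedCategory.standard C
  haveI := HasExt.standard C
  (∀ n : ℕ, Subsingleton (Abelian.Ext T T (n + 1))) ∧
    ∀ Y : DerivedCategory C, (∃ a b : ℤ, Y.IsGE a ∧ Y.IsLE b) →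
      ObjectProperty.triangEnvelope (fun Z => Z = (DerivedCategory.singleFunctor C 0).obj T) Y

theorem finite_compHom {R S : Type} [CommRing R] [CommRing S] (f : R →+* S) (hf : f.Finite)
    (M : Type) [AddCommGroup M] [Module S M] [Module.Finite S M] :
    letI := Module.compHom M f
    Module.Finite R M := by
  let := Module.compHom M f
  let := f.toAlgebra
  have : Module.Finite R S := hf
  have : IsScalarTower R S M := ⟨fun a b x => mul_smul (f a) b x⟩
  exact Module.Finite.trans S M

namespace Coh

variable {k K : Type} [Field k] [Field K] [Algebra k K]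

/-- The structure sheaf. -/
def unit (X : ProjVar k K) : Coh X where
  obj s := X.A s.1
  res h := (X.inc h).toRingHom.toAddMonoidHom
  res_smul h a x := map_mul (X.inc h) a x
  res_refl x := X.inc_refl x
  res_res h h' x := X.inc_inc h h' x
  fg _ := inferInstance
  surj h y := X.exists_denominator h y
  inj h x hx := ⟨1, by simp, by
    have : (X.inc h x : K) = 0 := congrArg Subtype.val hx
    rw [one_smul]; exact Subtype.ext ((X.coe_inc h x).symm.trans this)⟩

/-- Direct image under the absolute Frobenius morphism: the same abelian groups of sections, a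
function `a` acting as `a ^ p`. -/
def frob {X : ProjVar k K} (p : ℕ) [Fact p.Prime] [CharP k p] [PerfectField k] (N : Coh X) :
    Coh X where
  obj := N.obj
  mod s := Module.compHom _ (frobenius (X.A s.1) p)
  res := N.res
  res_smul h a x := (N.res_smul h (a ^ p) x).trans (by rw [map_pow]; rfl)
  res_refl := N.res_refl
  res_res := N.res_res
  fg s := finite_compHom _ (X.frobenius_finite p s.1) _
  surj h y := by
    obtain ⟨a, x, ha, e⟩ := N.surj h y
    obtain ⟨q, hq⟩ := Nat.exists_eq_succ_of_ne_zero (Fact.out : p.Prime).ne_zero
    refine ⟨a, a ^ q • x, ha, ?_⟩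
    change X.inc h a ^ p • y = _
    rw [N.res_smul, ← e, map_pow, ← mul_smul, ← pow_succ, ← Nat.succ_eq_add_one, ← hq]
  inj h x hx := by
    obtain ⟨a, ha, e⟩ := N.inj h x hx
    obtain ⟨q, hq⟩ := Nat.exists_eq_succ_of_ne_zero (Fact.out : p.Prime).ne_zero
    refine ⟨a, ha, ?_⟩
    change a ^ p • x = 0
    rw [hq, pow_succ, mul_smul, e, smul_zero]

end Coh

end Pool.Agent.Lib.MP_cd184e_ag.T
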