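import Mathlib

set_option autoImplicit false

open CategoryTheory Limits Abelian

namespace Pool.Agent.Lib.MP_cd184e_ag.T

variable {C : Type 1} [Category.{0} C] [Abelian C]

open HomologicalComplex DerivedCategory in
set_option backward.defeqAttrib.useBackward true in
set_option backward.isDefEq.respectTransparency false in
theorem exists_epi_single [HasDerivedCategory.{1} C] {G : C} {L : CochainComplex C ℤ} {i : ℤ}
    (φ : Q.obj ((CochainComplex.singleFunctor C i).obj G) ⟶ Q.obj L) (n : ℤ) (hn : n < i)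
    [L.IsStrictlyLE n] : ∃ (P : C) (π : P ⟶ G), Epi π ∧
      Q.map ((CochainComplex.singleFunctor C i).map π) ≫ φ = 0 := by
  obtain ⟨K, _, π, h, g, rfl⟩ := right_fac_of_isStrictlyLE φ i
  have h' := h
  rw [isIso_Q_map_iff_quasiIso] at h'
  let e := K.iCyclesIso i (i + 1) (by simp)
    ((K.isZero_of_isStrictlyLE i (i + 1) (by simp)).eq_of_tgt _ _)
  let α := e.inv ≫ K.homologyπ i ≫ homologyMap π i ≫ (singleObjHomologySelfIso _ _ _).hom
  have a : π.f i = α ≫ (singleObjXSelf (ComplexShape.up ℤ) i G).inv := by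
    rw [← cancel_epi e.hom]
    dsimp [α, e]
    rw [Category.assoc, Category.assoc, Category.assoc, iCyclesIso_hom_inv_id_assoc,
      homologyπ_naturality_assoc]
    dsimp [CochainComplex.singleFunctor, CochainComplex.singleFunctors]
    rw [homologyπ_singleObjHomologySelfIso_hom_assoc,
      ← singleObjCyclesSelfIso_inv_iCycles, Iso.hom_inv_id_assoc, ← cyclesMap_i]
  let σ : (CochainComplex.singleFunctor C i).obj (K.X i) ⟶ K := mkHomFromSingle (𝟙 _) (by
    rintro _ rfl
    apply (K.isZero_of_isStrictlyLE i (i + 1) (by simp)).eq_of_tgt)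
  have b : (CochainComplex.singleFunctor C i).map α = σ ≫ π := by
    apply from_single_hom_ext
    rw [comp_f, mkHomFromSingle_f, a, Category.comp_id]
    exact single_map_f_self (ComplexShape.up ℤ) i α
  have c : σ ≫ g = 0 := by
    apply from_single_hom_ext
    apply (L.isZero_of_isStrictlyLE n i hn).eq_of_tgt
  refine ⟨K.X i, α, inferInstance, ?_⟩
  rw [b, Q.map_comp, Category.assoc, IsIso.hom_inv_id_assoc, ← Q.map_comp, c, Q.map_zero]

variable [HasExt.{1} C]

open DerivedCategory in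
set_option backward.isDefEq.respectTransparency false in
/-- Every class of positive degree is killed by an epimorphism. -/
theorem exists_epi_comp_eq_zero {G N : C} {n : ℕ} (x : Ext G N (n + 1)) :
    ∃ (P : C) (π : P ⟶ G), Epi π ∧ (Ext.mk₀ π).comp x (zero_add _) = 0 := by
  let := HasDerivedCategory.standard C
  obtain ⟨P, π, h, h0⟩ := exists_epi_single (G := G) (i := 0)
    (L := (CochainComplex.singleFunctor C (-(n + 1))).obj N) (x.hom ≫ ((singleFunctors C).shiftIso
      (n + 1) (-(n + 1)) 0 (by lia)).hom.app N) (-(n + 1)) (by lia)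
  refine ⟨P, π, h, Ext.homEquiv.injective ?_⟩
  change Ext.hom _ = Ext.hom _
  rw [← Ext.singleFunctor_map_comp_hom, Ext.zero_hom, ← cancel_mono (((singleFunctors C).shiftIso
    (n + 1) (-(n + 1)) 0 (by lia)).hom.app N), Limits.zero_comp, Category.assoc]
  exact h0

theorem ext_nat_id (F : C ⥤ C) [F.Additive] [PreservesFiniteLimits F] [PreservesFiniteColimits F]
    (τ : 𝟭 C ⟶ F) {G N : C} {n : ℕ} (x : Ext G N n) :
    x.comp (Ext.mk₀ (show N ⟶ F.obj N from τ.app N)) (add_zero _) =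
      (Ext.mk₀ (show G ⟶ F.obj G from τ.app G)).comp (x.mapExactFunctor F) (zero_add _) := by
  induction n generalizing G with
  | zero =>
    obtain ⟨g, rfl⟩ := (Ext.mk₀_bijective G N).2 x
    rw [Ext.mapExactFunctor_mk₀, Ext.mk₀_comp_mk₀, Ext.mk₀_comp_mk₀]
    exact congrArg Ext.mk₀ (τ.naturality g)
  | succ n ih =>
    obtain ⟨P, π, _, h⟩ := exists_epi_comp_eq_zero x
    let S := ShortComplex.mk _ _ (kernel.condition π)
    have hS : S.ShortExact := { exact := ShortComplex.exact_kernel π }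
    obtain ⟨y, rfl⟩ := Ext.contravariant_sequence_exact₃ hS N x h (add_comm 1 n)
    let f : S ⟶ S.map F := ⟨τ.app _, τ.app _, τ.app _, (τ.naturality _).symm, (τ.naturality _).symm⟩
    have e := hS.extClass_naturality (hS.map_of_exact F) f
    rw [Ext.comp_assoc_of_third_deg_zero, ih, Ext.mapExactFunctor_comp,
      Ext.mapExactFunctor_extClass, ← Ext.comp_assoc_of_second_deg_zero]
    exact (congrArg (fun z => Ext.comp z (y.mapExactFunctor F) (add_comm 1 n)) e).trans
      (Ext.comp_assoc _ _ _ _ _ (by lia))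

set_option backward.isDefEq.respectTransparency false in
theorem ext_surj (L R Φ : C ⥤ C) [L.Additive] [PreservesFiniteLimits L]
    [PreservesFiniteColimits L] [R.Additive] [PreservesFiniteLimits R] [PreservesFiniteColimits R]
    [Φ.Additive] [PreservesFiniteLimits Φ] [PreservesFiniteColimits Φ] (ε : L ⋙ Φ ⟶ R) {A G : C}
    (u : G ⟶ Φ.obj A)
    (h0 : ∀ (N : C) (g : G ⟶ R.obj N), ∃ g' : A ⟶ L.obj N, u ≫ Φ.map g' ≫ ε.app N = g)
    (hk : ∀ (N : C) (n : ℕ) (x : Ext G (R.obj N) (n + 1)), ∃ (N' : C) (i : N ⟶ N'),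
      Mono i ∧ x.comp (Ext.mk₀ (R.map i)) (add_zero _) = 0)
    (n : ℕ) (N : C) (h : Subsingleton (Ext A (L.obj N) n)) :
    Subsingleton (Ext G (R.obj N) n) := by
  have key : ∀ (n : ℕ) (N : C) (x : Ext G (R.obj N) n), ∃ y : Ext A (L.obj N) n,
      (Ext.mk₀ u).comp ((y.mapExactFunctor Φ).comp
        (Ext.mk₀ (show Φ.obj (L.obj N) ⟶ R.obj N from ε.app N)) (add_zero n)) (zero_add n) = x := by
    intro n
    induction n with
    | zero =>
      intro N x
      obtain ⟨g, rfl⟩ := (Ext.mk₀_bijective _ _).2 x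
      obtain ⟨g', rfl⟩ := h0 N g
      exact ⟨Ext.mk₀ g', by rw [Ext.mapExactFunctor_mk₀, Ext.mk₀_comp_mk₀, Ext.mk₀_comp_mk₀]⟩
    | succ n ih =>
      intro N x
      obtain ⟨N', i, _, hx⟩ := hk N n x
      let S := ShortComplex.mk _ _ (cokernel.condition i)
      have hS : S.ShortExact := { exact := ShortComplex.exact_cokernel i }
      obtain ⟨z, rfl⟩ := Ext.covariant_sequence_exact₁ G (hS.map_of_exact R) x hx rfl
      obtain ⟨y, rfl⟩ := ih (cokernel i) z
      let f : (S.map L).map Φ ⟶ S.map R :=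
        ⟨ε.app _, ε.app _, ε.app _, (ε.naturality _).symm, (ε.naturality _).symm⟩
      have e := ((hS.map_of_exact L).map_of_exact Φ).extClass_naturality (hS.map_of_exact R) f
      refine ⟨y.comp (hS.map_of_exact L).extClass rfl, ?_⟩
      rw [Ext.mapExactFunctor_comp, Ext.mapExactFunctor_extClass,
        Ext.comp_assoc_of_third_deg_zero]
      refine (congrArg (fun z => (Ext.mk₀ u).comp ((y.mapExactFunctor Φ).comp z rfl) (zero_add _))
        e).trans ?_
      rw [← Ext.comp_assoc_of_second_deg_zero]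
      exact (Ext.comp_assoc _ _ _ _ _ (by lia)).symm
  refine subsingleton_of_forall_eq 0 fun x => ?_
  obtain ⟨y, rfl⟩ := key n N x
  rw [Subsingleton.elim y 0, Ext.mapExactFunctor_zero, Ext.zero_comp, Ext.comp_zero]

theorem ext_retract {G G' N N' : C} (a : G ⟶ G') (b : G' ⟶ G) (hab : a ≫ b = 𝟙 G) (c : N ⟶ N')
    (d : N' ⟶ N) (hcd : c ≫ d = 𝟙 N) {n : ℕ} (h : Subsingleton (Ext G' N' n)) :
    Subsingleton (Ext G N n) := by
  refine subsingleton_of_forall_eq 0 fun x => ?_
  have e : (Ext.mk₀ a).comp (((Ext.mk₀ b).comp (x.comp (Ext.mk₀ c) (add_zero n)) (zero_add n)).comp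
      (Ext.mk₀ d) (add_zero n)) (zero_add n) = x := by
    simp [hab, hcd]
  rw [← e, Subsingleton.elim ((Ext.mk₀ b).comp _ _) 0, Ext.zero_comp, Ext.comp_zero]

theorem ext_dec {G N : C} {I : Type} [Fintype I] {F : I → C} (a : ∀ x, N ⟶ F x)
    (b : ∀ x, F x ⟶ N) (hab : ∑ x, a x ≫ b x = 𝟙 N) {n : ℕ}
    (h : ∀ x, Subsingleton (Ext G (F x) n)) : Subsingleton (Ext G N n) := by
  refine subsingleton_of_forall_eq 0 fun x => ?_
  rw [← x.comp_mk₀_id, ← hab, Ext.mk₀_sum, Ext.comp_sum]
  refine Finset.sum_eq_zero fun i _ => ?_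
  rw [← Ext.mk₀_comp_mk₀, ← Ext.comp_assoc_of_second_deg_zero,
    Subsingleton.elim (x.comp _ _) 0, Ext.zero_comp]

theorem ext_mid {G : C} {S : ShortComplex C} (hS : S.ShortExact) {n : ℕ}
    (h1 : Subsingleton (Ext G S.X₁ n)) (h3 : Subsingleton (Ext G S.X₃ n)) :
    Subsingleton (Ext G S.X₂ n) := by
  refine subsingleton_of_forall_eq 0 fun x => ?_
  obtain ⟨y, rfl⟩ := Ext.covariant_sequence_exact₂ G hS x (Subsingleton.elim _ _)
  rw [Subsingleton.elim y 0, Ext.zero_comp]

theorem ext_right {G : C} {S : ShortComplex C} (hS : S.ShortExact) {n : ℕ}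
    (h1 : Subsingleton (Ext G S.X₁ (n + 1))) (h2 : Subsingleton (Ext G S.X₂ n)) :
    Subsingleton (Ext G S.X₃ n) := by
  refine subsingleton_of_forall_eq 0 fun x => ?_
  obtain ⟨y, rfl⟩ := Ext.covariant_sequence_exact₃ G hS x rfl (Subsingleton.elim _ _)
  rw [Subsingleton.elim y 0, Ext.zero_comp]

theorem ext_left {G : C} {S : ShortComplex C} (hS : S.ShortExact) {n : ℕ}
    (h3 : Subsingleton (Ext G S.X₃ n)) (h2 : Subsingleton (Ext G S.X₂ (n + 1))) :
    Subsingleton (Ext G S.X₁ (n + 1)) := by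
  refine subsingleton_of_forall_eq 0 fun x => ?_
  obtain ⟨y, rfl⟩ := Ext.covariant_sequence_exact₁ G hS x (Subsingleton.elim _ _) rfl
  rw [Subsingleton.elim y 0, Ext.zero_comp]

end Pool.Agent.Lib.MP_cd184e_ag.T
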