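import Pool.Agent.Lib.MP_cd184e_ag.T.Extend
import Pool.Agent.Lib.MP_cd184e_ag.T.Yon

set_option autoImplicit false

open CategoryTheory Limits Abelian Filter

namespace Pool.Agent.Lib.MP_cd184e_ag.T

variable {k K : Type} [Field k] [Field K] [Algebra k K] {X : ProjVar k K}

namespace Coh

open ProjVar

/-- An epimorphism onto a locally projective sheaf splits up to a power of `f j`. -/
theorem ev_split {G P : Coh X} (hG : LocProj G) (π : P ⟶ G) [Epi π] (j : X.J) :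
    ∀ᶠ t : ℕ in atTop, ∃ ψ : G ⟶ (tw t).obj P, ψ ≫ (tw t).map π = (tau j.1 t).app G := by
  have := hG j
  obtain ⟨σ, hσ⟩ := Module.projective_lifting_property (π.app (X.one j)) LinearMap.id
    (surj_of_epi π _)
  obtain ⟨a, ψ, hψ⟩ := exists_extend G P j σ
  obtain ⟨b, hb⟩ := eventually_atTop.1 (ev_kill_hom (G := G) (N := (tw a).obj G)
    (ψ ≫ (tw a).map π - show G ⟶ _ from (tau j.1 a).app G) j
    fun x => by
      rw [sub_app, tau_app, co_one, one_pow, one_smul, comp_app, hψ]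
      exact sub_eq_zero.2 (LinearMap.congr_fun hσ x))
  filter_upwards [eventually_ge_atTop (a + b)] with t ht
  obtain ⟨c, rfl⟩ := Nat.exists_eq_add_of_le (le_of_add_le_left ht)
  refine ⟨ψ ≫ mu P a (a + c : ℕ) _ (X.f_pow_mem j.1 c) (Nat.cast_add a c).symm,
    hom_ext fun s x => ?_⟩
  have := hb c (by omega) s x
  rw [sub_app, smul_sub, sub_eq_zero, tau_app, ← mul_smul, ← pow_add, add_comm] at this
  rw [tau_app, ← this, comp_app, comp_app, mu_pow_app]
  exact (π.app s).map_smul _ _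

theorem ev_kill_ext {G : Coh X} (hG : LocProj G) {N : Coh X} {n : ℕ} (x : Ext G N (n + 1))
    (j : X.J) : ∀ᶠ t : ℕ in atTop, x.comp (Ext.mk₀
      (show N ⟶ (tw (t : ℤ)).obj N from (tau j.1 t).app N)) (add_zero _) = 0 := by
  obtain ⟨P, π, _, h⟩ := exists_epi_comp_eq_zero x
  filter_upwards [ev_split hG π j] with t ⟨ψ, hψ⟩
  rw [ext_nat_id, ← hψ, ← Ext.mk₀_comp_mk₀_assoc]
  have := congrArg (Ext.mapExactFunctor (tw (t : ℤ))) h
  rw [Ext.mapExactFunctor_comp, Ext.mapExactFunctor_mk₀, Ext.mapExactFunctor_zero] at this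
  rw [this, Ext.comp_zero]

/-- Classes of positive degree are killed by all forms of some degree. -/
theorem kill {G : Coh X} (hG : LocProj G) (N : Coh X) (a : ℤ) {n : ℕ}
    (x : Ext G ((tw a).obj N) (n + 1)) :
    ∃ t : ℕ, ∀ (r : K) (hr : r ∈ X.Rd t),
      x.comp (Ext.mk₀ (mu N a (a + t) r (X.Rd_le_Deg t hr) rfl)) (add_zero _) = 0 := by
  obtain ⟨t, ht⟩ := (eventually_all.2 (ev_kill_ext hG x)).exists
  obtain ⟨d, hd⟩ := X.exists_Rd_le t
  refine ⟨t + d, fun r hr => ?_⟩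
  obtain ⟨c, hc, e⟩ := hd r hr
  have : mu N a (a + (t + d : ℕ)) r (X.Rd_le_Deg _ hr) rfl = ∑ j : X.J,
      (show (tw a).obj N ⟶ _ from (tau j.1 t).app _) ≫ (twtw N a t _ rfl).hom ≫
        mu N (a + t) _ (c j) (X.Rd_le_Deg _ (hc j)) (by push_cast; ring) := by
    refine hom_ext fun s y => ?_
    rw [sum_app, mu_app, show X.sec r (X.Rd_le_Deg _ hr) s =
      ∑ j, X.sec (c j) (X.Rd_le_Deg _ (hc j)) s * X.co j.1 s ^ t from Subtype.ext ?_,
      Finset.sum_smul]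
    · refine Finset.sum_congr rfl fun j _ => ?_
      rw [comp_app, tau_app, mul_smul]
      rfl
    · simp only [coe_sec, e, AddSubmonoidClass.coe_finsetSum, MulMemClass.coe_mul,
        SubmonoidClass.coe_pow, coe_co, zpow_natCast, Finset.sum_div]
      refine Finset.sum_congr rfl fun j _ => ?_
      rw [pow_add, div_pow, div_mul_div_comm, mul_comm (c j), mul_comm (X.fp s ^ d)]
  rw [this, Ext.mk₀_sum, Ext.comp_sum]
  refine Finset.sum_eq_zero fun j _ => ?_
  rw [← Ext.mk₀_comp_mk₀, ← Ext.comp_assoc_of_third_deg_zero, ht j, Ext.zero_comp]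

/-- The morphism `N(a) ⟶ ⊕ N(a + t)` given by the powers `f j ^ t`. -/
noncomputable def muAll (N : Coh X) (a : ℤ) (t : ℕ) :
    (tw a).obj N ⟶ pi fun _ : X.J => (tw (a + t)).obj N :=
  piLift fun j => mu N a (a + t) (X.f j.1 ^ t)
    (X.Rd_le_Deg t (X.pow_mem_Rd (X.f_mem_Rd _) t)) rfl

theorem muAll_inj (N : Coh X) (a : ℤ) (t : ℕ) (s : X.Idx) :
    Function.Injective ((muAll N a t).app s) := by
  refine (injective_iff_map_eq_zero _).2 fun x hx => ?_
  have := (mu_pow_app N a _ _ t (X.f_pow_mem _ t) rfl s x).symm.trans (congrFun hx (X.pt s))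
  rwa [co_pt, one_pow, one_smul] at this

theorem piLift_eq_sum {M : Coh X} {I : Type} [Fintype I] [DecidableEq I] {N : I → Coh X}
    (φ : ∀ i, M ⟶ N i) : piLift φ = ∑ i, φ i ≫ incl N i :=
  hom_ext fun _ _ => ((sum_app _ _ _ _).trans (Finset.univ_sum_single _)).symm

theorem comp_piLift_eq_zero {G M : Coh X} {I : Type} [Finite I] {N : I → Coh X} {n : ℕ}
    (x : Ext G M n) (φ : ∀ i, M ⟶ N i) (h : ∀ i, x.comp (Ext.mk₀ (φ i)) (add_zero _) = 0) :
    x.comp (Ext.mk₀ (piLift φ)) (add_zero _) = 0 := by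
  classical
  have := Fintype.ofFinite I
  rw [piLift_eq_sum, Ext.mk₀_sum, Ext.comp_sum]
  refine Finset.sum_eq_zero fun j _ => ?_
  rw [← Ext.mk₀_comp_mk₀, ← Ext.comp_assoc_of_third_deg_zero, h j, Ext.zero_comp]

theorem kill_mono {G : Coh X} (hG : LocProj G) (N : Coh X) {n : ℕ} (x : Ext G N (n + 1)) :
    ∃ (N' : Coh X) (i : N ⟶ N'), Mono i ∧ x.comp (Ext.mk₀ i) (add_zero _) = 0 := by
  obtain ⟨t, ht⟩ := kill hG N 0 (x.comp (Ext.mk₀ (tw0 N).inv) (add_zero _))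
  have := mono_of_inj _ (muAll_inj N 0 t)
  refine ⟨_, (tw0 N).inv ≫ muAll N 0 t, inferInstance, ?_⟩
  rw [← Ext.mk₀_comp_mk₀, ← Ext.comp_assoc_of_third_deg_zero]
  exact comp_piLift_eq_zero _ _ fun j => ht _ (X.pow_mem_Rd (X.f_mem_Rd _) t)

end Coh

end Pool.Agent.Lib.MP_cd184e_ag.T
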