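import Pool.Agent.Lib.MP_cd184e_ag.T.BunTw
import Pool.Agent.Lib.MP_cd184e_ag.T.Kill

set_option autoImplicit false

open CategoryTheory Limits Abelian

namespace Pool.Agent.Lib.MP_cd184e_ag.T

variable {k K : Type} [Field k] [Field K] [Algebra k K] {X : ProjVar k K}

namespace Bun

open Coh

theorem locProj_sheaf (E : Bun X) : LocProj E.sheaf := fun j =>
  (inferInstance : Module.Projective (X.A (X.one j).1) (E.ι → X.A (X.one j).1))

theorem sheaf_line (a : ℤ) : Nonempty (((triv X 1).t a).sheaf ≅ O X a) := by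
  let φ : ((triv X 1).t a).sheaf ⟶ O X a :=
    ⟨fun s => LinearMap.proj (0 : Fin 1), fun {s t} h (x : Fin 1 → X.A s.1) => by
      change (∑ b : Fin 1, (⟨_, ((triv X 1).t a).reg_le h 0 b⟩ : X.A t.1) * X.inc h (x b)
        : X.A t.1) = X.tr h a * X.inc h (x 0)
      rw [Fin.sum_univ_one]
      refine congrArg (· * X.inc h (x 0)) (Subtype.ext ?_)
      rw [ProjVar.coe_tr, div_zpow, div_eq_inv_mul, ← zpow_neg]
      simp [ProjVar.fp, mul_comm]⟩
  have : IsIso φ := isIso_of_bij φ
    (fun s x y h => funext fun b => by rw [Subsingleton.elim b 0]; exact h)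
    fun s y => ⟨fun _ => y, rfl⟩
  exact ⟨asIso φ⟩

/-- Currying `D ⊗ (F ⊗ N) = (D ⊗ F) ⊗ N`. -/
noncomputable def curryHom (D F : Bun X) (N : Coh X) :
    D.tw.obj (F.tw.obj N) ⟶ (D.tens F).tw.obj N where
  app s :=
    { toFun := fun (x : D.ι → F.ι → N.obj s) (p : D.ι × F.ι) => x p.1 p.2
      map_add' := fun _ _ => rfl
      map_smul' := fun _ _ => rfl }
  nat {s t} h (x : D.ι → F.ι → N.obj s) := by
    funext p
    change (∑ b, (⟨_, D.reg_le h p.1 b⟩ : X.A t.1) •
      (N.act _ (F.reg_le h) fun c => N.res h (x b c))) p.2 =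
      ∑ q : D.ι × F.ι, (⟨_, (D.tens F).reg_le h p q⟩ : X.A t.1) • N.res h (x q.1 q.2)
    rw [Fintype.sum_prod_type, Finset.sum_apply]
    refine Finset.sum_congr rfl fun b _ => ?_
    rw [Pi.smul_apply, act_apply, Finset.smul_sum]
    refine Finset.sum_congr rfl fun c _ => ?_
    rw [← mul_smul]
    refine congrArg (· • N.res h (x b c)) (Subtype.ext ?_)
    exact (congrFun (congrFun (Matrix.mul_kronecker_mul (D.H (X.pt t)) (D.G (X.pt s))
      (F.H (X.pt t)) (F.G (X.pt s))) p) (b, c))

instance (D F : Bun X) (N : Coh X) : IsIso (curryHom D F N) :=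
  isIso_of_bij _ (fun _ _ _ h => funext fun a => funext fun b => congrFun h (a, b))
    fun _ y => ⟨fun a b => y (a, b), rfl⟩

theorem dual_reg (E : Bun X) (i j : X.J) :
    E.dual.H i * E.dual.G j = (E.H j * E.G i).transpose := (Matrix.transpose_mul _ _).symm

/-- The trace `E ⊗ (E^* ⊗ N) ⟶ N`. -/
noncomputable def trace (E : Bun X) : E.dual.tw ⋙ E.tw ⟶ 𝟭 (Coh X) where
  app N :=
    { app := fun s =>
        { toFun := fun x : E.ι → E.ι → N.obj s => (∑ a, x a a : N.obj s)
          map_add' := fun _ _ => Finset.sum_add_distrib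
          map_smul' := fun c (x : E.ι → E.ι → N.obj s) =>
            (Finset.smul_sum (r := c) (f := fun a => x a a)).symm }
      nat := fun {s t} h (x : E.ι → E.ι → N.obj s) => by
        change ∑ a, (∑ b, (⟨_, E.reg_le h a b⟩ : X.A t.1) •
          (N.act _ (E.dual.reg_le h) fun c => N.res h (x b c))) a = N.res h (∑ a, x a a)
        have e : ∀ b, ∑ a, (⟨_, E.reg_le h a b⟩ : X.A t.1) •
            (N.act _ (E.dual.reg_le h) fun c => N.res h (x b c)) a = N.res h (x b b) := fun b =>
          congrFun ((N.act_act _ (E.reg_le h).transpose _ (E.dual.reg_le h) _).trans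
            (N.act_one (by
              rw [dual_reg, ← Matrix.transpose_mul, E.HG_HG, E.HG, Matrix.transpose_one]) _ _)) b
        simp only [Finset.sum_apply, Pi.smul_apply]
        rw [Finset.sum_comm, map_sum]
        exact Finset.sum_congr rfl fun b _ => e b }
  naturality M N φ := hom_ext fun s (x : E.ι → E.ι → M.obj s) =>
    (map_sum (φ.app s) (fun a => x a a) Finset.univ).symm

theorem exists_adj (E : Bun X) (N : Coh X) (g : E.sheaf ⟶ N) :
    ∃ g' : unit X ⟶ E.dual.tw.obj N, E.tw.map g' ≫ E.trace.app N = g := by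
  refine ⟨⟨fun s => LinearMap.pi fun a : E.ι =>
    g.app s ∘ₗ LinearMap.single (X.A s.1) (fun _ : E.ι => (unit X).obj s) a,
    fun {s t} h r => funext fun a => ?_⟩, hom_ext fun s x => ?_⟩
  · change g.app t (Pi.single a ((unit X).res h r)) =
      ∑ b, (⟨_, E.dual.reg_le h a b⟩ : X.A t.1) • N.res h (g.app s (Pi.single b r))
    simp only [← g.nat, ← map_smul, ← map_sum]
    congr 1
    have e1 : ∀ b, E.sheaf.res h (Pi.single b r) =
        (unit X).act _ (E.reg_le h) (Pi.single b ((unit X).res h r)) := fun b =>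
      congrArg ((unit X).act _ (E.reg_le h))
        (funext fun c => Pi.apply_single (fun _ => (unit X).res h) (fun _ => map_zero _) b r c)
    have e2 : ∑ b, (⟨_, E.dual.reg_le h a b⟩ : X.A t.1) •
        (Pi.single b ((unit X).res h r) : E.ι → (unit X).obj t) =
        (unit X).act _ (E.reg_ge h) (Pi.single a ((unit X).res h r)) := by
      funext c
      rw [act_apply, Finset.sum_apply, Finset.sum_eq_single c, Finset.sum_eq_single a]
      · rw [Pi.smul_apply, Pi.single_eq_same, Pi.single_eq_same]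
        exact congrArg (· • (unit X).res h r)
          (Subtype.ext (congrFun (congrFun (E.dual_reg _ _) a) c))
      · exact fun b _ hb => by rw [Pi.single_eq_of_ne hb, smul_zero]
      · simp
      · exact fun b _ hb => by rw [Pi.smul_apply, Pi.single_eq_of_ne hb.symm, smul_zero]
      · simp
    simp only [e1, ← map_smul, ← map_sum]
    rw [e2, act_act]
    exact ((unit X).act_one ((E.HG_HG _ _ _).trans (E.HG _)) _ _).symm
  · change ∑ a, g.app s (Pi.single a (x a)) = g.app s x
    rw [← map_sum, Finset.univ_sum_single]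

/-- `Ext (E, F) = H (E^* ⊗ F)`. -/
theorem ext_of_van (E F : Bun X) (n : ℕ)
    (h : Subsingleton (Ext (unit X) (E.dual.tens F).sheaf n)) :
    Subsingleton (Ext E.sheaf F.sheaf n) :=
  ext_surj E.dual.tw (𝟭 _) E.tw E.trace (A := unit X) (G := E.sheaf) (𝟙 _)
    (fun N g => by simpa using exists_adj E N g)
    (fun N _ x => kill_mono E.locProj_sheaf N x) n F.sheaf
    (ext_retract (𝟙 _) (𝟙 _) (Category.id_comp _) (curryHom E.dual F (unit X)) (inv _)
      (IsIso.hom_inv_id _) h)

end Bun

end Pool.Agent.Lib.MP_cd184e_ag.T
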