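import Mathlib

set_option autoImplicit false

namespace Pool.Agent.Lib.MP_cd184e_ag.T

/-- A projective variety over `k` inside a field `K`: the closure `X` of the point
`(f 0 : ... : f (n-1))` in projective space over `k`, that is `Proj` of the graded ring `k[f l * t]`,
together with a set `J` of indices whose standard affine charts `f j ≠ 0` cover `X`. -/
structure ProjVar (k K : Type) [Field k] [Field K] [Algebra k K] where
  n : ℕ
  f : Fin n → K
  J : Finset (Fin n)
  ne : ∀ j ∈ J, f j ≠ 0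
  nonempty : J.Nonempty
  cover : ∀ l, ∃ m : ℕ,
    f l ^ (m + 1) ∈ Submodule.span k (f '' J) * Submodule.span k (Set.range f) ^ m

namespace ProjVar

variable {k K : Type} [Field k] [Field K] [Algebra k K] (X : ProjVar k K)

/-- Coordinate ring of the intersection of the charts `f j ≠ 0`, `j ∈ s`. -/
def A (s : Finset (Fin X.n)) : Subalgebra k K :=
  Algebra.adjoin k {x | ∃ l, ∃ j ∈ s, x = X.f l / X.f j}

/-- Nonempty sets of charts of the cover. -/
abbrev Idx : Type := {s : Finset (Fin X.n) // s.Nonempty ∧ s ⊆ X.J}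

theorem A_mono {s t : Finset (Fin X.n)} (h : s ⊆ t) : X.A s ≤ X.A t :=
  Algebra.adjoin_mono fun _ ⟨l, j, hj, e⟩ => ⟨l, j, h hj, e⟩

/-- Restriction of functions. -/
def inc {s t : X.Idx} (h : s ≤ t) : X.A s.1 →ₐ[k] X.A t.1 :=
  Subalgebra.inclusion (X.A_mono h)

@[simp] theorem coe_inc {s t : X.Idx} (h : s ≤ t) (a : X.A s.1) : (X.inc h a : K) = a :=
  Subalgebra.coe_inclusion _ a

@[simp] theorem inc_refl {s : X.Idx} (a : X.A s.1) : X.inc le_rfl a = a :=
  Subtype.ext (X.coe_inc _ a)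

@[simp] theorem inc_inc {s t u : X.Idx} (h : s ≤ t) (h' : t ≤ u) (a : X.A s.1) :
    X.inc h' (X.inc h a) = X.inc (h.trans h') a :=
  Subtype.ext (by simp only [coe_inc])

theorem div_mem {s : Finset (Fin X.n)} (l : Fin X.n) {j : Fin X.n} (hj : j ∈ s) :
    X.f l / X.f j ∈ X.A s := Algebra.subset_adjoin ⟨l, j, hj, rfl⟩

theorem finite_gens (s : Finset (Fin X.n)) :
    {x | ∃ l, ∃ j ∈ s, x = X.f l / X.f j}.Finite :=
  (Set.finite_range fun p : Fin X.n × Fin X.n => X.f p.1 / X.f p.2).subset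
    fun _ ⟨l, j, _, e⟩ => ⟨(l, j), e.symm⟩

instance finiteType (s : Finset (Fin X.n)) : Algebra.FiniteType k (X.A s) :=
  Algebra.FiniteType.adjoin_of_finite (X.finite_gens s)

instance noeth (s : Finset (Fin X.n)) : IsNoetherianRing (X.A s) :=
  Algebra.FiniteType.isNoetherianRing k _

theorem ne_of_mem {s : X.Idx} {j : Fin X.n} (hj : j ∈ s.1) : X.f j ≠ 0 := X.ne j (s.2.2 hj)

theorem isUnit_of_inv {s : Finset (Fin X.n)} (a : X.A s) (h0 : (a : K) ≠ 0)
    (h : (a : K)⁻¹ ∈ X.A s) : IsUnit a :=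
  IsUnit.of_mul_eq_one (⟨_, h⟩ : X.A s) (Subtype.ext (mul_inv_cancel₀ h0))

theorem isUnit_div {s : X.Idx} {i j : Fin X.n} (hi : i ∈ s.1) (hj : j ∈ s.1) :
    IsUnit (⟨X.f i / X.f j, X.div_mem i hj⟩ : X.A s.1) :=
  X.isUnit_of_inv _ (div_ne_zero (X.ne_of_mem hi) (X.ne_of_mem hj))
    (by rw [inv_div]; exact X.div_mem j hi)

/-- The ring of a smaller open set is a localisation of the ring of a larger one. -/
theorem exists_denominator {s t : X.Idx} (h : s ≤ t) (y : X.A t.1) :
    ∃ a x : X.A s.1, IsUnit (X.inc h a) ∧ X.inc h a * y = X.inc h x := by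
  obtain ⟨y, hy⟩ := y
  obtain ⟨j, hj⟩ := s.2.1
  induction hy using Algebra.adjoin_induction with
  | mem x hx =>
    obtain ⟨l, i, hi, rfl⟩ := hx
    refine ⟨⟨_, X.div_mem i hj⟩, ⟨_, X.div_mem l hj⟩, X.isUnit_div hi (h hj), Subtype.ext ?_⟩
    have := X.ne_of_mem hi
    have := X.ne_of_mem hj
    change X.f i / X.f j * (X.f l / X.f i) = X.f l / X.f j
    field_simp
  | algebraMap r => exact ⟨1, algebraMap k _ r, by simp, Subtype.ext (by simp)⟩
  | add x y hx hy ihx ihy =>
    obtain ⟨a, u, ha, e⟩ := ihx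
    obtain ⟨b, v, hb, e'⟩ := ihy
    refine ⟨a * b, b * u + a * v, by rw [map_mul]; exact ha.mul hb, ?_⟩
    change _ * (⟨x, hx⟩ + ⟨y, hy⟩ : X.A t.1) = _
    rw [map_add, map_mul, map_mul, map_mul, ← e, ← e']; ring
  | mul x y hx hy ihx ihy =>
    obtain ⟨a, u, ha, e⟩ := ihx
    obtain ⟨b, v, hb, e'⟩ := ihy
    refine ⟨a * b, u * v, by rw [map_mul]; exact ha.mul hb, ?_⟩
    change _ * (⟨x, hx⟩ * ⟨y, hy⟩ : X.A t.1) = _
    rw [map_mul, map_mul, ← e, ← e']; ring

instance charP (p : ℕ) [CharP k p] (s : Finset (Fin X.n)) : CharP (X.A s) p :=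
  charP_of_injective_algebraMap (algebraMap k (X.A s)).injective p

theorem frobenius_finite (p : ℕ) [Fact p.Prime] [CharP k p] [PerfectField k]
    (s : Finset (Fin X.n)) : (frobenius (X.A s) p).Finite := by
  have hp : p ≠ 0 := (Fact.out : p.Prime).ne_zero
  refine RingHom.IsIntegral.to_finite (fun x => ?_) ?_
  · refine ⟨Polynomial.X ^ p - Polynomial.C x, Polynomial.monic_X_pow_sub_C x hp, ?_⟩
    simp [frobenius_def]
  · have h1 : ((algebraMap k (X.A s)).comp (frobenius k p)).FiniteType :=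
      RingHom.FiniteType.comp (RingHom.finiteType_algebraMap.2 inferInstance)
        (RingHom.FiniteType.of_surjective _ (frobeniusEquiv k p).surjective)
    have h2 : (algebraMap k (X.A s)).comp (frobenius k p) =
        (frobenius (X.A s) p).comp (algebraMap k (X.A s)) := by
      ext x; simp [frobenius_def]
    rw [h2] at h1
    exact RingHom.FiniteType.of_comp_finiteType h1

end ProjVar

end Pool.Agent.Lib.MP_cd184e_ag.T
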