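import Pool.Agent.Lib.MP_cd184e_ag.T.Tw

set_option autoImplicit false

open CategoryTheory Limits Matrix
open scoped Kronecker

namespace Pool.Agent.Lib.MP_cd184e_ag.T

variable {k K : Type} [Field k] [Field K] [Algebra k K]

namespace ProjVar

variable (X : ProjVar k K) {α β γ δ : Type} {s t : Finset (Fin X.n)}

/-- All entries are regular on the open set `s`. -/
def InA (s : Finset (Fin X.n)) (m : Matrix α β K) : Prop := ∀ a b, m a b ∈ X.A s

variable {X}

theorem InA.mono {m : Matrix α β K} (hm : X.InA s m) (h : s ⊆ t) : X.InA t m :=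
  fun a b => X.A_mono h (hm a b)

theorem InA.mul [Fintype β] {m : Matrix α β K} {m' : Matrix β γ K} (hm : X.InA s m)
    (hm' : X.InA s m') : X.InA s (m * m') := fun a c => by
  rw [Matrix.mul_apply]; exact Subalgebra.sum_mem _ fun b _ => mul_mem (hm a b) (hm' b c)

theorem InA.add {m m' : Matrix α β K} (hm : X.InA s m) (hm' : X.InA s m') : X.InA s (m + m') :=
  fun a b => add_mem (hm a b) (hm' a b)

theorem InA.smul {m : Matrix α β K} (hm : X.InA s m) {c : K} (hc : c ∈ X.A s) :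
    X.InA s (c • m) := fun a b => mul_mem hc (hm a b)

theorem InA.zero : X.InA s (0 : Matrix α β K) := fun _ _ => zero_mem _

theorem InA.one [DecidableEq α] : X.InA s (1 : Matrix α α K) := fun a b => by
  rw [Matrix.one_apply]; split_ifs
  exacts [one_mem _, zero_mem _]

theorem InA.transpose {m : Matrix α β K} (hm : X.InA s m) : X.InA s mᵀ := fun a b => hm b a

theorem InA.kron {m : Matrix α β K} {m' : Matrix γ δ K} (hm : X.InA s m) (hm' : X.InA s m') :
    X.InA s (m ⊗ₖ m') := fun a b => mul_mem (hm a.1 b.1) (hm' a.2 b.2)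

theorem InA.submatrix {m : Matrix α β K} (hm : X.InA s m) (e : γ → α) (e' : δ → β) :
    X.InA s (m.submatrix e e') := fun a b => hm (e a) (e' b)

end ProjVar

/-- A vector bundle inside the constant sheaf `K ^ ι`, with a frame `G j` on each chart. -/
structure Bun (X : ProjVar k K) where
  ι : Type
  [fin : Fintype ι]
  [dec : DecidableEq ι]
  G : X.J → Matrix ι ι K
  H : X.J → Matrix ι ι K
  HG : ∀ j, H j * G j = 1
  reg : ∀ i j : X.J, X.InA {i.1, j.1} (H j * G i)

attribute [instance] Bun.fin Bun.dec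

namespace Bun

variable {X : ProjVar k K}

theorem GH (E : Bun X) (j : X.J) : E.G j * E.H j = 1 := mul_eq_one_comm.1 (E.HG j)

theorem reg' (E : Bun X) {i j : X.J} {s : Finset (Fin X.n)} (hi : i.1 ∈ s) (hj : j.1 ∈ s) :
    X.InA s (E.H j * E.G i) :=
  (E.reg i j).mono (Finset.insert_subset hi (Finset.singleton_subset_iff.2 hj))

/-- Trivial bundle. -/
@[reducible] def triv (X : ProjVar k K) (n : ℕ) : Bun X where
  ι := Fin n
  G _ := 1
  H _ := 1
  HG _ := Matrix.mul_one _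
  reg _ _ := by rw [Matrix.mul_one]; exact ProjVar.InA.one

/-- Twist by `O(a)`. -/
@[reducible] noncomputable def t (E : Bun X) (a : ℤ) : Bun X where
  ι := E.ι
  G j := X.f j.1 ^ a • E.G j
  H j := X.f j.1 ^ (-a) • E.H j
  HG j := by
    rw [Matrix.smul_mul, Matrix.mul_smul, E.HG, smul_smul, ← zpow_add₀ (X.ne _ j.2)]; simp
  reg i j := by
    rw [Matrix.smul_mul, Matrix.mul_smul, smul_smul]
    refine (E.reg i j).smul ?_
    have := X.zpow_mem (t := ⟨{i.1, j.1}, by simp, by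
      simp [Finset.insert_subset_iff, i.2, j.2]⟩) (i := i.1) (j := j.1) (by simp) (by simp) a
    rwa [div_zpow, div_eq_inv_mul, ← _root_.zpow_neg] at this

/-- Dual bundle. -/
@[reducible] def dual (E : Bun X) : Bun X where
  ι := E.ι
  G j := (E.H j)ᵀ
  H j := (E.G j)ᵀ
  HG j := by rw [← Matrix.transpose_mul, E.HG, Matrix.transpose_one]
  reg i j := by
    rw [← Matrix.transpose_mul]
    exact (E.reg' (by simp) (by simp)).transpose

/-- Tensor product. -/
@[reducible] def tens (E F : Bun X) : Bun X where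
  ι := E.ι × F.ι
  G j := E.G j ⊗ₖ F.G j
  H j := E.H j ⊗ₖ F.H j
  HG j := by rw [← Matrix.mul_kronecker_mul, E.HG, F.HG, Matrix.one_kronecker_one]
  reg i j := by rw [← Matrix.mul_kronecker_mul]; exact (E.reg i j).kron (F.reg i j)

/-- Direct sum. -/
@[reducible] def sum (E F : Bun X) : Bun X where
  ι := E.ι ⊕ F.ι
  G j := fromBlocks (E.G j) 0 0 (F.G j)
  H j := fromBlocks (E.H j) 0 0 (F.H j)
  HG j := by simp [Matrix.fromBlocks_multiply, E.HG, F.HG]
  reg i j := by
    rw [Matrix.fromBlocks_multiply]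
    rintro (a | a) (b | b)
    · simpa using E.reg i j a b
    · simp
    · simp
    · simpa using F.reg i j a b

/-- Direct sum of a finite family. -/
@[reducible] def sigma {I : Type} [Fintype I] [DecidableEq I] (F : I → Bun X) : Bun X where
  ι := Σ x, (F x).ι
  G j := blockDiagonal' fun x => (F x).G j
  H j := blockDiagonal' fun x => (F x).H j
  HG j := by
    rw [← Matrix.blockDiagonal'_mul, ← Matrix.blockDiagonal'_one]
    exact congrArg _ (funext fun x => (F x).HG j)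
  reg i j := by
    rw [← Matrix.blockDiagonal'_mul]
    rintro ⟨x, a⟩ ⟨y, b⟩
    by_cases h : x = y
    · subst h; rw [Matrix.blockDiagonal'_apply_eq]; exact (F x).reg i j a b
    · rw [Matrix.blockDiagonal'_apply_ne _ _ _ h]; exact zero_mem _

/-- `E ^ n`. -/
abbrev pow (n : ℕ) (E : Bun X) : Bun X := (triv X n).tens E

/-- The matrix `m` is a morphism of bundles over the chart `j`. -/
def RegOn (E F : Bun X) (j : X.J) (m : Matrix F.ι E.ι K) : Prop :=
  X.InA {j.1} (F.H j * m * E.G j)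

/-- The matrix `m` is a morphism of bundles. -/
def Reg (E F : Bun X) (m : Matrix F.ι E.ι K) : Prop := ∀ j, RegOn E F j m

/-- `E` is a direct summand of the sum of the `F x`. -/
def Dec (E : Bun X) {I : Type} [Fintype I] (F : I → Bun X) : Prop :=
  ∃ (a : ∀ x, Matrix (F x).ι E.ι K) (b : ∀ x, Matrix E.ι (F x).ι K),
    (∀ x, Reg E (F x) (a x) ∧ Reg (F x) E (b x)) ∧ ∑ x, b x * a x = 1

/-- `E` is a direct summand of `F`. -/
def Retr (E F : Bun X) : Prop :=
  ∃ (a : Matrix F.ι E.ι K) (b : Matrix E.ι F.ι K), Reg E F a ∧ Reg F E b ∧ b * a = 1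

/-- There is a locally split short exact sequence `0 → A → B → C → 0`. -/
def Ex3 (A B C : Bun X) : Prop :=
  ∃ (m₁ : Matrix B.ι A.ι K) (m₂ : Matrix C.ι B.ι K), Reg A B m₁ ∧ Reg B C m₂ ∧ m₂ * m₁ = 0 ∧
    ∀ j, ∃ (r : Matrix A.ι B.ι K) (s : Matrix B.ι C.ι K), RegOn B A j r ∧ RegOn C B j s ∧
      r * m₁ = 1 ∧ m₁ * r + s * m₂ = 1 ∧ m₂ * s = 1

/-- There is a locally split exact sequence `0 → A → B → C → D → 0`. -/
def Ex4 (A B C D : Bun X) : Prop :=
  ∃ (m₁ : Matrix B.ι A.ι K) (m₂ : Matrix C.ι B.ι K) (m₃ : Matrix D.ι C.ι K),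
    Reg A B m₁ ∧ Reg B C m₂ ∧ Reg C D m₃ ∧ m₂ * m₁ = 0 ∧ m₃ * m₂ = 0 ∧
    ∀ j, ∃ (r : Matrix A.ι B.ι K) (h : Matrix B.ι C.ι K) (s : Matrix C.ι D.ι K),
      RegOn B A j r ∧ RegOn C B j h ∧ RegOn D C j s ∧
      r * m₁ = 1 ∧ m₁ * r + h * m₂ = 1 ∧ m₂ * h + s * m₃ = 1 ∧ m₃ * s = 1

/-- The rules shared by vanishing of cohomology and by membership in a thick subcategory. -/
structure Rules (P : ℕ → Bun X → Prop) : Prop where
  dec : ∀ {E : Bun X} {I : Type} [Fintype I] {F : I → Bun X} {n : ℕ},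
    Dec E F → (∀ x, P n (F x)) → P n E
  right : ∀ {A B C : Bun X} {n : ℕ}, Ex3 A B C → P (n + 1) A → P n B → P n C
  left : ∀ {A B C : Bun X} {n : ℕ}, Ex3 A B C → P n C → P (n + 1) B → P (n + 1) A
  right4 : ∀ {A B C D : Bun X} {n : ℕ}, Ex4 A B C D → P (n + 2) A → P (n + 1) B → P n C → P n D
  left4 : ∀ {A B C D : Bun X} {n : ℕ},
    Ex4 A B C D → P n D → P (n + 1) C → P (n + 2) B → P (n + 2) A

/-- The bundles and exact sequences on the Mukai fourfold of genus ten. -/
structure Data (X : ProjVar k K) where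
  V : Bun X
  Q : Bun X
  E : Bool → Bun X
  om : Retr V (V.dual.t 1)
  om' : Retr (V.dual.t 1) V
  det : Retr ((triv X 1).t 1) (V.tens V)
  s2 : Ex3 Q.dual (triv X 7) V
  s3 : ∀ e, Ex3 (E (!e)).dual (triv X 6) (E e)
  s4 : Ex3 ((V.tens V).t (-1)) ((triv X 1).sum Q) V
  s5 : ∀ e, Ex3 (E e) (pow 3 V) ((E (!e)).dual.t 1)
  s7 : Ex4 Q ((pow 3 (E true)).sum (pow 3 (E false))) (pow 9 V) (Q.dual.t 1)
  s10 : ∀ e, Ex3 ((V.tens (E e)).t (-1)) ((triv X 3).sum (pow 3 Q))
    ((pow 3 (E (!e))).sum (E e))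

/-- The six bundles. -/
noncomputable def Data.six (D : Data X) : Fin 6 → Bun X :=
  ![triv X 1, D.Q, D.E true, D.E false, D.V, (triv X 1).t 1]

end Bun

end Pool.Agent.Lib.MP_cd184e_ag.T
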