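import Pool.Agent.Lib.MP_cd184e_ag.T.Bun

set_option autoImplicit false

open CategoryTheory Limits Abelian Matrix
open scoped Kronecker

namespace Pool.Agent.Lib.MP_cd184e_ag.T

variable {k K : Type} [Field k] [Field K] [Algebra k K] {X : ProjVar k K}

namespace Bun

variable {A B C D E F : Bun X}

theorem RegOn.tensR {j : X.J} {m : Matrix B.ι A.ι K} (h : RegOn A B j m) (F : Bun X) :
    RegOn (A.tens F) (B.tens F) j (m ⊗ₖ (1 : Matrix F.ι F.ι K)) := by
  show X.InA _ ((B.H j ⊗ₖ F.H j) * (m ⊗ₖ (1 : Matrix F.ι F.ι K)) * (A.G j ⊗ₖ F.G j))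
  rw [← Matrix.mul_kronecker_mul, ← Matrix.mul_kronecker_mul, Matrix.mul_one, F.HG]
  exact ProjVar.InA.kron h ProjVar.InA.one

theorem RegOn.twist {j : X.J} {m : Matrix B.ι A.ι K} (h : RegOn A B j m) (a : ℤ) :
    RegOn (A.t a) (B.t a) j m := by
  show X.InA _ ((X.f j.1 ^ (-a) • B.H j) * m * (X.f j.1 ^ a • A.G j))
  rw [Matrix.smul_mul, Matrix.smul_mul, Matrix.mul_smul, smul_smul, ← zpow_add₀ (X.ne _ j.2),
    neg_add_cancel, zpow_zero, one_smul]
  exact h

theorem RegOn.transp {j : X.J} {m : Matrix B.ι A.ι K} (h : RegOn A B j m) :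
    RegOn B.dual A.dual j mᵀ := by
  show X.InA _ ((A.G j)ᵀ * mᵀ * (B.H j)ᵀ)
  rw [← Matrix.transpose_mul, ← Matrix.transpose_mul, ← Matrix.mul_assoc]
  exact ProjVar.InA.transpose h

theorem RegOn.comp {j : X.J} {m : Matrix B.ι A.ι K} {m' : Matrix C.ι B.ι K}
    (h : RegOn A B j m) (h' : RegOn B C j m') : RegOn A C j (m' * m) := by
  have e : C.H j * (m' * m) * A.G j = (C.H j * m' * B.G j) * (B.H j * m * A.G j) := by
    simp only [Matrix.mul_assoc]
    rw [← Matrix.mul_assoc (B.G j), B.GH, Matrix.one_mul]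
  unfold RegOn
  rw [e]
  exact ProjVar.InA.mul h' h

theorem RegOn.ident (E : Bun X) (j : X.J) : RegOn E E j 1 := by
  unfold RegOn
  rw [Matrix.mul_one, E.HG]
  exact ProjVar.InA.one

theorem kron_one_mul {α β γ : Type} [Fintype β] (F : Bun X) (m : Matrix α β K)
    (m' : Matrix β γ K) :
    (m ⊗ₖ (1 : Matrix F.ι F.ι K)) * (m' ⊗ₖ (1 : Matrix F.ι F.ι K)) =
      (m * m') ⊗ₖ (1 : Matrix F.ι F.ι K) := by
  rw [← Matrix.mul_kronecker_mul, Matrix.mul_one]

theorem Retr.refl (E : Bun X) : Retr E E :=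
  ⟨1, 1, RegOn.ident E, RegOn.ident E, Matrix.mul_one _⟩

theorem Retr.trans (h : Retr A B) (h' : Retr B C) : Retr A C := by
  obtain ⟨a, b, ha, hb, e⟩ := h
  obtain ⟨a', b', ha', hb', e'⟩ := h'
  refine ⟨a' * a, b * b', fun j => (ha j).comp (ha' j), fun j => (hb' j).comp (hb j), ?_⟩
  rw [Matrix.mul_assoc, ← Matrix.mul_assoc b', e', Matrix.one_mul, e]

theorem Retr.tens (h : Retr A B) (F : Bun X) : Retr (A.tens F) (B.tens F) := by
  obtain ⟨a, b, ha, hb, e⟩ := h
  refine ⟨_, _, fun j => (ha j).tensR F, fun j => (hb j).tensR F, ?_⟩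
  rw [kron_one_mul, e, Matrix.one_kronecker_one]

theorem Retr.t (h : Retr A B) (a : ℤ) : Retr (A.t a) (B.t a) := by
  obtain ⟨c, b, hc, hb, e⟩ := h
  exact ⟨c, b, fun j => (hc j).twist a, fun j => (hb j).twist a, e⟩

theorem Retr.dual (h : Retr A B) : Retr A.dual B.dual := by
  obtain ⟨a, b, ha, hb, e⟩ := h
  refine ⟨bᵀ, aᵀ, fun j => (hb j).transp, fun j => (ha j).transp, ?_⟩
  rw [← Matrix.transpose_mul, e, Matrix.transpose_one]

theorem Retr.dec (h : Retr A B) : Dec A fun _ : Unit => B := by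
  obtain ⟨a, b, ha, hb, e⟩ := h
  exact ⟨fun _ => a, fun _ => b, fun _ => ⟨ha, hb⟩, by simpa using e⟩

theorem Dec.tens {I : Type} [Fintype I] {F : I → Bun X} (h : Dec A F) (B : Bun X) :
    Dec (A.tens B) fun x => (F x).tens B := by
  obtain ⟨a, b, hab, e⟩ := h
  refine ⟨fun x => a x ⊗ₖ (1 : Matrix B.ι B.ι K), fun x => b x ⊗ₖ (1 : Matrix B.ι B.ι K),
    fun x => ⟨fun j => ((hab x).1 j).tensR B, fun j => ((hab x).2 j).tensR B⟩, ?_⟩
  have : ∑ x, (b x * a x) ⊗ₖ (1 : Matrix B.ι B.ι K) = 1 := by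
    rw [← Matrix.one_kronecker_one, ← e]
    ext p q
    simp only [Matrix.sum_apply, Matrix.kroneckerMap_apply, Finset.sum_mul]
  rw [← this]
  exact Finset.sum_congr rfl fun x _ => kron_one_mul B _ _

theorem Dec.t {I : Type} [Fintype I] {F : I → Bun X} (h : Dec A F) (a : ℤ) :
    Dec (A.t a) fun x => (F x).t a := by
  obtain ⟨c, b, hab, e⟩ := h
  exact ⟨c, b, fun x => ⟨fun j => ((hab x).1 j).twist a, fun j => ((hab x).2 j).twist a⟩, e⟩

theorem Dec.dual {I : Type} [Fintype I] {F : I → Bun X} (h : Dec A F) :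
    Dec A.dual fun x => (F x).dual := by
  obtain ⟨a, b, hab, e⟩ := h
  refine ⟨fun x => (b x)ᵀ, fun x => (a x)ᵀ,
    fun x => ⟨fun j => ((hab x).2 j).transp, fun j => ((hab x).1 j).transp⟩, ?_⟩
  have : ∑ x, (b x * a x)ᵀ = 1 := by
    rw [← Matrix.transpose_sum, e, Matrix.transpose_one]
  rw [← this]
  exact Finset.sum_congr rfl fun x _ => (Matrix.transpose_mul _ _).symm

theorem Dec.of_retr {I : Type} [Fintype I] {F : I → Bun X} (h : Retr A B) (h' : Dec B F) :
    Dec A F := by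
  obtain ⟨c, d, hc, hd, e⟩ := h
  obtain ⟨a, b, hab, e'⟩ := h'
  refine ⟨fun x => a x * c, fun x => d * b x,
    fun x => ⟨fun j => (hc j).comp ((hab x).1 j), fun j => ((hab x).2 j).comp (hd j)⟩, ?_⟩
  have : ∑ x, d * b x * (a x * c) = d * (∑ x, b x * a x) * c := by
    rw [Matrix.mul_sum, Matrix.sum_mul]
    exact Finset.sum_congr rfl fun x _ => by simp only [Matrix.mul_assoc]
  rw [this, e', Matrix.mul_one, e]

theorem Dec.to_retr {I : Type} [Fintype I] {F F' : I → Bun X} (h : Dec A F)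
    (h' : ∀ x, Retr (F x) (F' x)) : Dec A F' := by
  obtain ⟨a, b, hab, e⟩ := h
  choose c d hc hd e' using h'
  refine ⟨fun x => c x * a x, fun x => b x * d x,
    fun x => ⟨fun j => ((hab x).1 j).comp (hc x j), fun j => (hd x j).comp ((hab x).2 j)⟩, ?_⟩
  rw [← e]
  refine Finset.sum_congr rfl fun x _ => ?_
  rw [Matrix.mul_assoc, ← Matrix.mul_assoc (d x), e', Matrix.one_mul]

theorem Ex3.tens (h : Ex3 A B C) (F : Bun X) : Ex3 (A.tens F) (B.tens F) (C.tens F) := by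
  obtain ⟨m₁, m₂, h1, h2, e, hs⟩ := h
  refine ⟨_, _, fun j => (h1 j).tensR F, fun j => (h2 j).tensR F, ?_, fun j => ?_⟩
  · rw [kron_one_mul, e, Matrix.zero_kronecker]
  · obtain ⟨r, s, hr, hs, e1, e2, e3⟩ := hs j
    refine ⟨_, _, hr.tensR F, hs.tensR F, ?_, ?_, ?_⟩
    · rw [kron_one_mul, e1, Matrix.one_kronecker_one]
    · rw [kron_one_mul, kron_one_mul, ← Matrix.add_kronecker, e2, Matrix.one_kronecker_one]
    · rw [kron_one_mul, e3, Matrix.one_kronecker_one]

theorem Ex3.t (h : Ex3 A B C) (a : ℤ) : Ex3 (A.t a) (B.t a) (C.t a) := by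
  obtain ⟨m₁, m₂, h1, h2, e, hs⟩ := h
  refine ⟨m₁, m₂, fun j => (h1 j).twist a, fun j => (h2 j).twist a, e, fun j => ?_⟩
  obtain ⟨r, s, hr, hs, e1⟩ := hs j
  exact ⟨r, s, hr.twist a, hs.twist a, e1⟩

theorem Ex3.dual (h : Ex3 A B C) : Ex3 C.dual B.dual A.dual := by
  obtain ⟨m₁, m₂, h1, h2, e, hs⟩ := h
  refine ⟨m₂ᵀ, m₁ᵀ, fun j => (h2 j).transp, fun j => (h1 j).transp, ?_, fun j => ?_⟩
  · rw [← Matrix.transpose_mul, e, Matrix.transpose_zero]
  · obtain ⟨r, s, hr, hs, e1, e2, e3⟩ := hs j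
    refine ⟨sᵀ, rᵀ, hs.transp, hr.transp, ?_, ?_, ?_⟩
    · rw [← Matrix.transpose_mul, e3, Matrix.transpose_one]
    · rw [← Matrix.transpose_mul, ← Matrix.transpose_mul, ← Matrix.transpose_add, add_comm, e2,
        Matrix.transpose_one]
    · rw [← Matrix.transpose_mul, e1, Matrix.transpose_one]

theorem Ex4.tens (h : Ex4 A B C D) (F : Bun X) :
    Ex4 (A.tens F) (B.tens F) (C.tens F) (D.tens F) := by
  obtain ⟨m₁, m₂, m₃, h1, h2, h3, e, e', hs⟩ := h
  refine ⟨_, _, _, fun j => (h1 j).tensR F, fun j => (h2 j).tensR F, fun j => (h3 j).tensR F,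
    ?_, ?_, fun j => ?_⟩
  · rw [kron_one_mul, e, Matrix.zero_kronecker]
  · rw [kron_one_mul, e', Matrix.zero_kronecker]
  · obtain ⟨r, u, s, hr, hu, hs, e1, e2, e3, e4⟩ := hs j
    refine ⟨_, _, _, hr.tensR F, hu.tensR F, hs.tensR F, ?_, ?_, ?_, ?_⟩
    · rw [kron_one_mul, e1, Matrix.one_kronecker_one]
    · rw [kron_one_mul, kron_one_mul, ← Matrix.add_kronecker, e2, Matrix.one_kronecker_one]
    · rw [kron_one_mul, kron_one_mul, ← Matrix.add_kronecker, e3, Matrix.one_kronecker_one]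
    · rw [kron_one_mul, e4, Matrix.one_kronecker_one]

theorem Ex4.t (h : Ex4 A B C D) (a : ℤ) : Ex4 (A.t a) (B.t a) (C.t a) (D.t a) := by
  obtain ⟨m₁, m₂, m₃, h1, h2, h3, e, e', hs⟩ := h
  refine ⟨m₁, m₂, m₃, fun j => (h1 j).twist a, fun j => (h2 j).twist a,
    fun j => (h3 j).twist a, e, e', fun j => ?_⟩
  obtain ⟨r, u, s, hr, hu, hs, e1⟩ := hs j
  exact ⟨r, u, s, hr.twist a, hu.twist a, hs.twist a, e1⟩

theorem retr_of_equiv_aux (e : A.ι ≃ B.ι) (h : ∀ j, A.G j = (B.G j).submatrix e e) :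
    Reg A B ((1 : Matrix B.ι B.ι K).submatrix (Equiv.refl _) e) := fun j => by
  unfold RegOn
  rw [Matrix.mul_submatrix_one, h]
  have : ((B.H j).submatrix id (⇑(Equiv.refl B.ι).symm ∘ ⇑e)) = (B.H j).submatrix id e := rfl
  rw [this, Matrix.submatrix_mul_equiv, B.HG]
  exact ProjVar.InA.one.submatrix _ _

theorem retr_of_equiv_one (e : A.ι ≃ B.ι) (h : ∀ j, A.G j = (B.G j).submatrix e e) :
    Retr A B := by
  have h' : ∀ j, B.G j = (A.G j).submatrix e.symm e.symm := fun j => by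
    rw [h]; simp
  refine ⟨_, _, retr_of_equiv_aux e h, retr_of_equiv_aux e.symm h', ?_⟩
  rw [Matrix.mul_submatrix_one]
  ext a b
  simp [Matrix.one_apply]

theorem retr_of_equiv (e : A.ι ≃ B.ι) (h : ∀ j, A.G j = (B.G j).submatrix e e) :
    Retr A B ∧ Retr B A :=
  ⟨retr_of_equiv_one e h, retr_of_equiv_one e.symm fun j => by rw [h]; simp⟩

theorem retr_swap (A B : Bun X) : Retr (A.tens B) (B.tens A) :=
  (retr_of_equiv (A := A.tens B) (B := B.tens A) (Equiv.prodComm _ _) fun j => by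
    ext a b
    simp [Matrix.kroneckerMap_apply, mul_comm]).1

theorem retr_t_t (A : Bun X) (a b c : ℤ) (h : a + b = c) :
    Retr ((A.t a).t b) (A.t c) ∧ Retr (A.t c) ((A.t a).t b) :=
  retr_of_equiv (A := (A.t a).t b) (B := A.t c) (Equiv.refl _) fun j => by
    show X.f j.1 ^ b • X.f j.1 ^ a • A.G j = X.f j.1 ^ c • A.G j
    rw [smul_smul, ← zpow_add₀ (X.ne _ j.2), add_comm, h]

theorem retr_t_zero (A : Bun X) : Retr (A.t 0) A ∧ Retr A (A.t 0) :=
  retr_of_equiv (A := A.t 0) (B := A) (Equiv.refl _) fun j => by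
    show X.f j.1 ^ (0 : ℤ) • A.G j = A.G j
    rw [zpow_zero, one_smul]

theorem retr_t_tens (A B : Bun X) (a : ℤ) :
    Retr ((A.t a).tens B) ((A.tens B).t a) ∧ Retr ((A.tens B).t a) ((A.t a).tens B) :=
  retr_of_equiv (A := (A.t a).tens B) (B := (A.tens B).t a) (Equiv.refl _) fun j => by
    show (X.f j.1 ^ a • A.G j) ⊗ₖ B.G j = X.f j.1 ^ a • (A.G j ⊗ₖ B.G j)
    rw [Matrix.smul_kronecker]

theorem retr_t_dual (A : Bun X) (a : ℤ) :
    Retr (A.t a).dual (A.dual.t (-a)) ∧ Retr (A.dual.t (-a)) (A.t a).dual :=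
  retr_of_equiv (A := (A.t a).dual) (B := A.dual.t (-a)) (Equiv.refl _) fun j => by
    show (X.f j.1 ^ (-a) • A.H j)ᵀ = X.f j.1 ^ (-a) • (A.H j)ᵀ
    rw [Matrix.transpose_smul]

theorem retr_dual_dual (A : Bun X) : Retr A.dual.dual A ∧ Retr A A.dual.dual :=
  retr_of_equiv (A := A.dual.dual) (B := A) (Equiv.refl _) fun _ => rfl

theorem retr_tens_dual (A B : Bun X) :
    Retr (A.tens B).dual (A.dual.tens B.dual) ∧ Retr (A.dual.tens B.dual) (A.tens B).dual :=
  retr_of_equiv (A := (A.tens B).dual) (B := A.dual.tens B.dual) (Equiv.refl _) fun _ => rfl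

theorem retr_one_tens (A : Bun X) :
    Retr ((triv X 1).tens A) A ∧ Retr A ((triv X 1).tens A) :=
  retr_of_equiv (A := (triv X 1).tens A) (B := A) (Equiv.uniqueProd A.ι (Fin 1)) fun j => by
    ext a b
    simp [Matrix.kroneckerMap_apply, Matrix.one_apply, Subsingleton.elim a.1 b.1]

theorem retr_triv_dual (n : ℕ) :
    Retr (triv X n).dual (triv X n) ∧ Retr (triv X n) (triv X n).dual :=
  retr_of_equiv (A := (triv X n).dual) (B := triv X n) (Equiv.refl _) fun _ => by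
    show (1 : Matrix (Fin n) (Fin n) K)ᵀ = 1
    exact Matrix.transpose_one

section Sigma

variable {I : Type} [Fintype I] [DecidableEq I] (F : I → Bun X)

/-- Projection to a summand. -/
def prj (x : I) : Matrix (F x).ι (Σ y, (F y).ι) K :=
  (1 : Matrix (Σ y, (F y).ι) (Σ y, (F y).ι) K).submatrix (fun a => ⟨x, a⟩) (Equiv.refl _)

/-- Inclusion of a summand. -/
def inc (x : I) : Matrix (Σ y, (F y).ι) (F x).ι K :=
  (1 : Matrix (Σ y, (F y).ι) (Σ y, (F y).ι) K).submatrix (Equiv.refl _) (fun a => ⟨x, a⟩)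

theorem prj_mul (x : I) (M : ∀ y, Matrix (F y).ι (F y).ι K) :
    prj F x * blockDiagonal' M = M x * prj F x := by
  unfold prj
  rw [Matrix.one_submatrix_mul]
  ext a ⟨y, b⟩
  by_cases h : x = y
  · subst h
    simp [Matrix.mul_apply, Matrix.one_apply]
  · simp [Matrix.mul_apply, Matrix.blockDiagonal'_apply_ne _ _ _ h, h]

theorem mul_inc (x : I) (M : ∀ y, Matrix (F y).ι (F y).ι K) :
    blockDiagonal' M * inc F x = inc F x * M x := by
  unfold inc
  rw [Matrix.mul_submatrix_one]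
  ext ⟨y, b⟩ a
  by_cases h : y = x
  · subst h
    simp [Matrix.mul_apply, Matrix.one_apply]
  · simp [Matrix.mul_apply, Matrix.blockDiagonal'_apply_ne _ _ _ h, h]

theorem reg_prj (x : I) : Reg (sigma F) (F x) (prj F x) := fun j => by
  show X.InA _ ((F x).H j * prj F x * blockDiagonal' fun y => (F y).G j)
  rw [Matrix.mul_assoc, prj_mul, ← Matrix.mul_assoc, (F x).HG, Matrix.one_mul]
  exact ProjVar.InA.one.submatrix _ _

theorem reg_inc (x : I) : Reg (F x) (sigma F) (inc F x) := fun j => by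
  show X.InA _ ((blockDiagonal' fun y => (F y).H j) * inc F x * (F x).G j)
  rw [mul_inc, Matrix.mul_assoc, (F x).HG, Matrix.mul_one]
  exact ProjVar.InA.one.submatrix _ _

end Sigma

theorem dec_sigma {I : Type} [Fintype I] [DecidableEq I] (F : I → Bun X) : Dec (sigma F) F := by
  refine ⟨prj F, inc F, fun x => ⟨reg_prj F x, reg_inc F x⟩, ?_⟩
  ext p q
  rw [Matrix.sum_apply]
  simp only [Matrix.mul_apply]
  rw [Finset.sum_sigma', Finset.univ_sigma_univ]
  simp [prj, inc, Matrix.one_apply]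

theorem retr_sigma {I : Type} [Fintype I] [DecidableEq I] (F : I → Bun X) (x : I) :
    Retr (F x) (sigma F) := by
  refine ⟨inc F x, prj F x, reg_inc F x, reg_prj F x, ?_⟩
  unfold prj inc
  rw [Matrix.submatrix_mul_equiv, Matrix.mul_one]
  ext a b
  simp [Matrix.one_apply]

theorem dec_triv (n : ℕ) : Dec (triv X n) fun _ : Fin n => triv X 1 := by
  refine ⟨fun x => (1 : Matrix (Fin n) (Fin n) K).submatrix (fun _ : Fin 1 => x) id,
    fun x => (1 : Matrix (Fin n) (Fin n) K).submatrix id (fun _ : Fin 1 => x),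
    fun x => ⟨fun j => ?_, fun j => ?_⟩, ?_⟩
  · unfold RegOn
    rw [Matrix.one_mul, Matrix.mul_one]
    exact ProjVar.InA.one.submatrix _ _
  · unfold RegOn
    rw [Matrix.one_mul, Matrix.mul_one]
    exact ProjVar.InA.one.submatrix _ _
  · ext p q
    rw [Matrix.sum_apply]
    simp [Matrix.mul_apply, Matrix.one_apply]

theorem dec_pow (n : ℕ) (A : Bun X) : Dec (pow n A) fun _ : Fin n => A :=
  ((dec_triv n).tens A).to_retr fun _ => (retr_one_tens A).1

theorem dec_sum (A B : Bun X) : Dec (A.sum B) fun e : Bool => cond e A B := by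
  have i1 : ∀ {α β : Type} [DecidableEq α] {s : Finset (Fin X.n)},
      X.InA s (fromCols (1 : Matrix α α K) (0 : Matrix α β K)) := by
    rintro α β _ s a (b | b)
    · exact ProjVar.InA.one a b
    · exact zero_mem _
  have i2 : ∀ {α β : Type} [DecidableEq α] {s : Finset (Fin X.n)},
      X.InA s (fromCols (0 : Matrix α β K) (1 : Matrix α α K)) := by
    rintro α β _ s a (b | b)
    · exact zero_mem _
    · exact ProjVar.InA.one a b
  have i3 : ∀ {α β : Type} [DecidableEq α] {s : Finset (Fin X.n)},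
      X.InA s (fromRows (1 : Matrix α α K) (0 : Matrix β α K)) := by
    rintro α β _ s (b | b) a
    · exact ProjVar.InA.one b a
    · exact zero_mem _
  have i4 : ∀ {α β : Type} [DecidableEq α] {s : Finset (Fin X.n)},
      X.InA s (fromRows (0 : Matrix β α K) (1 : Matrix α α K)) := by
    rintro α β _ s (b | b) a
    · exact zero_mem _
    · exact ProjVar.InA.one b a
  have r1 : Reg (A.sum B) A (fromCols 1 0) := fun j => by
    show X.InA _ (A.H j * fromCols 1 0 * fromBlocks (A.G j) 0 0 (B.G j))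
    rw [Matrix.mul_fromCols, Matrix.fromCols_mul_fromBlocks]
    simpa [A.HG] using i1
  have r2 : Reg (A.sum B) B (fromCols 0 1) := fun j => by
    show X.InA _ (B.H j * fromCols 0 1 * fromBlocks (A.G j) 0 0 (B.G j))
    rw [Matrix.mul_fromCols, Matrix.fromCols_mul_fromBlocks]
    simpa [B.HG] using i2
  have r3 : Reg A (A.sum B) (fromRows 1 0) := fun j => by
    show X.InA _ (fromBlocks (A.H j) 0 0 (B.H j) * fromRows 1 0 * A.G j)
    rw [Matrix.fromBlocks_mul_fromRows, Matrix.fromRows_mul]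
    simpa [A.HG] using i3
  have r4 : Reg B (A.sum B) (fromRows 0 1) := fun j => by
    show X.InA _ (fromBlocks (A.H j) 0 0 (B.H j) * fromRows 0 1 * B.G j)
    rw [Matrix.fromBlocks_mul_fromRows, Matrix.fromRows_mul]
    simpa [B.HG] using i4
  refine ⟨fun e => match e with
      | true => fromCols (1 : Matrix A.ι A.ι K) (0 : Matrix A.ι B.ι K)
      | false => fromCols (0 : Matrix B.ι A.ι K) (1 : Matrix B.ι B.ι K),
    fun e => match e with
      | true => fromRows (1 : Matrix A.ι A.ι K) (0 : Matrix B.ι A.ι K)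
      | false => fromRows (0 : Matrix A.ι B.ι K) (1 : Matrix B.ι B.ι K), ?_, ?_⟩
  · rintro (_ | _)
    · exact ⟨r2, r4⟩
    · exact ⟨r1, r3⟩
  · rw [Fintype.sum_bool]
    show fromRows (1 : Matrix A.ι A.ι K) (0 : Matrix B.ι A.ι K) *
        fromCols (1 : Matrix A.ι A.ι K) (0 : Matrix A.ι B.ι K) +
      fromRows (0 : Matrix A.ι B.ι K) (1 : Matrix B.ι B.ι K) *
        fromCols (0 : Matrix B.ι A.ι K) (1 : Matrix B.ι B.ι K) = 1
    rw [Matrix.fromRows_mul_fromCols, Matrix.fromRows_mul_fromCols, Matrix.fromBlocks_add]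
    simp

end Bun

end Pool.Agent.Lib.MP_cd184e_ag.T
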