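import Pool.Agent.Lib.MP_cd184e_ag.T.Bun

set_option autoImplicit false

open CategoryTheory Limits Matrix

namespace Pool.Agent.Lib.MP_cd184e_ag.T

variable {k K : Type} [Field k] [Field K] [Algebra k K] {X : ProjVar k K}

namespace Coh

variable {α β γ : Type} {s t : X.Idx} (N : Coh X)

/-- A matrix of regular functions acting on vectors of sections. -/
def act [Fintype β] (m : Matrix α β K) (hm : X.InA s.1 m) :
    (β → N.obj s) →ₗ[X.A s.1] (α → N.obj s) where
  toFun v a := ∑ b, (⟨m a b, hm a b⟩ : X.A s.1) • v b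
  map_add' v w := funext fun a => by simp [Finset.sum_add_distrib]
  map_smul' c v := funext fun a => by simp [Finset.smul_sum, smul_comm c]

theorem act_apply [Fintype β] (m : Matrix α β K) (hm : X.InA s.1 m) (v : β → N.obj s) (a : α) :
    N.act m hm v a = ∑ b, (⟨m a b, hm a b⟩ : X.A s.1) • v b := rfl

theorem act_congr [Fintype β] {m m' : Matrix α β K} (h : m = m') (hm : X.InA s.1 m)
    (hm' : X.InA s.1 m') (v : β → N.obj s) : N.act m hm v = N.act m' hm' v := by
  subst h; rfl

theorem act_act [Fintype β] [Fintype γ] (m : Matrix α β K) (hm : X.InA s.1 m) (m' : Matrix β γ K)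
    (hm' : X.InA s.1 m') (v : γ → N.obj s) :
    N.act m hm (N.act m' hm' v) = N.act (m * m') (hm.mul hm') v := by
  funext a
  simp only [act_apply, Finset.smul_sum, ← mul_smul]
  rw [Finset.sum_comm]
  refine Finset.sum_congr rfl fun c _ => ?_
  rw [← Finset.sum_smul]
  exact congrArg (· • v c) (Subtype.ext (by simp [Matrix.mul_apply]))

theorem act_one [Fintype α] [DecidableEq α] {m : Matrix α α K} (h : m = 1) (hm : X.InA s.1 m)
    (v : α → N.obj s) : N.act m hm v = v := by
  subst h
  funext a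
  rw [act_apply, Finset.sum_eq_single a]
  · exact (congrArg (· • v a) (Subtype.ext (by simp))).trans (one_smul _ _)
  · exact fun b _ hb => (congrArg (· • v b) (Subtype.ext (by simp [hb.symm]))).trans
      (zero_smul _ _)
  · simp

theorem act_zero [Fintype β] {m : Matrix α β K} (h : m = 0) (hm : X.InA s.1 m)
    (v : β → N.obj s) : N.act m hm v = 0 := by
  subst h
  funext a
  exact Finset.sum_eq_zero fun b _ => zero_smul (X.A s.1) (v b)

theorem act_add [Fintype β] (m m' : Matrix α β K) (hm : X.InA s.1 m) (hm' : X.InA s.1 m')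
    (v : β → N.obj s) : N.act (m + m') (hm.add hm') v = N.act m hm v + N.act m' hm' v := by
  funext a
  simp only [act_apply, Pi.add_apply, ← Finset.sum_add_distrib, ← add_smul]
  rfl

theorem res_act [Fintype β] (h : s ≤ t) (m : Matrix α β K) (hm : X.InA s.1 m) (v : β → N.obj s) :
    (fun a => N.res h (N.act m hm v a)) = N.act m (hm.mono h) fun b => N.res h (v b) := by
  funext a
  simp only [act_apply, map_sum, N.res_smul]
  rfl

theorem app_act [Fintype β] {M : Coh X} (φ : N ⟶ M) (m : Matrix α β K) (hm : X.InA s.1 m)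
    (v : β → N.obj s) :
    (fun a => φ.app s (N.act m hm v a)) = M.act m hm fun b => φ.app s (v b) := by
  funext a
  simp only [act_apply, map_sum, map_smul]

end Coh

namespace Bun

open Coh

theorem reg_le (E : Bun X) {s t : X.Idx} (h : s ≤ t) :
    X.InA t.1 (E.H (X.pt t) * E.G (X.pt s)) := E.reg' (h (X.pt_mem s)) (X.pt_mem t)

theorem reg_ge (E : Bun X) {s t : X.Idx} (h : s ≤ t) :
    X.InA t.1 (E.H (X.pt s) * E.G (X.pt t)) := E.reg' (X.pt_mem t) (h (X.pt_mem s))

theorem HG_HG (E : Bun X) (i j l : X.J) : E.H i * E.G j * (E.H j * E.G l) = E.H i * E.G l := by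
  rw [Matrix.mul_assoc, ← Matrix.mul_assoc (E.G j), E.GH, Matrix.one_mul]

/-- The tensor product of the bundle `E` with a coherent sheaf. -/
@[reducible] noncomputable def twObj (E : Bun X) (N : Coh X) : Coh X where
  obj s := E.ι → N.obj s
  res h := (N.act _ (E.reg_le h)).toAddMonoidHom.comp ((pi fun _ : E.ι => N).res h)
  res_smul h a x := by
    exact (congrArg (N.act _ (E.reg_le h)) ((pi fun _ : E.ι => N).res_smul h a x)).trans
      (map_smul _ _ _)
  res_refl x := (N.act_one (E.HG _) _ _).trans ((pi fun _ : E.ι => N).res_refl x)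
  res_res h h' x := by
    change N.act _ (E.reg_le h') (fun a => N.res h' (N.act _ (E.reg_le h)
      (fun b => N.res h (x b)) a)) = N.act _ (E.reg_le (h.trans h')) fun b => N.res _ (x b)
    rw [res_act, act_act]
    simp only [N.res_res]
    exact N.act_congr (E.HG_HG _ _ _) _ _ _
  fg _ := inferInstance
  surj h y := by
    obtain ⟨a, x, ha, e⟩ := (pi fun _ : E.ι => N).surj h (N.act _ (E.reg_ge h) y)
    refine ⟨a, x, ha, ?_⟩
    change _ = N.act _ (E.reg_le h) ((pi fun _ : E.ι => N).res h x)
    rw [← e]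
    refine Eq.trans ?_ (map_smul _ _ _).symm
    exact congrArg (X.inc h a • ·) ((N.act_act _ _ _ _ _).trans
      (N.act_one ((E.HG_HG _ _ _).trans (E.HG _)) _ _)).symm
  inj h x hx := (pi fun _ : E.ι => N).inj h x (by
    have h1 := congrArg (N.act _ (E.reg_ge h)) hx
    rw [map_zero] at h1
    exact ((N.act_act _ _ _ _ _).trans
      (N.act_one ((E.HG_HG _ _ _).trans (E.HG _)) _ _)).symm.trans h1)

theorem twObj_res (E : Bun X) (N : Coh X) {s t : X.Idx} (h : s ≤ t) (x : E.ι → N.obj s) :
    (E.twObj N).res h x = N.act _ (E.reg_le h) fun b => N.res h (x b) := rfl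

/-- The functor `E ⊗ -`. -/
@[reducible] noncomputable def tw (E : Bun X) : Coh X ⥤ Coh X where
  obj := E.twObj
  map φ := ⟨fun s => (φ.app s).compLeft E.ι, fun h x => by
    exact (app_act _ φ _ _ _).trans (congrArg _ (funext fun b => φ.nat h (x b)))⟩

instance (E : Bun X) : E.tw.Additive where

theorem tw_exact (E : Bun X) : PreservesFiniteLimits E.tw ∧ PreservesFiniteColimits E.tw :=
  exact_functor _ fun _ _ h1 h2 h3 => ⟨fun s _ _ h => funext fun a => h1 s (congrFun h a),
    fun s x hx => ⟨fun a => (h2 s (x a) (congrFun hx a)).choose,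
      funext fun a => (h2 s (x a) (congrFun hx a)).choose_spec⟩,
    fun s y => ⟨fun a => (h3 s (y a)).choose, funext fun a => (h3 s (y a)).choose_spec⟩⟩

instance (E : Bun X) : PreservesFiniteLimits E.tw := E.tw_exact.1

instance (E : Bun X) : PreservesFiniteColimits E.tw := E.tw_exact.2

theorem RegOn.inA {E F : Bun X} {j : X.J} {m : Matrix F.ι E.ι K} (hm : RegOn E F j m)
    {s : X.Idx} (hj : j.1 ∈ s.1) : X.InA s.1 (F.H (X.pt s) * m * E.G (X.pt s)) := by
  have : F.H (X.pt s) * m * E.G (X.pt s) =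
      F.H (X.pt s) * F.G j * (F.H j * m * E.G j) * (E.H j * E.G (X.pt s)) := by
    simp only [Matrix.mul_assoc]
    rw [← Matrix.mul_assoc (E.G j), E.GH, Matrix.one_mul, ← Matrix.mul_assoc (F.G j), F.GH,
      Matrix.one_mul]
  rw [this]
  exact ((F.reg' hj (X.pt_mem s)).mul
    (ProjVar.InA.mono hm (Finset.singleton_subset_iff.2 hj))).mul (E.reg' (X.pt_mem s) hj)

/-- The morphism `E ⊗ N ⟶ F ⊗ N` given by a morphism of bundles. -/
noncomputable def hom {E F : Bun X} (m : Matrix F.ι E.ι K) (hm : Reg E F m) (N : Coh X) :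
    E.tw.obj N ⟶ F.tw.obj N where
  app s := N.act _ ((hm (X.pt s)).inA (X.pt_mem s))
  nat {s t} h x := by
    change N.act _ _ (N.act _ (E.reg_le h) fun b => N.res h (x b)) =
      N.act _ (F.reg_le h) fun a => N.res h (N.act _ _ x a)
    rw [res_act, act_act, act_act]
    refine N.act_congr ?_ _ _ _
    simp only [Matrix.mul_assoc]
    rw [← Matrix.mul_assoc (E.G _), E.GH, Matrix.one_mul, ← Matrix.mul_assoc (F.G _), F.GH,
      Matrix.one_mul]

theorem hom_app {E F : Bun X} (m : Matrix F.ι E.ι K) (hm : Reg E F m) (N : Coh X) (s : X.Idx)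
    (x : E.ι → N.obj s) :
    (hom m hm N).app s x = N.act _ ((hm (X.pt s)).inA (X.pt_mem s)) x := rfl

/-- The sheaf of sections of the bundle. -/
noncomputable abbrev sheaf (E : Bun X) : Coh X := E.tw.obj (unit X)

end Bun

end Pool.Agent.Lib.MP_cd184e_ag.T
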