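import Pool.Agent.Lib.MP_cd184e_ag.T.Kill

set_option autoImplicit false

open CategoryTheory Limits Abelian

namespace Pool.Agent.Lib.MP_cd184e_ag.T

section Abs

variable {C : Type 1} [Category.{0} C] [Abelian C] [HasExt.{1} C]

theorem ext_isZero {G N : C} (h : IsZero N) (n : ℕ) : Subsingleton (Ext G N n) := by
  refine subsingleton_of_forall_eq 0 fun x => ?_
  rw [← Ext.comp_mk₀_id x, (IsZero.iff_id_eq_zero N).1 h, Ext.mk₀_zero, Ext.comp_zero]

theorem ext_comp_comp {G L M N : C} {n : ℕ} (x : Ext G L n) (a : L ⟶ M) (b : M ⟶ N) :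
    (x.comp (Ext.mk₀ a) (add_zero _)).comp (Ext.mk₀ b) (add_zero _) =
      x.comp (Ext.mk₀ (a ≫ b)) (add_zero _) := by
  rw [Ext.comp_assoc_of_second_deg_zero, Ext.mk₀_comp_mk₀]

/-- Injectivity on extension groups through the image of a morphism. -/
theorem ext_inj_of {G A M I N Q : C} {i : A ⟶ M} {p : M ⟶ I} {e : I ⟶ N} {q : N ⟶ Q}
    {w1 : i ≫ p = 0} {w2 : e ≫ q = 0} (h1 : (ShortComplex.mk i p w1).ShortExact)
    (h2 : (ShortComplex.mk e q w2).ShortExact) {n : ℕ} (hA : Subsingleton (Ext G A (n + 1)))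
    (hQ : ∀ c : Ext G Q n, ∃ c' : Ext G N n, c'.comp (Ext.mk₀ q) (add_zero _) = c)
    (x : Ext G M (n + 1)) (hx : x.comp (Ext.mk₀ (p ≫ e)) (add_zero _) = 0) : x = 0 := by
  rw [← ext_comp_comp] at hx
  obtain ⟨c, hc⟩ := Ext.covariant_sequence_exact₁ G h2 _ hx (n₀ := n) rfl
  obtain ⟨c', rfl⟩ := hQ c
  have h0 : x.comp (Ext.mk₀ p) (add_zero _) = 0 := by
    rw [← hc, Ext.comp_assoc_of_second_deg_zero]
    have := h2.comp_extClass
    dsimp only at this
    rw [this, Ext.comp_zero]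
  obtain ⟨z, hz⟩ := Ext.covariant_sequence_exact₂ G h1 x h0
  rw [← hz, Subsingleton.elim z 0, Ext.zero_comp]

end Abs

variable {k K : Type} [Field k] [Field K] [Algebra k K] {X : ProjVar k K}

/-- The linear forms `ys` have no common zero on `X`. -/
def ProjVar.NoZero (X : ProjVar k K) (ys : List K) : Prop :=
  (∀ y ∈ ys, y ∈ X.Rd 1) ∧
    ∀ j : X.J, ∃ m : ℕ, X.f j.1 ^ (m + 1) ∈ Submodule.span k {y | y ∈ ys} * X.Rd m

namespace Coh

/-- The support of `N` is covered by the open sets `y ≠ 0`, `y ∈ ys`. -/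
def Supp (N : Coh X) (ys : List K) : Prop :=
  ∀ (s : X.Idx) (I : Ideal (X.A s.1)), Module.annihilator (X.A s.1) (N.obj s) ≤ I →
    (∀ a : X.A s.1, (a : K) * X.fp s ∈ ys → a ∈ I) → I = ⊤

theorem supp_of_noZero {ys : List K} (h : X.NoZero ys) (N : Coh X) : N.Supp ys := by
  intro s I _ hI
  obtain ⟨m, hm⟩ := h.2 (X.pt s)
  have hs := X.fp_ne s
  have h1 : ∀ u ∈ Submodule.span k {y | y ∈ ys}, ∃ b ∈ I, ((b : X.A s.1) : K) = u / X.fp s := by
    intro u hu
    induction hu using Submodule.span_induction with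
    | mem y hy =>
      have hy' := X.Rd_le_Deg 1 (h.1 y hy) s
      rw [Nat.cast_one, zpow_one] at hy'
      refine ⟨⟨_, hy'⟩, hI _ ?_, rfl⟩
      change y / X.fp s * X.fp s ∈ ys
      rw [div_mul_cancel₀ _ hs]; exact hy
    | zero => exact ⟨0, zero_mem _, by simp⟩
    | add u v _ _ ihu ihv =>
      obtain ⟨a, ha, e⟩ := ihu
      obtain ⟨b, hb, e'⟩ := ihv
      exact ⟨a + b, add_mem ha hb, by rw [AddMemClass.coe_add, e, e', add_div]⟩
    | smul c u _ ih =>
      obtain ⟨a, ha, e⟩ := ih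
      refine ⟨algebraMap k _ c * a, I.mul_mem_left _ ha, ?_⟩
      rw [MulMemClass.coe_mul, e, Algebra.smul_def, mul_div_assoc]; rfl
  have h2 : ∀ z ∈ Submodule.span k {y | y ∈ ys} * X.Rd m,
      ∃ b ∈ I, ((b : X.A s.1) : K) = z / X.fp s ^ (m + 1) := by
    intro z hz
    refine Submodule.mul_induction_on hz (fun u hu v hv => ?_) ?_
    · obtain ⟨b, hb, e⟩ := h1 u hu
      refine ⟨b * X.sec v (X.Rd_le_Deg m hv) s, I.mul_mem_right _ hb, ?_⟩
      rw [MulMemClass.coe_mul, e, ProjVar.coe_sec, zpow_natCast, div_mul_div_comm, pow_succ']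
    · rintro u v ⟨a, ha, e⟩ ⟨b, hb, e'⟩
      exact ⟨a + b, add_mem ha hb, by rw [AddMemClass.coe_add, e, e', add_div]⟩
  obtain ⟨b, hb, e⟩ := h2 _ hm
  have hb1 : b = 1 := Subtype.ext (e.trans (div_self (pow_ne_zero _ hs)))
  exact (Ideal.eq_top_iff_one _).2 (hb1 ▸ hb)

theorem Supp.isZero {N : Coh X} (h : N.Supp []) : IsZero N := by
  refine isZero_of fun s x => ?_
  have h1 := h s _ le_rfl (fun a ha => absurd ha List.not_mem_nil)
  have h2 := Module.mem_annihilator.1 ((Ideal.eq_top_iff_one _).1 h1) x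
  rwa [one_smul] at h2

theorem Supp.step {N M : Coh X} {y : K} {ys : List K} (hN : N.Supp (y :: ys))
    (h1 : ∀ s (a : X.A s.1), (∀ x : N.obj s, a • x = 0) → ∀ x : M.obj s, a • x = 0)
    (h2 : ∀ s (a : X.A s.1), (a : K) * X.fp s = y → ∃ t : ℕ, ∀ x : M.obj s, a ^ t • x = 0) :
    M.Supp ys := by
  intro s I hI hy
  rw [← Ideal.radical_eq_top]
  refine hN s _ (fun a ha => Ideal.le_radical (hI (Module.mem_annihilator.2
    (h1 s a (Module.mem_annihilator.1 ha))))) fun a ha => ?_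
  rcases List.mem_cons.1 ha with ha | ha
  · obtain ⟨t, ht⟩ := h2 s a ha
    exact ⟨t, hI (Module.mem_annihilator.2 ht)⟩
  · exact Ideal.le_radical (hy a ha)

theorem sec_pow_eq {y : K} {t : ℕ} (hy : y ^ t ∈ X.Deg t) (s : X.Idx) (a : X.A s.1)
    (ha : (a : K) * X.fp s = y) : X.sec (y ^ t) hy s = a ^ t := by
  refine Subtype.ext ?_
  rw [ProjVar.coe_sec, SubmonoidClass.coe_pow, ← ha, mul_pow, zpow_natCast,
    mul_div_cancel_right₀ _ (pow_ne_zero _ (X.fp_ne s))]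

theorem Supp.ker_mu {N : Coh X} {y : K} {ys : List K} (hN : N.Supp (y :: ys)) (a b : ℤ) (t : ℕ)
    (hy : y ^ t ∈ X.Deg t) (hd : a + t = b) : (ker (mu N a b (y ^ t) hy hd)).sub.Supp ys := by
  refine hN.step (fun s c hc x => Subtype.ext (hc x.1)) fun s c hc => ⟨t, fun x => ?_⟩
  refine Subtype.ext ?_
  have h : X.sec (y ^ t) hy s • (show N.obj s from x.1) = 0 := x.2
  rw [sec_pow_eq hy s c hc] at h
  exact h

theorem Supp.coker_mu {N : Coh X} {y : K} {ys : List K} (hN : N.Supp (y :: ys)) (a b : ℤ) (t : ℕ)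
    (hy : y ^ t ∈ X.Deg t) (hd : a + t = b) : (range (mu N a b (y ^ t) hy hd)).quot.Supp ys := by
  refine hN.step (fun s c hc x => ?_) fun s c hc => ⟨t, fun x => ?_⟩
  · obtain ⟨x, rfl⟩ := Submodule.Quotient.mk_surjective _ x
    exact (Submodule.Quotient.mk_eq_zero _).2 ⟨0, (map_zero _).trans (hc x).symm⟩
  · obtain ⟨x, rfl⟩ := Submodule.Quotient.mk_surjective _ x
    refine (Submodule.Quotient.mk_eq_zero _).2 ⟨x, ?_⟩
    rw [mu_app, sec_pow_eq hy s c hc]

/-- The morphism onto the image. -/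
def toRange {M N : Coh X} (φ : M ⟶ N) : M ⟶ (range φ).sub := (range φ).lift φ fun _ x => ⟨x, rfl⟩

theorem toRange_ι {M N : Coh X} (φ : M ⟶ N) : toRange φ ≫ (range φ).ι = φ := rfl

theorem ι_toRange {M N : Coh X} (φ : M ⟶ N) : (ker φ).ι ≫ toRange φ = 0 :=
  hom_ext fun _ x => Subtype.ext x.2

theorem shortExact_toRange {M N : Coh X} (φ : M ⟶ N) :
    (ShortComplex.mk (ker φ).ι (toRange φ) (ι_toRange φ)).ShortExact :=
  shortExact_of _ _ _ (fun _ => Subtype.val_injective)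
    (fun _ x hx => ⟨⟨x, congrArg Subtype.val hx⟩, rfl⟩)
    fun _ ⟨_, x, hx⟩ => ⟨x, Subtype.ext hx⟩

theorem cd_aux {G : Coh X} (hG : LocProj G) (ys : List K) (hy : ∀ y ∈ ys, y ∈ X.Rd 1) :
    ∀ (N : Coh X), N.Supp ys → ∀ m, ys.length ≤ m → Subsingleton (Ext G N m) := by
  induction ys with
  | nil => exact fun N hN m _ => ext_isZero hN.isZero m
  | cons y ys ih =>
    intro N hN m hm
    have ih' := ih fun z hz => hy z (List.mem_cons_of_mem _ hz)
    obtain ⟨n, rfl⟩ : ∃ n, m = n + 1 := ⟨m - 1, by rw [List.length_cons] at hm; omega⟩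
    have hn : ys.length ≤ n := by rw [List.length_cons] at hm; omega
    refine ext_retract (𝟙 G) (𝟙 G) (Category.id_comp _) (tw0 N).inv (tw0 N).hom
      (tw0 N).inv_hom_id (subsingleton_of_forall_eq 0 fun x => ?_)
    obtain ⟨t, ht⟩ := kill hG N 0 x
    have hyt := X.pow_mem_Rd (hy y List.mem_cons_self) t
    have hQ := ih' _ (hN.coker_mu 0 (0 + t) t (X.Rd_le_Deg t hyt) rfl) n hn
    exact ext_inj_of (shortExact_toRange _) (range _).shortExact
      (ih' _ (hN.ker_mu 0 (0 + t) t (X.Rd_le_Deg t hyt) rfl) _ (by omega))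
      (fun c => ⟨0, Subsingleton.elim _ _⟩) x (ht _ hyt)

/-- Cohomological dimension. -/
theorem cd {ys : List K} (h : X.NoZero ys) {G : Coh X} (hG : LocProj G) (N : Coh X) (n : ℕ)
    (hn : ys.length ≤ n + 1) : Subsingleton (Ext G N (n + 1)) :=
  cd_aux hG ys h.1 N (supp_of_noZero h N) _ hn

end Coh

end Pool.Agent.Lib.MP_cd184e_ag.T
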