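import Mathlib

set_option autoImplicit false

namespace Pool.Agent.Lib.MP_cd184e_ag.T

variable {k : Type} [Field k]

variable {K : Type} [Field K] [Algebra k K] (p : ℕ) [Fact p.Prime] [CharP k p] [PerfectField k]

theorem frob_span {n : ℕ} (u : Fin n → K) (A : Subalgebra k K)
    (hA : A = Algebra.adjoin k (Set.range u)) {ι : Type} [Fintype ι] (b : ι → K)
    (hb : ∀ e : Fin n → Fin p, ∃ w : ι → K, (∀ a, w a ∈ A) ∧
      ∏ i, u i ^ (e i : ℕ) = ∑ a, w a ^ p * b a) :
    ∀ z ∈ A, ∃ w : ι → K, (∀ a, w a ∈ A) ∧ z = ∑ a, w a ^ p * b a := by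
  have hp : 0 < p := (Fact.out : p.Prime).pos
  have : CharP K p := charP_of_injective_algebraMap (algebraMap k K).injective p
  have hu : ∀ i, u i ∈ A := fun i => hA ▸ Algebra.subset_adjoin ⟨i, rfl⟩
  intro z hz
  rw [hA, Algebra.adjoin_range_eq_range_aeval] at hz
  obtain ⟨f, rfl⟩ := hz
  change ∃ w : ι → K, (∀ a, w a ∈ A) ∧ MvPolynomial.aeval u f = _
  induction f using MvPolynomial.induction_on' with
  | monomial m c =>
    obtain ⟨w, hw, e⟩ := hb fun i => ⟨m i % p, Nat.mod_lt _ hp⟩
    obtain ⟨c', rfl⟩ := surjective_frobenius k p c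
    refine ⟨fun a => algebraMap k K c' * (∏ i, u i ^ (m i / p)) * w a, fun a => ?_, ?_⟩
    · exact mul_mem (mul_mem (A.algebraMap_mem _) (prod_mem fun i _ => pow_mem (hu i) _)) (hw a)
    · rw [MvPolynomial.aeval_monomial, Finsupp.prod_fintype _ _ (by simp), frobenius_def, map_pow]
      have e2 : ∏ i, u i ^ m i = (∏ i, u i ^ (m i / p)) ^ p * ∏ i, u i ^ (m i % p) := by
        rw [← Finset.prod_pow, ← Finset.prod_mul_distrib]
        refine Finset.prod_congr rfl fun i _ => ?_
        rw [← pow_mul, ← pow_add, Nat.div_add_mod']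
      simp only at e
      rw [e2, e, Finset.mul_sum, Finset.mul_sum]
      refine Finset.sum_congr rfl fun a _ => ?_
      rw [mul_pow, mul_pow]; ring
  | add f g hf hg =>
    obtain ⟨w, hw, e⟩ := hf
    obtain ⟨w', hw', e'⟩ := hg
    refine ⟨fun a => w a + w' a, fun a => add_mem (hw a) (hw' a), ?_⟩
    rw [map_add, e, e', ← Finset.sum_add_distrib]
    refine Finset.sum_congr rfl fun a _ => ?_
    rw [add_pow_char, add_mul]

omit [PerfectField k] in
theorem chartB_poly {n : ℕ} (f : (Fin n → Fin p) → MvPolynomial (Fin n) k)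
    (h : ∑ e, f e ^ p * ∏ i, MvPolynomial.X i ^ (e i : ℕ) = 0) (e : Fin n → Fin p) : f e = 0 := by
  classical
  have hp : 0 < p := (Fact.out : p.Prime).pos
  have hm : ∀ e : Fin n → Fin p, (∏ i, MvPolynomial.X i ^ (e i : ℕ) : MvPolynomial (Fin n) k) =
      MvPolynomial.monomial (Finsupp.equivFunOnFinite.symm fun i => (e i : ℕ)) 1 := by
    intro e
    rw [MvPolynomial.monomial_eq, Finsupp.prod_fintype _ _ (by simp)]
    simp
  ext m
  have h2 := congrArg (MvPolynomial.coeff
    (p • m + Finsupp.equivFunOnFinite.symm fun i => (e i : ℕ))) h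
  rw [MvPolynomial.coeff_sum, Finset.sum_eq_single e] at h2
  · rw [hm, MvPolynomial.coeff_mul_monomial, ← MvPolynomial.map_frobenius_expand,
      MvPolynomial.coeff_map, MvPolynomial.coeff_expand_smul _ hp.ne', mul_one,
      MvPolynomial.coeff_zero, frobenius_def] at h2
    simpa using pow_eq_zero_iff hp.ne' |>.1 h2
  · intro e' _ hne
    rw [hm, MvPolynomial.coeff_mul_monomial']
    split_ifs with hle
    · obtain ⟨i, hi⟩ := Function.ne_iff.1 hne
      rw [← MvPolynomial.map_frobenius_expand, MvPolynomial.coeff_map,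
        MvPolynomial.coeff_expand_of_not_dvd _ (i := i), map_zero, zero_mul]
      have h3 := hle i
      simp only [Finsupp.coe_add, Finsupp.coe_smul, Pi.add_apply, Pi.smul_apply, smul_eq_mul,
        Finsupp.coe_equivFunOnFinite_symm, Finsupp.coe_tsub, Pi.sub_apply] at h3 ⊢
      intro hd
      apply hi
      have h4 : (e' i : ℕ) ≡ p * m i + (e i : ℕ) [MOD p] := (Nat.modEq_iff_dvd' h3).2 hd
      apply Fin.ext
      unfold Nat.ModEq at h4
      rwa [Nat.mul_add_mod, Nat.mod_eq_of_lt (e' i).2, Nat.mod_eq_of_lt (e i).2] at h4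
    · rfl
  · simp

theorem frob_inj {n : ℕ} (u : Fin n → K) (hu : AlgebraicIndependent k u) (A : Subalgebra k K)
    (hA : A = Algebra.adjoin k (Set.range u)) [IsFractionRing A K] {ι : Type} [Fintype ι]
    (hc : Fintype.card ι = p ^ n) (b : ι → K)
    (hb : ∀ e : Fin n → Fin p, ∃ w : ι → K, ∏ i, u i ^ (e i : ℕ) = ∑ a, w a ^ p * b a)
    (v : ι → K) (hv : ∑ a, v a ^ p * b a = 0) : v = 0 := by
  classical
  have hp : 0 < p := (Fact.out : p.Prime).pos
  have : CharP K p := charP_of_injective_algebraMap (algebraMap k K).injective p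
  have hli : LinearIndependent (frobenius K p).fieldRange
      (fun e : Fin n → Fin p => ∏ i, u i ^ (e i : ℕ)) := by
    rw [Fintype.linearIndependent_iff]
    intro g hg e
    choose w hw using fun e => RingHom.mem_fieldRange.1 (g e).2
    obtain ⟨d, hd⟩ := IsLocalization.exist_integer_multiples_of_finite (nonZeroDivisors A) w
    choose a ha using hd
    have hA' : ∀ x : A, ∃ f : MvPolynomial (Fin n) k, MvPolynomial.aeval u f = (x : K) := by
      intro x
      have hx : (x : K) ∈ (MvPolynomial.aeval u : MvPolynomial (Fin n) k →ₐ[k] K).range := by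
        rw [← Algebra.adjoin_range_eq_range_aeval, ← hA]; exact x.2
      exact hx
    choose f hf using fun e => hA' (a e)
    have hf' : ∀ e, MvPolynomial.aeval u (f e) = ((d : A) : K) * w e := fun e => by
      rw [hf]; exact ha e
    have h0 : ∑ e, f e ^ p * ∏ i, MvPolynomial.X i ^ (e i : ℕ) = 0 := by
      apply hu
      rw [map_zero, map_sum]
      have h1 : ((d : A) : K) ^ p * ∑ e, g e • ∏ i, u i ^ (e i : ℕ) = 0 := by rw [hg, mul_zero]
      rw [← h1, Finset.mul_sum]
      refine Finset.sum_congr rfl fun e _ => ?_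
      rw [map_mul, map_pow, hf', map_prod, Subfield.smul_def, smul_eq_mul, ← hw, frobenius_def,
        mul_pow, mul_assoc]
      simp
    have h2 := hf' e
    rw [chartB_poly p f h0 e, map_zero] at h2
    have hd0 : ((d : A) : K) ≠ 0 := fun h => nonZeroDivisors.coe_ne_zero d (Subtype.ext h)
    have h3 : w e = 0 := (mul_eq_zero.1 h2.symm).resolve_left hd0
    apply Subtype.ext
    rw [← hw, h3, map_zero]; rfl
  have hmem : ∀ e : Fin n → Fin p, ∏ i, u i ^ (e i : ℕ) ∈
      Submodule.span (frobenius K p).fieldRange (Set.range b) := by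
    intro e
    obtain ⟨w, hw⟩ := hb e
    rw [hw]
    refine Submodule.sum_mem _ fun a _ => ?_
    exact Submodule.smul_mem _ (⟨w a ^ p, ⟨w a, rfl⟩⟩ : (frobenius K p).fieldRange)
      (Submodule.subset_span ⟨a, rfl⟩)
  have hfin : Module.Finite (frobenius K p).fieldRange
      (Submodule.span (frobenius K p).fieldRange (Set.range b)) :=
    Module.Finite.span_of_finite _ (Set.finite_range b)
  have hli2 : LinearIndependent (frobenius K p).fieldRange
      (fun e : Fin n → Fin p => (⟨_, hmem e⟩ :
        Submodule.span (frobenius K p).fieldRange (Set.range b))) :=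
    LinearIndependent.of_comp (Submodule.subtype _) hli
  have hcard := hli2.fintype_card_le_finrank
  rw [Fintype.card_fun, Fintype.card_fin, Fintype.card_fin, ← hc] at hcard
  have hb2 : LinearIndependent (frobenius K p).fieldRange b :=
    linearIndependent_iff_card_le_finrank_span.2 hcard
  rw [Fintype.linearIndependent_iff] at hb2
  funext a
  have h5 := hb2 (fun a => (⟨v a ^ p, ⟨v a, rfl⟩⟩ : (frobenius K p).fieldRange)) hv a
  exact pow_eq_zero_iff hp.ne' |>.1 (congrArg Subtype.val h5)

end Pool.Agent.Lib.MP_cd184e_ag.T
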