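import Mathlib

set_option autoImplicit false

namespace Pool.Agent.Lib.MP_cd184e_ag.T

variable {k : Type} [Field k]

open MvPolynomial

/-- Specialisation of the four variables to monomials in two variables. -/
noncomputable def chartCpsi (g : Fin 4 → k) :
    MvPolynomial (Fin 4) k →ₐ[k] AddMonoidAlgebra k (ℤ × ℤ) :=
  aeval fun i : Fin 4 => AddMonoidAlgebra.single ((1 : ℤ), ((i : ℕ) : ℤ)) (g i)

theorem chartCpsi_X (g : Fin 4 → k) (i : Fin 4) :
    chartCpsi g (X i) = AddMonoidAlgebra.single ((1 : ℤ), ((i : ℕ) : ℤ)) (g i) := aeval_X _ _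

theorem chartCpsi_coeff (g : Fin 4 → k) (P : MvPolynomial (Fin 4) k) (j : Fin 4) :
    (chartCpsi g P).coeff ((1 : ℤ), ((j : ℕ) : ℤ)) = g j * coeff (Finsupp.single j 1) P := by
  classical
  induction P using MvPolynomial.induction_on' with
  | add f f' hf hf' =>
    rw [map_add, AddMonoidAlgebra.coeff_add, Finsupp.add_apply, hf, hf', coeff_add, mul_add]
  | monomial m c =>
    rw [chartCpsi, aeval_monomial, Finsupp.prod_fintype _ _ (by simp), Fin.prod_univ_four,
      coeff_monomial]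
    simp only [AddMonoidAlgebra.single_pow, AddMonoidAlgebra.single_mul_single,
      AddMonoidAlgebra.coe_algebraMap, Function.comp,
      AddMonoidAlgebra.coeff_single, Finsupp.single_apply]
    by_cases hm : m = Finsupp.single j 1
    · subst hm
      fin_cases j <;> simp [mul_comm]
    · rw [if_neg hm, mul_zero, if_neg]
      intro h
      apply hm
      have h1 := congrArg Prod.fst h
      have h2 := congrArg Prod.snd h
      ext i
      fin_cases j <;> fin_cases i <;> simp at h1 h2 ⊢ <;> omega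

/-- Laurent polynomials with support in a submonoid. -/
def chartCS (M : AddSubmonoid (ℤ × ℤ)) : Subalgebra k (AddMonoidAlgebra k (ℤ × ℤ)) where
  carrier := {r | ∀ m, r.coeff m ≠ 0 → m ∈ M}
  mul_mem' := by
    intro x y hx hy m hm
    have h := AddMonoidAlgebra.support_coeff_mul_subset x y (Finsupp.mem_support_iff.2 hm)
    obtain ⟨u, hu, v, hv, rfl⟩ := Finset.mem_add.1 h
    exact add_mem (hx u (Finsupp.mem_support_iff.1 hu)) (hy v (Finsupp.mem_support_iff.1 hv))
  add_mem' := by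
    intro x y hx hy m hm
    by_cases h : x.coeff m = 0
    · refine hy m fun h' => hm ?_
      rw [AddMonoidAlgebra.coeff_add, Finsupp.add_apply, h, h', add_zero]
    · exact hx m h
  algebraMap_mem' := by
    intro c m hm
    by_cases h : (0 : ℤ × ℤ) = m
    · exact h ▸ zero_mem M
    · simp [AddMonoidAlgebra.coe_algebraMap, h] at hm

theorem chartCS_single (M : AddSubmonoid (ℤ × ℤ)) (m : ℤ × ℤ) (hm : m ∈ M) (c : k) :
    AddMonoidAlgebra.single m c ∈ chartCS (k := k) M := by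
  intro m' hm'
  by_cases h : m = m'
  · exact h ▸ hm
  · simp [h] at hm'

theorem chartC_key {F : Type} [Field F] [Algebra k F] (j : MvPolynomial (Fin 4) k →ₐ[k] F)
    (hj : Function.Injective j) (g : Fin 4 → k) (hg : g 0 = 1) (M : AddSubmonoid (ℤ × ℤ))
    (s : Set F) (hs : ∀ z ∈ s, ∃ P, ∃ r ∈ chartCS (k := k) M, j (X 0) * z = j P ∧
      chartCpsi g P = chartCpsi g (X 0) * r)
    (z : F) (hz : z ∈ Algebra.adjoin k s) (Q : MvPolynomial (Fin 4) k)
    (hQ : j (X 0) ^ 2 * z = j Q) (m : ℤ × ℤ) (hm : m ∉ M) :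
    (chartCpsi g Q).coeff ((2, 0) + m) = 0 := by
  have h1 : ∃ N : ℕ, ∃ P, ∃ r ∈ chartCS (k := k) M, j (X 0) ^ N * z = j P ∧
      chartCpsi g P = chartCpsi g (X 0) ^ N * r := by
    clear hQ
    induction hz using Algebra.adjoin_induction with
    | mem x hx =>
      obtain ⟨P, r, hr, e1, e2⟩ := hs x hx
      exact ⟨1, P, r, hr, by rw [pow_one, e1], by rw [pow_one, e2]⟩
    | algebraMap c =>
      exact ⟨0, C c, algebraMap k _ c, Subalgebra.algebraMap_mem _ c, by
        rw [pow_zero, one_mul, ← algebraMap_eq, AlgHom.commutes], by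
        rw [pow_zero, one_mul, ← algebraMap_eq, AlgHom.commutes]⟩
    | add x y _ _ hx hy =>
      obtain ⟨N, P, r, hr, e1, e2⟩ := hx
      obtain ⟨N', P', r', hr', e1', e2'⟩ := hy
      refine ⟨N + N', X 0 ^ N' * P + X 0 ^ N * P', r + r', add_mem hr hr', ?_, ?_⟩
      · simp only [map_add, map_mul, map_pow]; rw [← e1, ← e1']; ring
      · simp only [map_add, map_mul, map_pow]; rw [e2, e2']; ring
    | mul x y _ _ hx hy =>
      obtain ⟨N, P, r, hr, e1, e2⟩ := hx
      obtain ⟨N', P', r', hr', e1', e2'⟩ := hy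
      refine ⟨N + N', P * P', r * r', mul_mem hr hr', ?_, ?_⟩
      · simp only [map_mul]; rw [← e1, ← e1']; ring
      · simp only [map_mul]; rw [e2, e2']; ring
  obtain ⟨N, P, r, hr, e1, e2⟩ := h1
  have e3 : X 0 ^ N * Q = X 0 ^ 2 * P := by
    apply hj
    simp only [map_mul, map_pow]; rw [← e1, ← hQ]; ring
  have e4 := congrArg (chartCpsi g) e3
  simp only [map_mul, map_pow] at e4
  rw [e2, ← mul_assoc, ← pow_add, chartCpsi_X, hg, AddMonoidAlgebra.single_pow,
    AddMonoidAlgebra.single_pow] at e4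
  have e5 := congrArg (fun x => AddMonoidAlgebra.coeff x (((N : ℤ) + 2, 0) + m)) e4
  simp only [AddMonoidAlgebra.coeff_single_mul_apply, one_pow, one_mul] at e5
  have e6 : r.coeff m = 0 := by
    by_contra h
    exact hm (hr m h)
  rw [← e6]
  convert e5 using 2
  · ext <;> simp
    ring
  · ext <;> simp
    ring

variable [PerfectField k]

/-- The Kodaira-Spencer class does not vanish on two adjacent cells. -/
theorem ks_two (ν : k) (hν : ν ≠ 0) (a b c d : FractionRing (MvPolynomial (Fin 4) k))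
    (ha : a = algebraMap (MvPolynomial (Fin 4) k) _ (MvPolynomial.X 0))
    (hb : b = algebraMap (MvPolynomial (Fin 4) k) _ (MvPolynomial.X 1))
    (hc : c = algebraMap (MvPolynomial (Fin 4) k) _ (MvPolynomial.X 2))
    (hd : d = algebraMap (MvPolynomial (Fin 4) k) _ (MvPolynomial.X 3))
    (A B : Subalgebra k (FractionRing (MvPolynomial (Fin 4) k)))
    (hA : A = Algebra.adjoin k {a, b, c, d})
    (hB : B = Algebra.adjoin k {1 / a, b / a, (b ^ 2 - a * c) / a,
      (b ^ 3 - (1 + ν) • (a * b * c) + ν • (a ^ 2 * d)) / a})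
    (D E : Derivation k (FractionRing (MvPolynomial (Fin 4) k))
      (FractionRing (MvPolynomial (Fin 4) k)))
    (hDa : D a = 0) (hDb : D b = 0) (hDc : D c = 0) (hDd : ν • (a * D d) = b * c - a * d)
    (hE : ∀ x ∈ A, E x ∈ A) (hDE : ∀ x ∈ B, (D + E) x ∈ B) : False := by
  obtain ⟨j, hjd⟩ : ∃ j : MvPolynomial (Fin 4) k →ₐ[k] FractionRing (MvPolynomial (Fin 4) k),
      j = IsScalarTower.toAlgHom k _ _ := ⟨_, rfl⟩
  have hj : Function.Injective j := by rw [hjd]; exact IsFractionRing.injective _ _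
  replace ha : j (X 0) = a := by rw [hjd, ha]; rfl
  replace hb : j (X 1) = b := by rw [hjd, hb]; rfl
  replace hc : j (X 2) = c := by rw [hjd, hc]; rfl
  replace hd : j (X 3) = d := by rw [hjd, hd]; rfl
  have ha0 : a ≠ 0 := by
    rw [← ha]; intro h
    exact X_ne_zero (R := k) (0 : Fin 4) (hj (h.trans (map_zero j).symm))
  have hAr : A ≤ j.range := by
    rw [hA]
    refine Algebra.adjoin_le ?_
    rintro x (rfl | rfl | rfl | rfl)
    exacts [⟨_, ha⟩, ⟨_, hb⟩, ⟨_, hc⟩, ⟨_, hd⟩]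
  obtain ⟨α, hα⟩ := hAr (hE a (hA ▸ Algebra.subset_adjoin (by simp)))
  obtain ⟨β, hβ⟩ := hAr (hE b (hA ▸ Algebra.subset_adjoin (by simp)))
  obtain ⟨γ, hγ⟩ := hAr (hE c (hA ▸ Algebra.subset_adjoin (by simp)))
  obtain ⟨δ, hδ⟩ := hAr (hE d (hA ▸ Algebra.subset_adjoin (by simp)))
  change j α = _ at hα
  change j β = _ at hβ
  change j γ = _ at hγ
  change j δ = _ at hδ
  have h3 := hDE ((b ^ 2 - a * c) / a) (hB ▸ Algebra.subset_adjoin (by simp))
  have h4 := hDE ((b ^ 3 - (1 + ν) • (a * b * c) + ν • (a ^ 2 * d)) / a)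
    (hB ▸ Algebra.subset_adjoin (by simp))
  have q3 : j (X 0) ^ 2 * (D + E) ((b ^ 2 - a * c) / a) =
      j ((2 : k) • (X 0 * (X 1 * β)) - X 1 * (X 1 * α) - X 0 * (X 0 * γ)) := by
    simp only [map_sub, map_mul, ha, hb, hα, hβ, hγ, Derivation.leibniz_div, two_smul, map_add,
      Derivation.leibniz, Derivation.leibniz_pow, Derivation.add_apply, hDa, hDb, hDc, smul_eq_mul]
    field_simp
    push_cast
    ring
  have q4 : j (X 0) ^ 2 * (D + E) ((b ^ 3 - (1 + ν) • (a * b * c) + ν • (a ^ 2 * d)) / a) =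
      j ((3 : k) • (X 0 * (X 1 * (X 1 * β))) - X 1 * (X 1 * (X 1 * α))
        - (1 + ν) • (X 0 * (X 0 * (X 2 * β)) + X 0 * (X 0 * (X 1 * γ)))
        + ν • (X 0 * (X 0 * (X 3 * α)) + X 0 * (X 0 * (X 0 * δ)))
        + (X 0 * (X 0 * (X 1 * X 2)) - X 0 * (X 0 * (X 0 * X 3)))) := by
    simp only [map_sub, map_mul, ha, hb, hc, hd, hα, hβ, hγ, hδ, Derivation.leibniz_div, map_add,
      map_smul, Derivation.map_smul, Derivation.leibniz, Derivation.leibniz_pow,
      Derivation.add_apply, hDa, hDb, hDc,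
      smul_eq_mul, nsmul_eq_mul]
    simp only [Algebra.smul_def, map_add, map_one, map_ofNat] at hDd ⊢
    field_simp
    push_cast
    linear_combination (a ^ 2) * hDd
  let M1 : AddSubmonoid (ℤ × ℤ) :=
    { carrier := {m | m.1 ≤ 0}
      add_mem' := fun {x y} hx hy => by
        simp only [Set.mem_ofPred_eq, Prod.fst_add] at *; omega
      zero_mem' := by simp }
  have gen : ∀ g : Fin 4 → k, g 0 = 1 → g 1 = 1 → 1 - (1 + ν) * g 2 + ν * g 3 = 0 →
      ∀ M : AddSubmonoid (ℤ × ℤ), (-1, 0) ∈ M → (0, 1) ∈ M → ((1, 2) ∈ M ∨ g 2 = 1) →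
      ∀ z ∈ ({1 / a, b / a, (b ^ 2 - a * c) / a,
        (b ^ 3 - (1 + ν) • (a * b * c) + ν • (a ^ 2 * d)) / a} : Set _),
      ∃ P, ∃ r ∈ chartCS (k := k) M, j (X 0) * z = j P ∧
        chartCpsi g P = chartCpsi g (X 0) * r := by
    intro g g0 g1 g3 M m1 m2 m3
    rintro z (rfl | rfl | rfl | rfl)
    · refine ⟨1, _, chartCS_single M _ m1 1, by rw [ha, map_one]; field_simp, ?_⟩
      rw [map_one, chartCpsi_X, AddMonoidAlgebra.single_mul_single, g0, AddMonoidAlgebra.one_def]
      simp only [mul_one]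
      rfl
    · refine ⟨X 1, _, chartCS_single M _ m2 1, by rw [ha, hb]; field_simp, ?_⟩
      rw [chartCpsi_X, chartCpsi_X, AddMonoidAlgebra.single_mul_single, g0, g1]
      simp
    · refine ⟨X 1 ^ 2 - X 0 * X 2, AddMonoidAlgebra.single (1, 2) (1 - g 2), ?_, ?_, ?_⟩
      · rcases m3 with m3 | m3
        · exact chartCS_single M _ m3 _
        · rw [m3, sub_self, AddMonoidAlgebra.single_zero]; exact zero_mem _
      · simp only [map_sub, map_mul, map_pow, ha, hb, hc]; field_simp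
      · simp only [map_sub, map_mul, map_pow, chartCpsi_X, AddMonoidAlgebra.single_mul_single,
          AddMonoidAlgebra.single_pow, g0, g1]
        simp [AddMonoidAlgebra.single_sub]
    · refine ⟨X 1 ^ 3 - (1 + ν) • (X 0 * X 1 * X 2) + ν • (X 0 ^ 2 * X 3), 0, zero_mem _, ?_, ?_⟩
      · simp only [map_sub, map_add, map_smul, map_mul, map_pow, ha, hb, hc, hd]; field_simp
      · simp only [map_sub, map_add, map_smul, map_mul, map_pow, chartCpsi_X,
          AddMonoidAlgebra.single_mul_single, AddMonoidAlgebra.single_pow, g0, g1,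
          AddMonoidAlgebra.smul_single, mul_zero]
        have : AddMonoidAlgebra.single ((3 : ℤ), (3 : ℤ)) (1 - (1 + ν) * g 2 + ν * g 3) = 0 := by
          rw [g3, AddMonoidAlgebra.single_zero]
        rw [← this, AddMonoidAlgebra.single_add, AddMonoidAlgebra.single_sub]
        simp
  let M2 : AddSubmonoid (ℤ × ℤ) :=
    { carrier := {m | 2 * m.1 ≤ m.2}
      add_mem' := fun {x y} hx hy => by
        simp only [Set.mem_ofPred_eq, Prod.fst_add, Prod.snd_add] at *; omega
      zero_mem' := by simp }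
  rw [hB] at h3 h4
  have r1 := chartC_key j hj ![1, 1, 1, 1] rfl M1 _
    (gen _ rfl rfl (by simp) M1 (by simp [M1]) (by simp [M1]) (Or.inr rfl)) _ h3 _ q3 (1, 2)
    (by simp [M1])
  have r2 := chartC_key j hj ![1, 1, 1, 1] rfl M1 _
    (gen _ rfl rfl (by simp) M1 (by simp [M1]) (by simp [M1]) (Or.inr rfl)) _ h4 _ q4 (2, 3)
    (by simp [M1])
  have r3 := chartC_key j hj ![1, 1, 0, -ν⁻¹] rfl M2 _
    (gen _ rfl rfl (by simp [hν]) M2 (by simp [M2]) (by simp [M2]) (Or.inl (by simp [M2])))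
    _ h4 _ q4 (2, 3) (by simp [M2])
  have c0 := fun (g : Fin 4 → k) P => chartCpsi_coeff g P 0
  have c1 := fun (g : Fin 4 → k) P => chartCpsi_coeff g P 1
  have c2 := fun (g : Fin 4 → k) P => chartCpsi_coeff g P 2
  have c3 := fun (g : Fin 4 → k) P => chartCpsi_coeff g P 3
  simp only [map_sub, map_add, map_smul, map_mul, chartCpsi_X, AddMonoidAlgebra.coeff_add,
    AddMonoidAlgebra.coeff_sub, AddMonoidAlgebra.coeff_smul, Finsupp.add_apply, Finsupp.sub_apply,
    Finsupp.smul_apply, AddMonoidAlgebra.coeff_single_mul_apply, smul_eq_mul] at r1 r2 r3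
  norm_num at r1 r2 r3 c0 c1 c2 c3
  simp only [c0, c1, c2, c3] at r1 r2 r3
  norm_num at r1 r2 r3
  simp only [show (![1, 1, 1, 1] : Fin 4 → k) 2 = 1 from rfl,
    show (![1, 1, 1, 1] : Fin 4 → k) 3 = 1 from rfl,
    show (![1, 1, 0, -ν⁻¹] : Fin 4 → k) 2 = 0 from rfl,
    show (![1, 1, 0, -ν⁻¹] : Fin 4 → k) 3 = -ν⁻¹ from rfl] at r1 r2 r3
  refine one_ne_zero (α := k) ?_
  linear_combination r2 + ν * r3 - (1 + ν) * r1 +
    (ν * (coeff (Finsupp.single 0 1) α + coeff (Finsupp.single 3 1) δ) - 1) * mul_inv_cancel₀ hν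

end Pool.Agent.Lib.MP_cd184e_ag.T
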