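import Pool.Agent.Lib.MP_cd184e_ag.T.ChartA
import Pool.Agent.Lib.MP_cd184e_ag.T.ChartB
import Pool.Agent.Lib.MP_cd184e_ag.T.ChartC

/-! Collector: `chart_facts`, `exists_derivation` (ChartA), `frob_span`, `frob_inj` (ChartB),
`ks_two` (ChartC). -/
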