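import Mathlib

set_option autoImplicit false

namespace Pool.Agent.Lib.MP_cd184e_ag.T

variable {k : Type} [Field k]

theorem chartA_div {n : ℕ} (A : Subalgebra k (FractionRing (MvPolynomial (Fin n) k)))
    (h : ∀ i, ∃ p ∈ A, ∃ q ∈ A, q ≠ 0 ∧
      algebraMap (MvPolynomial (Fin n) k) _ (MvPolynomial.X i) = p / q)
    (z : FractionRing (MvPolynomial (Fin n) k)) : ∃ p ∈ A, ∃ q ∈ A, z = p / q := by
  have hA : Algebra.adjoin k (A : Set (FractionRing (MvPolynomial (Fin n) k))) = A :=
    Algebra.adjoin_eq A
  have hsub : ∀ x ∈ A, x ∈ IntermediateField.adjoin k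
      (A : Set (FractionRing (MvPolynomial (Fin n) k))) :=
    fun x hx => IntermediateField.subset_adjoin k _ hx
  have h1 : ∀ f : MvPolynomial (Fin n) k, algebraMap (MvPolynomial (Fin n) k)
      (FractionRing (MvPolynomial (Fin n) k)) f ∈ IntermediateField.adjoin k
      (A : Set (FractionRing (MvPolynomial (Fin n) k))) := by
    intro f
    induction f using MvPolynomial.induction_on with
    | C c =>
      rw [← MvPolynomial.algebraMap_eq, ← IsScalarTower.algebraMap_apply]
      exact IntermediateField.algebraMap_mem _ c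
    | add f g hf hg => rw [map_add]; exact add_mem hf hg
    | mul_X f i hf =>
      rw [map_mul]
      obtain ⟨p, hp, q, hq, -, e⟩ := h i
      rw [e]
      exact mul_mem hf (div_mem (hsub p hp) (hsub q hq))
  obtain ⟨f, g, -, rfl⟩ := IsFractionRing.div_surjective (A := MvPolynomial (Fin n) k) z
  have h2 := div_mem (h1 f) (h1 g)
  rw [IntermediateField.mem_adjoin_iff_div, hA] at h2
  exact h2

/-- `n` elements generating the field of rational functions in `n` variables. -/
theorem chart_facts {n : ℕ} (u : Fin n → FractionRing (MvPolynomial (Fin n) k))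
    (A : Subalgebra k (FractionRing (MvPolynomial (Fin n) k)))
    (hA : A = Algebra.adjoin k (Set.range u))
    (h : ∀ i, ∃ p ∈ A, ∃ q ∈ A, q ≠ 0 ∧
      algebraMap (MvPolynomial (Fin n) k) _ (MvPolynomial.X i) = p / q) :
    AlgebraicIndependent k u ∧ IsFractionRing A (FractionRing (MvPolynomial (Fin n) k)) ∧
      Nonempty (A ≃ₐ[k] MvPolynomial (Fin n) k) ∧ Algebra.Smooth k A := by
  have hfr : IsFractionRing A (FractionRing (MvPolynomial (Fin n) k)) := by
    refine IsFractionRing.of_field _ _ fun z => ?_
    obtain ⟨p, hp, q, hq, e⟩ := chartA_div A h z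
    exact ⟨⟨p, hp⟩, ⟨q, hq⟩, e⟩
  have halg : Algebra.IsAlgebraic A (FractionRing (MvPolynomial (Fin n) k)) :=
    IsLocalization.isAlgebraic _ (nonZeroDivisors A)
  have hX : AlgebraicIndependent k (fun i : Fin n => algebraMap (MvPolynomial (Fin n) k)
      (FractionRing (MvPolynomial (Fin n) k)) (MvPolynomial.X i)) :=
    (MvPolynomial.algebraicIndependent_X (Fin n) k).map'
      (f := IsScalarTower.toAlgHom k (MvPolynomial (Fin n) k)
        (FractionRing (MvPolynomial (Fin n) k))) (IsFractionRing.injective _ _)
  subst hA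
  have hu : AlgebraicIndependent k u :=
    (Algebra.IsAlgebraic.isTranscendenceBasis_of_le_trdeg_of_finite k u
      hX.cardinalMk_le_trdeg).1
  have hs : Algebra.Smooth k (MvPolynomial (Fin n) k) := ⟨inferInstance, inferInstance⟩
  exact ⟨hu, hfr, ⟨hu.aevalEquiv.symm⟩, Algebra.Smooth.of_equiv hu.aevalEquiv⟩

variable [PerfectField k]

/-- Derivations of a rational function field with prescribed values. -/
theorem exists_derivation {n : ℕ} (v : Fin n → FractionRing (MvPolynomial (Fin n) k)) :
    ∃ D : Derivation k (FractionRing (MvPolynomial (Fin n) k))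
      (FractionRing (MvPolynomial (Fin n) k)),
      ∀ i, D (algebraMap (MvPolynomial (Fin n) k) _ (MvPolynomial.X i)) = v i := by
  have : Algebra.FormallyEtale (MvPolynomial (Fin n) k) (FractionRing (MvPolynomial (Fin n) k)) :=
    Algebra.FormallyEtale.of_isLocalization (nonZeroDivisors (MvPolynomial (Fin n) k))
  have hb := KaehlerDifferential.isBaseChange_of_formallyEtale k (MvPolynomial (Fin n) k)
    (FractionRing (MvPolynomial (Fin n) k))
  refine ⟨(hb.lift (MvPolynomial.mkDerivation k v).liftKaehlerDifferential).compDer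
    (KaehlerDifferential.D k _), fun i => ?_⟩
  change hb.lift _ (KaehlerDifferential.D k _ _) = _
  rw [← KaehlerDifferential.map_D k k, hb.lift_eq, Derivation.liftKaehlerDifferential_comp_D,
    MvPolynomial.mkDerivation_X]

end Pool.Agent.Lib.MP_cd184e_ag.T
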