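import Pool.Agent.Lib.MP_cd184e_ag.T.BunAlg

set_option autoImplicit false

open CategoryTheory Limits Abelian

namespace Pool.Agent.Lib.MP_cd184e_ag.T

variable {k K : Type} [Field k] [Field K] [Algebra k K] {X : ProjVar k K}

namespace Bun

/-- The property `P n` for `A ⊗ Y (b)`. -/
def W (P : ℕ → Bun X → Prop) (A Y : Bun X) (b : ℤ) (n : ℕ) : Prop := P n ((A.tens Y).t b)

theorem retr_tens_one (A : Bun X) :
    Retr (A.tens (triv X 1)) A ∧ Retr A (A.tens (triv X 1)) :=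
  ⟨(retr_swap _ _).trans (retr_one_tens A).1, (retr_one_tens A).2.trans (retr_swap _ _)⟩

theorem Retr.tensL {A B : Bun X} (h : Retr A B) (F : Bun X) : Retr (F.tens A) (F.tens B) :=
  ((retr_swap _ _).trans (h.tens F)).trans (retr_swap _ _)

theorem Data.vdual (D : Data X) : Retr D.V.dual (D.V.t (-1)) ∧ Retr (D.V.t (-1)) D.V.dual :=
  ⟨((retr_t_zero _).2.trans (retr_t_t _ 1 (-1) 0 (by simp)).2).trans (D.om'.t (-1)),
    (D.om.t (-1)).trans ((retr_t_t _ 1 (-1) 0 (by simp)).1.trans (retr_t_zero _).1)⟩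

section

variable {P : ℕ → Bun X → Prop} (hP : Rules P) {A A' B C Z Y : Bun X} {a b c : ℤ} {n : ℕ}

include hP

theorem Rules.retr (h : Retr A B) (hB : P n B) : P n A := hP.dec h.dec fun _ => hB

theorem W.retr (h : Retr A B) (hB : W P B Y b n) : W P A Y b n :=
  hP.retr ((h.tens Y).t b) hB

theorem W.dec {I : Type} [Fintype I] {F : I → Bun X} (h : Dec A F) (hF : ∀ x, W P (F x) Y b n) :
    W P A Y b n := hP.dec ((h.tens Y).t b) hF

theorem W.swap (h : W P A Y b n) : W P Y A b n := hP.retr ((retr_swap Y A).t b) h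

theorem W.to_t (e : a + b = c) (h : W P A Y c n) : W P (A.t a) Y b n :=
  hP.retr (((retr_t_tens A Y a).1.t b).trans (retr_t_t _ a b c e).1) h

theorem W.of_t (e : a + b = c) (h : W P (A.t a) Y b n) : W P A Y c n :=
  hP.retr ((retr_t_t _ a b c e).2.trans ((retr_t_tens A Y a).2.t b)) h

theorem W.of_one (h : W P (A.tens B) (triv X 1) b n) : W P A B b n :=
  hP.retr ((retr_tens_one _).2.t b) h

theorem W.to_one (h : W P A B b n) : W P (A.tens B) (triv X 1) b n :=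
  hP.retr ((retr_tens_one _).1.t b) h

theorem W.mk_one (h : P n (A.t b)) : W P A (triv X 1) b n :=
  hP.retr ((retr_tens_one _).1.t b) h

theorem W.out_one (h : W P A (triv X 1) b n) : P n (A.t b) :=
  hP.retr ((retr_tens_one _).2.t b) h

theorem W.right (h : Ex3 A B C) (hA : W P A Y b (n + 1)) (hB : W P B Y b n) : W P C Y b n :=
  hP.right ((h.tens Y).t b) hA hB

theorem W.left (h : Ex3 A B C) (hC : W P C Y b n) (hB : W P B Y b (n + 1)) :
    W P A Y b (n + 1) := hP.left ((h.tens Y).t b) hC hB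

theorem W.right4 (h : Ex4 A B C Z) (hA : W P A Y b (n + 2)) (hB : W P B Y b (n + 1))
    (hC : W P C Y b n) : W P Z Y b n := hP.right4 ((h.tens Y).t b) hA hB hC

theorem W.left4 (h : Ex4 A B C Z) (hZ : W P Z Y b n) (hC : W P C Y b (n + 1))
    (hB : W P B Y b (n + 2)) : W P A Y b (n + 2) := hP.left4 ((h.tens Y).t b) hZ hC hB

theorem W.trivn (m : ℕ) (h : W P (triv X 1) Y b n) : W P (triv X m) Y b n :=
  W.dec hP (dec_triv m) fun _ => h

theorem W.trivd (m : ℕ) (h : W P (triv X 1) Y b n) : W P (triv X m).dual Y b n :=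
  W.retr hP (retr_triv_dual m).1 (W.trivn hP m h)

theorem W.pown (m : ℕ) (h : W P A Y b n) : W P (pow m A) Y b n :=
  W.dec hP (dec_pow m A) fun _ => h

theorem W.powd (m : ℕ) (h : W P A.dual Y b n) : W P (pow m A).dual Y b n :=
  W.dec hP (dec_pow m A).dual fun _ => h

theorem W.sum2 (h : W P A Y b n) (h' : W P B Y b n) : W P (A.sum B) Y b n :=
  W.dec hP (dec_sum A B) fun e => by cases e; exacts [h', h]

theorem W.sumd (h : W P A.dual Y b n) (h' : W P B.dual Y b n) : W P (A.sum B).dual Y b n :=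
  W.dec hP (dec_sum A B).dual fun e => by cases e; exacts [h', h]

variable (D : Data X)

theorem W.to_vd (e : c + 1 = b) (h : W P D.V Y c n) : W P D.V.dual Y b n :=
  W.retr hP D.vdual.1 (W.to_t hP (by omega) h)

theorem W.of_vd (e : c + 1 = b) (h : W P D.V.dual Y b n) : W P D.V Y c n :=
  W.of_t hP (a := -1) (b := b) (by omega) (W.retr hP D.vdual.2 h)

theorem s2L (h : W P D.V Y b n) (h' : W P (triv X 1) Y b (n + 1)) : W P D.Q.dual Y b (n + 1) :=
  W.left hP D.s2 h (W.trivn hP 7 h')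

theorem s1R (e : c + 1 = b) (h : W P D.V Y c (n + 1)) (h' : W P (triv X 1) Y b n) :
    W P D.Q Y b n :=
  W.retr hP (retr_dual_dual _).2 (W.right hP D.s2.dual (W.to_vd hP D e h) (W.trivd hP 7 h'))

theorem s1L (e : c + 1 = b) (h : W P D.Q Y b n) (h' : W P (triv X 1) Y b (n + 1)) :
    W P D.V Y c (n + 1) :=
  W.of_vd hP D e (W.left hP D.s2.dual (W.retr hP (retr_dual_dual _).1 h) (W.trivd hP 7 h'))

theorem s3R (h : ∀ e, W P (D.E e).dual Y b (n + 1)) (h' : W P (triv X 1) Y b n) (e : Bool) :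
    W P (D.E e) Y b n :=
  W.right hP (D.s3 e) (h _) (W.trivn hP 6 h')

theorem s3L (h : ∀ e, W P (D.E e) Y b n) (h' : W P (triv X 1) Y b (n + 1)) (e : Bool) :
    W P (D.E e).dual Y b (n + 1) := by
  cases e
  · exact W.left hP (D.s3 true) (h _) (W.trivn hP 6 h')
  · exact W.left hP (D.s3 false) (h _) (W.trivn hP 6 h')

theorem s5R (ec : c + 1 = b) (h : ∀ e, W P (D.E e) Y c (n + 1)) (h' : W P D.V Y c n)
    (e : Bool) : W P (D.E e).dual Y b n := by
  cases e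
  · exact W.of_t hP (a := 1) (by omega) (W.right hP (D.s5 true) (h _) (W.pown hP 3 h'))
  · exact W.of_t hP (a := 1) (by omega) (W.right hP (D.s5 false) (h _) (W.pown hP 3 h'))

theorem s5L (ec : c + 1 = b) (h : ∀ e, W P (D.E e).dual Y b n) (h' : W P D.V Y c (n + 1))
    (e : Bool) : W P (D.E e) Y c (n + 1) :=
  W.left hP (D.s5 e) (W.to_t hP (by omega) (h _)) (W.pown hP 3 h')

theorem s7R (ec : c + 1 = b) (h : W P D.Q Y c (n + 2)) (h' : ∀ e, W P (D.E e) Y c (n + 1))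
    (h'' : W P D.V Y c n) : W P D.Q.dual Y b n :=
  W.of_t hP (a := 1) (by omega) (W.right4 hP D.s7 h
    (W.sum2 hP (W.pown hP 3 (h' _)) (W.pown hP 3 (h' _))) (W.pown hP 9 h''))

theorem s7L (ec : c + 1 = b) (h : W P D.Q.dual Y b n) (h'' : W P D.V Y c (n + 1))
    (h' : ∀ e, W P (D.E e) Y c (n + 2)) : W P D.Q Y c (n + 2) :=
  W.left4 hP D.s7 (W.to_t hP (by omega) h) (W.pown hP 9 h'')
    (W.sum2 hP (W.pown hP 3 (h' _)) (W.pown hP 3 (h' _)))

theorem s4L (ec : c + 1 = b) (h : W P D.V (triv X 1) b n)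
    (h' : W P (triv X 1) (triv X 1) b (n + 1)) (h'' : W P D.Q (triv X 1) b (n + 1)) :
    W P D.V D.V c (n + 1) :=
  W.of_one hP (W.of_t hP (a := -1) (b := b) (by omega) (W.left hP D.s4 h (W.sum2 hP h' h'')))

theorem s4dR (ec : c + 1 = b) (h : W P D.V (triv X 1) c (n + 1))
    (h' : W P (triv X 1) (triv X 1) b n) (h'' : W P D.Q.dual (triv X 1) b n) :
    W P D.V D.V c n := by
  have h1 := W.right hP D.s4.dual (W.to_vd hP D ec h) (W.sumd hP (W.trivd hP 1 h') h'')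
  have h2 := W.of_t hP (c := b + 1) (by omega) (W.retr hP (retr_t_dual _ (-1)).2 h1)
  have h3 := W.of_one hP (W.retr hP (retr_tens_dual _ _).2 h2)
  exact W.of_vd hP D ec (W.swap hP (W.of_vd hP D rfl h3))

theorem s10L (ec : c + 1 = b) (h : ∀ e, W P (D.E e) (triv X 1) b n)
    (h' : W P (triv X 1) (triv X 1) b (n + 1)) (h'' : W P D.Q (triv X 1) b (n + 1)) (e : Bool) :
    W P D.V (D.E e) c (n + 1) :=
  W.of_one hP (W.of_t hP (a := -1) (b := b) (by omega) (W.left hP (D.s10 e)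
    (W.sum2 hP (W.pown hP 3 (h _)) (h _)) (W.sum2 hP (W.trivn hP 3 h') (W.pown hP 3 h''))))

theorem s10dR (h : ∀ e, W P (D.E e).dual (triv X 1) b (n + 1))
    (h' : W P (triv X 1) (triv X 1) b n) (h'' : W P D.Q.dual (triv X 1) b n) (e : Bool) :
    W P D.V (D.E e).dual b n := by
  have h1 := W.right hP (D.s10 e).dual (W.sumd hP (W.powd hP 3 (h _)) (h _))
    (W.sumd hP (W.trivd hP 3 h') (W.powd hP 3 h''))
  have h2 := W.of_t hP (c := b + 1) (by omega) (W.retr hP (retr_t_dual _ (-1)).2 h1)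
  exact W.of_vd hP D rfl (W.of_one hP (W.retr hP (retr_tens_dual _ _).2 h2))

theorem sdet (ec : c + 1 = b) (h : W P D.V D.V c n) : W P (triv X 1) (triv X 1) b n :=
  W.of_t hP (a := 1) (by omega) (W.retr hP D.det (W.to_one hP h))

end

/-- The chase for the vanishing of the higher extension groups. -/
theorem chase_van (D : Data X) {P : ℕ → Bun X → Prop} (hP : Rules P)
    (h5 : ∀ (E : Bun X) (n : ℕ), P (n + 5) E)
    (h0 : ∀ (x : Fin 6) (n : ℕ), P (n + 1) (D.six x))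
    (h1 : ∀ (x : Fin 6) (n : ℕ), P (n + 1) ((D.six x).t (-1))) (x y : Fin 6) (n : ℕ) :
    P (n + 1) ((D.six x).dual.tens (D.six y)) := by
  have k0 : ∀ (x : Fin 6) (n : ℕ), W P (D.six x) (triv X 1) 0 (n + 1) := fun x n =>
    W.mk_one hP (hP.retr (retr_t_zero _).1 (h0 x n))
  have k1 : ∀ (x : Fin 6) (n : ℕ), W P (D.six x) (triv X 1) (-1) (n + 1) := fun x n =>
    W.mk_one hP (h1 x n)
  have O0 : ∀ n, W P (triv X 1) (triv X 1) 0 (n + 1) := k0 0
  have Om : ∀ n, W P (triv X 1) (triv X 1) (-1) (n + 1) := k1 0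
  have Q0 : ∀ n, W P D.Q (triv X 1) 0 (n + 1) := k0 1
  have Qm : ∀ n, W P D.Q (triv X 1) (-1) (n + 1) := k1 1
  have E0 : ∀ n e, W P (D.E e) (triv X 1) 0 (n + 1) := fun n e => by
    cases e; exacts [k0 3 n, k0 2 n]
  have Em : ∀ n e, W P (D.E e) (triv X 1) (-1) (n + 1) := fun n e => by
    cases e; exacts [k1 3 n, k1 2 n]
  have V0 : ∀ n, W P D.V (triv X 1) 0 (n + 1) := k0 4
  have Vm : ∀ n, W P D.V (triv X 1) (-1) (n + 1) := k1 4
  have Ed1 : ∀ n e, W P (D.E e).dual (triv X 1) 1 (n + 1) := fun n =>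
    s5R hP D (by simp) (E0 _) (V0 n)
  have Ed0 : ∀ n e, W P (D.E e).dual (triv X 1) 0 (n + 1) := fun n =>
    s5R hP D (by simp) (Em _) (Vm n)
  have Edm : ∀ n e, W P (D.E e).dual (triv X 1) (-1) (n + 2) := fun n =>
    s3L hP D (Em n) (Om _)
  have Qd1 : ∀ n, W P D.Q.dual (triv X 1) 1 (n + 1) := fun n =>
    s7R hP D (by simp) (Q0 _) (E0 _) (V0 n)
  have Qd0 : ∀ n, W P D.Q.dual (triv X 1) 0 (n + 1) := fun n =>
    s7R hP D (by simp) (Qm _) (Em _) (Vm n)
  have Qdm : ∀ n, W P D.Q.dual (triv X 1) (-1) (n + 2) := fun n => s2L hP D (Vm n) (Om _)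
  have Vmm : ∀ n, W P D.V (triv X 1) (-2) (n + 2) := fun n =>
    s1L hP D (by simp) (Qm n) (Om _)
  have Emm : ∀ n e, W P (D.E e) (triv X 1) (-2) (n + 3) := fun n =>
    s5L hP D (by simp) (Edm n) (Vmm _)
  have VVmm : ∀ n, W P D.V D.V (-2) (n + 2) := fun n =>
    s4L hP D (by simp) (Vm n) (Om _) (Qm _)
  have VVm : ∀ n, W P D.V D.V (-1) (n + 1) := fun n =>
    s4dR hP D (by simp) (Vm _) (O0 n) (Qd0 n)
  have QVm : ∀ n, W P D.Q D.V (-1) (n + 1) := fun n =>
    s1R hP D (by simp) (VVmm n) (W.swap hP (Vm n))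
  have VEdm : ∀ n e, W P D.V (D.E e).dual (-1) (n + 2) := fun n =>
    s10dR hP D (Edm _) (Om _) (Qdm n)
  have EVm : ∀ n e, W P (D.E e) D.V (-1) (n + 1) := fun n =>
    s3R hP D (fun e => W.swap hP (VEdm n e)) (W.swap hP (Vm n))
  have VEmm : ∀ n e, W P D.V (D.E e) (-2) (n + 2) := fun n =>
    s10L hP D (by simp) (Em n) (Om _) (Qm _)
  have EdV : ∀ n e, W P (D.E e).dual D.V 0 (n + 1) := fun n =>
    s5R hP D (by simp) (EVm _) (VVm n)
  have QdV : ∀ n, W P D.Q.dual D.V 0 (n + 1) := fun n =>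
    s7R hP D (by simp) (QVm _) (EVm _) (VVm n)
  have QdVm : ∀ n, W P D.Q.dual D.V (-1) (n + 2) := fun n =>
    s2L hP D (VVm n) (W.swap hP (Vm _))
  have QQd : ∀ n, W P D.Q D.Q.dual 0 (n + 1) := fun n =>
    s1R hP D (by simp) (W.swap hP (QdVm n)) (W.swap hP (Qd0 n))
  have QEd : ∀ n e, W P D.Q (D.E e).dual 0 (n + 1) := fun n e =>
    s1R hP D (by simp) (VEdm n e) (W.swap hP (Ed0 n e))
  have EEmm : ∀ n e' e, W P (D.E e) (D.E e') (-2) (n + 4) := fun n e' =>
    s3R hP D (fun _ => h5 _ n) (W.swap hP (Emm (n + 1) e'))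
  have EdEm : ∀ n e' e, W P (D.E e).dual (D.E e') (-1) (n + 3) := fun n e' =>
    s5R hP D (by simp) (EEmm n e') (VEmm (n + 1) e')
  have EEm : ∀ n e' e, W P (D.E e) (D.E e') (-1) (n + 2) := fun n e' =>
    s3R hP D (EdEm n e') (W.swap hP (Em (n + 1) e'))
  have EdE : ∀ n e' e, W P (D.E e).dual (D.E e') 0 (n + 1) := fun n e' =>
    s5R hP D (by simp) (EEm n e') (W.swap hP (EVm n e'))
  have QEm : ∀ n e, W P D.Q (D.E e) (-1) (n + 1) := fun n e =>
    s1R hP D (by simp) (VEmm n e) (W.swap hP (Em n e))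
  have QdE : ∀ n e, W P D.Q.dual (D.E e) 0 (n + 1) := fun n e =>
    s7R hP D (by simp) (QEm _ e) (EEm n e) (W.swap hP (EVm n e))
  have one : ∀ {A : Bun X} {b : ℤ}, W P A (triv X 1) (b + 1) (n + 1) →
      W P A ((triv X 1).t 1) b (n + 1) := fun h =>
    W.swap hP (W.to_t hP (add_comm _ _) (W.swap hP h))
  have rowQ : ∀ y : Fin 6, W P D.Q.dual (D.six y) 0 (n + 1) := fun y => by
    fin_cases y
    exacts [Qd0 n, W.swap hP (QQd n), QdE n true, QdE n false, QdV n, one (Qd1 n)]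
  have rowE : ∀ (e : Bool) (y : Fin 6), W P (D.E e).dual (D.six y) 0 (n + 1) := fun e y => by
    fin_cases y
    exacts [Ed0 n e, W.swap hP (QEd n e), EdE n true e, EdE n false e, EdV n e, one (Ed1 n e)]
  have rowV : ∀ y : Fin 6, W P D.V (D.six y) (-1) (n + 1) := fun y => by
    fin_cases y
    exacts [Vm n, W.swap hP (QVm n), W.swap hP (EVm n true), W.swap hP (EVm n false), VVm n,
      one (V0 n)]
  refine hP.retr (retr_t_zero _).2 ?_
  show W P (D.six x).dual (D.six y) 0 (n + 1)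
  fin_cases x
  · exact W.trivd hP 1 (W.swap hP (k0 y n))
  · exact rowQ y
  · exact rowE true y
  · exact rowE false y
  · exact W.to_vd hP D (by simp) (rowV y)
  · exact W.retr hP (retr_t_dual _ 1).1
      (W.to_t hP (c := -1) (by simp) (W.trivd hP 1 (W.swap hP (k1 y n))))

/-- The chase for generation. -/
theorem chase_gen (D : Data X) {P : Bun X → Prop} (hP : Rules fun _ => P) (b : ℤ)
    (h : ∀ x : Fin 6, P ((D.six x).t b)) (x : Fin 6) : P ((D.six x).t (b - 1)) := by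
  have up : ∀ {A Y : Bun X} {c : ℤ} {m : ℕ} (n : ℕ),
      W (fun _ => P) A Y c m → W (fun _ => P) A Y c n := fun _ h => h
  have k0 : ∀ (x : Fin 6) (n : ℕ), W (fun _ => P) (D.six x) (triv X 1) b n := fun x n =>
    W.mk_one hP (h x)
  have O0 : ∀ n, W (fun _ => P) (triv X 1) (triv X 1) b n := k0 0
  have O1 : ∀ n, W (fun _ => P) (triv X 1) (triv X 1) (b + 1) n := fun n =>
    W.of_t hP (a := 1) (add_comm _ _) (k0 5 n)
  have Q0 : ∀ n, W (fun _ => P) D.Q (triv X 1) b n := k0 1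
  have E0 : ∀ n e, W (fun _ => P) (D.E e) (triv X 1) b n := fun n e => by
    cases e; exacts [k0 3 n, k0 2 n]
  have V0 : ∀ n, W (fun _ => P) D.V (triv X 1) b n := k0 4
  have eb : b - 1 + 1 = b := by omega
  have Vm : W (fun _ => P) D.V (triv X 1) (b - 1) 1 := s1L hP D eb (Q0 0) (O0 1)
  have Ed0 : ∀ e, W (fun _ => P) (D.E e).dual (triv X 1) b 1 := s3L hP D (E0 0) (O0 1)
  have Em : ∀ e, W (fun _ => P) (D.E e) (triv X 1) (b - 1) 2 := s5L hP D eb Ed0 (up 2 Vm)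
  have Qd0 : W (fun _ => P) D.Q.dual (triv X 1) b 1 := s2L hP D (V0 0) (O0 1)
  have Qm : W (fun _ => P) D.Q (triv X 1) (b - 1) 2 := s7L hP D eb (up 0 Qd0) Vm Em
  have Qd1 : W (fun _ => P) D.Q.dual (triv X 1) (b + 1) 0 := s7R hP D rfl (Q0 2) (E0 1) (V0 0)
  have VV0 : W (fun _ => P) D.V D.V b 0 := s4dR hP D rfl (V0 1) (O1 0) Qd1
  have VVm : W (fun _ => P) D.V D.V (b - 1) 1 := s4L hP D eb (V0 0) (O0 1) (Q0 1)
  have QdV : W (fun _ => P) D.Q.dual D.V b 1 := s2L hP D VV0 (W.swap hP (V0 1))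
  have VEm : ∀ e, W (fun _ => P) D.V (D.E e) (b - 1) 1 := s10L hP D eb (E0 0) (O0 1) (Q0 1)
  have QVm : W (fun _ => P) D.Q D.V (b - 1) 2 :=
    s7L hP D eb (up 0 QdV) VVm fun e => up 2 (W.swap hP (VEm e))
  have VVmm : W (fun _ => P) D.V D.V (b - 2) 1 :=
    s1L hP D (by omega) (up 0 QVm) (W.swap hP Vm)
  have Om : W (fun _ => P) (triv X 1) (triv X 1) (b - 1) 1 := sdet hP D (by omega) VVmm
  fin_cases x
  · exact W.out_one hP Om
  · exact W.out_one hP Qm
  · exact W.out_one hP (Em true)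
  · exact W.out_one hP (Em false)
  · exact W.out_one hP Vm
  · exact W.out_one hP (W.to_t hP (c := b) (by omega) (O0 0))

end Bun

end Pool.Agent.Lib.MP_cd184e_ag.T
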