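import Pool.Agent.Lib.MP_cd184e_ag.T.Base

set_option autoImplicit false

open CategoryTheory Limits

namespace Pool.Agent.Lib.MP_cd184e_ag.T

variable {k K : Type} [Field k] [Field K] [Algebra k K]

/-- A coherent sheaf on `X`, given by its modules of sections over the charts of the cover and all
their intersections: finitely generated modules whose restriction maps are localisations. -/
structure Coh (X : ProjVar k K) where
  obj : X.Idx → Type
  [acg : ∀ s, AddCommGroup (obj s)]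
  [mod : ∀ s, Module (X.A s.1) (obj s)]
  res : ∀ {s t : X.Idx}, s ≤ t → obj s →+ obj t
  res_smul : ∀ {s t : X.Idx} (h : s ≤ t) (a : X.A s.1) (x : obj s),
    res h (a • x) = X.inc h a • res h x
  res_refl : ∀ {s : X.Idx} (x : obj s), res le_rfl x = x
  res_res : ∀ {s t u : X.Idx} (h : s ≤ t) (h' : t ≤ u) (x : obj s),
    res h' (res h x) = res (h.trans h') x
  fg : ∀ s, Module.Finite (X.A s.1) (obj s)
  surj : ∀ {s t : X.Idx} (h : s ≤ t) (y : obj t),
    ∃ (a : X.A s.1) (x : obj s), IsUnit (X.inc h a) ∧ X.inc h a • y = res h x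
  inj : ∀ {s t : X.Idx} (h : s ≤ t) (x : obj s), res h x = 0 →
    ∃ a : X.A s.1, IsUnit (X.inc h a) ∧ a • x = 0

attribute [instance] Coh.acg Coh.mod Coh.fg

namespace Coh

variable {X : ProjVar k K}

/-- Morphisms of coherent sheaves. -/
@[ext] structure Hom (M N : Coh X) where
  app : ∀ s, M.obj s →ₗ[X.A s.1] N.obj s
  nat : ∀ {s t : X.Idx} (h : s ≤ t) (x : M.obj s), app t (M.res h x) = N.res h (app s x)

instance category : Category (Coh X) where
  Hom := Hom
  id _ := ⟨fun _ => LinearMap.id, fun _ _ => rfl⟩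
  comp φ ψ := ⟨fun s => ψ.app s ∘ₗ φ.app s, fun h x => by
    rw [LinearMap.comp_apply, LinearMap.comp_apply, φ.nat, ψ.nat]⟩

variable {L M N : Coh X}

@[ext] theorem hom_ext {φ ψ : M ⟶ N} (h : ∀ s x, φ.app s x = ψ.app s x) : φ = ψ :=
  Hom.ext (funext fun s => LinearMap.ext (h s))

@[simp] theorem id_app (s : X.Idx) (x : M.obj s) : Hom.app (𝟙 M) s x = x := rfl

@[simp] theorem comp_app (φ : L ⟶ M) (ψ : M ⟶ N) (s : X.Idx) (x : L.obj s) :
    (φ ≫ ψ).app s x = ψ.app s (φ.app s x) := rfl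

instance : Zero (M ⟶ N) := ⟨⟨fun _ => 0, fun _ _ => by simp⟩⟩
instance : Add (M ⟶ N) :=
  ⟨fun φ ψ => ⟨fun s => φ.app s + ψ.app s, fun h x => by simp [φ.nat, ψ.nat]⟩⟩
instance : Neg (M ⟶ N) := ⟨fun φ => ⟨fun s => -φ.app s, fun h x => by simp [φ.nat]⟩⟩
instance : Sub (M ⟶ N) :=
  ⟨fun φ ψ => ⟨fun s => φ.app s - ψ.app s, fun h x => by simp [φ.nat, ψ.nat]⟩⟩
instance : SMul ℕ (M ⟶ N) := ⟨fun n φ => ⟨fun s => n • φ.app s, fun h x => by simp [φ.nat]⟩⟩
instance : SMul ℤ (M ⟶ N) := ⟨fun n φ => ⟨fun s => n • φ.app s, fun h x => by simp [φ.nat]⟩⟩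

instance : AddCommGroup (M ⟶ N) :=
  Function.Injective.addCommGroup (fun φ : M ⟶ N => φ.app) (fun _ _ h => Hom.ext h)
    rfl (fun _ _ => rfl) (fun _ => rfl) (fun _ _ => rfl) (fun _ _ => rfl) (fun _ _ => rfl)

@[simp] theorem zero_app (s : X.Idx) (x : M.obj s) : (0 : M ⟶ N).app s x = 0 := rfl
@[simp] theorem add_app (φ ψ : M ⟶ N) (s : X.Idx) (x : M.obj s) :
    (φ + ψ).app s x = φ.app s x + ψ.app s x := rfl
@[simp] theorem neg_app (φ : M ⟶ N) (s : X.Idx) (x : M.obj s) :
    (-φ).app s x = -φ.app s x := rfl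
@[simp] theorem sub_app (φ ψ : M ⟶ N) (s : X.Idx) (x : M.obj s) :
    (φ - ψ).app s x = φ.app s x - ψ.app s x := rfl

instance preadditive : Preadditive (Coh X) where
  add_comp _ _ _ _ _ _ := by ext; simp
  comp_add _ _ _ _ _ _ := by ext; simp

/-- A coherent subsheaf. -/
structure Sub (N : Coh X) where
  P : ∀ s, Submodule (X.A s.1) (N.obj s)
  res_mem : ∀ {s t : X.Idx} (h : s ≤ t) {x : N.obj s}, x ∈ P s → N.res h x ∈ P t
  surj : ∀ {s t : X.Idx} (h : s ≤ t) {y : N.obj t}, y ∈ P t →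
    ∃ (a : X.A s.1) (x : N.obj s), x ∈ P s ∧ IsUnit (X.inc h a) ∧ X.inc h a • y = N.res h x

/-- The subsheaf as a sheaf. -/
def Sub.sub (S : N.Sub) : Coh X where
  obj s := S.P s
  res h :=
    { toFun := fun x => ⟨N.res h x.1, S.res_mem h x.2⟩
      map_zero' := Subtype.ext (map_zero _)
      map_add' := fun x y => Subtype.ext (map_add _ x.1 y.1) }
  res_smul h a x := Subtype.ext (N.res_smul h a x.1)
  res_refl x := Subtype.ext (N.res_refl x.1)
  res_res h h' x := Subtype.ext (N.res_res h h' x.1)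
  fg _ := inferInstance
  surj h y := by
    obtain ⟨a, x, hx, ha, e⟩ := S.surj h y.2
    exact ⟨a, ⟨x, hx⟩, ha, Subtype.ext e⟩
  inj h x hx := by
    obtain ⟨a, ha, e⟩ := N.inj h x.1 (congrArg Subtype.val hx)
    exact ⟨a, ha, Subtype.ext e⟩

/-- The quotient sheaf. -/
def Sub.quot (S : N.Sub) : Coh X where
  obj s := N.obj s ⧸ S.P s
  res h := QuotientAddGroup.map (S.P _).toAddSubgroup (S.P _).toAddSubgroup (N.res h)
    fun _ hx => S.res_mem h hx
  res_smul h a x := by
    obtain ⟨x, rfl⟩ := Submodule.Quotient.mk_surjective _ x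
    exact congrArg Submodule.Quotient.mk (N.res_smul h a x)
  res_refl x := by
    obtain ⟨x, rfl⟩ := Submodule.Quotient.mk_surjective _ x
    exact congrArg Submodule.Quotient.mk (N.res_refl x)
  res_res h h' x := by
    obtain ⟨x, rfl⟩ := Submodule.Quotient.mk_surjective _ x
    exact congrArg Submodule.Quotient.mk (N.res_res h h' x)
  fg _ := inferInstance
  surj h y := by
    obtain ⟨y, rfl⟩ := Submodule.Quotient.mk_surjective _ y
    obtain ⟨a, x, ha, e⟩ := N.surj h y
    exact ⟨a, Submodule.Quotient.mk x, ha, congrArg Submodule.Quotient.mk e⟩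
  inj h x hx := by
    obtain ⟨x, rfl⟩ := Submodule.Quotient.mk_surjective _ x
    have h1 : N.res h x ∈ S.P _ := (Submodule.Quotient.mk_eq_zero _).1 hx
    obtain ⟨a, x', hx', ha, e⟩ := S.surj h h1
    obtain ⟨b, hb, e'⟩ := N.inj h (a • x - x') (by rw [map_sub, N.res_smul, e, sub_self])
    refine ⟨b * a, by rw [map_mul]; exact hb.mul ha, ?_⟩
    rw [← Submodule.Quotient.mk_smul, Submodule.Quotient.mk_eq_zero, mul_smul,
      sub_eq_zero.1 ((smul_sub b _ _).symm.trans e')]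
    exact Submodule.smul_mem _ _ hx'

/-- Inclusion of a subsheaf. -/
def Sub.ι (S : N.Sub) : S.sub ⟶ N := ⟨fun s => (S.P s).subtype, fun _ _ => rfl⟩

/-- Projection to the quotient sheaf. -/
def Sub.π (S : N.Sub) : N ⟶ S.quot := ⟨fun s => (S.P s).mkQ, fun _ _ => rfl⟩

/-- Factorisation through a subsheaf. -/
def Sub.lift (S : N.Sub) (φ : M ⟶ N) (h : ∀ s x, φ.app s x ∈ S.P s) : M ⟶ S.sub :=
  ⟨fun s => (φ.app s).codRestrict _ (h s), fun h x => Subtype.ext (φ.nat h x)⟩

/-- Factorisation through a quotient sheaf. -/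
def Sub.desc (S : M.Sub) (φ : M ⟶ N) (h : ∀ s, ∀ x ∈ S.P s, φ.app s x = 0) : S.quot ⟶ N :=
  ⟨fun s => (S.P s).liftQ (φ.app s) (h s), fun h x => by
    obtain ⟨x, rfl⟩ := Submodule.Quotient.mk_surjective _ x
    exact φ.nat h x⟩

/-- Kernel of a morphism. -/
def ker (φ : M ⟶ N) : M.Sub where
  P s := LinearMap.ker (φ.app s)
  res_mem h x hx := by rw [LinearMap.mem_ker] at hx ⊢; rw [φ.nat, hx, map_zero]
  surj h y hy := by
    obtain ⟨a, x, ha, e⟩ := M.surj h y
    obtain ⟨b, hb, e'⟩ := N.inj h (φ.app _ x) (by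
      rw [← φ.nat, ← e, map_smul, LinearMap.mem_ker.1 hy, smul_zero])
    refine ⟨b * a, b • x, by rw [LinearMap.mem_ker, map_smul, e'],
      by rw [map_mul]; exact hb.mul ha, by rw [map_mul, mul_smul, e, M.res_smul]⟩

/-- Image of a morphism. -/
def range (φ : M ⟶ N) : N.Sub where
  P s := LinearMap.range (φ.app s)
  res_mem h := by rintro _ ⟨x, rfl⟩; exact ⟨_, φ.nat h x⟩
  surj h := by
    rintro _ ⟨y, rfl⟩
    obtain ⟨a, x, ha, e⟩ := M.surj h y
    exact ⟨a, _, ⟨x, rfl⟩, ha, by rw [← map_smul, e, φ.nat]⟩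

/-- Finite products. -/
def pi {ι : Type} [Finite ι] (N : ι → Coh X) : Coh X where
  obj s := ∀ i, (N i).obj s
  res h := AddMonoidHom.pi fun i => ((N i).res h).comp (Pi.evalAddMonoidHom _ i)
  res_smul h a x := funext fun i => (N i).res_smul h a (x i)
  res_refl x := funext fun i => (N i).res_refl (x i)
  res_res h h' x := funext fun i => (N i).res_res h h' (x i)
  fg _ := inferInstance
  surj h y := by
    classical
    have := Fintype.ofFinite ι
    choose a x ha e using fun i => (N i).surj h (y i)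
    refine ⟨∏ i, a i, fun i => (∏ j ∈ Finset.univ.erase i, a j) • x i, ?_, funext fun i => ?_⟩
    · rw [map_prod]; exact IsUnit.prod_univ_iff.2 ha
    · change X.inc h (∏ i, a i) • y i = (N i).res h ((∏ j ∈ Finset.univ.erase i, a j) • x i)
      rw [(N i).res_smul, ← e, ← mul_smul, ← map_mul, Finset.prod_erase_mul _ _ (Finset.mem_univ i)]
  inj h x hx := by
    classical
    have := Fintype.ofFinite ι
    choose a ha e using fun i => (N i).inj h (x i) (congrFun hx i)
    refine ⟨∏ i, a i, by rw [map_prod]; exact IsUnit.prod_univ_iff.2 ha, funext fun i => ?_⟩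
    change (∏ i, a i) • x i = 0
    rw [← Finset.prod_erase_mul _ _ (Finset.mem_univ i), mul_smul, e, smul_zero]

/-- Projection from a product. -/
def proj {ι : Type} [Finite ι] (N : ι → Coh X) (i : ι) : pi N ⟶ N i :=
  ⟨fun _ => LinearMap.proj i, fun _ _ => rfl⟩

/-- Morphism into a product. -/
def piLift {ι : Type} [Finite ι] {N : ι → Coh X} (φ : ∀ i, M ⟶ N i) : M ⟶ pi N :=
  ⟨fun s => LinearMap.pi fun i => (φ i).app s, fun h x => funext fun i => (φ i).nat h x⟩

instance hasFiniteProducts : HasFiniteProducts (Coh X) :=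
  ⟨fun _ => ⟨fun F => (hasLimit_iff_of_iso Discrete.natIsoFunctor).2 (HasLimit.mk
    ⟨_, Fan.IsLimit.mk (Fan.mk (pi (F.obj ∘ Discrete.mk)) (proj _)) (fun c => piLift c.proj)
      (fun _ _ => rfl) (fun _ _ hm => hom_ext fun s x => funext fun i =>
        congrArg (fun ψ => Hom.app ψ s x) (hm i))⟩)⟩⟩

theorem mono_of_inj (φ : M ⟶ N) (h : ∀ s, Function.Injective (φ.app s)) : Mono φ :=
  ⟨fun _ _ e => hom_ext fun s x => h s (congrArg (fun ψ => Hom.app ψ s x) e)⟩

theorem epi_of_surj (φ : M ⟶ N) (h : ∀ s, Function.Surjective (φ.app s)) : Epi φ :=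
  ⟨fun _ _ e => hom_ext fun s y => by
    obtain ⟨x, rfl⟩ := h s y
    exact congrArg (fun ψ => Hom.app ψ s x) e⟩

/-- A sectionwise kernel is a kernel. -/
noncomputable def isKernel (φ : L ⟶ M) (ψ : M ⟶ N) (w : φ ≫ ψ = 0)
    (hi : ∀ s, Function.Injective (φ.app s)) (he : ∀ s x, ψ.app s x = 0 → ∃ y, φ.app s y = x) :
    IsLimit (KernelFork.ofι φ w) :=
  have := mono_of_inj φ hi
  KernelFork.IsLimit.ofι' φ w fun {W} g hg =>
    have hm : ∀ s x, g.app s x ∈ LinearMap.range (φ.app s) := fun s x =>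
      he s _ (congrArg (fun ψ => Hom.app ψ s x) hg)
    have hv : ∀ s x, φ.app s ((LinearEquiv.ofInjective _ (hi s)).symm ⟨g.app s x, hm s x⟩) =
        g.app s x := fun s x => LinearEquiv.ofInjective_symm_apply _ _
    ⟨⟨fun s => (LinearEquiv.ofInjective _ (hi s)).symm.toLinearMap ∘ₗ
        (g.app s).codRestrict _ (hm s), fun h x => hi _ (by
      rw [φ.nat]; exact (hv _ _).trans ((g.nat h x).trans (congrArg _ (hv _ _).symm)))⟩,
      hom_ext hv⟩

/-- A sectionwise cokernel is a cokernel. -/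
noncomputable def isCokernel (φ : L ⟶ M) (ψ : M ⟶ N) (w : φ ≫ ψ = 0)
    (hs : ∀ s, Function.Surjective (ψ.app s)) (he : ∀ s x, ψ.app s x = 0 → ∃ y, φ.app s y = x) :
    IsColimit (CokernelCofork.ofπ ψ w) :=
  have := epi_of_surj ψ hs
  CokernelCofork.IsColimit.ofπ' ψ w fun {W} g hg =>
    have hm : ∀ s, LinearMap.ker (ψ.app s) ≤ LinearMap.ker (g.app s) := fun s x hx => by
      obtain ⟨y, rfl⟩ := he s x hx
      exact congrArg (fun ψ => Hom.app ψ s y) hg
    have hv : ∀ s x, (LinearMap.ker (ψ.app s)).liftQ (g.app s) (hm s)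
        (((ψ.app s).quotKerEquivOfSurjective (hs s)).symm (ψ.app s x)) = g.app s x :=
      fun s x => by rw [LinearMap.quotKerEquivOfSurjective_symm_apply]; rfl
    ⟨⟨fun s => (LinearMap.ker (ψ.app s)).liftQ (g.app s) (hm s) ∘ₗ
        ((ψ.app s).quotKerEquivOfSurjective (hs s)).symm.toLinearMap, fun h x => by
      obtain ⟨x, rfl⟩ := hs _ x
      rw [← ψ.nat]; exact (hv _ _).trans ((g.nat h x).trans (congrArg _ (hv _ _).symm))⟩,
      hom_ext hv⟩

noncomputable instance abelian : Abelian (Coh X) :=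
  Abelian.mk' fun _ _ φ => ⟨
    { kernelFork := KernelFork.ofι (ker φ).ι (hom_ext fun _ x => x.2)
      isLimitKernelFork := isKernel _ _ _ (fun _ => Subtype.val_injective)
        fun _ x hx => ⟨⟨x, hx⟩, rfl⟩
      cokernelCofork := CokernelCofork.ofπ (range φ).π
        (hom_ext fun _ x => (Submodule.Quotient.mk_eq_zero _).2 ⟨x, rfl⟩)
      isColimitCokernelCofork := isCokernel _ _ _ (fun _ => Submodule.mkQ_surjective _)
        fun _ _ hx => (Submodule.Quotient.mk_eq_zero _).1 hx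
      image := (range φ).sub
      imageπ := (range φ).lift φ fun _ x => ⟨x, rfl⟩
      ι_imageπ := hom_ext fun _ x => Subtype.ext x.2
      imageIsCokernel := isCokernel _ _ _ (fun _ ⟨_, x, hx⟩ => ⟨x, Subtype.ext hx⟩)
        fun _ x hx => ⟨⟨x, congrArg Subtype.val hx⟩, rfl⟩
      imageι := (range φ).ι
      imageι_π := hom_ext fun _ x => (Submodule.Quotient.mk_eq_zero _).2 x.2
      imageIsKernel := isKernel _ _ _ (fun _ => Subtype.val_injective)
        fun _ x hx => ⟨⟨x, (Submodule.Quotient.mk_eq_zero _).1 hx⟩, rfl⟩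
      fac := rfl }⟩

end Coh

end Pool.Agent.Lib.MP_cd184e_ag.T
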