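import Pool.Agent.Lib.MP_cd184e_ag.T.PB

set_option autoImplicit false

namespace Pool.Agent.Lib.MP_cd184e_ag.T

/-- The polynomial encoded by a natural number. -/
noncomputable def Pl.dc (n : ℕ) : Pl :=
  Nat.rec (motive := fun _ => ℕ → Pl) (fun _ => Pl.nil) (fun _ ih n => cond (Nat.beq n 0) Pl.nil
    (Pl.cons (n / 9 % 16) (n / 144 % 16) (n / 2304 % 16) (n / 36864 % 16) (n % 3) (n / 3 % 3)
      (ih (n / 589824)))) 99 n

noncomputable def digs (D n : ℕ) : List ℕ :=
  Nat.rec (motive := fun _ => ℕ → List ℕ) (fun _ => []) (fun _ ih n => n % 16 :: ih (n / 16)) D n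

/-- The form of degree `D` encoded by a natural number. -/
noncomputable def Fm.dc (D n : ℕ) : Fm :=
  Nat.rec (motive := fun _ => ℕ → Fm) (fun _ => Fm.nil) (fun _ ih n => cond (Nat.beq n 0) Fm.nil
    (Fm.cons (n % 3) (n / 3 % 3) (digs D (n / 9)) (ih (n / (9 * 16 ^ D))))) 99 n

noncomputable def zP (l : List (List ℕ)) : Mx := fun a b => Pl.dc (ofN l a b)

noncomputable def zPP (l : List (List (List ℕ))) : ℕ → Mx := fun j => zP (nth [] l j)

noncomputable def zF (D : ℕ) (l : List (List ℕ)) : ℕ → ℕ → Fm := fun a b => Fm.dc D (ofN l a b)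

variable {k K : Type} [Field k] [Field K] [Algebra k K]

open MvPolynomial in
noncomputable def Pl.toMv (i : k) (p : Pl) : MvPolynomial (Fin 4) k :=
  Pl.rec 0 (fun a b c d r s _ ih =>
    C ((r : k) + s * i) * (X 0 ^ a * X 1 ^ b * X 2 ^ c * X 3 ^ d) + ih) p

theorem Pl.aeval_toMv (i : k) (x : Fin 4 → K) (p : Pl) :
    MvPolynomial.aeval x (toMv i p) = ev (algebraMap k K i) x p := by
  induction p with
  | nil => exact map_zero _
  | cons a b c d r s tl ih =>
    change MvPolynomial.aeval x (_ + toMv i tl) = _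
    rw [map_add, ih, ev_cons]
    simp

/-- Check of an identity `p ^ (m + 1) = ∑ y t * g t`. -/
noncomputable def chkCov (F : ℕ → Pl) (p : Pl) (m n : ℕ) (y : ℕ → Pl) (g : ℕ → Fm) : Bool :=
  (allTo n fun t => Fm.hom m (g t)) &&
    Pl.eqv (Pl.pow p (m + 1)) (Pl.sumTo n fun t => Pl.mul (y t) (Fm.poly F (g t)))

theorem chkCov_spec [CharP K 3] {i : k} (hi : algebraMap k K i * algebraMap k K i = -1)
    {x : Fin 4 → K} {F : ℕ → Pl} {p : Pl} {m n : ℕ} {y : ℕ → Pl} {g : ℕ → Fm}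
    (h : chkCov F p m n y g = true) {T S : Submodule k K}
    (hT : ∀ t < n, Pl.ev (algebraMap k K i) x (y t) ∈ T)
    (hS : ∀ v, Pl.ev (algebraMap k K i) x (F v) ∈ S) :
    Pl.ev (algebraMap k K i) x p ^ (m + 1) ∈ T * S ^ m := by
  rw [chkCov, Bool.and_eq_true] at h
  rw [← Pl.ev_pow hi, Pl.ev_eqv hi h.2, Pl.ev_sumTo]
  refine Submodule.sum_mem _ fun t ht => ?_
  have ht' := Finset.mem_range.1 ht
  rw [Pl.ev_mul hi, Fm.ev_poly hi (t := 1) (f := fun v => Pl.ev (algebraMap k K i) x (F v))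
    (fun v => (one_mul _).symm) (allTo_spec h.1 ht'), one_pow, one_mul]
  exact Submodule.mul_mem_mul (hT t ht') (Fm.ev_mem i _ S hS (allTo_spec h.1 ht'))

end Pool.Agent.Lib.MP_cd184e_ag.T
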