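import Pool.Agent.Lib.MP_cd184e_ag.T.Tilt

set_option autoImplicit false

open CategoryTheory Limits

namespace Pool.Agent.Lib.MP_cd184e_ag.T

variable {k K : Type} [Field k] [Field K] [Algebra k K] {X : ProjVar k K}

instance Coh.hasExt : HasExt.{1} (Coh X) := HasExt.standard _

noncomputable instance Coh.hasDer : HasDerivedCategory.{1} (Coh X) := HasDerivedCategory.standard _

/-- The chart `f j ≠ 0` as an index. -/
def ProjVar.one (X : ProjVar k K) (j : X.J) : X.Idx :=
  ⟨{j.1}, Finset.singleton_nonempty _, Finset.singleton_subset_iff.2 j.2⟩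

@[simp] theorem ProjVar.one_val (X : ProjVar k K) (j : X.J) : (X.one j).1 = {j.1} := rfl

/-- A chosen chart containing the open set of index `s`. -/
noncomputable def ProjVar.pt (X : ProjVar k K) (s : X.Idx) : X.J :=
  ⟨s.2.1.choose, s.2.2 s.2.1.choose_spec⟩

theorem ProjVar.pt_mem (X : ProjVar k K) (s : X.Idx) : (X.pt s).1 ∈ s.1 := s.2.1.choose_spec

theorem ProjVar.one_le (X : ProjVar k K) {j : X.J} {s : X.Idx} (h : j.1 ∈ s.1) : X.one j ≤ s :=
  Finset.singleton_subset_iff.2 h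

@[simp] theorem ProjVar.pt_one (X : ProjVar k K) (j : X.J) : X.pt (X.one j) = j :=
  Subtype.ext (Finset.mem_singleton.1 (X.pt_mem (X.one j)))

namespace Coh

variable {L M N : Coh X}

theorem app_comp_zero {φ : L ⟶ M} {ψ : M ⟶ N} (w : φ ≫ ψ = 0) (s : X.Idx) (x : L.obj s) :
    ψ.app s (φ.app s x) = 0 := congrArg (fun ψ => Hom.app ψ s x) w

theorem shortExact_of (φ : L ⟶ M) (ψ : M ⟶ N) (w : φ ≫ ψ = 0)
    (hi : ∀ s, Function.Injective (φ.app s)) (he : ∀ s x, ψ.app s x = 0 → ∃ y, φ.app s y = x)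
    (hs : ∀ s, Function.Surjective (ψ.app s)) : (ShortComplex.mk φ ψ w).ShortExact :=
  have := mono_of_inj φ hi
  have := epi_of_surj ψ hs
  { exact := ShortComplex.exact_of_f_is_kernel _ (isKernel φ ψ w hi he) }

theorem Sub.shortExact (S : N.Sub) :
    (ShortComplex.mk S.ι S.π (hom_ext fun _ x =>
      (Submodule.Quotient.mk_eq_zero _).2 x.2)).ShortExact :=
  shortExact_of _ _ _ (fun _ => Subtype.val_injective)
    (fun _ x hx => ⟨⟨x, (Submodule.Quotient.mk_eq_zero _).1 hx⟩, rfl⟩)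
    fun _ => Submodule.mkQ_surjective _

theorem shortExact_ker (φ : M ⟶ N) (hs : ∀ s, Function.Surjective (φ.app s)) :
    (ShortComplex.mk (ker φ).ι φ (hom_ext fun _ x => x.2)).ShortExact :=
  shortExact_of _ _ _ (fun _ => Subtype.val_injective) (fun _ x hx => ⟨⟨x, hx⟩, rfl⟩) hs

theorem shortExact_coker (φ : M ⟶ N) (hi : ∀ s, Function.Injective (φ.app s)) :
    (ShortComplex.mk φ (range φ).π (hom_ext fun _ x =>
      (Submodule.Quotient.mk_eq_zero _).2 ⟨x, rfl⟩)).ShortExact :=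
  shortExact_of _ _ _ hi (fun _ _ hx => (Submodule.Quotient.mk_eq_zero _).1 hx)
    fun _ => Submodule.mkQ_surjective _

theorem inj_of_mono (φ : M ⟶ N) [Mono φ] (s : X.Idx) : Function.Injective (φ.app s) := by
  have h : (ker φ).ι = 0 := zero_of_comp_mono φ (hom_ext fun _ x => x.2)
  rw [injective_iff_map_eq_zero]
  exact fun x hx => congrArg (fun ψ : (ker φ).sub ⟶ M => Hom.app ψ s ⟨x, hx⟩) h

theorem surj_of_epi (φ : M ⟶ N) [Epi φ] (s : X.Idx) : Function.Surjective (φ.app s) := by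
  have h : (range φ).π = 0 := zero_of_epi_comp φ (hom_ext fun _ x =>
    (Submodule.Quotient.mk_eq_zero _).2 ⟨x, rfl⟩)
  exact fun y => (Submodule.Quotient.mk_eq_zero _).1 (congrArg (fun ψ => Hom.app ψ s y) h)

theorem exact_of_shortExact {S : ShortComplex (Coh X)} (hS : S.ShortExact) (s : X.Idx)
    (x : S.X₂.obj s) (hx : S.g.app s x = 0) : ∃ y, S.f.app s y = x := by
  have := hS.mono_f
  obtain ⟨l, hl⟩ := hS.exact.lift' (ker S.g).ι (hom_ext fun _ x => x.2)
  exact ⟨l.app s ⟨x, hx⟩, congrArg (fun ψ : (ker S.g).sub ⟶ S.X₂ => Hom.app ψ s ⟨x, hx⟩) hl⟩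

theorem exact_functor (F : Coh X ⥤ Coh X) [F.Additive]
    (h : ∀ {L M N : Coh X} (φ : L ⟶ M) (ψ : M ⟶ N), (∀ s, Function.Injective (φ.app s)) →
      (∀ s x, ψ.app s x = 0 → ∃ y, φ.app s y = x) → (∀ s, Function.Surjective (ψ.app s)) →
      (∀ s, Function.Injective ((F.map φ).app s)) ∧
      (∀ s x, (F.map ψ).app s x = 0 → ∃ y, (F.map φ).app s y = x) ∧
      ∀ s, Function.Surjective ((F.map ψ).app s)) :
    PreservesFiniteLimits F ∧ PreservesFiniteColimits F := by
  refine ((Functor.exact_tfae F).out 0 3).1 fun S hS => ?_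
  have := hS.mono_f
  have := hS.epi_g
  obtain ⟨h1, h2, h3⟩ := h S.f S.g (inj_of_mono _) (exact_of_shortExact hS) (surj_of_epi _)
  exact shortExact_of _ _ _ h1 h2 h3

theorem isIso_of_bij (φ : M ⟶ N) (hi : ∀ s, Function.Injective (φ.app s))
    (hs : ∀ s, Function.Surjective (φ.app s)) : IsIso φ :=
  have := mono_of_inj φ hi
  have := epi_of_surj φ hs
  isIso_of_mono_of_epi φ

theorem eq_zero_of_one (h : ∀ j : X.J, ∀ x : N.obj (X.one j), x = 0) (s : X.Idx) (y : N.obj s) :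
    y = 0 := by
  obtain ⟨a, x, ha, e⟩ := N.surj (X.one_le (X.pt_mem s)) y
  rw [h _ x, map_zero] at e
  exact (ha.smul_eq_zero).1 e

theorem inj_of_one (φ : M ⟶ N) (h : ∀ j : X.J, Function.Injective (φ.app (X.one j)))
    (s : X.Idx) : Function.Injective (φ.app s) := by
  rw [injective_iff_map_eq_zero]
  intro x hx
  exact congrArg Subtype.val (eq_zero_of_one (N := (ker φ).sub)
    (fun j y => Subtype.ext ((injective_iff_map_eq_zero _).1 (h j) y.1 y.2)) s ⟨x, hx⟩)

theorem surj_of_one (φ : M ⟶ N) (h : ∀ j : X.J, Function.Surjective (φ.app (X.one j)))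
    (s : X.Idx) : Function.Surjective (φ.app s) := fun y =>
  (Submodule.Quotient.mk_eq_zero _).1 (eq_zero_of_one (N := (range φ).quot) (fun j y => by
    obtain ⟨y, rfl⟩ := Submodule.Quotient.mk_surjective _ y
    exact (Submodule.Quotient.mk_eq_zero _).2 (h j y)) s (Submodule.Quotient.mk y))

theorem isZero_of (h : ∀ s, ∀ x : N.obj s, x = 0) : IsZero N :=
  (IsZero.iff_id_eq_zero N).2 (hom_ext fun s x => h s x)

theorem sum_app {ι : Type} (t : Finset ι) (φ : ι → (M ⟶ N)) (s : X.Idx) (x : M.obj s) :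
    (∑ i ∈ t, φ i).app s x = ∑ i ∈ t, (φ i).app s x := by
  classical
  induction t using Finset.induction_on with
  | empty => simp
  | insert a t ha ih => rw [Finset.sum_insert ha, Finset.sum_insert ha, add_app, ih]

end Coh

end Pool.Agent.Lib.MP_cd184e_ag.T
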