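import Pool.Agent.Lib.MP_cd184e_ag.T.Tw

set_option autoImplicit false

open CategoryTheory Limits Abelian Filter

namespace Pool.Agent.Lib.MP_cd184e_ag.T

variable {k K : Type} [Field k] [Field K] [Algebra k K] {X : ProjVar k K}

namespace ProjVar

/-- Intersection with the chart `j`. -/
def ins (X : ProjVar k K) (j : X.J) (s : X.Idx) : X.Idx :=
  ⟨insert j.1 s.1, Finset.insert_nonempty _ _, Finset.insert_subset j.2 s.2.2⟩

theorem le_ins (j : X.J) (s : X.Idx) : s ≤ X.ins j s := Finset.subset_insert _ _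

theorem one_le_ins (j : X.J) (s : X.Idx) : X.one j ≤ X.ins j s :=
  X.one_le (Finset.mem_insert_self _ _)

theorem ins_mono (j : X.J) {s t : X.Idx} (h : s ≤ t) : X.ins j s ≤ X.ins j t :=
  Finset.insert_subset_insert _ h

theorem ins_one_le (j : X.J) : X.ins j (X.one j) ≤ X.one j :=
  Finset.insert_subset (Finset.mem_singleton_self _) (Finset.Subset.refl _)

theorem exists_pow_mul_mem {u v : Finset (Fin X.n)} {h : K} (hh : h ∈ X.A u)
    (H : ∀ l, ∀ i ∈ v, i ∈ u ∨ h * (X.f l / X.f i) ∈ X.A u) {y : K} (hy : y ∈ X.A v) :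
    ∃ m : ℕ, h ^ m * y ∈ X.A u := by
  induction hy using Algebra.adjoin_induction with
  | mem x hx =>
    obtain ⟨l, i, hi, rfl⟩ := hx
    rcases H l i hi with e | e
    · exact ⟨0, by rw [pow_zero, one_mul]; exact X.div_mem l e⟩
    · exact ⟨1, by rwa [pow_one]⟩
  | algebraMap r => exact ⟨0, by rw [pow_zero, one_mul]; exact Subalgebra.algebraMap_mem _ r⟩
  | add x y _ _ ihx ihy =>
    obtain ⟨a, ha⟩ := ihx
    obtain ⟨b, hb⟩ := ihy
    refine ⟨a + b, ?_⟩
    rw [show h ^ (a + b) * (x + y) = h ^ b * (h ^ a * x) + h ^ a * (h ^ b * y) by ring]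
    exact add_mem (mul_mem (pow_mem hh _) ha) (mul_mem (pow_mem hh _) hb)
  | mul x y _ _ ihx ihy =>
    obtain ⟨a, ha⟩ := ihx
    obtain ⟨b, hb⟩ := ihy
    refine ⟨a + b, ?_⟩
    rw [show h ^ (a + b) * (x * y) = h ^ a * x * (h ^ b * y) by ring]
    exact mul_mem ha hb

theorem exists_dvd_pow {u v : X.Idx} (huv : u ≤ v) (h : X.A u.1)
    (H : ∀ l, ∀ i ∈ v.1, i ∈ u.1 ∨ h * (X.f l / X.f i) ∈ X.A u.1) {a : X.A u.1}
    (ha : IsUnit (X.inc huv a)) : ∃ m : ℕ, a ∣ h ^ m := by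
  obtain ⟨y, hy⟩ := ha.exists_right_inv
  obtain ⟨m, hm⟩ := exists_pow_mul_mem h.2 H y.2
  have e : (a : K) * y = 1 := by simpa using congrArg Subtype.val hy
  refine ⟨m, ⟨_, hm⟩, Subtype.ext ?_⟩
  change ((h ^ m : X.A u.1) : K) = a * (h ^ m * y)
  rw [SubmonoidClass.coe_pow, mul_left_comm, e, mul_one]

/-- The coordinate `f l` as a function on the open set of index `s`. -/
noncomputable def co (X : ProjVar k K) (l : Fin X.n) (s : X.Idx) : X.A s.1 :=
  ⟨X.f l / X.fp s, X.div_mem l (X.pt_mem s)⟩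

@[simp] theorem coe_co (l : Fin X.n) (s : X.Idx) : (X.co l s : K) = X.f l / X.fp s := rfl

theorem co_one (j : X.J) : X.co j.1 (X.one j) = 1 :=
  Subtype.ext (by simp [X.ne _ j.2])

theorem co_pt (s : X.Idx) : X.co (X.pt s).1 s = 1 := Subtype.ext (div_self (X.fp_ne s))

theorem f_pow_mem (X : ProjVar k K) (l : Fin X.n) (t : ℕ) : X.f l ^ t ∈ X.Deg t :=
  X.Rd_le_Deg t (X.pow_mem_Rd (X.f_mem_Rd _) t)

theorem sec_pow (l : Fin X.n) (t : ℕ) (h : X.f l ^ t ∈ X.Deg t) (s : X.Idx) :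
    X.sec (X.f l ^ t) h s = X.co l s ^ t := Subtype.ext (by simp [div_pow])

/-- A function that is a unit on the chart `j` divides a power of `f j`. -/
theorem dvd_co_pow (j : X.J) (s : X.Idx) {a : X.A s.1} (ha : IsUnit (X.inc (le_ins j s) a)) :
    ∃ m : ℕ, a ∣ X.co j.1 s ^ m :=
  exists_dvd_pow _ _ (fun l i hi => (Finset.mem_insert.1 hi).symm.imp_right fun e => by
    rw [e, coe_co, mul_comm, div_mul_div_cancel₀ (X.ne _ j.2)]
    exact (X.co l s).2) ha

theorem dvd_prod_pow (j : X.J) {s t : X.Idx} (h : s ≤ t) {a : X.A (X.ins j s).1}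
    (ha : IsUnit (X.inc (ins_mono j h) a)) :
    ∃ b : X.A s.1, IsUnit (X.inc h b) ∧ a ∣ X.inc (le_ins j s) b := by
  obtain ⟨m, hm⟩ := exists_dvd_pow _ (X.inc (le_ins j s) (∏ i ∈ t.1, X.co i s)) (fun l i hi =>
    (Finset.mem_insert.1 hi).imp (fun e => Finset.mem_insert.2 (Or.inl e)) fun e => by
      rw [← Finset.prod_erase_mul _ _ e, coe_inc, MulMemClass.coe_mul, mul_assoc, coe_co,
        mul_comm (_ / _), div_mul_div_cancel₀ (X.ne_of_mem e)]
      exact X.A_mono (le_ins j s) (mul_mem (Subtype.prop _) (X.co l s).2)) ha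
  refine ⟨(∏ i ∈ t.1, X.co i s) ^ m, ?_, by rwa [map_pow]⟩
  rw [map_pow, map_prod]
  refine IsUnit.pow _ (IsUnit.prod_iff.2 fun i hi => ?_)
  rw [show X.inc h (X.co i s) = ⟨_, X.div_mem i (h (X.pt_mem s))⟩ from Subtype.ext (X.coe_inc _ _)]
  exact X.isUnit_div hi (h (X.pt_mem s))

theorem nil_add {V a b : Submodule k K} {Z : ℕ → Submodule k K}
    (hZ : ∀ d, V * Z d ≤ Z (d + 1)) {t : ℕ} (ha : a ≤ V) (hb : b ≤ V)
    (h1 : ∃ m, a ^ (t + m) ≤ Z m) (h2 : ∃ m, b ^ (t + m) ≤ Z m) :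
    ∃ m, (a + b) ^ (t + m) ≤ Z m := by
  have hZ' : ∀ e d, V ^ e * Z d ≤ Z (d + e) := fun e d => by
    induction e with
    | zero => simp
    | succ e ih => rw [pow_succ', mul_assoc]; exact (mul_le_mul_right ih _).trans (hZ _)
  have one : ∀ {a b : Submodule k K} {m i j M : ℕ}, a ≤ V → b ≤ V → a ^ (t + m) ≤ Z m →
      t + m ≤ i → i + j = t + M → a ^ i * b ^ j ≤ Z M := fun {a b m i j M} ha hb h hi e => by
    obtain ⟨c, rfl⟩ := Nat.exists_eq_add_of_le hi
    rw [show a ^ (t + m + c) * b ^ j = a ^ c * b ^ j * a ^ (t + m) by ring,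
      show M = m + (c + j) by omega]
    refine (mul_le_mul' ?_ h).trans (hZ' _ _)
    rw [pow_add]
    exact mul_le_mul' (pow_le_pow_left' ha _) (pow_le_pow_left' hb _)
  obtain ⟨m, h1⟩ := h1
  obtain ⟨n, h2⟩ := h2
  have : ∀ e i j, i + j + e = t + (t + m + n) → a ^ i * b ^ j * (a + b) ^ e ≤ Z (t + m + n) := by
    intro e
    induction e with
    | zero =>
      intro i j e
      rw [pow_zero, mul_one]
      rcases le_or_gt (t + m) i with h | h
      · exact one ha hb h1 h e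
      · rw [mul_comm]; exact one hb ha h2 (by omega) (by omega)
    | succ e ih =>
      intro i j h
      rw [show a ^ i * b ^ j * (a + b) ^ (e + 1) = a ^ (i + 1) * b ^ j * (a + b) ^ e +
        a ^ i * b ^ (j + 1) * (a + b) ^ e by ring]
      exact sup_le (ih _ _ (by omega)) (ih _ _ (by omega))
  exact ⟨_, by simpa using this _ 0 0 (zero_add _)⟩

theorem nil_span {V : Submodule k K} {Z : ℕ → Submodule k K}
    (hZ : ∀ d, V * Z d ≤ Z (d + 1)) {t : ℕ} {ι : Type} (x : ι → K) (T : Finset ι)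
    (hx : ∀ i, x i ∈ V) (h : ∀ i ∈ T, ∃ m, x i ^ (t + m) ∈ Z m) :
    ∃ m, Submodule.span k (x '' T) ^ (t + m) ≤ Z m := by
  classical
  induction T using Finset.induction_on with
  | empty => exact ⟨1, by simp⟩
  | insert i T _ ih =>
    rw [Finset.coe_insert, Set.image_insert_eq, Submodule.span_insert]
    refine nil_add hZ ((Submodule.span_singleton_le_iff_mem _ _).2 (hx i))
      (Submodule.span_le.2 (by rintro _ ⟨i, -, rfl⟩; exact hx i)) ?_
      (ih fun i hi => h i (Finset.mem_insert_of_mem hi))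
    obtain ⟨m, hm⟩ := h i (Finset.mem_insert_self _ _)
    exact ⟨m, by rwa [Submodule.span_pow, Set.singleton_pow, Submodule.span_singleton_le_iff_mem]⟩

end ProjVar

namespace Coh

open ProjVar

/-- The localisation of a submodule. -/
def loc (N : Coh X) {u v : X.Idx} (h : u ≤ v) (W : Submodule (X.A u.1) (N.obj u)) :
    Submodule (X.A v.1) (N.obj v) where
  carrier := {z | ∃ a, IsUnit (X.inc h a) ∧ ∃ w ∈ W, X.inc h a • z = N.res h w}
  zero_mem' := ⟨1, by simp, 0, zero_mem _, by simp⟩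
  add_mem' := by
    rintro x y ⟨a, ha, w, hw, e⟩ ⟨b, hb, w', hw', e'⟩
    refine ⟨a * b, by rw [map_mul]; exact ha.mul hb, b • w + a • w',
      add_mem (W.smul_mem _ hw) (W.smul_mem _ hw'), ?_⟩
    rw [map_add, N.res_smul, N.res_smul, ← e, ← e', map_mul, smul_add, ← mul_smul, ← mul_smul,
      mul_comm (X.inc h b)]
  smul_mem' := by
    rintro c z ⟨a, ha, w, hw, e⟩
    obtain ⟨b, d, hb, e'⟩ := X.exists_denominator h c
    refine ⟨a * b, by rw [map_mul]; exact ha.mul hb, d • w, W.smul_mem _ hw, ?_⟩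
    rw [N.res_smul, ← e, ← e', map_mul, ← mul_smul, ← mul_smul, mul_comm _ (X.inc h a), mul_assoc]

theorem res_mem_loc (N : Coh X) {u v : X.Idx} (h : u ≤ v) {W : Submodule (X.A u.1) (N.obj u)}
    {w : N.obj u} (hw : w ∈ W) : N.res h w ∈ N.loc h W := ⟨1, by simp, w, hw, by simp⟩

theorem loc_res (N : Coh X) {u v v' : X.Idx} {h : u ≤ v} (h' : v ≤ v')
    {W : Submodule (X.A u.1) (N.obj u)} {z : N.obj v} (hz : z ∈ N.loc h W) :
    N.res h' z ∈ N.loc (h.trans h') W := by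
  obtain ⟨a, ha, w, hw, e⟩ := hz
  exact ⟨a, by rw [← X.inc_inc h h']; exact ha.map _, w, hw, by
    rw [← X.inc_inc h h', ← N.res_smul, e, N.res_res]⟩

/-- The largest subsheaf with a given module of sections on the chart `j`. -/
def sat (N : Coh X) (j : X.J) (W : Submodule (X.A (X.one j).1) (N.obj (X.one j))) : N.Sub where
  P s :=
    { carrier := {x | N.res (le_ins j s) x ∈ N.loc (one_le_ins j s) W}
      zero_mem' := by simp
      add_mem' := fun ha hb => by
        rw [Set.mem_ofPred_eq, map_add]; exact add_mem ha hb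
      smul_mem' := fun c x hx => by
        rw [Set.mem_ofPred_eq, N.res_smul]; exact Submodule.smul_mem _ _ hx }
  res_mem {s t} h x hx := by
    have := N.loc_res (ins_mono j h) hx
    rw [N.res_res] at this
    change N.res (le_ins j t) (N.res h x) ∈ N.loc (one_le_ins j t) W
    rwa [N.res_res]
  surj {s t} h y hy := by
    obtain ⟨a, x, ha, e⟩ := N.surj h y
    obtain ⟨b, hb, w, hw, e1⟩ := (N.loc (one_le_ins j t) W).smul_mem
      (X.inc (le_ins j t) (X.inc h a)) hy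
    rw [← N.res_smul, e, N.res_res] at e1
    obtain ⟨c, hc, e2⟩ := N.inj (ins_mono j h) (X.inc (one_le_ins j s) b • N.res (le_ins j s) x -
      N.res (one_le_ins j s) w) (by
        rw [map_sub, N.res_smul, N.res_res, N.res_res, X.inc_inc, e1, sub_self])
    obtain ⟨d, hd, d', e3⟩ := dvd_prod_pow j h (a := c * X.inc (one_le_ins j s) b) (by
      rw [map_mul, X.inc_inc]; exact hc.mul hb)
    refine ⟨d * a, d • x, ?_, by rw [map_mul]; exact hd.mul ha, by
      rw [map_mul, mul_smul, e, N.res_smul]⟩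
    change N.res (le_ins j s) (d • x) ∈ N.loc (one_le_ins j s) W
    rw [N.res_smul, e3, mul_comm, mul_smul, mul_smul,
      sub_eq_zero.1 ((smul_sub c _ _).symm.trans e2)]
    exact Submodule.smul_mem _ _ (Submodule.smul_mem _ _ (N.res_mem_loc _ hw))

theorem mem_sat (N : Coh X) (j : X.J) (W : Submodule (X.A (X.one j).1) (N.obj (X.one j)))
    (x : N.obj (X.one j)) : x ∈ (N.sat j W).P (X.one j) ↔ x ∈ W := by
  refine ⟨fun hx => ?_, fun hx => N.res_mem_loc _ hx⟩
  obtain ⟨a, ha, w, hw, e⟩ := N.loc_res (ins_one_le j) hx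
  rw [N.res_res, N.res_refl, N.res_refl, X.inc_refl] at e
  rw [X.inc_refl] at ha
  exact (W.smul_mem_iff_of_isUnit ha).1 (e ▸ hw)

/-- A sheaf vanishing on the chart `j` is killed by the large powers of `f j`. -/
theorem ev_kill (N : Coh X) (j : X.J) (h : ∀ x : N.obj (X.one j), x = 0) :
    ∀ᶠ t : ℕ in atTop, ∀ (s : X.Idx) (x : N.obj s), X.co j.1 s ^ t • x = 0 := by
  refine eventually_all.2 fun s => ?_
  obtain ⟨m, hm⟩ := (Module.End.isNilpotent_iff_of_finite
    (f := X.co j.1 s • (1 : Module.End (X.A s.1) (N.obj s)))).2 fun x => by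
      obtain ⟨a, y, ha, e⟩ := N.surj (one_le_ins j s) (N.res (le_ins j s) x)
      rw [h y, map_zero] at e
      obtain ⟨b, hb, e'⟩ := N.inj _ x (ha.smul_eq_zero.1 e)
      obtain ⟨m, c, hc⟩ := dvd_co_pow j s hb
      refine ⟨m, ?_⟩
      rw [smul_pow, one_pow, LinearMap.smul_apply, Module.End.one_apply, hc, mul_comm, mul_smul, e',
        smul_zero]
  filter_upwards [eventually_ge_atTop m] with t ht x
  obtain ⟨c, rfl⟩ := Nat.exists_eq_add_of_le' ht
  have := LinearMap.congr_fun hm x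
  rw [smul_pow, one_pow, LinearMap.smul_apply, Module.End.one_apply, LinearMap.zero_apply] at this
  rw [pow_add, mul_smul, this, smul_zero]

theorem mu_pow_app (N : Coh X) (a b : ℤ) (l : Fin X.n) (t : ℕ) (hr : X.f l ^ t ∈ X.Deg t)
    (hd : a + t = b) (s : X.Idx) (x : N.obj s) :
    (mu N a b _ hr hd).app s x = X.co l s ^ t • x := by rw [mu_app, sec_pow]

/-- Multiplication `N ⟶ N(t)` by `f l ^ t`. -/
noncomputable def tau (l : Fin X.n) (t : ℕ) : 𝟭 (Coh X) ⟶ tw (t : ℤ) where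
  app N := (tw0 N).inv ≫ mu N 0 t _ (X.f_pow_mem l t) (zero_add _)
  naturality _ _ φ := hom_ext fun s x => ((φ.app s).map_smul _ x).symm

theorem tau_app (l : Fin X.n) (t : ℕ) (N : Coh X) (s : X.Idx) (x : N.obj s) :
    ((tau l t).app N).app s x = X.co l s ^ t • x :=
  mu_pow_app N 0 t l t (X.f_pow_mem l t) (zero_add _) s x

/-- A morphism that is bijective on the chart `j` has an inverse up to a power of `f j`. -/
theorem ev_inv {Γ G : Coh X} (p : Γ ⟶ G) (j : X.J) (hp : Function.Bijective (p.app (X.one j))) :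
    ∀ᶠ t : ℕ in atTop, ∃ ψ : G ⟶ (tw t).obj Γ, ∀ x, p.app (X.one j) (ψ.app (X.one j) x) = x := by
  obtain ⟨a, ha⟩ := (ev_kill (range p).quot j fun y => by
    obtain ⟨y, rfl⟩ := Submodule.Quotient.mk_surjective _ y
    exact (Submodule.Quotient.mk_eq_zero _).2 (hp.2 y)).exists
  obtain ⟨b, hb⟩ := eventually_atTop.1 (ev_kill (ker p).sub j fun y =>
    Subtype.ext ((injective_iff_map_eq_zero _).1 hp.1 y.1 y.2))
  filter_upwards [eventually_ge_atTop (a + b)] with t ht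
  obtain ⟨c, rfl⟩ := Nat.exists_eq_add_of_le (le_of_add_le_left ht)
  let q := (tw (a : ℤ)).map p
  obtain ⟨l, hl⟩ := CokernelCofork.IsColimit.desc' (isCokernel (ker q).ι
    ((range q).lift q fun _ x => ⟨x, rfl⟩) (hom_ext fun _ x => Subtype.ext x.2)
    (fun _ ⟨_, x, hx⟩ => ⟨x, Subtype.ext hx⟩) fun _ x hx => ⟨⟨x, congrArg Subtype.val hx⟩, rfl⟩)
    (mu Γ a (a + c : ℕ) _ (X.f_pow_mem j.1 c) (Nat.cast_add a c).symm) (hom_ext fun s x =>
      (mu_pow_app Γ _ _ _ _ _ (Nat.cast_add a c).symm s x.1).trans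
        (congrArg Subtype.val (hb c (by omega) s x)))
  refine ⟨(range q).lift ((tau j.1 a).app G) (fun s x => ?_) ≫ l, fun x => ?_⟩
  · rw [tau_app]
    exact (Submodule.Quotient.mk_eq_zero _).1 (ha s (Submodule.Quotient.mk x))
  obtain ⟨y, rfl⟩ := hp.2 x
  have e := (congrArg (fun φ : (tw a).obj Γ ⟶ (tw (a + c : ℕ)).obj Γ => φ.app (X.one j) y)
    hl).trans (mu_pow_app Γ _ _ _ _ _ (Nat.cast_add a c).symm _ y)
  rw [co_one, one_pow, one_smul] at e
  refine congrArg _ (Eq.trans (congrArg (l.app _) (Subtype.ext ?_)) e)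
  exact (tau_app _ _ G _ _).trans (by rw [co_one, one_pow, one_smul]; rfl)

theorem ev_extend (G P : Coh X) (j : X.J)
    (σ : G.obj (X.one j) →ₗ[X.A (X.one j).1] P.obj (X.one j)) :
    ∀ᶠ t : ℕ in atTop, ∃ ψ : G ⟶ (tw t).obj P, ∀ x, ψ.app (X.one j) x = σ x := by
  let γ := (biprod.inl : G ⟶ G ⊞ P).app (X.one j) + (biprod.inr : P ⟶ G ⊞ P).app (X.one j) ∘ₗ σ
  have e1 : ∀ x, (biprod.fst : G ⊞ P ⟶ G).app (X.one j) (γ x) = x := fun x => by
    rw [LinearMap.add_apply, map_add, LinearMap.comp_apply, ← comp_app, ← comp_app,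
      biprod.inl_fst, biprod.inr_fst]
    exact add_zero _
  have e2 : ∀ x, (biprod.snd : G ⊞ P ⟶ P).app (X.one j) (γ x) = σ x := fun x => by
    rw [LinearMap.add_apply, map_add, LinearMap.comp_apply, ← comp_app, ← comp_app,
      biprod.inl_snd, biprod.inr_snd]
    exact zero_add _
  let S := (G ⊞ P).sat j (LinearMap.range γ)
  refine (ev_inv (S.ι ≫ biprod.fst) j ⟨(injective_iff_map_eq_zero _).2 fun y hy => ?_,
    fun x => ⟨⟨γ x, (mem_sat _ _ _ _).2 ⟨x, rfl⟩⟩, e1 x⟩⟩).mono fun t ⟨ψ, hψ⟩ => ?_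
  swap
  · refine ⟨ψ ≫ (tw t).map (S.ι ≫ biprod.snd), fun x => ?_⟩
    obtain ⟨x', hx⟩ := (mem_sat _ _ _ _).1 (ψ.app (X.one j) x).2
    have := hψ x
    change (biprod.fst : G ⊞ P ⟶ G).app (X.one j) (ψ.app (X.one j) x).1 = x at this
    change (biprod.snd : G ⊞ P ⟶ P).app (X.one j) (ψ.app (X.one j) x).1 = _
    rw [← hx, e1] at this
    rw [← hx, e2, this]
  · obtain ⟨x', hx⟩ := (mem_sat _ _ _ _).1 y.2
    change (biprod.fst : G ⊞ P ⟶ G).app (X.one j) y.1 = 0 at hy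
    rw [← hx, e1] at hy
    exact Subtype.ext (by rw [← hx, hy, map_zero]; rfl)

/-- A linear map on one chart extends to a morphism into a twist. -/
theorem exists_extend (G P : Coh X) (j : X.J)
    (σ : G.obj (X.one j) →ₗ[X.A (X.one j).1] P.obj (X.one j)) :
    ∃ (t : ℕ) (ψ : G ⟶ (tw t).obj P), ∀ x, ψ.app (X.one j) x = σ x :=
  (ev_extend G P j σ).exists

theorem ev_kill_hom {G N : Coh X} (φ : G ⟶ N) (j : X.J) (h : ∀ x, φ.app (X.one j) x = 0) :
    ∀ᶠ t : ℕ in atTop, ∀ s x, X.co j.1 s ^ t • φ.app s x = 0 := by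
  filter_upwards [ev_kill (range φ).sub j fun ⟨_, x, hx⟩ => Subtype.ext (hx.symm.trans (h x))]
    with t ht s x
  exact congrArg Subtype.val (ht s ⟨_, x, rfl⟩)

/-- A morphism vanishing on the chart `j` is killed by a power of `f j`. -/
theorem exists_mu_eq_zero {G N : Coh X} {a : ℤ} (φ : G ⟶ (tw a).obj N) (j : X.J)
    (h : ∀ x, φ.app (X.one j) x = 0) :
    ∃ t : ℕ, φ ≫ mu N a (a + t) (X.f j.1 ^ t)
      (X.Rd_le_Deg t (X.pow_mem_Rd (X.f_mem_Rd _) t)) rfl = 0 := by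
  obtain ⟨t, ht⟩ := (ev_kill_hom φ j h).exists
  exact ⟨t, hom_ext fun s x => (mu_pow_app N a _ _ _ _ rfl s _).trans (ht s x)⟩

/-- Forms of large degree lie in the ideal generated by the powers of the `f j`. -/
theorem _root_.Pool.Agent.Lib.MP_cd184e_ag.T.ProjVar.exists_Rd_le (X : ProjVar k K) (t : ℕ) :
    ∃ d : ℕ, ∀ r ∈ X.Rd (t + d), ∃ c : X.J → K,
      (∀ j, c j ∈ X.Rd d) ∧ r = ∑ j, X.f j.1 ^ t * c j := by
  classical
  let V := Submodule.span k (Set.range X.f)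
  let Z : ℕ → Submodule k K := fun d => (Submodule.pi Set.univ fun _ : X.J => V ^ d).map
    (∑ j : X.J, LinearMap.mulLeft k (X.f j.1 ^ t) ∘ₗ LinearMap.proj j)
  have mZ : ∀ d r, r ∈ Z d ↔ ∃ c : X.J → K, (∀ j, c j ∈ V ^ d) ∧ r = ∑ j, X.f j.1 ^ t * c j :=
    fun d r => by simp [Z, Submodule.mem_pi, LinearMap.sum_apply, eq_comm]
  have hZ : ∀ d, V * Z d ≤ Z (d + 1) := fun d => Submodule.mul_le.2 fun v hv r hr => by
    obtain ⟨c, hc, rfl⟩ := (mZ _ _).1 hr
    refine (mZ _ _).2 ⟨fun j => v * c j, fun j => ?_, ?_⟩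
    · rw [pow_succ']; exact Submodule.mul_mem_mul hv (hc j)
    · rw [Finset.mul_sum]; exact Finset.sum_congr rfl fun _ _ => mul_left_comm _ _ _
  have hZ' : ∀ e d, V ^ e * Z d ≤ Z (d + e) := fun e d => by
    induction e with
    | zero => simp
    | succ e ih => rw [pow_succ', mul_assoc]; exact (mul_le_mul_right ih _).trans (hZ _)
  have hV : ∀ l, X.f l ∈ V := fun l => Submodule.subset_span ⟨l, rfl⟩
  obtain ⟨m, hm⟩ := nil_span hZ (t := t) X.f X.J hV fun j hj => ⟨0, (mZ _ _).2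
    ⟨Pi.single ⟨j, hj⟩ 1, fun i => by
      rw [pow_zero, Pi.single_apply]
      split_ifs
      exacts [Submodule.one_le.1 le_rfl, zero_mem _], by simp [Pi.single_apply]⟩⟩
  obtain ⟨d, hd⟩ := nil_span hZ (t := t) X.f Finset.univ hV fun l _ => by
    obtain ⟨e, he⟩ := X.cover l
    have := Submodule.pow_mem_pow _ he (t + m)
    rw [mul_pow, ← pow_mul, ← pow_mul, mul_comm (_ ^ (t + m))] at this
    exact ⟨m + e * (t + m), by
      rw [show t + (m + e * (t + m)) = (e + 1) * (t + m) by ring]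
      exact hZ' _ _ (mul_le_mul_right hm _ this)⟩
  rw [Finset.coe_univ, Set.image_univ] at hd
  exact ⟨d, fun r hr => (mZ _ _).1 (hd hr)⟩

/-- Inclusion of a factor of a product. -/
def incl {ι : Type} [Finite ι] [DecidableEq ι] (N : ι → Coh X) (i : ι) : N i ⟶ pi N :=
  ⟨fun s => LinearMap.single (X.A s.1) (fun i => (N i).obj s) i, fun h x => funext fun i' =>
    (Pi.apply_single (fun i => (N i).res h) (fun _ => map_zero _) i x i').symm⟩

/-- Every coherent sheaf is a quotient of a sum of copies of `O(-t)`. -/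
theorem exists_epi (N : Coh X) : ∃ (t m : ℕ) (π : (pi fun _ : Fin m => O X (-t)) ⟶ N),
    ∀ s, Function.Surjective (π.app s) := by
  choose n x hx using fun j : X.J => Module.Finite.exists_fin (R := X.A (X.one j).1)
    (M := N.obj (X.one j))
  obtain ⟨t, ht⟩ := (eventually_all.2 fun i : Σ j, Fin (n j) => ev_extend (unit X) N i.1
    (LinearMap.toSpanSingleton _ _ (x i.1 i.2))).exists
  choose ψ hψ using ht
  let e := Fintype.equivFin (Σ j, Fin (n j))
  refine ⟨t, _, ∑ i, proj _ (e i) ≫ (tw (-t)).map (ψ i) ≫ (twtw N t (-t) 0 (add_neg_cancel _)).hom ≫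
    (tw0 N).hom, surj_of_one _ fun j => ?_⟩
  rw [← LinearMap.range_eq_top, eq_top_iff, ← hx j, Submodule.span_le]
  rintro _ ⟨i, rfl⟩
  refine ⟨Pi.single (e ⟨j, i⟩) (1 : X.A (X.one j).1), ?_⟩
  refine (sum_app _ _ _ _).trans ((Finset.sum_eq_single ⟨j, i⟩ (fun b _ hb => ?_)
    (by simp)).trans ?_)
  · exact (congrArg ((ψ b).app _) (Pi.single_eq_of_ne (e.injective.ne hb) _)).trans (map_zero _)
  · exact (congrArg ((ψ ⟨j, i⟩).app _) (Pi.single_eq_same
      (M := fun _ => X.A (X.one j).1) (e ⟨j, i⟩) 1)).trans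
      ((hψ ⟨j, i⟩ _).trans (one_smul _ _))

end Coh

end Pool.Agent.Lib.MP_cd184e_ag.T
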