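import Pool.Agent.Lib.MP_cd184e_ag.T.Kill

set_option autoImplicit false

open CategoryTheory Limits Abelian

namespace Pool.Agent.Lib.MP_cd184e_ag.T

variable {k K : Type} [Field k] [Field K] [Algebra k K] {X : ProjVar k K}

namespace Coh

section

variable (p : ℕ) [Fact p.Prime] [CharP k p] [PerfectField k]

theorem frob_smul (N : Coh X) (s : X.Idx) (a : X.A s.1) (x : N.obj s) :
    (a • (show (frob p N).obj s from x) : (frob p N).obj s) = (a ^ p • x : N.obj s) := rfl

/-- The Frobenius direct image of a morphism. -/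
def frobMap {M N : Coh X} (φ : M ⟶ N) : frob p M ⟶ frob p N where
  app s :=
    { toFun := fun x => φ.app s x
      map_add' := fun x y => (φ.app s).map_add x y
      map_smul' := fun a x => (φ.app s).map_smul (a ^ p) x }
  nat h x := φ.nat h x

/-- The Frobenius direct image as a functor. -/
@[reducible] def frobF : Coh X ⥤ Coh X where
  obj := frob p
  map := frobMap p
  map_id _ := hom_ext fun _ _ => rfl
  map_comp _ _ := hom_ext fun _ _ => rfl

instance : (frobF (X := X) p).Additive where
  map_add := hom_ext fun _ _ => rfl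

instance : PreservesFiniteLimits (frobF (X := X) p) :=
  (exact_functor _ fun _ _ h1 h2 h3 => ⟨h1, h2, h3⟩).1

instance : PreservesFiniteColimits (frobF (X := X) p) :=
  (exact_functor _ fun _ _ h1 h2 h3 => ⟨h1, h2, h3⟩).2

/-- The `p`-th power map. -/
def frobUnit (X : ProjVar k K) : unit X ⟶ frob p (unit X) where
  app s :=
    { toFun := fun a => frobenius (X.A s.1) p a
      map_add' := fun a b => (frobenius (X.A s.1) p).map_add a b
      map_smul' := fun a b => (frobenius (X.A s.1) p).map_mul a b }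
  nat {s _} h x := (map_pow (X.inc h) (show X.A s.1 from x) p).symm

/-- Projection formula for twists. -/
noncomputable def frobTw (N : Coh X) (a b : ℤ) (hb : a * p = b) :
    (tw a).obj (frob p N) ⟶ frob p ((tw b).obj N) where
  app s :=
    { toFun := fun x => x
      map_add' := fun _ _ => rfl
      map_smul' := fun _ _ => rfl }
  nat {s t} h x := by
    change (X.tr h a ^ p • N.res h x : N.obj t) = X.tr h b • N.res h x
    congr 1
    refine Subtype.ext ?_
    rw [SubmonoidClass.coe_pow, ProjVar.coe_tr, ProjVar.coe_tr, ← hb, zpow_mul, zpow_natCast]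

/-- Frobenius direct image of a product. -/
def frobPi {I : Type} [Finite I] (N : I → Coh X) :
    (pi fun i => frob p (N i)) ⟶ frob p (pi N) where
  app _ :=
    { toFun := fun x => x
      map_add' := fun _ _ => rfl
      map_smul' := fun _ _ => rfl }
  nat _ _ := rfl

theorem frob_kill (N : Coh X) (n : ℕ) (x : Ext (unit X) (frob p N) (n + 1)) :
    ∃ (N' : Coh X) (i : N ⟶ N'), Mono i ∧ x.comp (Ext.mk₀ (frobMap p i)) (add_zero _) = 0 := by
  obtain ⟨t, ht⟩ := kill locProj_unit (frob p N) 0
    (x.comp (Ext.mk₀ (tw0 (frob p N)).inv) (add_zero _))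
  have hb : ((0 : ℤ) + t) * p = 0 + (t * p : ℕ) := by push_cast; ring
  refine ⟨_, (tw0 N).inv ≫ muAll N 0 (t * p),
    mono_of_inj _ fun s => muAll_inj N 0 (t * p) s, ?_⟩
  have e : frobMap p ((tw0 N).inv ≫ muAll N 0 (t * p)) =
      piLift (fun j : X.J => (tw0 (frob p N)).inv ≫ mu (frob p N) 0 (0 + t) (X.f j.1 ^ t)
        (X.Rd_le_Deg t (X.pow_mem_Rd (X.f_mem_Rd _) t)) rfl ≫ frobTw p N _ _ hb) ≫
        frobPi p fun _ : X.J => (tw (0 + (t * p : ℕ))).obj N := by
    refine hom_ext fun s z => funext fun j => ?_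
    change (X.sec (X.f j.1 ^ (t * p)) (X.Rd_le_Deg _ (X.pow_mem_Rd (X.f_mem_Rd _) _)) s •
      (show N.obj s from z) : N.obj s) =
      X.sec (X.f j.1 ^ t) (X.Rd_le_Deg t (X.pow_mem_Rd (X.f_mem_Rd _) t)) s ^ p •
        (show N.obj s from z)
    congr 1
    refine Subtype.ext ?_
    rw [SubmonoidClass.coe_pow, ProjVar.coe_sec, ProjVar.coe_sec, zpow_natCast, zpow_natCast,
      div_pow, pow_mul, pow_mul]
  have c : ∀ {L M P : Coh X} (z : Ext (unit X) L (n + 1)) (a : L ⟶ M) (b : M ⟶ P),
      z.comp (Ext.mk₀ (a ≫ b)) (add_zero _) =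
        (z.comp (Ext.mk₀ a) (add_zero _)).comp (Ext.mk₀ b) (add_zero _) := fun z a b => by
    rw [Ext.comp_assoc_of_second_deg_zero, Ext.mk₀_comp_mk₀]
  rw [e, c, comp_piLift_eq_zero x _ fun j => ?_, Ext.zero_comp]
  rw [c, c, ht _ (X.pow_mem_Rd (X.f_mem_Rd _) t), Ext.zero_comp]

theorem frob_lift (N : Coh X) (g : unit X ⟶ frob p N) :
    ∃ g' : unit X ⟶ N, frobUnit p X ≫ frobMap p g' = g := by
  refine ⟨⟨fun s => LinearMap.toSpanSingleton (X.A s.1) (N.obj s) (g.app s (1 : X.A s.1)),
    fun {s t} h a => ?_⟩, hom_ext fun s a => ?_⟩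
  · have e : (g.app t (X.inc h 1) : N.obj t) = N.res h (g.app s (1 : X.A s.1)) := g.nat h _
    rw [map_one] at e
    change (X.inc h a • (show N.obj t from g.app t (1 : X.A t.1)) : N.obj t) =
      N.res h ((show X.A s.1 from a) • (show N.obj s from g.app s (1 : X.A s.1)))
    rw [N.res_smul]
    exact congrArg _ e
  · have e := (g.app s).map_smul (show X.A s.1 from a) (1 : X.A s.1)
    exact e.symm.trans (congrArg (g.app s) (mul_one (show X.A s.1 from a)))

end

/-- Cohomology of the Frobenius direct image. -/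
theorem frob_van (p : ℕ) [Fact p.Prime] [CharP k p] [PerfectField k] (N : Coh X) (n : ℕ)
    (h : Subsingleton (Ext (unit X) N n)) : Subsingleton (Ext (unit X) (frob p N) n) :=
  ext_surj (𝟭 _) (frobF p) (frobF p) (frobF p).leftUnitor.hom (A := unit X) (frobUnit p X)
    (fun M g => by
      obtain ⟨g', e⟩ := frob_lift p M g
      exact ⟨g', (congrArg _ (Category.comp_id _)).trans e⟩)
    (frob_kill p) n N h

theorem frob_tw0 (p : ℕ) [Fact p.Prime] [CharP k p] [PerfectField k] :
    Nonempty (frob p (O X 0) ≅ frob p (unit X)) := ⟨(frobF p).mapIso (tw0 _)⟩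

end Coh

end Pool.Agent.Lib.MP_cd184e_ag.T
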