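import Mathlib

set_option autoImplicit false

open CategoryTheory Limits Abelian

namespace Pool.Agent.Lib.MP_cd184e_ag.T

open Polynomial TensorProduct

section
variable {R : Type} [CommRing R]

theorem hilb_ses {L M N : Type} [AddCommGroup L] [Module R L] [AddCommGroup M] [Module R M]
    [AddCommGroup N] [Module R N] (f : L →ₗ[R] M) (g : M →ₗ[R] N) (hf : Function.Injective f)
    (he : Function.Exact f g) (hg : Function.Surjective g) :
    (ModuleCat.shortComplexOfCompEqZero f g he.linearMap_comp_eq_zero).ShortExact :=
  ModuleCat.shortComplex_shortExact _ he hf hg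

theorem hilb_proj_iff (M : Type) [AddCommGroup M] [Module R M] :
    HasProjectiveDimensionLE (ModuleCat.of R M) 0 ↔ Module.Projective R M := by
  rw [← projective_iff_hasProjectiveDimensionLE_zero, ← IsProjective.iff_projective]

theorem hilb_ses_iff {L M N : Type} [AddCommGroup L] [Module R L] [AddCommGroup M] [Module R M]
    [AddCommGroup N] [Module R N] [Module.Projective R M] (f : L →ₗ[R] M) (g : M →ₗ[R] N)
    (hf : Function.Injective f) (he : Function.Exact f g) (hg : Function.Surjective g) (n : ℕ) :
    HasProjectiveDimensionLE (ModuleCat.of R N) (n + 1) ↔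
      HasProjectiveDimensionLE (ModuleCat.of R L) n :=
  (hilb_ses f g hf he hg).hasProjectiveDimensionLT_X₃_iff n
    ((IsProjective.iff_projective M).1 inferInstance)

theorem hilb_bc_iff (S : Type) [CommRing S] [Algebra R S] [Module.Flat R S] {L M N : Type}
    [AddCommGroup L] [Module R L] [AddCommGroup M] [Module R M]
    [AddCommGroup N] [Module R N] [Module.Projective R M] (f : L →ₗ[R] M) (g : M →ₗ[R] N)
    (hf : Function.Injective f) (he : Function.Exact f g) (hg : Function.Surjective g) (n : ℕ) :
    HasProjectiveDimensionLE (ModuleCat.of S (S ⊗[R] N)) (n + 1) ↔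
      HasProjectiveDimensionLE (ModuleCat.of S (S ⊗[R] L)) n :=
  hilb_ses_iff (f.baseChange S) (g.baseChange S)
    (Module.Flat.lTensor_preserves_injective_linearMap f hf) (lTensor_exact S he hg)
    (LinearMap.lTensor_surjective S hg) n

/-- flat base change does not raise the projective dimension -/
theorem hilb_baseChange (S : Type) [CommRing S] [Algebra R S] [Module.Flat R S] (n : ℕ)
    (M : Type) [AddCommGroup M] [Module R M] (h : HasProjectiveDimensionLE (ModuleCat.of R M) n) :
    HasProjectiveDimensionLE (ModuleCat.of S (S ⊗[R] M)) n := by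
  induction n generalizing M with
  | zero =>
    rw [hilb_proj_iff] at h ⊢
    infer_instance
  | succ n ih =>
    let π : (M →₀ R) →ₗ[R] M := Finsupp.linearCombination R id
    have hπ : Function.Surjective π := Finsupp.linearCombination_id_surjective R M
    have h0 : Function.Injective (LinearMap.ker π).subtype := Subtype.val_injective
    have h1 := (hilb_ses_iff (L := LinearMap.ker π) (LinearMap.ker π).subtype π h0
      (LinearMap.exact_subtype_ker_map π) hπ n).1 h
    exact (hilb_bc_iff S (L := LinearMap.ker π) (LinearMap.ker π).subtype π h0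
      (LinearMap.exact_subtype_ker_map π) hπ n).2 (ih _ h1)

variable (M : Type) [AddCommGroup M] [Module R M] [Module R[X] M] [IsScalarTower R R[X] M]

/-- multiplication by the variable -/
noncomputable def hilbX : M →ₗ[R] M := (LinearMap.lsmul R[X] M X).restrictScalars R

/-- `p ↦ X p - x p` -/
noncomputable def hilbD : PolynomialModule R M →ₗ[R[X]] PolynomialModule R M where
  toFun p := (X : R[X]) • p - PolynomialModule.map R (hilbX M) p
  map_add' p q := by rw [smul_add, map_add]; abel
  map_smul' a p := by
    rw [PolynomialModule.map_smul, Algebra.algebraMap_self, Polynomial.map_id, RingHom.id_apply,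
      smul_sub, smul_comm]

/-- evaluation -/
noncomputable def hilbE : PolynomialModule R M →ₗ[R[X]] M where
  toFun p := PolynomialModule.eval (X : R[X]) (PolynomialModule.map R[X] LinearMap.id p)
  map_add' p q := by rw [map_add, map_add]
  map_smul' a p := by
    rw [PolynomialModule.map_smul, PolynomialModule.eval_smul, Polynomial.eval_map,
      Polynomial.algebraMap_eq, Polynomial.eval₂_C_X, RingHom.id_apply]

theorem hilbE_single (n : ℕ) (m : M) :
    hilbE M (PolynomialModule.single R n m) = (X : R[X]) ^ n • m := by
  show PolynomialModule.eval (X : R[X]) (PolynomialModule.map R[X] LinearMap.id _) = _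
  rw [PolynomialModule.map_single, PolynomialModule.eval_single, LinearMap.id_apply]

theorem hilbD_single (n : ℕ) (m : M) : hilbD M (PolynomialModule.single R n m) =
    PolynomialModule.single R (n + 1) m - PolynomialModule.single R n ((X : R[X]) • m) := by
  show (X : R[X]) • _ - PolynomialModule.map R (hilbX M) _ = _
  rw [PolynomialModule.map_single, ← monomial_one_one_eq_X, PolynomialModule.monomial_smul_single,
    one_smul, add_comm]
  rfl

theorem hilbD_inj : Function.Injective (hilbD (R := R) M) := by
  rw [injective_iff_map_eq_zero]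
  intro p hp
  have h1 : ∀ n, p.coeff n = (X : R[X]) • p.coeff (n + 1) := fun n => by
    have h2 : (X : R[X]) • p = PolynomialModule.map R (hilbX M) p := sub_eq_zero.1 hp
    have h3 := congrArg (fun q => q.coeff (n + 1)) h2
    rw [← monomial_one_one_eq_X] at h3
    simp only [PolynomialModule.monomial_smul_apply] at h3
    rw [if_pos (by omega), one_smul, Nat.add_sub_cancel] at h3
    exact h3
  have h2 : ∀ d n, p.coeff n = (X : R[X]) ^ d • p.coeff (n + d) := by
    intro d
    induction d with
    | zero => simp
    | succ d ih => exact fun n => by rw [ih n, h1 (n + d), pow_succ, mul_smul, add_assoc]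
  ext n
  obtain ⟨d, hd⟩ := p.coeff.support.exists_le
  have h3 : p.coeff (n + (d + 1)) = 0 := by
    by_contra hne
    have := hd _ (Finsupp.mem_support_iff.2 hne)
    omega
  rw [h2 (d + 1) n, h3, smul_zero]
  rfl

theorem hilb_exact : Function.Exact (hilbD (R := R) M) (hilbE M) := by
  have h1 : ∀ p, hilbE M (hilbD (R := R) M p) = 0 := fun p => by
    induction p using PolynomialModule.induction_linear with
    | zero => simp
    | add p q hp hq => rw [map_add, map_add, hp, hq, add_zero]
    | single n m => rw [hilbD_single, map_sub, hilbE_single, hilbE_single, pow_succ, mul_smul,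
        sub_self]
  have h2 : ∀ p, p - PolynomialModule.single R 0 (hilbE M p) ∈
      LinearMap.range (hilbD (R := R) M) := fun p => by
    induction p using PolynomialModule.induction_linear with
    | zero => simp
    | add p q hp hq =>
      rw [map_add, PolynomialModule.single_add, add_sub_add_comm]
      exact add_mem hp hq
    | single n m =>
      induction n generalizing m with
      | zero => simp [hilbE_single]
      | succ n ih =>
        have h3 := add_mem (LinearMap.mem_range_self (hilbD (R := R) M)
          (PolynomialModule.single R n m)) (ih ((X : R[X]) • m))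
        rw [hilbD_single, sub_add_sub_cancel, hilbE_single, ← mul_smul, ← pow_succ] at h3
        rwa [hilbE_single]
  refine fun p => ⟨fun hp => ?_, ?_⟩
  · have := h2 p
    rw [hp] at this
    simpa using this
  · rintro ⟨q, rfl⟩
    exact h1 q

theorem hilbE_surj : Function.Surjective (hilbE (R := R) M) := fun m =>
  ⟨PolynomialModule.single R 0 m, by rw [hilbE_single, pow_zero, one_smul]⟩

end

theorem hilb_poly {R : Type} [CommRing R] {n : ℕ}
    (h : ∀ M : ModuleCat.{0} R, HasProjectiveDimensionLE M n) (M : ModuleCat.{0} R[X]) :
    HasProjectiveDimensionLE M (n + 1) := by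
  let : Module R M := Module.compHom M (algebraMap R R[X])
  have : IsScalarTower R R[X] M := IsScalarTower.of_algebraMap_smul fun _ _ => rfl
  have h1 := hilb_baseChange R[X] n M (h _)
  have h2 : HasProjectiveDimensionLE (ModuleCat.of R[X] (PolynomialModule R M)) n :=
    ModuleCat.hasProjectiveDimensionLE_of_linearEquiv (M := ModuleCat.of R[X] (R[X] ⊗[R] M))
      (PolynomialModule.polynomialTensorProductLEquivPolynomialModule R M) n
  exact (hilb_ses _ _ (hilbD_inj M) (hilb_exact M) (hilbE_surj M)).hasProjectiveDimensionLT_X₃
    (n + 1) h2 (hasProjectiveDimensionLT_of_ge _ (n + 1) _ (by omega))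

attribute [local instance] RingHomInvPair.of_ringEquiv in
theorem hilb_equiv {R S : Type} [CommRing R] [CommRing S] (e : R ≃+* S) {n : ℕ}
    (h : ∀ M : ModuleCat.{0} R, HasProjectiveDimensionLE M n) (N : ModuleCat.{0} S) :
    HasProjectiveDimensionLE N n := by
  let : Module R N := Module.compHom N e.toRingHom
  have := h (ModuleCat.of R N)
  exact ModuleCat.hasProjectiveDimensionLE_of_semiLinearEquiv e (M := ModuleCat.of R N)
    { AddEquiv.refl N with map_smul' := fun _ _ => rfl } n

theorem hilb_mv (k : Type) [Field k] (n : ℕ) (M : ModuleCat.{0} (MvPolynomial (Fin n) k)) :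
    HasProjectiveDimensionLE M n := by
  induction n with
  | zero =>
    refine hilb_equiv (MvPolynomial.isEmptyRingEquiv k (Fin 0)).symm (fun N => ?_) M
    exact (hilb_proj_iff N).2 inferInstance
  | succ n ih => exact hilb_equiv (MvPolynomial.finSuccEquiv k n).toRingEquiv.symm (hilb_poly ih) M

/-- Hilbert syzygy theorem. -/
theorem hilbert (k : Type) [Field k] (n : ℕ) (A : Type) [CommRing A] [Algebra k A]
    (e : A ≃ₐ[k] MvPolynomial (Fin n) k) (M : ModuleCat.{0} A) :
    HasProjectiveDimensionLE M n :=
  hilb_equiv e.toRingEquiv.symm (hilb_mv k n) M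

theorem projective_syzygy (k : Type) [Field k] (n : ℕ) (A : Type) [CommRing A] [Algebra k A]
    (e : A ≃ₐ[k] MvPolynomial (Fin n) k) (Z P : ℕ → Type) [∀ m, AddCommGroup (Z m)]
    [∀ m, Module A (Z m)] [∀ m, AddCommGroup (P m)] [∀ m, Module A (P m)]
    [∀ m, Module.Projective A (P m)] (i : ∀ m, Z (m + 1) →ₗ[A] P m) (p : ∀ m, P m →ₗ[A] Z m)
    (hi : ∀ m, Function.Injective (i m)) (he : ∀ m, Function.Exact (i m) (p m))
    (hp : ∀ m, Function.Surjective (p m)) : Module.Projective A (Z n) := by
  have key : ∀ m d, m + d = n → HasProjectiveDimensionLE (ModuleCat.of A (Z m)) d := by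
    intro m
    induction m with
    | zero =>
      intro d hd
      obtain rfl : d = n := by omega
      exact hilbert k d A e _
    | succ m ih =>
      exact fun d hd => (hilb_ses_iff (i m) (p m) (hi m) (he m) (hp m) d).1 (ih (d + 1) (by omega))
  exact (hilb_proj_iff _).1 (key n 0 rfl)

end Pool.Agent.Lib.MP_cd184e_ag.T
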