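import Mathlib

set_option autoImplicit false

open CategoryTheory Limits Abelian

namespace Pool.Agent.Lib.MP_cd184e_ag.T

variable {C : Type 1} [Category.{0} C] [Abelian C] [HasDerivedCategory.{1} C]

/-- `N` lies in the thick subcategory generated by `T`. -/
def InC (T N : C) : Prop :=
  ObjectProperty.triangEnvelope (fun Z => Z = (DerivedCategory.singleFunctor C 0).obj T)
    ((DerivedCategory.singleFunctor C 0).obj N)

/-- The thick subcategory generated by `T`. -/
abbrev Thk (T : C) : ObjectProperty (DerivedCategory C) :=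
  ObjectProperty.triangEnvelope (fun Z => Z = (DerivedCategory.singleFunctor C 0).obj T)

instance thk_tri (T : C) : (Thk T).IsTriangulated :=
  haveI : ObjectProperty.Nonempty (C := DerivedCategory C)
    (fun Z => Z = (DerivedCategory.singleFunctor C 0).obj T) := ⟨_, rfl⟩
  inferInstanceAs (ObjectProperty.triangEnvelope _).IsTriangulated

variable {T : C}

theorem InC.self : InC T T := ObjectProperty.le_triangEnvelope _ _ rfl

theorem InC.retract {M N : C} (a : M ⟶ N) (b : N ⟶ M) (hab : a ≫ b = 𝟙 M) (h : InC T N) :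
    InC T M :=
  (Thk T).prop_of_retract (Retract.map ⟨a, b, hab⟩ (DerivedCategory.singleFunctor C 0)) h

theorem InC.mid {S : ShortComplex C} (hS : S.ShortExact) (h1 : InC T S.X₁) (h3 : InC T S.X₃) :
    InC T S.X₂ :=
  (Thk T).ext_of_isTriangulatedClosed₂ _ hS.singleTriangle_distinguished h1 h3

theorem InC.dec {N : C} {I : Type} [Fintype I] {F : I → C} (a : ∀ x, N ⟶ F x) (b : ∀ x, F x ⟶ N)
    (hab : ∑ x, a x ≫ b x = 𝟙 N) (h : ∀ x, InC T (F x)) : InC T N := by
  classical
  have key : ∀ s : Finset I, ∃ (M : C) (a' : N ⟶ M) (b' : M ⟶ N), InC T M ∧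
      a' ≫ b' = ∑ x ∈ s, a x ≫ b x := fun s => by
    induction s using Finset.induction_on with
    | empty => exact ⟨T, 0, 0, InC.self, by simp⟩
    | insert x s hx ih =>
      obtain ⟨M, a', b', hM, e⟩ := ih
      exact ⟨F x ⊞ M, biprod.lift (a x) a', biprod.desc (b x) b',
        InC.mid (ShortComplex.Splitting.ofHasBinaryBiproduct (F x) M).shortExact (h x) hM,
        by rw [biprod.lift_desc, e, Finset.sum_insert hx]⟩
  obtain ⟨M, a', b', hM, e⟩ := key Finset.univ
  exact InC.retract a' b' (e.trans hab) hM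

theorem InC.left {S : ShortComplex C} (hS : S.ShortExact) (h2 : InC T S.X₂) (h3 : InC T S.X₃) :
    InC T S.X₁ :=
  (Thk T).ext_of_isTriangulatedClosed₁ _ hS.singleTriangle_distinguished h2 h3

theorem InC.right {S : ShortComplex C} (hS : S.ShortExact) (h1 : InC T S.X₁) (h2 : InC T S.X₂) :
    InC T S.X₃ :=
  (Thk T).ext_of_isTriangulatedClosed₃ _ hS.singleTriangle_distinguished h1 h2

/-- An object with a resolution by objects of the thick subcategory lies in it, as soon as the
extension group towards a far syzygy vanishes. -/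
theorem InC.of_syzygy [HasExt.{1} C] (Z P : ℕ → C) (i : ∀ n, Z (n + 1) ⟶ P n)
    (p : ∀ n, P n ⟶ Z n) (w : ∀ n, i n ≫ p n = 0)
    (hS : ∀ n, (ShortComplex.mk (i n) (p n) (w n)).ShortExact) (hP : ∀ n, InC T (P n)) (m : ℕ)
    (h : Subsingleton (Ext (Z 0) (Z m) m)) : InC T (Z 0) := by
  have key : ∀ n : ℕ, ∃ x : Ext (Z 0) (Z n) n, (Thk T).trW x.hom := fun n => by
    induction n with
    | zero =>
      refine ⟨Ext.mk₀ (𝟙 _), ?_⟩
      rw [Ext.mk₀_hom, ShiftedHom.mk₀]
      exact (Thk T).trW_of_isIso _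
    | succ n ih =>
      obtain ⟨x, hx⟩ := ih
      have e : (Thk T).trW (hS n).extClass.hom := by
        rw [(hS n).extClass_hom]
        exact ObjectProperty.trW.mk' (Thk T) (Pretriangulated.rot_of_distTriang _
          (hS n).singleTriangle_distinguished) (hP n)
      refine ⟨x.comp (hS n).extClass rfl, ?_⟩
      have := Ext.comp_hom x (hS n).extClass rfl
      exact this ▸ (Thk T).trW.comp_mem _ _ hx ((Thk T).trW.comp_mem _ _ (e.shift _)
        ((Thk T).trW_of_isIso _))
  obtain ⟨x, hx⟩ := key m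
  rw [Subsingleton.elim x 0, Ext.zero_hom, ObjectProperty.trW_iff'] at hx
  obtain ⟨X, f, g, hT, hX⟩ := hx
  obtain ⟨r, hr⟩ := Pretriangulated.Triangle.coyoneda_exact₂ _ hT (𝟙 _) comp_zero
  exact (Thk T).prop_of_retract ⟨r, f, hr.symm⟩ hX

open DerivedCategory in
theorem InC.bounded (h : ∀ N : C, InC T N) (Y : DerivedCategory C)
    (hY : ∃ a b : ℤ, Y.IsGE a ∧ Y.IsLE b) :
    ObjectProperty.triangEnvelope (fun Z => Z = (DerivedCategory.singleFunctor C 0).obj T) Y := by
  have one : ∀ (a : ℤ) (Y : DerivedCategory C), Y.IsGE a → Y.IsLE a → Thk T Y := by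
    intro a Y _ _
    obtain ⟨N, ⟨e⟩⟩ := Y.exists_iso_singleFunctor_obj_of_isGE_of_isLE a
    exact (Thk T).prop_of_iso (((singleFunctors C).shiftIso (-a) a 0 (neg_add_cancel a)).app N ≪≫
      e.symm) ((Thk T).le_shift (-a) _ (h N))
  obtain ⟨a, b, ha, hb⟩ := hY
  have key : ∀ (d : ℕ) (Y : DerivedCategory C), Y.IsGE a → Y.IsLE (a + d) → Thk T Y := by
    intro d
    induction d with
    | zero => exact fun Y h1 h2 => one a Y h1 (by simpa using h2)
    | succ d ih =>
      intro Y h1 h2
      refine (Thk T).ext_of_isTriangulatedClosed₂ _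
        (TStructure.t.triangleLTGE_distinguished (a + (d + 1 : ℕ)) Y) (ih _ ?_ ?_)
        (one (a + (d + 1 : ℕ)) _ ?_ ?_)
      · exact inferInstanceAs (TStructure.t.IsGE ((TStructure.t.truncLT _).obj Y) a)
      · exact TStructure.t.isLE_truncLT_obj Y _ _ (by lia)
      · exact TStructure.t.isGE_truncGE_obj Y _ _ le_rfl
      · exact inferInstanceAs (TStructure.t.IsLE ((TStructure.t.truncGE _).obj Y) _)
  exact key (b - a).toNat Y ha (TStructure.t.isLE_of_le Y b _ (by lia))

end Pool.Agent.Lib.MP_cd184e_ag.T
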