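import Pool.Agent.Lib.MP_cd184e_ag.T.Cd
import Pool.Agent.Lib.MP_cd184e_ag.T.Thick
import Pool.Agent.Lib.MP_cd184e_ag.T.Hilbert

set_option autoImplicit false

open CategoryTheory Limits Abelian

namespace Pool.Agent.Lib.MP_cd184e_ag.T

variable {k K : Type} [Field k] [Field K] [Algebra k K] {X : ProjVar k K}

namespace Coh

theorem gen_pi {T M : Coh X} (h : InC T M) (m : ℕ) : InC T (pi fun _ : Fin m => M) := by
  refine InC.dec (F := fun _ : Fin m => M) (fun i => proj (fun _ : Fin m => M) i)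
    (fun i => piLift fun j => if j = i then 𝟙 M else 0) ?_ fun _ => h
  refine hom_ext fun s x => funext fun j => ?_
  have h1 := congrArg (fun φ => Hom.app φ s x) (Preadditive.sum_comp Finset.univ
    (fun i : Fin m => proj (fun _ : Fin m => M) i ≫ piLift fun j => if j = i then 𝟙 M else 0)
    (proj (fun _ : Fin m => M) j))
  refine Eq.trans h1 ?_
  rw [Finset.sum_eq_single j]
  · show Hom.app ((if j = j then 𝟙 M else 0 : M ⟶ M)) s (x j) = x j
    rw [if_pos rfl, id_app]
  · intro i _ hi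
    refine hom_ext fun s x => ?_
    show Hom.app ((if j = i then 𝟙 M else 0 : M ⟶ M)) s (x i) = 0
    rw [if_neg hi.symm, zero_app]
  · simp

theorem gen_ker_w {M N : Coh X} (φ : M ⟶ N) : (ker φ).ι ≫ φ = 0 := hom_ext fun _ x => x.2

/-- iterated syzygies -/
def genZ {Q : Coh X → Coh X} (π : ∀ M, Q M ⟶ M) (N : Coh X) : ℕ → Coh X
  | 0 => N
  | m + 1 => (ker (π (genZ π N m))).sub

theorem gen_locProj (a : ℤ) (m : ℕ) : LocProj (pi fun _ : Fin m => O X a) := fun j =>
  (inferInstance : Module.Projective (X.A (X.one j).1) (Fin m → X.A (X.one j).1))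

/-- The line bundles `O(-t)` generate. -/
theorem gen_all {ys : List K} (hy : X.NoZero ys) (n : ℕ)
    (hA : ∀ j : X.J, Nonempty (X.A {j.1} ≃ₐ[k] MvPolynomial (Fin n) k)) {T : Coh X}
    (h : ∀ t : ℕ, InC T (O X (-t))) (N : Coh X) : InC T N := by
  have hex : ∀ M : Coh X, ∃ (P : Coh X) (π : P ⟶ M), InC T P ∧ LocProj P ∧
      ∀ s, Function.Surjective (π.app s) := fun M => by
    obtain ⟨t, m, π, hπ⟩ := exists_epi M
    exact ⟨_, π, gen_pi (h t) m, gen_locProj _ m, hπ⟩
  choose Q π hQ hL hπ using hex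
  let Z : ℕ → Coh X := genZ π N
  let i : ∀ m, Z (m + 1) ⟶ Q (Z m) := fun m => (ker (π (Z m))).ι
  have w : ∀ m : ℕ, i m ≫ π (Z m) = 0 := by
    intro m
    exact gen_ker_w (π (Z m))
  have hS : ∀ m, (ShortComplex.mk (i m) (π (Z m)) (w m)).ShortExact := fun m =>
    shortExact_ker _ (hπ _)
  have hZ : LocProj (Z n) := fun j => by
    obtain ⟨e⟩ := hA j
    have : ∀ m, Module.Projective (X.A (X.one j).1) ((Q (Z m)).obj (X.one j)) := fun m => hL _ j
    exact projective_syzygy k n (X.A (X.one j).1) e (fun m => (Z m).obj (X.one j))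
      (fun m => (Q (Z m)).obj (X.one j)) (fun m => (i m).app _) (fun m => (π (Z m)).app _)
      (fun m => Subtype.val_injective)
      (fun m x => ⟨fun hx => ⟨⟨x, hx⟩, rfl⟩, by rintro ⟨y, rfl⟩; exact y.2⟩) fun m => hπ _ _
  have hn : InC T (Z n) :=
    InC.of_syzygy (fun m => Z (n + m)) (fun m => Q (Z (n + m))) (fun m => i (n + m))
      (fun m => π (Z (n + m))) (fun m => w (n + m)) (fun m => hS (n + m)) (fun m => hQ _)
      (ys.length + 1) (cd hy hZ _ ys.length (Nat.le_succ _))
  have key : ∀ m, InC T (Z m) → InC T (Z 0) := by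
    intro m
    induction m with
    | zero => exact id
    | succ m ih => exact fun hm => ih (InC.right (hS m) hm (hQ _))
  exact key n hn

end Coh

end Pool.Agent.Lib.MP_cd184e_ag.T
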