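import Pool.Agent.Lib.MP_cd184e_ag.T.Var
import Pool.Agent.Lib.MP_cd184e_ag.Defs

/-! The Kodaira-Spencer class of the family of Mukai fourfolds does not vanish. -/

set_option autoImplicit false

namespace Pool.Agent.Lib.MP_cd184e_ag.T

namespace Pl

/-- Derivative with respect to the variable given by a unit vector `e`. -/
noncomputable def pd (e₀ e₁ e₂ e₃ : ℕ) (p : Pl) : Pl :=
  Pl.rec nil (fun a b c d r i _ ih => cond (Nat.beq ((a * e₀ + b * e₁ + c * e₂ + d * e₃) % 3) 0) ih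
    (cons (a - e₀) (b - e₁) (c - e₂) (d - e₃) ((a * e₀ + b * e₁ + c * e₂ + d * e₃) * r)
      ((a * e₀ + b * e₁ + c * e₂ + d * e₃) * i) ih)) p

variable {K : Type} [Field K] [CharP K 3] {ι : K} {x : Fin 4 → K}

theorem ev_pd_cons (e₀ e₁ e₂ e₃ a b c d r i : ℕ) (tl : Pl) :
    ev ι x (pd e₀ e₁ e₂ e₃ (cons a b c d r i tl)) =
      ((a * e₀ + b * e₁ + c * e₂ + d * e₃ : ℕ) : K) * (((r : K) + (i : K) * ι) *
        (x 0 ^ (a - e₀) * x 1 ^ (b - e₁) * x 2 ^ (c - e₂) * x 3 ^ (d - e₃))) +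
        ev ι x (pd e₀ e₁ e₂ e₃ tl) := by
  change ev ι x (cond (Nat.beq ((a * e₀ + b * e₁ + c * e₂ + d * e₃) % 3) 0) (pd e₀ e₁ e₂ e₃ tl)
    (cons (a - e₀) (b - e₁) (c - e₂) (d - e₃) ((a * e₀ + b * e₁ + c * e₂ + d * e₃) * r)
      ((a * e₀ + b * e₁ + c * e₂ + d * e₃) * i) (pd e₀ e₁ e₂ e₃ tl))) = _
  generalize a * e₀ + b * e₁ + c * e₂ + d * e₃ = m
  cases h : Nat.beq (m % 3) 0
  · rw [cond_false, ev_cons]
    push_cast
    ring
  · rw [Nat.beq_eq] at h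
    rw [cond_true, ← cast_mod m, h, Nat.cast_zero, zero_mul, zero_add]

theorem der_ev {k : Type} [Field k] [Algebra k K] (D : Derivation k K K) (hι : D ι = 0) (p : Pl) :
    D (ev ι x p) = ev ι x (pd 1 0 0 0 p) * D (x 0) + ev ι x (pd 0 1 0 0 p) * D (x 1) +
      ev ι x (pd 0 0 1 0 p) * D (x 2) + ev ι x (pd 0 0 0 1 p) * D (x 3) := by
  induction p with
  | nil => simp [pd]
  | cons a b c d r i tl ih =>
    rw [ev_cons, map_add, ih, ev_pd_cons, ev_pd_cons, ev_pd_cons, ev_pd_cons]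
    simp only [D.leibniz, D.leibniz_pow, map_add, D.map_natCast, hι, smul_eq_mul, nsmul_eq_mul,
      mul_one, mul_zero, add_zero, zero_add, Nat.sub_zero]
    ring

end Pl

def GGd : List (List ℕ) :=
  [[0, 0, 1450414099, 1704695714684950, 23188414474, 0, 0, 0, 1530040474, 2804062474, 0, 0, 0], [0,
  0, 0, 1450414099, 1705739393507353, 23188414474, 0, 0, 0, 1530040474, 2804062474, 0, 1444515851],
  [23189004303, 0, 0, 0, 1452773397, 1703652035862547, 0, 0, 0, 0, 1530630303, 2806421772,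
  1447464972], [1704695714684950, 23188414474, 0, 0, 0, 1450414099, 2804062474, 0, 0, 0, 0,
  1530040474, 0], [1450414099, 1705739393507353, 23188414474, 0, 0, 0, 1530040474, 2804062474, 0,
  0, 0, 0, 1445105674], [0, 1452773397, 1703652035862547, 23189004303, 0, 0, 0, 1530630303,
  2806421772, 0, 0, 0, 1445695503]]

/-- The derivative of `FF j v` with respect to the modulus. -/
noncomputable def GG : Mx := zP GGd

noncomputable def sub0 (j : ℕ) (p : Pl) : Pl :=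
  Pl.subst (FF j 1) (FF j 6) (FF j 11) (FF j 5) p

noncomputable def wr (j l : ℕ) : Pl :=
  Pl.add (Pl.mul (GG j l) (FF j 0)) (Pl.neg (Pl.mul (FF j l) (GG j 0)))

theorem chk_hom : (allTo 12 fun l => Pl.hom (ofN FDd 0 (l + 1) - 1 + 1) (GG 0 (l + 1)) &&
    Pl.hom (ofN FDd 0 (l + 1) - 1) (Pl.pd 1 0 0 0 (FF 0 (l + 1))) &&
    Pl.hom (ofN FDd 0 (l + 1) - 1) (Pl.pd 0 1 0 0 (FF 0 (l + 1))) &&
    Pl.hom (ofN FDd 0 (l + 1) - 1) (Pl.pd 0 0 1 0 (FF 0 (l + 1))) &&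
    Pl.hom (ofN FDd 0 (l + 1) - 1) (Pl.pd 0 0 0 1 (FF 0 (l + 1)))) = true := by
  decide +kernel

theorem chk_KS : (allTo 6 fun j => allTo 12 fun l =>
    Pl.eqv (Pl.add (Pl.mul (sub0 j (GG 0 (l + 1))) (FF j 0))
      (Pl.add (Pl.add (Pl.add (Pl.mul (sub0 j (Pl.pd 1 0 0 0 (FF 0 (l + 1)))) (wr j 1))
        (Pl.mul (sub0 j (Pl.pd 0 1 0 0 (FF 0 (l + 1)))) (wr j 6)))
        (Pl.mul (sub0 j (Pl.pd 0 0 1 0 (FF 0 (l + 1)))) (wr j 11)))
        (Pl.mul (sub0 j (Pl.pd 0 0 0 1 (FF 0 (l + 1)))) (wr j 5))))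
      (Pl.mul (wr j (l + 1)) (Pl.pow (FF j 0) (ofN FDd 0 (l + 1) - 1)))) = true := by
  decide +kernel

theorem chk_nil : (Pl.isNil (GG 0 0) && Pl.isNil (GG 0 1) && Pl.isNil (GG 0 6) &&
    Pl.isNil (GG 0 11) && Pl.isNil (GG 0 5) && Pl.isNil (GG 0 7) && Pl.isNil (GG 1 0) &&
    Pl.isNil (GG 1 1) && Pl.isNil (GG 1 2) && Pl.isNil (GG 1 6) && Pl.isNil (GG 1 7)) = true := by
  decide +kernel

theorem chk_two : (Pl.eqv (FF 0 2) (.cons 2 0 0 1 0 1 (.cons 1 1 1 0 2 2 (.cons 0 3 0 0 1 0 .nil))) &&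
    Pl.eqv (FF 0 7) (.cons 1 0 1 0 2 0 (.cons 0 2 0 0 1 0 .nil)) &&
    Pl.eqv (GG 0 2) (.cons 2 0 0 1 1 0 (.cons 1 1 1 0 2 0 .nil))) = true := by
  decide +kernel

theorem ks_alg {K : Type} [Field K] {f P p₀ p₁ p₂ p₃ w₀ w₁ w₂ w₃ W : K} {E : ℕ} (hf : f ≠ 0)
    (h : f⁻¹ ^ (E + 1) * P * f⁻¹ + (f⁻¹ ^ E * p₀ * (f⁻¹ * w₀) + f⁻¹ ^ E * p₁ * (f⁻¹ * w₁) +
      f⁻¹ ^ E * p₂ * (f⁻¹ * w₂) + f⁻¹ ^ E * p₃ * (f⁻¹ * w₃)) = f⁻¹ * W * f⁻¹ ^ E) :
    p₀ * (f * w₀) + p₁ * (f * w₁) + p₂ * (f * w₂) + p₃ * (f * w₃) = f * W - P := by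
  have ht : f⁻¹ ^ E * f⁻¹ * f⁻¹ ≠ 0 := by simp [hf]
  refine mul_left_cancel₀ ht ?_
  linear_combination h + f⁻¹ ^ E * f⁻¹ * (p₀ * w₀ + p₁ * w₁ + p₂ * w₂ + p₃ * w₃ - W) *
    inv_mul_cancel₀ hf

theorem der_mem {k K : Type} [Field k] [Field K] [Algebra k K] (D : Derivation k K K) (s : Set K)
    (h : ∀ x ∈ s, D x ∈ Algebra.adjoin k s) : D ∈ tang (Algebra.adjoin k s) := by
  intro x hx
  induction hx using Algebra.adjoin_induction with
  | mem x hx => exact h x hx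
  | algebraMap c => rw [D.map_algebraMap]; exact zero_mem _
  | add x y _ _ hx hy => rw [map_add]; exact add_mem hx hy
  | mul x y h1 h2 hx hy =>
    rw [D.leibniz, smul_eq_mul, smul_eq_mul]
    exact add_mem (mul_mem h1 hy) (mul_mem h2 hx)

variable {k : Type} [Field k] [CharP k 3] {i : k} (hi : i ^ 2 = -1)

/-- The derivative of the coordinate `l` on the chart `j`. -/
noncomputable def gg (j : (V18 hi).J) (l : ℕ) : KK k :=
  Pl.ev (algebraMap k (KK k) i) ((ctx hi).u j) (GG j.1 l)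

theorem gg_mem (j : (V18 hi).J) (l : ℕ) : gg hi j l ∈ (V18 hi).A {j.1} := (ctx hi).ev_mem j _

/-- The derivative of the coordinate `l` of the generic point. -/
noncomputable def g0 (i : k) (l : ℕ) : KK k := Pl.ev (algebraMap k (KK k) i) (xx k) (GG 0 l)

theorem exists_D [PerfectField k] (j : (V18 hi).J) : ∃ D : Derivation k (KK k) (KK k), ∀ l < 13,
    D (fN i l) = fN i j.1 * (gg hi j l - fN i l * gg hi j 0) - g0 i l := by
  obtain ⟨e0, e1, e2, e3, e4⟩ := fN_base hi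
  have hι := sq_map (K := KK k) hi
  have h0 := fN_ne hi (V18_lt hi j)
  obtain ⟨D, hD⟩ := exists_derivation (k := k) ![fN i j.1 * (gg hi j 1 - xx k 0 * gg hi j 0),
    fN i j.1 * (gg hi j 6 - xx k 1 * gg hi j 0), fN i j.1 * (gg hi j 11 - xx k 2 * gg hi j 0),
    fN i j.1 * (gg hi j 5 - xx k 3 * gg hi j 0)]
  refine ⟨D, fun l hl => ?_⟩
  rcases l with _ | l
  · have hn := chk_nil
    simp only [Bool.and_eq_true] at hn
    rw [e0, D.map_one_eq_zero, g0, Pl.eq_zero_of_isNil hn.1.1.1.1.1.1.1.1.1.1]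
    ring
  have hF : ∀ v, Pl.ev (algebraMap k (KK k) i) ((ctx hi).u j) (FF j.1 v) =
      (fN i j.1)⁻¹ * fN i v := ev_FF hi j
  have hs : ∀ {E : ℕ} {p : Pl}, Pl.hom E p = true →
      Pl.ev (algebraMap k (KK k) i) ((ctx hi).u j) (sub0 j.1 p) =
        (fN i j.1)⁻¹ ^ E * Pl.ev (algebraMap k (KK k) i) (xx k) p := fun {E p} hp => by
    rw [sub0, Pl.ev_subst hι, hF, hF, hF, hF, e1, e2, e3, e4, ← Pl.ev_hom hp]
    congr 1
    funext t
    fin_cases t <;> rfl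
  have hw : ∀ v, Pl.ev (algebraMap k (KK k) i) ((ctx hi).u j) (wr j.1 v) =
      (fN i j.1)⁻¹ * (gg hi j v - fN i v * gg hi j 0) := fun v => by
    rw [wr, Pl.ev_add, Pl.ev_neg hι, Pl.ev_mul hι, Pl.ev_mul hι, hF, hF, e0, gg, gg]
    ring
  have hh := allTo_spec chk_hom (show l < 12 by omega)
  simp only [Bool.and_eq_true] at hh
  obtain ⟨⟨⟨⟨a0, a1⟩, a2⟩, a3⟩, a4⟩ := hh
  have h1 := Pl.ev_eqv (x := (ctx hi).u j) hι
    (allTo_spec (allTo_spec chk_KS (V18_lt hi j)) (show l < 12 by omega))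
  simp only [Pl.ev_add, Pl.ev_mul hι, Pl.ev_pow hι, hs a0, hs a1, hs a2, hs a3, hs a4, hw, hF,
    e0, e1, e2, e3, e4, mul_one] at h1
  have d0 : D (xx k 0) = _ := hD 0
  have d1 : D (xx k 1) = _ := hD 1
  have d2 : D (xx k 2) = _ := hD 2
  have d3 : D (xx k 3) = _ := hD 3
  rw [fN, Pl.der_ev D (D.map_algebraMap i), d0, d1, d2, d3, ← fN, g0]
  exact ks_alg h0 h1

theorem sub_mem_tang (D : (V18 hi).J → Derivation k (KK k) (KK k))
    (hD : ∀ j, ∀ l < 13, D j (fN i l) = fN i j.1 * (gg hi j l - fN i l * gg hi j 0) - g0 i l)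
    (a b : (V18 hi).J) : D b - D a ∈ tang ((V18 hi).A {a.1} ⊔ (V18 hi).A {b.1}) := by
  have key : ∀ (l : Fin 13) (m : (V18 hi).J),
      (V18 hi).A {m.1} ≤ (V18 hi).A {a.1} ⊔ (V18 hi).A {b.1} →
      (D b - D a) (fN i l / fN i m.1) ∈ (V18 hi).A {a.1} ⊔ (V18 hi).A {b.1} := by
    intro l m hm
    have h0 := fN_ne hi (V18_lt hi m)
    have q : ∀ v : Fin 13, fN i v / fN i m.1 ∈ (V18 hi).A {a.1} ⊔ (V18 hi).A {b.1} :=
      fun v => hm ((V18 hi).div_mem v (Finset.mem_singleton_self _))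
    have ga : ∀ v, gg hi a v ∈ (V18 hi).A {a.1} ⊔ (V18 hi).A {b.1} :=
      fun v => (le_sup_left : (V18 hi).A {a.1} ≤ _) (gg_mem hi a v)
    have gb : ∀ v, gg hi b v ∈ (V18 hi).A {a.1} ⊔ (V18 hi).A {b.1} :=
      fun v => (le_sup_right : (V18 hi).A {b.1} ≤ _) (gg_mem hi b v)
    have e : (D b - D a) (fN i l / fN i m.1) =
        fN i b.1 / fN i m.1 * (gg hi b l - fN i l / fN i m.1 * gg hi b m.1) -
          fN i a.1 / fN i m.1 * (gg hi a l - fN i l / fN i m.1 * gg hi a m.1) := by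
      rw [Derivation.leibniz_div, Derivation.sub_apply, Derivation.sub_apply, hD a l l.2,
        hD b l l.2, hD a m.1 m.1.2, hD b m.1 m.1.2]
      simp only [smul_eq_mul]
      field_simp
      ring
    rw [e]
    exact sub_mem (mul_mem (q b.1) (sub_mem (gb _) (mul_mem (q l) (gb _))))
      (mul_mem (q a.1) (sub_mem (ga _) (mul_mem (q l) (ga _))))
  have hs : (V18 hi).A {a.1} ⊔ (V18 hi).A {b.1} = Algebra.adjoin k (_ ∪ _) :=
    (Algebra.adjoin_union _ _).symm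
  rw [hs]
  refine der_mem _ _ ?_
  rw [← hs]
  rintro _ (⟨l, j, hj, rfl⟩ | ⟨l, j, hj, rfl⟩)
  · obtain rfl := Finset.mem_singleton.1 hj
    exact key l a le_sup_left
  · obtain rfl := Finset.mem_singleton.1 hj
    exact key l b le_sup_right

theorem A_zero : (V18 hi).A {(ch hi 0 (by decide)).1} =
    Algebra.adjoin k {xx k 0, xx k 1, xx k 2, xx k 3} := by
  obtain ⟨e0, e1, e2, e3, e4⟩ := fN_base hi
  rw [A_eq]
  congr 1
  have : (ctx hi).u (ch hi 0 (by decide)) = ![xx k 0, xx k 1, xx k 2, xx k 3] := by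
    funext t
    fin_cases t
    · exact (show (fN i 0)⁻¹ * fN i 1 = xx k 0 by rw [e0, e1, inv_one, one_mul])
    · exact (show (fN i 0)⁻¹ * fN i 6 = xx k 1 by rw [e0, e2, inv_one, one_mul])
    · exact (show (fN i 0)⁻¹ * fN i 11 = xx k 2 by rw [e0, e3, inv_one, one_mul])
    · exact (show (fN i 0)⁻¹ * fN i 5 = xx k 3 by rw [e0, e4, inv_one, one_mul])
  rw [this]
  simp only [Matrix.range_cons, Matrix.range_empty, Set.union_empty, Set.singleton_union]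

include hi in
theorem fN_two : fN i 2 = xx k 1 ^ 3 - (1 + i) • (xx k 0 * xx k 1 * xx k 2) +
      i • (xx k 0 ^ 2 * xx k 3) ∧ fN i 7 = xx k 1 ^ 2 - xx k 0 * xx k 2 ∧
    g0 i 2 = xx k 0 ^ 2 * xx k 3 - xx k 0 * xx k 1 * xx k 2 := by
  have h := chk_two
  simp only [Bool.and_eq_true] at h
  have h3 := Pl.three (K := KK k)
  refine ⟨(Pl.ev_eqv (sq_map hi) h.1.1).trans ?_, (Pl.ev_eqv (sq_map hi) h.1.2).trans ?_,
    (Pl.ev_eqv (sq_map hi) h.2).trans ?_⟩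
  · simp only [Pl.ev_cons, Pl.ev_nil, Algebra.smul_def, map_add, map_one]
    push_cast
    linear_combination (1 + algebraMap k (KK k) i) * (xx k 0 * xx k 1 * xx k 2) * h3
  · simp only [Pl.ev_cons, Pl.ev_nil]
    push_cast
    linear_combination (xx k 0 * xx k 2) * h3
  · simp only [Pl.ev_cons, Pl.ev_nil]
    push_cast
    linear_combination (xx k 0 * xx k 1 * xx k 2) * h3

theorem A_one : (V18 hi).A {(ch hi 1 (by decide)).1} =
    Algebra.adjoin k {1 / xx k 0, xx k 1 / xx k 0, (xx k 1 ^ 2 - xx k 0 * xx k 2) / xx k 0,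
      (xx k 1 ^ 3 - (1 + i) • (xx k 0 * xx k 1 * xx k 2) + i • (xx k 0 ^ 2 * xx k 3)) / xx k 0} := by
  obtain ⟨e0, e1, e2, e3, e4⟩ := fN_base hi
  obtain ⟨e5, e6, -⟩ := fN_two hi
  rw [A_eq, ← e5, ← e6]
  congr 1
  have : (ctx hi).u (ch hi 1 (by decide)) =
      ![fN i 2 / xx k 0, fN i 7 / xx k 0, xx k 1 / xx k 0, 1 / xx k 0] := by
    funext t
    fin_cases t
    · exact (show (fN i 1)⁻¹ * fN i 2 = fN i 2 / xx k 0 by rw [e1, div_eq_inv_mul])
    · exact (show (fN i 1)⁻¹ * fN i 7 = fN i 7 / xx k 0 by rw [e1, div_eq_inv_mul])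
    · exact (show (fN i 1)⁻¹ * fN i 6 = xx k 1 / xx k 0 by rw [e1, e2, div_eq_inv_mul])
    · exact (show (fN i 1)⁻¹ * fN i 0 = 1 / xx k 0 by rw [e1, e0, div_eq_inv_mul])
  rw [this]
  simp only [Matrix.range_cons, Matrix.range_empty, Set.union_empty, Set.singleton_union]
  ext x
  simp only [Set.mem_insert_iff, Set.mem_singleton_iff]
  tauto

/-- The first cohomology of the tangent sheaf does not vanish. -/
theorem not_H1 [PerfectField k] : ¬ H1 tang fun j : (V18 hi).J => (V18 hi).A {j.1} := by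
  intro H
  choose D hD using exists_D hi
  obtain ⟨b, hb, hc⟩ := H (fun a b => D b - D a) (sub_mem_tang hi D hD) fun _ _ _ => by abel
  obtain ⟨e0, e1, e2, e3, e4⟩ := fN_base hi
  obtain ⟨e5, e6, e7⟩ := fN_two hi
  have hn := chk_nil
  simp only [Bool.and_eq_true] at hn
  obtain ⟨⟨⟨⟨⟨⟨⟨⟨⟨⟨n0, n1⟩, n2⟩, n3⟩, n4⟩, n5⟩, m0⟩, m1⟩, m2⟩, m3⟩, m4⟩ := hn
  let j₀ := ch hi 0 (by decide)
  let j₁ := ch hi 1 (by decide)
  have u0 : (ctx hi).u j₀ = xx k := by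
    funext t
    fin_cases t
    · exact (show (fN i 0)⁻¹ * fN i 1 = xx k 0 by rw [e0, e1, inv_one, one_mul])
    · exact (show (fN i 0)⁻¹ * fN i 6 = xx k 1 by rw [e0, e2, inv_one, one_mul])
    · exact (show (fN i 0)⁻¹ * fN i 11 = xx k 2 by rw [e0, e3, inv_one, one_mul])
    · exact (show (fN i 0)⁻¹ * fN i 5 = xx k 3 by rw [e0, e4, inv_one, one_mul])
  have z0 : ∀ l < 13, D j₀ (fN i l) = 0 := fun l hl => by
    have h1 : ∀ v, gg hi j₀ v = g0 i v := fun v => by rw [gg, u0]; rfl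
    have h2 : g0 i 0 = 0 := Pl.eq_zero_of_isNil n0
    rw [hD j₀ l hl, h1, h1, h2, show fN i j₀.1 = 1 from e0]
    ring
  have z1 : ∀ l < 13, Pl.isNil (GG 1 l) = true → (D j₁ - D j₀) (fN i l) = -g0 i l :=
    fun l hl h => by
      have h1 : gg hi j₁ l = 0 := Pl.eq_zero_of_isNil h
      have h2 : gg hi j₁ 0 = 0 := Pl.eq_zero_of_isNil m0
      rw [Derivation.sub_apply, z0 l hl, hD j₁ l hl, h1, h2]
      ring
  have ha : xx k 0 ≠ 0 := e1 ▸ fN_ne hi (by decide : 1 < 6)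
  have da : (D j₁ - D j₀) (xx k 0) = 0 := by
    rw [← e1, z1 1 (by decide) m1, g0, Pl.eq_zero_of_isNil n1, neg_zero]
  have db : (D j₁ - D j₀) (xx k 1) = 0 := by
    rw [← e2, z1 6 (by decide) m3, g0, Pl.eq_zero_of_isNil n2, neg_zero]
  have dc : (D j₁ - D j₀) (xx k 2) = 0 := by
    have h := z1 7 (by decide) m4
    rw [g0, Pl.eq_zero_of_isNil n5, e6] at h
    generalize D j₁ - D j₀ = δ at h da db ⊢
    simp only [map_sub, δ.leibniz, δ.leibniz_pow, da, db, smul_eq_mul, mul_zero, smul_zero] at h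
    refine mul_left_cancel₀ ha ?_
    linear_combination -h
  have dd : i • (xx k 0 * (D j₁ - D j₀) (xx k 3)) = xx k 1 * xx k 2 - xx k 0 * xx k 3 := by
    have h := z1 2 (by decide) m2
    rw [e7, e5] at h
    generalize D j₁ - D j₀ = δ at h da db dc ⊢
    simp only [map_sub, map_add, δ.map_smul, δ.leibniz, δ.leibniz_pow, da, db, dc, smul_zero,
      add_zero, smul_eq_mul, mul_zero, sub_zero, zero_add] at h
    refine mul_left_cancel₀ ha ?_
    rw [Algebra.smul_def] at h ⊢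
    linear_combination h
  have hi0 : i ≠ 0 := by
    rintro rfl
    simp at hi
  refine ks_two i hi0 _ _ _ _ rfl rfl rfl rfl _ _ (A_zero hi) (A_one hi) (D j₁ - D j₀) (b j₀)
    da db dc dd (hb j₀) ?_
  rw [hc j₀ j₁, sub_add_cancel]
  exact hb j₁

end Pool.Agent.Lib.MP_cd184e_ag.T
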