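import Mathlib

set_option autoImplicit false

open Filter Polynomial

namespace Pool.Agent.Lib.MP_cd184e_ag.T.Gr

variable (k : Type) [Field k] {B V ι : Type} [CommRing B] [Algebra k B] [AddCommGroup V]
  [Module B V] (u : ι → B)

/-- Forms of degree `d` in the elements `u l`. -/
def Rr (d : ℕ) : Submodule k B := Submodule.span k (Set.range u) ^ d

/-- Graded families of subgroups. -/
def Grd (F : ℕ → AddSubgroup V) : Prop := ∀ d j, ∀ r ∈ Rr k u d, ∀ v ∈ F j, r • v ∈ F (d + j)

/-- The graded ring generated by the `u l` in degree one. -/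
noncomputable def Sg : Subalgebra k B[X] :=
  Algebra.adjoin k (Set.range fun l => monomial 1 (u l))

variable {k u}

theorem Rr_mul {a b : ℕ} {r r' : B} (h : r ∈ Rr k u a) (h' : r' ∈ Rr k u b) :
    r * r' ∈ Rr k u (a + b) := by
  rw [Rr, pow_add]
  exact Submodule.mul_mem_mul h h'

theorem u_mem (l : ι) : u l ∈ Rr k u 1 := by
  rw [Rr, pow_one]
  exact Submodule.subset_span ⟨l, rfl⟩

theorem pow_mem_Rr (l : ι) (t : ℕ) : u l ^ t ∈ Rr k u t :=
  Submodule.pow_mem_pow _ (Submodule.subset_span (Set.mem_range_self l)) t

theorem coeff_mem {p : B[X]} (hp : p ∈ Sg k u) (d : ℕ) : p.coeff d ∈ Rr k u d := by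
  induction hp using Algebra.adjoin_induction generalizing d with
  | mem x hx =>
    obtain ⟨l, rfl⟩ := hx
    rw [coeff_monomial]
    split_ifs with h
    · exact h ▸ u_mem l
    · exact zero_mem _
  | algebraMap c =>
    rw [Polynomial.algebraMap_apply, coeff_C]
    split_ifs with h
    · rw [h, Rr, pow_zero]
      exact Submodule.algebraMap_mem c
    · exact zero_mem _
  | add x y _ _ hx hy => exact coeff_add x y d ▸ add_mem (hx d) (hy d)
  | mul x y _ _ hx hy =>
    rw [coeff_mul]
    exact sum_mem fun c hc => Finset.HasAntidiagonal.mem_antidiagonal.1 hc ▸ Rr_mul (hx _) (hy _)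

theorem monomial_mem {d : ℕ} {r : B} (h : r ∈ Rr k u d) : monomial d r ∈ Sg k u := by
  induction h using Submodule.pow_induction_on_left' with
  | algebraMap c => exact (Sg k u).algebraMap_mem c
  | add x y i _ _ hx hy => exact map_add (monomial i) x y ▸ add_mem hx hy
  | mem_mul m hm i x _ hx =>
    rw [Nat.succ_eq_one_add, ← monomial_mul_monomial]
    refine mul_mem ?_ hx
    clear hx
    induction hm using Submodule.span_induction with
    | mem y hy =>
      obtain ⟨l, rfl⟩ := hy
      exact Algebra.subset_adjoin ⟨l, rfl⟩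
    | zero => simp
    | add y z _ _ hy hz => exact map_add (monomial 1) y z ▸ add_mem hy hz
    | smul c y _ hy => exact smul_monomial c 1 y ▸ Subalgebra.smul_mem _ hy c

/-- The graded module of a graded family. -/
def Grd.mod {F : ℕ → AddSubgroup V} (h : Grd k u F) : Submodule (Sg k u) (PolynomialModule B V) where
  carrier := {w | ∀ j, w.coeff j ∈ F j}
  zero_mem' _ := zero_mem _
  add_mem' a b j := add_mem (a j) (b j)
  smul_mem' p w hw j := by
    rw [Subalgebra.smul_def, PolynomialModule.smul_apply]
    exact sum_mem fun c hc => Finset.HasAntidiagonal.mem_antidiagonal.1 hc ▸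
      h _ _ _ (coeff_mem p.2 _) _ (hw _)

variable (k u) in
/-- The family generated by the elements `g i` in degree zero. -/
def gen {I : Type} [Fintype I] (g : I → V) (j : ℕ) : AddSubgroup V where
  carrier := {v | ∃ b : I → B, (∀ i, b i ∈ Rr k u j) ∧ ∑ i, b i • g i = v}
  zero_mem' := ⟨0, fun _ => zero_mem _, by simp⟩
  add_mem' := by
    rintro _ _ ⟨a, ha, rfl⟩ ⟨b, hb, rfl⟩
    exact ⟨a + b, fun i => add_mem (ha i) (hb i), by simp [add_smul, Finset.sum_add_distrib]⟩
  neg_mem' := by
    rintro _ ⟨a, ha, rfl⟩
    exact ⟨-a, fun i => neg_mem (ha i), by simp⟩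

variable {I : Type} [Fintype I] (g : I → V)

theorem grd_gen : Grd k u (gen k u g) := by
  rintro d j r hr _ ⟨b, hb, rfl⟩
  exact ⟨fun i => r * b i, fun i => Rr_mul hr (hb i), by simp [Finset.smul_sum, mul_smul]⟩

variable [Finite ι]

/-- A torsion quotient of a subfamily of a finitely generated family vanishes in large degree. -/
theorem ev_le {F Z : ℕ → AddSubgroup V} (hF : Grd k u F) (hle : ∀ j, F j ≤ gen k u g j)
    (h : ∀ a, ∀ v ∈ F a, ∀ᶠ d in atTop, ∀ r ∈ Rr k u d, r • v ∈ Z (d + a)) :
    ∀ᶠ j in atTop, F j ≤ Z j := by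
  have : Algebra.FiniteType k (Sg k u) := Algebra.FiniteType.adjoin_of_finite (Set.finite_range _)
  have : IsNoetherianRing (Sg k u) := Algebra.FiniteType.isNoetherianRing k _
  have fg : hF.mod.FG := by
    refine Submodule.FG.of_le (Submodule.fg_span (Set.finite_range fun i =>
      PolynomialModule.single B 0 (g i))) fun w hw => ?_
    have e : w = ∑ j ∈ w.coeff.support, PolynomialModule.single B j (w.coeff j) := by
      ext1
      rw [PolynomialModule.coeff_sum]
      exact w.coeff.sum_single.symm
    rw [e]
    refine sum_mem fun j _ => ?_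
    obtain ⟨b, hb, e'⟩ := hle j (hw j)
    rw [← e', show PolynomialModule.single B j (∑ i, b i • g i) = _ from
      map_sum (PolynomialModule.lsingle B j) _ _]
    refine sum_mem fun i _ => ?_
    have := Submodule.smul_mem _ (⟨_, monomial_mem (hb i)⟩ : Sg k u)
      (Submodule.subset_span (R := Sg k u) (Set.mem_range_self
        (f := fun i => PolynomialModule.single B 0 (g i)) i))
    rwa [Subalgebra.smul_def, PolynomialModule.monomial_smul_single] at this
  obtain ⟨G, hG⟩ := fg
  have ev : ∀ᶠ j in atTop, ∀ w ∈ G, ∀ b ∈ w.coeff.support, ∀ a, a + b = j →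
      ∀ r ∈ Rr k u a, r • w.coeff b ∈ Z j := by
    refine (eventually_all_finset _).2 fun w hw => (eventually_all_finset _).2 fun b _ => ?_
    have m : w ∈ hF.mod := hG ▸ Submodule.subset_span hw
    filter_upwards [(tendsto_sub_atTop_nat b).eventually (h b _ (m b))] with j hj a e
    subst e
    rwa [Nat.add_sub_cancel] at hj
  filter_upwards [ev] with j hj v hv
  have m : PolynomialModule.single B j v ∈ Submodule.span (Sg k u) (G : Set _) := by
    rw [hG]
    intro i
    rw [PolynomialModule.coeff_single, Finsupp.single_apply]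
    split_ifs with e
    · exact e ▸ hv
    · exact zero_mem _
  have key : ∀ w ∈ Submodule.span (Sg k u) (G : Set (PolynomialModule B V)), ∀ p : Sg k u,
      (p • w).coeff j ∈ Z j := fun w hw => by
    induction hw using Submodule.span_induction with
    | mem w hw =>
      intro p
      rw [Subalgebra.smul_def, PolynomialModule.smul_apply]
      refine sum_mem fun c hc => ?_
      by_cases z : w.coeff c.2 = 0
      · rw [z, smul_zero]
        exact zero_mem _
      · exact hj w hw _ (Finsupp.mem_support_iff.2 z) _
          (Finset.HasAntidiagonal.mem_antidiagonal.1 hc) _ (coeff_mem p.2 _)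
    | zero => simp
    | add x y _ _ hx hy =>
      intro p
      rw [smul_add]
      exact add_mem (hx p) (hy p)
    | smul q x _ hx =>
      intro p
      rw [← mul_smul]
      exact hx _
  simpa using key _ m 1

/-- The image of a family under multiplication by an element of degree one. -/
def sh (y : B) (F : ℕ → AddSubgroup V) : ℕ → AddSubgroup V
  | 0 => ⊥
  | i + 1 => (F i).map (DistribSMul.toAddMonoidHom V y)

theorem ev_gen (s : Finset ι) {F : ℕ → AddSubgroup V} (hF : Grd k u F)
    (h0 : ∀ j, ∀ v ∈ F j, (∀ l ∈ s, u l • v = 0) → v = 0)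
    (h : ∀ a, ∀ v ∈ F a, ∃ d, ∀ r ∈ Rr k u d, r • v ∈ gen k u g (d + a)) :
    ∀ᶠ j in atTop, F j ≤ gen k u g j := by
  classical
  induction s using Finset.induction_on generalizing F with
  | empty =>
    exact .of_forall fun j v hv => (h0 j v hv fun _ hl => absurd hl (Finset.notMem_empty _)) ▸
      zero_mem _
  | insert l s _ ih =>
    have h' : ∀ a, ∀ v ∈ F a, ∀ᶠ d in atTop, ∀ r ∈ Rr k u d, r • v ∈ gen k u g (d + a) := by
      intro a v hv
      obtain ⟨d, hd⟩ := h a v hv
      filter_upwards [eventually_ge_atTop d] with e he r hr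
      obtain ⟨c, rfl⟩ := Nat.exists_eq_add_of_le' he
      rw [Rr, pow_add] at hr
      refine Submodule.mul_induction_on hr (fun x hx y hy => ?_) fun x y hx hy => ?_
      · rw [mul_smul, add_assoc]
        exact grd_gen g _ _ _ hx _ (hd y hy)
      · rw [add_smul]
        exact add_mem hx hy
    have e1 := ih (F := fun j => F j ⊓ (DistribSMul.toAddMonoidHom V (u l)).ker)
      (fun d j r hr v hv => ⟨hF d j r hr v hv.1, by
        change u l • r • v = 0
        rw [smul_comm, show u l • v = 0 from hv.2, smul_zero]⟩)
      (fun j v hv hs => h0 j v hv.1 fun l' hl => by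
        rcases Finset.mem_insert.1 hl with rfl | hl
        exacts [hv.2, hs l' hl])
      fun a v hv => h a v hv.1
    have e2 := ev_le g (F := fun j => gen k u g j ⊓ sh (u l) F j)
      (Z := sh (u l) fun j => gen k u g j ⊓ F j) (fun d j r hr v hv => ⟨grd_gen g d j r hr v hv.1,
        by
          obtain ⟨-, hv⟩ := hv
          cases j with
          | zero =>
            rw [AddSubgroup.mem_bot.1 hv, smul_zero]
            exact zero_mem _
          | succ j =>
            obtain ⟨w, hw, rfl⟩ := hv
            exact ⟨r • w, hF d j r hr w hw, smul_comm _ _ _⟩⟩) (fun _ => inf_le_left)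
      fun a v hv => by
        obtain ⟨-, hv⟩ := hv
        cases a with
        | zero =>
          refine .of_forall fun d r _ => ?_
          rw [AddSubgroup.mem_bot.1 hv, smul_zero]
          exact zero_mem _
        | succ a =>
          obtain ⟨w, hw, rfl⟩ := hv
          filter_upwards [h' a w hw] with d hd r hr
          exact ⟨r • w, ⟨hd r hr, hF d a r hr w hw⟩, smul_comm _ _ _⟩
    obtain ⟨j0, hj⟩ := eventually_atTop.1 (e1.and ((tendsto_add_atTop_nat 1).eventually e2))
    have step : ∀ t j, j0 ≤ j → ∀ v ∈ F j, u l ^ t • v ∈ gen k u g (t + j) → v ∈ gen k u g j := by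
      intro t
      induction t with
      | zero => exact fun j _ v _ hv => by simpa using hv
      | succ t iht =>
        intro j h1 v hv h2
        have m : u l • v ∈ F (j + 1) := add_comm 1 j ▸ hF 1 j _ (u_mem l) v hv
        rw [pow_succ, mul_smul, add_assoc, add_comm 1 j] at h2
        obtain ⟨w, hw, e⟩ := (hj j h1).2 ⟨iht _ (h1.trans (Nat.le_succ j)) _ m h2, v, hv, rfl⟩
        have := (hj j h1).1 (x := v - w) ⟨(F j).sub_mem hv hw.2, by
          change u l • (v - w) = 0
          rw [smul_sub, show u l • w = u l • v from e, sub_self]⟩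
        simpa using add_mem this hw.1
    filter_upwards [eventually_ge_atTop j0] with j h1 v hv
    obtain ⟨d, hd⟩ := h j v hv
    exact step d j h1 v hv (hd _ (pow_mem_Rr l d))

end Pool.Agent.Lib.MP_cd184e_ag.T.Gr
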