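import Pool.Agent.Lib.MP_cd184e_ag.T.Cd
import Pool.Agent.Lib.MP_cd184e_ag.T.LiftA

set_option autoImplicit false

open CategoryTheory Limits Abelian Filter

namespace Pool.Agent.Lib.MP_cd184e_ag.T

variable {k K : Type} [Field k] [Field K] [Algebra k K] {X : ProjVar k K}

namespace ProjVar

theorem rep_pair {d : ℕ} {w : K × ∀ s : X.Idx, X.A s.1}
    (h : w ∈ Gr.Rr k (fun l => (X.f l, X.co l)) d) (s : X.Idx) :
    (w.2 s : K) = w.1 / X.fp s ^ d := by
  induction h using Submodule.pow_induction_on_left' with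
  | algebraMap c => simp
  | add x y i _ _ hx hy => simp [hx, hy, add_div]
  | mem_mul m hm i x _ hx =>
    have e : (m.2 s : K) = m.1 / X.fp s := by
      clear hx
      induction hm using Submodule.span_induction with
      | mem y hy =>
        obtain ⟨l, rfl⟩ := hy
        rfl
      | zero => simp
      | add y z _ _ hy hz => simp [hy, hz, add_div]
      | smul c y _ hy => simp [hy, smul_div_assoc]
    simp [e, hx, pow_succ', div_mul_div_comm]

theorem rep_of_Rr {d : ℕ} {b : ∀ s : X.Idx, X.A s.1} (h : b ∈ Gr.Rr k X.co d) :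
    ∃ r ∈ X.Rd d, ∀ s, (b s : K) = r / X.fp s ^ d := by
  have e1 := Submodule.map_pow (Submodule.span k (Set.range fun l => (X.f l, X.co l)))
    (AlgHom.snd k K _) d
  have e2 := Submodule.map_pow (Submodule.span k (Set.range fun l => (X.f l, X.co l)))
    (AlgHom.fst k K _) d
  rw [Submodule.map_span, ← Set.range_comp] at e1 e2
  obtain ⟨w, hw, rfl⟩ := e1.ge h
  exact ⟨w.1, e2.le ⟨w, hw, rfl⟩, rep_pair hw⟩

theorem Rr_of_Rd {d : ℕ} {r : K} (h : r ∈ X.Rd d) :
    ∃ b ∈ Gr.Rr k X.co d, ∀ s, (b s : K) = r / X.fp s ^ d := by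
  have e1 := Submodule.map_pow (Submodule.span k (Set.range fun l => (X.f l, X.co l)))
    (AlgHom.snd k K _) d
  have e2 := Submodule.map_pow (Submodule.span k (Set.range fun l => (X.f l, X.co l)))
    (AlgHom.fst k K _) d
  rw [Submodule.map_span, ← Set.range_comp] at e1 e2
  obtain ⟨w, hw, rfl⟩ := e2.ge h
  exact ⟨w.2, e1.le ⟨w, hw, rfl⟩, rep_pair hw⟩

theorem ev_Rd (j : Fin X.n) (h0 : X.f j ≠ 0) {a : K} (ha : a ∈ X.A {j}) :
    ∀ᶠ e in atTop, a * X.f j ^ e ∈ X.Rd e := by
  have up : ∀ {a : K} {e : ℕ}, a * X.f j ^ e ∈ X.Rd e → ∀ᶠ e in atTop, a * X.f j ^ e ∈ X.Rd e := by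
    intro a e h
    filter_upwards [eventually_ge_atTop e] with e' he
    obtain ⟨c, rfl⟩ := Nat.exists_eq_add_of_le he
    rw [pow_add, ← mul_assoc]
    exact X.mul_mem_Rd h (X.pow_mem_Rd (X.f_mem_Rd j) c)
  induction ha using Algebra.adjoin_induction with
  | mem x hx =>
    obtain ⟨l, i, hi, rfl⟩ := hx
    rw [Finset.mem_singleton.1 hi]
    exact up (e := 1) (by rw [pow_one, div_mul_cancel₀ _ h0]; exact X.f_mem_Rd l)
  | algebraMap c =>
    refine .of_forall fun e => ?_
    rw [← Algebra.smul_def]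
    exact Submodule.smul_mem _ c (X.pow_mem_Rd (X.f_mem_Rd j) e)
  | add x y _ _ hx hy =>
    filter_upwards [hx, hy] with e a b
    rw [add_mul]
    exact add_mem a b
  | mul x y _ _ hx hy =>
    obtain ⟨e, a, b⟩ := (hx.and hy).exists
    exact up (e := e + e) (by rw [pow_add, mul_mul_mul_comm]; exact X.mul_mem_Rd a b)

end ProjVar

namespace Coh

/-- Global sections of `N(j)` as compatible families. -/
def Gam (N : Coh X) (j : ℤ) : AddSubgroup (∀ s, N.obj s) where
  carrier := {x | ∀ (s t : X.Idx) (h : s ≤ t), ((tw j).obj N).res h (x s) = x t}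
  zero_mem' _ _ _ := map_zero _
  add_mem' a b s t h := (map_add _ _ _).trans (by rw [a s t h, b s t h]; rfl)
  neg_mem' a s t h := (map_neg _ _).trans (by rw [a s t h]; rfl)

/-- The morphism given by a global section. -/
noncomputable def ofSec {N : Coh X} {j : ℤ} (x : ∀ s, N.obj s) (hx : x ∈ Gam N j) :
    unit X ⟶ (tw j).obj N :=
  ⟨fun s => LinearMap.toSpanSingleton (X.A s.1) (N.obj s) (x s), fun {s t} h a =>
    (congrArg (X.inc h a • ·) (hx s t h).symm).trans (((tw j).obj N).res_smul h a (x s)).symm⟩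

theorem gam_smul {N : Coh X} {i j : ℤ} {d : ℕ} {b : ∀ s : X.Idx, X.A s.1}
    (hb : b ∈ Gr.Rr k X.co d) {x : ∀ s, N.obj s} (hx : x ∈ Gam N i) (e : i + d = j) :
    b • x ∈ Gam N j := by
  obtain ⟨r, hr, h⟩ := ProjVar.rep_of_Rr hb
  have eb : ∀ s, b s = X.sec r (X.Rd_le_Deg d hr) s := fun s =>
    Subtype.ext (by rw [h, ProjVar.coe_sec, zpow_natCast])
  intro s t hst
  have := (mu N i j r (X.Rd_le_Deg d hr) e).nat hst (x s)
  rw [hx s t hst, mu_app, mu_app, ← eb, ← eb] at this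
  exact this.symm

/-- Sections are moved into the span of generators by all forms of some degree. -/
theorem gam_tors {N : Coh X} {I : Type} [Fintype I] {t : ℤ} (g : I → ∀ s, N.obj s)
    (hg : ∀ i, g i ∈ Gam N t) (hs : ∀ (j : X.J) (y : N.obj (X.one j)),
      ∃ c : I → X.A (X.one j).1, ∑ i, c i • g i (X.one j) = y) (a : ℕ) (x : ∀ s, N.obj s)
    (hx : x ∈ Gam N (t + a)) :
    ∃ d, ∀ r ∈ Gr.Rr k X.co d, r • x ∈ Gr.gen k X.co g (d + a) := by
  have one : ∀ j : X.J, ∀ᶠ T in atTop, X.co j.1 ^ T • x ∈ Gr.gen k X.co g (T + a) := fun j => by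
    obtain ⟨c, hc⟩ := hs j (x (X.one j))
    obtain ⟨E, hE⟩ := ((tendsto_add_atTop_nat a).eventually (eventually_all.2 fun i =>
      ProjVar.ev_Rd j.1 (X.ne _ j.2) (c i).2)).exists
    choose b hb eb using fun i => ProjVar.Rr_of_Rd (hE i)
    have ec : ∀ i, b i (X.one j) = c i := fun i => Subtype.ext (by
      rw [eb, ProjVar.fp_one, mul_div_cancel_right₀ _ (pow_ne_zero _ (X.ne _ j.2))])
    have hz : X.co j.1 ^ E • x - ∑ i, b i • g i ∈ Gam N (t + (E + a : ℕ)) :=
      sub_mem (gam_smul (Gr.pow_mem_Rr _ E) hx (by push_cast; ring))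
        (sum_mem fun i _ => gam_smul (hb i) (hg i) rfl)
    have z0 : (X.co j.1 ^ E • x - ∑ i, b i • g i) (X.one j) = 0 := by
      simp only [Pi.sub_apply, Pi.smul_apply', Pi.pow_apply, ProjVar.co_one, one_pow, one_smul,
        Finset.sum_apply, ec, hc, sub_self]
    have ev := ev_kill_hom (ofSec _ hz) j fun y => (congrArg (fun z : N.obj (X.one j) =>
      (show X.A (X.one j).1 from y) • z) z0).trans (smul_zero _)
    filter_upwards [(tendsto_sub_atTop_nat E).eventually ev, eventually_ge_atTop E] with T h1 h2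
    obtain ⟨T, rfl⟩ := Nat.exists_eq_add_of_le' h2
    rw [Nat.add_sub_cancel] at h1
    have e : X.co j.1 ^ T • (X.co j.1 ^ E • x - ∑ i, b i • g i) = 0 := funext fun s =>
      (congrArg (X.co j.1 s ^ T • ·) (one_smul (X.A s.1) _).symm).trans (h1 s (1 : X.A s.1))
    rw [smul_sub, sub_eq_zero] at e
    rw [pow_add, mul_smul, e, add_assoc]
    exact Gr.grd_gen g _ _ _ (Gr.pow_mem_Rr _ T) _ ⟨b, hb, rfl⟩
  obtain ⟨T, hT⟩ := (eventually_all.2 one).exists
  obtain ⟨d, hd⟩ := X.exists_Rd_le T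
  refine ⟨T + d, fun b hb => ?_⟩
  obtain ⟨r, hr, eb⟩ := ProjVar.rep_of_Rr hb
  obtain ⟨c, hc, rfl⟩ := hd r hr
  choose c' hc' ec using fun j => ProjVar.Rr_of_Rd (hc j)
  have e : b = ∑ j : X.J, c' j * X.co j.1 ^ T := funext fun s => Subtype.ext (by
    rw [eb, Finset.sum_div, Finset.sum_apply, AddSubmonoidClass.coe_finsetSum]
    refine Finset.sum_congr rfl fun j _ => ?_
    rw [Pi.mul_apply, Pi.pow_apply, MulMemClass.coe_mul, SubmonoidClass.coe_pow, ec,
      ProjVar.coe_co, div_pow, div_mul_div_comm, pow_add, mul_comm (c j), mul_comm (X.fp s ^ d)])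
  rw [e, Finset.sum_smul, add_comm T, add_assoc]
  exact sum_mem fun j _ => mul_smul (c' j) _ x ▸ Gr.grd_gen g _ _ _ (hc' j) _ (hT j)

/-- Serre: in large degrees the global sections come from the generators. -/
theorem sections_lift {M N : Coh X} (φ : M ⟶ N) (hφ : ∀ s, Function.Surjective (φ.app s)) :
    ∃ j₀ : ℤ, ∀ j, j₀ ≤ j → ∀ γ : unit X ⟶ (tw j).obj N,
      ∃ γ' : unit X ⟶ (tw j).obj M, γ' ≫ (tw j).map φ = γ := by
  obtain ⟨t, m, π, hπ⟩ := exists_epi M
  let g' : Fin m → ∀ s, M.obj s := fun i s => π.app s (Pi.single i (1 : X.A s.1))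
  have hg' : ∀ i, g' i ∈ Gam M t := fun i s s' h => by
    have e : (pi fun _ : Fin m => O X (-t)).res h (Pi.single i (1 : X.A s.1)) =
        X.tr h (-t) • Pi.single i (1 : X.A s'.1) := funext fun i' => by
      change X.tr h (-t) • X.inc h (Pi.single (M := fun _ => X.A s.1) i 1 i') =
        X.tr h (-t) • Pi.single (M := fun _ => X.A s'.1) i 1 i'
      rw [Pi.apply_single (fun _ => X.inc h) (fun _ => map_zero _), map_one]
    change X.tr h t • M.res h (π.app s _) = π.app s' _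
    rw [← π.nat, e]
    refine (congrArg (X.tr h t • ·) ((π.app s').map_smul _ _)).trans ?_
    rw [← mul_smul, ← tr_add, neg_add_cancel, show X.tr h 0 = 1 from Subtype.ext (by simp),
      one_smul]
  let g : Fin m → ∀ s, N.obj s := fun i s => φ.app s (g' i s)
  have hg : ∀ i, g i ∈ Gam N t := fun i s s' h =>
    (((tw t).map φ).nat h (g' i s)).symm.trans (congrArg (φ.app s') (hg' i s s' h))
  have hs : ∀ (j : X.J) (y : N.obj (X.one j)),
      ∃ c : Fin m → X.A (X.one j).1, ∑ i, c i • g i (X.one j) = y := fun j y => by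
    obtain ⟨y, rfl⟩ := hφ _ y
    obtain ⟨c, rfl⟩ := hπ _ y
    refine ⟨c, ?_⟩
    simp only [g, g', ← map_smul, ← map_sum]
    exact congrArg (fun z => φ.app _ (π.app _ z)) (pi_eq_sum_univ' (R := X.A (X.one j).1) c).symm
  obtain ⟨j0, hj⟩ := eventually_atTop.1 (Gr.ev_gen (k := k) (u := X.co) g Finset.univ
    (F := fun a => Gam N (t + a))
    (fun d j r hr v hv => gam_smul hr hv (by push_cast; ring))
    (fun j v _ h => funext fun s => by
      have := congrFun (h (X.pt s).1 (Finset.mem_univ _)) s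
      rwa [Pi.smul_apply', ProjVar.co_pt, one_smul] at this)
    (gam_tors g hg hs))
  refine ⟨t + j0, fun j h γ => ?_⟩
  obtain ⟨a, rfl⟩ : ∃ a : ℕ, j = t + a := ⟨(j - t).toNat, by omega⟩
  have hx : (fun s => γ.app s (1 : X.A s.1)) ∈ Gam N (t + a) := fun s s' h =>
    (γ.nat h _).symm.trans (congrArg (γ.app s') (map_one (X.inc h)))
  obtain ⟨b, hb, e⟩ := hj a (by omega) hx
  refine ⟨ofSec (∑ i, b i • g' i) (sum_mem fun i _ => gam_smul (hb i) (hg' i) rfl),
    hom_ext fun s c => ?_⟩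
  have e' := congrFun e s
  change φ.app s ((show X.A s.1 from c) • (∑ i, b i • g' i) s) = _
  rw [Finset.sum_apply] at e' ⊢
  rw [map_smul, map_sum]
  simp only [Pi.smul_apply', map_smul] at e' ⊢
  exact (congrArg ((show X.A s.1 from c) • ·) e').trans
    (((γ.app s).map_smul (show X.A s.1 from c) (1 : X.A s.1)).symm.trans
      (congrArg (γ.app s) (mul_one (show X.A s.1 from c))))

end Coh

end Pool.Agent.Lib.MP_cd184e_ag.T
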