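import Pool.Agent.Lib.MP_cd184e_ag.T.BunTw
import Pool.Agent.Lib.MP_cd184e_ag.T.Yon
import Pool.Agent.Lib.MP_cd184e_ag.T.Thick

set_option autoImplicit false

open CategoryTheory Limits Abelian

namespace Pool.Agent.Lib.MP_cd184e_ag.T

variable {k K : Type} [Field k] [Field K] [Algebra k K] {X : ProjVar k K}

namespace Bun

open Coh

theorem cj_mul {D E F : Bun X} (j : X.J) (m : Matrix F.ι E.ι K) (m' : Matrix E.ι D.ι K) :
    F.H j * m * E.G j * (E.H j * m' * D.G j) = F.H j * (m * m') * D.G j := by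
  simp only [Matrix.mul_assoc]
  rw [← Matrix.mul_assoc (E.G j), E.GH, Matrix.one_mul]

theorem cj_one {E F : Bun X} (N : Coh X) {s : X.Idx} {j : X.J} {m : Matrix E.ι F.ι K}
    {m' : Matrix F.ι E.ι K} (h : m * m' = 1) (hm : X.InA s.1 (E.H j * m * F.G j))
    (hm' : X.InA s.1 (F.H j * m' * E.G j)) (v : E.ι → N.obj s) :
    N.act _ hm (N.act _ hm' v) = v := by
  rw [act_act]
  exact N.act_one (by rw [cj_mul, h, Matrix.mul_one, E.HG]) _ _

theorem cj_zero {D E F : Bun X} (N : Coh X) {s : X.Idx} {j : X.J} {m : Matrix F.ι E.ι K}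
    {m' : Matrix E.ι D.ι K} (h : m * m' = 0) (hm : X.InA s.1 (F.H j * m * E.G j))
    (hm' : X.InA s.1 (E.H j * m' * D.G j)) (v : D.ι → N.obj s) :
    N.act _ hm (N.act _ hm' v) = 0 := by
  rw [act_act]
  exact N.act_zero (by rw [cj_mul, h, Matrix.mul_zero, Matrix.zero_mul]) _ _

theorem cj_htp {A B C : Bun X} (N : Coh X) {s : X.Idx} {j : X.J} {m : Matrix B.ι A.ι K}
    {r : Matrix A.ι B.ι K} {q : Matrix B.ι C.ι K} {m' : Matrix C.ι B.ι K}
    (h : m * r + q * m' = 1) (hm : X.InA s.1 (B.H j * m * A.G j))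
    (hr : X.InA s.1 (A.H j * r * B.G j)) (hq : X.InA s.1 (B.H j * q * C.G j))
    (hm' : X.InA s.1 (C.H j * m' * B.G j)) (v : B.ι → N.obj s) (hv : N.act _ hm' v = 0) :
    N.act _ hm (N.act _ hr v) = v := by
  have e : N.act _ hm (N.act _ hr v) + N.act _ hq (N.act _ hm' v) = v := by
    rw [act_act, act_act, ← act_add]
    exact N.act_one (by
      rw [cj_mul, cj_mul, ← Matrix.add_mul, ← Matrix.mul_add, h, Matrix.mul_one, B.HG]) _ _
  rwa [hv, map_zero, add_zero] at e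

theorem hom_comp_zero {D E F : Bun X} (N : Coh X) {m : Matrix F.ι E.ι K} {m' : Matrix E.ι D.ι K}
    (h : m * m' = 0) (hm : Reg E F m) (hm' : Reg D E m') : hom m' hm' N ≫ hom m hm N = 0 :=
  hom_ext fun _ x => cj_zero N h _ _ x

theorem Ex3.shortExact {A B C : Bun X} (h : Ex3 A B C) (N : Coh X) :
    ∃ (φ : A.tw.obj N ⟶ B.tw.obj N) (ψ : B.tw.obj N ⟶ C.tw.obj N) (w : φ ≫ ψ = 0),
      (ShortComplex.mk φ ψ w).ShortExact := by
  obtain ⟨m₁, m₂, h₁, h₂, h0, hl⟩ := h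
  refine ⟨hom m₁ h₁ N, hom m₂ h₂ N, hom_comp_zero N h0 h₂ h₁, shortExact_of _ _ _ (fun s => ?_)
    (fun s x hx => ?_) fun s y => ?_⟩
  · obtain ⟨r, q, hr, hq, e1, e2, e3⟩ := hl (X.pt s)
    exact Function.LeftInverse.injective (g := N.act _ (hr.inA (X.pt_mem s)))
      fun x => cj_one N e1 _ _ x
  · obtain ⟨r, q, hr, hq, e1, e2, e3⟩ := hl (X.pt s)
    exact ⟨N.act _ (hr.inA (X.pt_mem s)) x, cj_htp N e2 _ _ (hq.inA (X.pt_mem s)) _ x hx⟩
  · obtain ⟨r, q, hr, hq, e1, e2, e3⟩ := hl (X.pt s)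
    exact ⟨N.act _ (hq.inA (X.pt_mem s)) y, cj_one N e3 _ _ y⟩

theorem Ex4.shortExact {A B C D : Bun X} (h : Ex4 A B C D) (N : Coh X) :
    ∃ (Z : Coh X) (φ : A.tw.obj N ⟶ B.tw.obj N) (ψ : B.tw.obj N ⟶ Z) (w : φ ≫ ψ = 0)
      (φ' : Z ⟶ C.tw.obj N) (ψ' : C.tw.obj N ⟶ D.tw.obj N) (w' : φ' ≫ ψ' = 0),
      (ShortComplex.mk φ ψ w).ShortExact ∧ (ShortComplex.mk φ' ψ' w').ShortExact := by
  obtain ⟨m₁, m₂, m₃, h₁, h₂, h₃, h0, h0', hl⟩ := h
  refine ⟨(ker (hom m₃ h₃ N)).sub, hom m₁ h₁ N,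
    (ker (hom m₃ h₃ N)).lift (hom m₂ h₂ N) fun s x => cj_zero N h0' _ _ x,
    hom_ext fun s x => Subtype.ext (cj_zero N h0 _ _ x), (ker (hom m₃ h₃ N)).ι, hom m₃ h₃ N, _,
    shortExact_of _ _ _ (fun s => ?_) (fun s x hx => ?_) fun s y => ?_,
    shortExact_ker _ fun s y => ?_⟩
  · obtain ⟨r, q, u, hr, hq, hu, e1, e2, e3, e4⟩ := hl (X.pt s)
    exact Function.LeftInverse.injective (g := N.act _ (hr.inA (X.pt_mem s)))
      fun x => cj_one N e1 _ _ x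
  · obtain ⟨r, q, u, hr, hq, hu, e1, e2, e3, e4⟩ := hl (X.pt s)
    exact ⟨N.act _ (hr.inA (X.pt_mem s)) x,
      cj_htp N e2 _ _ (hq.inA (X.pt_mem s)) _ x (congrArg Subtype.val hx)⟩
  · obtain ⟨r, q, u, hr, hq, hu, e1, e2, e3, e4⟩ := hl (X.pt s)
    exact ⟨N.act _ (hq.inA (X.pt_mem s)) y.1,
      Subtype.ext (cj_htp N e3 _ _ (hu.inA (X.pt_mem s)) _ y.1 y.2)⟩
  · obtain ⟨r, q, u, hr, hq, hu, e1, e2, e3, e4⟩ := hl (X.pt s)
    exact ⟨N.act _ (hu.inA (X.pt_mem s)) y, cj_one N e4 _ _ y⟩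

theorem act_sum {α β I : Type} [Fintype β] (N : Coh X) {s : X.Idx} (t : Finset I)
    (m : I → Matrix α β K) (hm : ∀ x, X.InA s.1 (m x)) (h : X.InA s.1 (∑ x ∈ t, m x))
    (v : β → N.obj s) : ∑ x ∈ t, N.act (m x) (hm x) v = N.act _ h v := by
  funext a
  simp only [Finset.sum_apply, act_apply]
  rw [Finset.sum_comm]
  refine Finset.sum_congr rfl fun b _ => ?_
  rw [← Finset.sum_smul]
  exact congrArg (· • v b) (Subtype.ext (by simp [Matrix.sum_apply]))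

theorem Dec.homs {E : Bun X} {I : Type} [Fintype I] {F : I → Bun X} (h : Dec E F) (N : Coh X) :
    ∃ (a : ∀ x, E.tw.obj N ⟶ (F x).tw.obj N) (b : ∀ x, (F x).tw.obj N ⟶ E.tw.obj N),
      ∑ x, a x ≫ b x = 𝟙 _ := by
  obtain ⟨a, b, hab, e⟩ := h
  refine ⟨fun x => hom (a x) (hab x).1 N, fun x => hom (b x) (hab x).2 N, hom_ext fun s v => ?_⟩
  have e' : ∑ x, E.H (X.pt s) * b x * (F x).G (X.pt s) * ((F x).H (X.pt s) * a x * E.G (X.pt s))
      = 1 := by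
    simp only [cj_mul]
    rw [← Finset.sum_mul, ← Matrix.mul_sum, e, Matrix.mul_one, E.HG]
  rw [sum_app]
  refine (Finset.sum_congr rfl fun x _ => N.act_act _ _ _ _ v).trans ?_
  rw [act_sum N Finset.univ _ _ (by rw [e']; exact ProjVar.InA.one)]
  exact N.act_one e' _ _

theorem rules_of (P : ℕ → Coh X → Prop)
    (hd : ∀ {N : Coh X} {I : Type} [Fintype I] {F : I → Coh X} (a : ∀ x, N ⟶ F x)
      (b : ∀ x, F x ⟶ N) {n : ℕ}, ∑ x, a x ≫ b x = 𝟙 N → (∀ x, P n (F x)) → P n N)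
    (hr : ∀ {S : ShortComplex (Coh X)} {n : ℕ}, S.ShortExact → P (n + 1) S.X₁ → P n S.X₂ → P n S.X₃)
    (hl : ∀ {S : ShortComplex (Coh X)} {n : ℕ},
      S.ShortExact → P n S.X₃ → P (n + 1) S.X₂ → P (n + 1) S.X₁) (N : Coh X) :
    Rules fun n (E : Bun X) => P n (E.tw.obj N) where
  dec h hF := by
    obtain ⟨a, b, e⟩ := h.homs N
    exact hd a b e hF
  right h h1 h2 := by
    obtain ⟨_, _, _, hS⟩ := h.shortExact N
    exact hr hS h1 h2
  left h h1 h2 := by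
    obtain ⟨_, _, _, hS⟩ := h.shortExact N
    exact hl hS h1 h2
  right4 h h1 h2 h3 := by
    obtain ⟨_, _, _, _, _, _, _, hS, hS'⟩ := h.shortExact N
    exact hr hS' (hr hS h1 h2) h3
  left4 h h1 h2 h3 := by
    obtain ⟨_, _, _, _, _, _, _, hS, hS'⟩ := h.shortExact N
    exact hl hS (hl hS' h1 h2) h3

theorem rules_van (G : Coh X) : Rules fun n (E : Bun X) => Subsingleton (Ext G E.sheaf n) :=
  rules_of (fun n N => Subsingleton (Ext G N n)) (fun a b _ e h => ext_dec a b e h)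
    (fun hS h1 h2 => ext_right hS h1 h2) (fun hS h1 h2 => ext_left hS h1 h2) (unit X)

theorem rules_gen (T : Coh X) : Rules fun _ (E : Bun X) => InC T E.sheaf :=
  rules_of (fun _ N => InC T N) (fun a b _ e h => InC.dec a b e h)
    (fun hS h1 h2 => InC.right hS h1 h2) (fun hS h1 h2 => InC.left hS h2 h1) (unit X)

end Bun

end Pool.Agent.Lib.MP_cd184e_ag.T
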