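import Pool.Agent.Lib.MP_cd184e_ag.T.Lift

set_option autoImplicit false

open CategoryTheory Limits Abelian

namespace Pool.Agent.Lib.MP_cd184e_ag.T

variable {k K : Type} [Field k] [Field K] [Algebra k K] {X : ProjVar k K}

namespace Coh

theorem tw_isZero {N : Coh X} (h : N.Supp []) (j : ℤ) : IsZero ((tw j).obj N) :=
  Supp.isZero (N := (tw j).obj N) h

theorem one_pow_mem {y : K} (hy : y ∈ X.Rd 1) : y ^ 1 ∈ X.Deg (1 : ℕ) :=
  X.Rd_le_Deg 1 (X.pow_mem_Rd hy 1)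

theorem mu_congr (N : Coh X) (a b : ℤ) {d e : ℤ} {r r' : K} (hr : r ∈ X.Deg d)
    (hr' : r' ∈ X.Deg e) (hd : a + d = b) (he : a + e = b) (h : r = r') :
    mu N a b r hr hd = mu N a b r' hr' he := by
  obtain rfl : d = e := by omega
  subst h
  rfl

/-- Injectivity of one multiplication gives injectivity of all powers. -/
theorem inj_pow {G N : Coh X} {y : K} (hy : y ∈ X.Rd 1) {n : ℕ} {j₀ : ℤ}
    (h : ∀ j, j₀ ≤ j → ∀ x : Ext G ((tw j).obj N) n,
      x.comp (Ext.mk₀ (mu N j (j + (1 : ℕ)) (y ^ 1) (one_pow_mem hy) rfl)) (add_zero _) = 0 →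
        x = 0) (t : ℕ) :
    ∀ j, j₀ ≤ j → ∀ (c : ℤ) (hc : j + t = c) (x : Ext G ((tw j).obj N) n),
      x.comp (Ext.mk₀ (mu N j c (y ^ t) (X.Rd_le_Deg t (X.pow_mem_Rd hy t)) hc)) (add_zero _) = 0 →
        x = 0 := by
  induction t with
  | zero =>
    intro j _ c hc x hx
    obtain rfl : j = c := by simpa using hc
    have e : mu N j j (y ^ 0) (X.Rd_le_Deg 0 (X.pow_mem_Rd hy 0)) hc = 𝟙 _ := by
      refine hom_ext fun s z => ?_
      rw [mu_app, show X.sec (y ^ 0) (X.Rd_le_Deg 0 (X.pow_mem_Rd hy 0)) s = 1 from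
        Subtype.ext (by simp), one_smul]
      rfl
    rwa [e, Ext.comp_mk₀_id] at hx
  | succ t ih =>
    intro j hj c hc x hx
    refine h j hj x (ih (j + (1 : ℕ)) (by omega) c (by push_cast at hc ⊢; omega) _ ?_)
    rw [ext_comp_comp, mu_mu, ← hx]
    congr 2
    exact mu_congr _ _ _ _ _ _ _ (by ring)

theorem serre_aux (ys : List K) (hy : ∀ y ∈ ys, y ∈ X.Rd 1) :
    ∀ (N : Coh X), N.Supp ys → ∃ j₀ : ℤ, ∀ j, j₀ ≤ j → ∀ n : ℕ,
      Subsingleton (Ext (unit X) ((tw j).obj N) (n + 1)) := by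
  induction ys with
  | nil => exact fun N hN => ⟨0, fun j _ n => ext_isZero (tw_isZero hN j) _⟩
  | cons y ys ih =>
    intro N hN
    have ih' := ih fun z hz => hy z (List.mem_cons_of_mem _ hz)
    have hy1 := hy y List.mem_cons_self
    obtain ⟨j1, h1⟩ := ih' _ (hN.ker_mu 0 (0 + (1 : ℕ)) 1 (one_pow_mem hy1) rfl)
    obtain ⟨j2, h2⟩ := ih' _ (hN.coker_mu 0 (0 + (1 : ℕ)) 1 (one_pow_mem hy1) rfl)
    obtain ⟨j3, h3⟩ := sections_lift
      (range (mu N 0 (0 + (1 : ℕ)) (y ^ 1) (one_pow_mem hy1) rfl)).π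
      fun _ => Submodule.mkQ_surjective _
    refine ⟨max j1 (max j2 j3), fun j hj n => subsingleton_of_forall_eq 0 fun x => ?_⟩
    obtain ⟨t, ht⟩ := kill locProj_unit N j x
    refine inj_pow hy1 (j₀ := max j1 (max j2 j3)) (fun j hj x hx => ?_) t j hj _ rfl x
      (ht _ (X.pow_mem_Rd hy1 t))
    have a1 : j1 ≤ j := (le_max_left _ _).trans hj
    have a2 : j2 ≤ j := ((le_max_left _ _).trans (le_max_right _ _)).trans hj
    have a3 : j3 ≤ j := ((le_max_right _ _).trans (le_max_right _ _)).trans hj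
    have s1 := (shortExact_toRange
      (mu N 0 (0 + (1 : ℕ)) (y ^ 1) (one_pow_mem hy1) rfl)).map_of_exact (tw j)
    have s2 := (range (mu N 0 (0 + (1 : ℕ)) (y ^ 1) (one_pow_mem hy1) rfl)).shortExact.map_of_exact
      (tw j)
    have key := ext_inj_of (G := unit X) s1 s2 (h1 j a1 n) (fun c => ?_)
      (x.comp (Ext.mk₀ (twtw N 0 j j (zero_add _)).inv) (add_zero _)) ?_
    · rw [← Ext.comp_mk₀_id x, ← (twtw N 0 j j (zero_add _)).inv_hom_id, ← ext_comp_comp, key,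
        Ext.zero_comp]
    · cases n with
      | zero =>
        obtain ⟨γ, rfl⟩ := (Ext.mk₀_bijective _ _).2 c
        obtain ⟨γ', e⟩ := h3 j a3 γ
        exact ⟨Ext.mk₀ γ', (Ext.mk₀_comp_mk₀ _ _).trans (congrArg _ e)⟩
      | succ n => exact ⟨0, (h2 j a2 n).elim _ _⟩
    · rw [ext_comp_comp]
      have e := congrArg (fun z => Ext.comp z
        (Ext.mk₀ (twtw N (0 + (1 : ℕ)) j (j + (1 : ℕ)) (by omega)).inv) (add_zero _)) hx
      dsimp only at e
      rw [ext_comp_comp, Ext.zero_comp] at e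
      exact e

/-- Serre vanishing. -/
theorem serre (N : Coh X) : ∃ j₀ : ℤ, ∀ j, j₀ ≤ j → ∀ n : ℕ,
    Subsingleton (Ext (unit X) ((tw j).obj N) (n + 1)) := by
  refine serre_aux (List.ofFn X.f) (fun y hy => ?_) N fun s I _ hI => ?_
  · obtain ⟨l, rfl⟩ := (List.mem_ofFn' _ _).1 hy
    exact X.f_mem_Rd l
  · refine (Ideal.eq_top_iff_one _).2 (hI 1 ?_)
    rw [OneMemClass.coe_one, one_mul]
    exact (List.mem_ofFn' _ _).2 ⟨_, rfl⟩

end Coh

end Pool.Agent.Lib.MP_cd184e_ag.T
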