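import Pool.Agent.Lib.MP_cd184e_ag.T.Gen
import Pool.Agent.Lib.MP_cd184e_ag.T.Serre
import Pool.Agent.Lib.MP_cd184e_ag.T.FrobVan
import Pool.Agent.Lib.MP_cd184e_ag.T.Adj
import Pool.Agent.Lib.MP_cd184e_ag.T.Rules
import Pool.Agent.Lib.MP_cd184e_ag.T.Chase

set_option autoImplicit false

open CategoryTheory Limits Abelian

namespace Pool.Agent.Lib.MP_cd184e_ag.T

variable {k K : Type} [Field k] [Field K] [Algebra k K] {X : ProjVar k K}

open Coh Bun

theorem tilt_retr {P : ℕ → Bun X → Prop} (hP : Rules P) {A B : Bun X} (h : Retr A B) {n : ℕ}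
    (hB : P n B) : P n A := hP.dec h.dec fun _ => hB

theorem tilt_iso {G N N' : Coh X} (e : N ≅ N') {n : ℕ} (h : Subsingleton (Ext G N' n)) :
    Subsingleton (Ext G N n) :=
  ext_retract (𝟙 G) (𝟙 G) (Category.id_comp _) e.hom e.inv e.hom_inv_id h

theorem tilt_end (S : Bun X) (a : ℤ) : Retr ((S.t a).dual.tens (S.t a)) (S.tens S.dual) :=
  ((retr_t_dual S a).1.tens _).trans <| (retr_t_tens _ _ _).1.trans <|
    (((retr_swap _ _).trans (retr_t_tens _ _ _).1).t _).trans <|
      (retr_t_t _ a (-a) 0 (add_neg_cancel a)).1.trans (retr_t_zero _).1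

theorem tilt_lines (h3 : ∀ (n : ℕ) (j : ℤ), Subsingleton (Ext (unit X) (O X (3 * j)) (n + 1)) →
    Subsingleton (Ext (unit X) (O X j) (n + 1))) (n : ℕ) (j : ℤ) (hj : 1 ≤ j) :
    Subsingleton (Ext (unit X) (O X j) (n + 1)) := by
  obtain ⟨j₀, h0⟩ := serre (unit X)
  have key : ∀ (d : ℕ) (j : ℤ), 1 ≤ j → j₀ ≤ j + d →
      Subsingleton (Ext (unit X) (O X j) (n + 1)) := by
    intro d
    induction d with
    | zero => exact fun j _ h => h0 j (by simpa using h) n
    | succ d ih => exact fun j h1 h => h3 n j (ih (3 * j) (by omega) (by push_cast at h; omega))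
  exact key (j₀ - j).toNat j hj (by omega)

/-- The criterion for tilting. -/
theorem tilting_of_data [CharP k 3] [PerfectField k] (D : Data X) {ys : List K}
    (hy : X.NoZero ys) (hl : ys.length = 5)
    (hA : ∀ j : X.J, Nonempty (X.A {j.1} ≃ₐ[k] MvPolynomial (Fin 4) k)) {I : Type} [Fintype I]
    [DecidableEq I] (ty : I → Fin 6) (hty : Function.Surjective ty)
    (hsp : ∀ m : ℤ, Nonempty (((sigma fun x => D.six (ty x)).t m).sheaf ≅
      frob 3 (O X (3 * m + 3)))) : IsTilting (frob 3 (unit X)) := by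
  have hV := rules_van (unit X)
  have hG := rules_gen (frob 3 (unit X))
  have hret : ∀ (x : Fin 6) (m : ℤ),
      Retr ((D.six x).t m) ((sigma fun x => D.six (ty x)).t m) := fun x m => by
    obtain ⟨y, rfl⟩ := hty x
    exact (retr_sigma (fun x => D.six (ty x)) y).t m
  have hsix : ∀ (x : Fin 6) (m : ℤ) (n : ℕ), Subsingleton (Ext (unit X) (O X (3 * m + 3)) n) →
      Subsingleton (Ext (unit X) ((D.six x).t m).sheaf n) := fun x m n h => by
    obtain ⟨e⟩ := hsp m
    exact tilt_retr hV (hret x m) (tilt_iso e (frob_van 3 _ n h))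
  have hpos : ∀ (n : ℕ) (j : ℤ), 1 ≤ j → Subsingleton (Ext (unit X) (O X j) (n + 1)) := by
    refine tilt_lines fun n j h => ?_
    obtain ⟨e⟩ := sheaf_line (X := X) j
    have h1 := hsix 5 (j - 1) (n + 1) (by rwa [show 3 * (j - 1) + 3 = 3 * j by ring])
    exact tilt_iso e.symm (tilt_retr hV (retr_t_t (triv X 1) 1 (j - 1) j (by ring)).2 h1)
  have h00 : ∀ (x : Fin 6) (n : ℕ), Subsingleton (Ext (unit X) ((D.six x).t 0).sheaf (n + 1)) :=
    fun x n => hsix x 0 (n + 1) (hpos n _ (by norm_num))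
  have hzero : ∀ n : ℕ, Subsingleton (Ext (unit X) (O X (3 * (-1) + 3)) (n + 1)) := fun n => by
    obtain ⟨e⟩ := sheaf_line (X := X) 0
    exact tilt_iso e.symm (h00 0 n)
  have hvan := chase_van D hV (fun E n => cd hy locProj_unit _ (n + 4) (by omega))
    (fun x n => tilt_retr hV (retr_t_zero _).2 (h00 x n)) fun x n => hsix x (-1) (n + 1) (hzero n)
  obtain ⟨e1⟩ := hsp (-1)
  obtain ⟨e2⟩ := frob_tw0 (X := X) 3
  let e : ((sigma fun x => D.six (ty x)).t (-1)).sheaf ≅ frob 3 (unit X) := e1 ≪≫ e2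
  have hdown : ∀ (t : ℕ) (x : Fin 6), InC (frob 3 (unit X)) ((D.six x).t (-1 - t)).sheaf := by
    intro t
    induction t with
    | zero =>
      rw [Nat.cast_zero, sub_zero]
      exact fun x => tilt_retr (n := 0) hG (hret x (-1))
        (InC.retract e.hom e.inv e.hom_inv_id InC.self)
    | succ t ih =>
      rw [show (-1 - (t + 1 : ℕ) : ℤ) = -1 - t - 1 by push_cast; ring]
      exact chase_gen D (P := fun E => InC (frob 3 (unit X)) E.sheaf) hG (-1 - t) ih
  refine ⟨fun n => ?_, fun Y hY => InC.bounded (gen_all hy 4 hA fun t => ?_) Y hY⟩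
  · refine ext_retract e.inv e.hom e.inv_hom_id e.inv e.hom e.inv_hom_id (ext_of_van _ _ _ ?_)
    refine tilt_retr hV (tilt_end _ _) (hV.dec ((dec_sigma _).tens _) fun x => ?_)
    exact tilt_retr hV (retr_swap _ _) (hV.dec ((dec_sigma _).dual.tens _) fun y => hvan _ _ n)
  · obtain ⟨e'⟩ := sheaf_line (X := X) (-t)
    exact InC.retract e'.inv e'.hom e'.inv_hom_id (tilt_retr (n := 0) hG
      (retr_t_t (triv X 1) 1 (-1 - t) (-t) (by ring)).2 (hdown t 5))

end Pool.Agent.Lib.MP_cd184e_ag.T
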