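import Pool.Agent.Lib.MP_cd184e_ag.T.Sp
import Pool.Agent.Lib.MP_cd184e_ag.T.Tilting

set_option autoImplicit false

namespace Pool.Agent.Lib.MP_cd184e_ag.T

/-- The Frobenius direct image of the structure sheaf of the fourfold is tilting. -/
theorem V18_tilting {k : Type} [Field k] [CharP k 3] [PerfectField k] {i : k} (hi : i ^ 2 = -1) :
    IsTilting (Coh.frob 3 (Coh.unit (V18 hi))) := by
  obtain ⟨ys, hy, hl⟩ := noZero hi
  have := (chart hi (ctx hi).j0).2.1
  exact tilting_of_data (data (ctx hi)) hy hl (fun j => (chart hi j).2.2.1) tyF tyF_surj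
    (splitting (ctx hi) (A_eq hi) (chart hi _).1)

end Pool.Agent.Lib.MP_cd184e_ag.T
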