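import Mathlib

set_option autoImplicit false

namespace Pool.Agent.Lib.MP_cd184e_ag.T

/-- Sparse polynomials in four variables over the field with nine elements. -/
inductive Pl where
  | nil : Pl
  | cons (a b c d r i : ℕ) (tl : Pl) : Pl

/-- Forms in the homogeneous coordinates. -/
inductive Fm where
  | nil : Fm
  | cons (r i : ℕ) (vs : List ℕ) (tl : Fm) : Fm

noncomputable def nth {α : Type} (z : α) (l : List α) : ℕ → α :=
  List.rec (fun _ => z) (fun a _ ih n => Nat.rec a (fun m _ => ih m) n) l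

noncomputable def allTo (n : ℕ) (g : ℕ → Bool) : Bool := Nat.rec true (fun t ih => g t && ih) n

theorem allTo_spec {n : ℕ} {g : ℕ → Bool} (h : allTo n g = true) {t : ℕ} (ht : t < n) :
    g t = true := by
  induction n with
  | zero => omega
  | succ n ih =>
    have h' : (g n && allTo n g) = true := h
    rw [Bool.and_eq_true] at h'
    rcases Nat.lt_succ_iff_lt_or_eq.1 ht with h1 | rfl
    exacts [ih h'.2 h1, h'.1]

namespace Pl

def eq4 (a b c d a' b' c' d' : ℕ) : Bool :=
  Nat.beq a a' && (Nat.beq d d' && (Nat.beq b b' && Nat.beq c c'))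

def lt4 (a b c d a' b' c' d' : ℕ) : Bool :=
  Nat.blt a a' || (Nat.beq a a' && (Nat.blt b b' || (Nat.beq b b' &&
    (Nat.blt c c' || (Nat.beq c c' && Nat.blt d d')))))

noncomputable def add (p : Pl) : Pl → Pl :=
  Pl.rec (fun q => q) (fun a b c d r i tl ih q =>
    Pl.rec (cons a b c d r i tl) (fun a' b' c' d' r' i' tl' ih' =>
      cond (eq4 a b c d a' b' c' d')
        (cond (Nat.beq ((r + r') % 3) 0 && Nat.beq ((i + i') % 3) 0) (ih tl')
          (cons a b c d ((r + r') % 3) ((i + i') % 3) (ih tl')))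
        (cond (lt4 a b c d a' b' c' d') (cons a' b' c' d' r' i' ih')
          (cons a b c d r i (ih (cons a' b' c' d' r' i' tl'))))) q) p

noncomputable def mulT (a b c d r i : ℕ) (q : Pl) : Pl :=
  Pl.rec nil (fun a' b' c' d' r' i' _ ih => cons (a + a') (b + b') (c + c') (d + d')
    ((r * r' + 2 * (i * i')) % 3) ((r * i' + i * r') % 3) ih) q

noncomputable def mul (p q : Pl) : Pl :=
  Pl.rec nil (fun a b c d r i _ ih => add (mulT a b c d r i q) ih) p

def one : Pl := cons 0 0 0 0 1 0 nil

noncomputable def neg (p : Pl) : Pl := mulT 0 0 0 0 2 0 p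

noncomputable def isNil (p : Pl) : Bool := Pl.rec true (fun _ _ _ _ _ _ _ _ => false) p

noncomputable def eqv (p q : Pl) : Bool := isNil (add p (neg q))

noncomputable def pow (p : Pl) (n : ℕ) : Pl := Nat.rec one (fun _ ih => mul p ih) n

noncomputable def cube (p : Pl) : Pl :=
  Pl.rec nil (fun a b c d r i _ ih => cons (3 * a) (3 * b) (3 * c) (3 * d) r (2 * i % 3) ih) p

noncomputable def sumTo (n : ℕ) (g : ℕ → Pl) : Pl := Nat.rec nil (fun t ih => add (g t) ih) n

noncomputable def subst (g₀ g₁ g₂ g₃ p : Pl) : Pl :=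
  Pl.rec nil (fun a b c d r i _ ih => add (mulT 0 0 0 0 r i
    (mul (mul (pow g₀ a) (pow g₁ b)) (mul (pow g₂ c) (pow g₃ d)))) ih) p

noncomputable def hom (D : ℕ) (p : Pl) : Bool :=
  Pl.rec true (fun a b c d _ _ _ ih => Nat.beq (a + b + c + d) D && ih) p

noncomputable def prodV (F : ℕ → Pl) (vs : List ℕ) : Pl :=
  List.rec one (fun v _ ih => mul (F v) ih) vs

variable {K : Type} [Field K]

noncomputable def ev (ι : K) (x : Fin 4 → K) (p : Pl) : K :=
  Pl.rec 0 (fun a b c d r i _ ih =>
    ((r : K) + (i : K) * ι) * (x 0 ^ a * x 1 ^ b * x 2 ^ c * x 3 ^ d) + ih) p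

variable {ι : K} {x : Fin 4 → K}

@[simp] theorem ev_nil : ev ι x nil = 0 := rfl

theorem ev_cons (a b c d r i : ℕ) (tl : Pl) : ev ι x (cons a b c d r i tl) =
    ((r : K) + (i : K) * ι) * (x 0 ^ a * x 1 ^ b * x 2 ^ c * x 3 ^ d) + ev ι x tl := rfl

@[simp] theorem ev_one : ev ι x one = 1 := by simp [one, ev_cons]

theorem eq_zero_of_isNil {p : Pl} (h : isNil p = true) : ev ι x p = 0 := by
  cases p with
  | nil => rfl
  | cons => exact absurd h Bool.false_ne_true

theorem ev_hom {D : ℕ} {p : Pl} (h : hom D p = true) (t : K) :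
    ev ι (fun s => t * x s) p = t ^ D * ev ι x p := by
  induction p with
  | nil => simp
  | cons a b c d r i tl ih =>
    have h' : (Nat.beq (a + b + c + d) D && hom D tl) = true := h
    rw [Bool.and_eq_true, Nat.beq_eq] at h'
    rw [ev_cons, ev_cons, ih h'.2, ← h'.1]
    ring

theorem ev_mem {k : Type} [Field k] [Algebra k K] (A : Subalgebra k K) (hι : ι ∈ A)
    (hx : ∀ s, x s ∈ A) (p : Pl) : ev ι x p ∈ A := by
  induction p with
  | nil => exact zero_mem _
  | cons a b c d r i tl ih =>
    exact add_mem (mul_mem (add_mem (natCast_mem _ _) (mul_mem (natCast_mem _ _) hι))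
      (mul_mem (mul_mem (mul_mem (pow_mem (hx 0) _) (pow_mem (hx 1) _)) (pow_mem (hx 2) _))
        (pow_mem (hx 3) _))) ih

variable [CharP K 3]

theorem cast_mod (n : ℕ) : ((n % 3 : ℕ) : K) = n := (CharP.natCast_eq_natCast_mod K 3 n).symm

theorem three : (3 : K) = 0 := by exact_mod_cast CharP.cast_eq_zero K 3

theorem ev_add (p q : Pl) : ev ι x (add p q) = ev ι x p + ev ι x q := by
  induction p generalizing q with
  | nil => exact (zero_add _).symm
  | cons a b c d r i tl ih =>
    induction q with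
    | nil => exact (add_zero _).symm
    | cons a' b' c' d' r' i' tl' ih' =>
      change ev ι x (cond (eq4 a b c d a' b' c' d')
        (cond (Nat.beq ((r + r') % 3) 0 && Nat.beq ((i + i') % 3) 0) (add tl tl')
          (cons a b c d ((r + r') % 3) ((i + i') % 3) (add tl tl')))
        (cond (lt4 a b c d a' b' c' d')
          (cons a' b' c' d' r' i' (add (cons a b c d r i tl) tl'))
          (cons a b c d r i (add tl (cons a' b' c' d' r' i' tl'))))) = _
      cases h : eq4 a b c d a' b' c' d'
      · cases lt4 a b c d a' b' c' d'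
        · simp only [cond_false, ev_cons, ih]; ring
        · simp only [cond_false, cond_true]
          rw [ev_cons, ih', ev_cons a' b']; ring
      · simp only [eq4, Bool.and_eq_true, Nat.beq_eq] at h
        obtain ⟨rfl, rfl, rfl, rfl⟩ := h
        cases h2 : (Nat.beq ((r + r') % 3) 0 && Nat.beq ((i + i') % 3) 0)
        · simp only [cond_false, cond_true, ev_cons, ih, cast_mod]; push_cast; ring
        · simp only [Bool.and_eq_true, Nat.beq_eq] at h2
          have e1 : (r : K) + r' = 0 := by rw [← Nat.cast_add, ← cast_mod, h2.1, Nat.cast_zero]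
          have e2 : (i : K) + i' = 0 := by rw [← Nat.cast_add, ← cast_mod, h2.2, Nat.cast_zero]
          simp only [cond_true, ev_cons, ih]
          linear_combination (-(x 0 ^ a * x 1 ^ b * x 2 ^ c * x 3 ^ d)) * e1 -
            ι * (x 0 ^ a * x 1 ^ b * x 2 ^ c * x 3 ^ d) * e2

theorem ev_mulT (hι : ι * ι = -1) (a b c d r i : ℕ) (q : Pl) : ev ι x (mulT a b c d r i q) =
    ((r : K) + (i : K) * ι) * (x 0 ^ a * x 1 ^ b * x 2 ^ c * x 3 ^ d) * ev ι x q := by
  induction q with
  | nil => exact (mul_zero _).symm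
  | cons a' b' c' d' r' i' tl ih =>
    change ev ι x (cons _ _ _ _ _ _ (mulT a b c d r i tl)) = _
    rw [ev_cons, ih, ev_cons, cast_mod, cast_mod]
    push_cast
    linear_combination (x 0 ^ (a + a') * x 1 ^ (b + b') * x 2 ^ (c + c') * x 3 ^ (d + d')) *
      (i : K) * i' * (three (K := K) - hι)

theorem ev_mul (hι : ι * ι = -1) (p q : Pl) : ev ι x (mul p q) = ev ι x p * ev ι x q := by
  induction p with
  | nil => exact (zero_mul _).symm
  | cons a b c d r i tl ih =>
    change ev ι x (add (mulT a b c d r i q) (mul tl q)) = _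
    rw [ev_add, ev_mulT hι, ih, ev_cons]; ring

theorem ev_neg (hι : ι * ι = -1) (p : Pl) : ev ι x (neg p) = -ev ι x p := by
  rw [neg, ev_mulT hι]
  push_cast
  linear_combination ev ι x p * three (K := K)

theorem ev_eqv (hι : ι * ι = -1) {p q : Pl} (h : eqv p q = true) : ev ι x p = ev ι x q := by
  have := eq_zero_of_isNil (ι := ι) (x := x) h
  rw [ev_add, ev_neg hι] at this
  linear_combination this

theorem ev_pow (hι : ι * ι = -1) (p : Pl) (n : ℕ) : ev ι x (pow p n) = ev ι x p ^ n := by
  induction n with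
  | zero => exact ev_one.trans (pow_zero _).symm
  | succ n ih =>
    change ev ι x (mul p (pow p n)) = _
    rw [ev_mul hι, ih, pow_succ']

theorem ev_cube (hι : ι * ι = -1) (p : Pl) : ev ι x (cube p) = ev ι x p ^ 3 := by
  induction p with
  | nil => simp [cube]
  | cons a b c d r i tl ih =>
    change ev ι x (cons _ _ _ _ _ _ (cube tl)) = _
    have h (n : ℕ) : (n : K) ^ 3 = n := map_natCast (frobenius K 3) n
    rw [ev_cons, ih, ev_cons, cast_mod, add_pow_char, mul_pow, add_pow_char, mul_pow, h, h]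
    push_cast
    linear_combination (x 0 ^ (3 * a) * x 1 ^ (3 * b) * x 2 ^ (3 * c) * x 3 ^ (3 * d)) *
      (i : K) * ι * (three (K := K) - hι)

theorem ev_sumTo (n : ℕ) (g : ℕ → Pl) :
    ev ι x (sumTo n g) = ∑ t ∈ Finset.range n, ev ι x (g t) := by
  induction n with
  | zero => rfl
  | succ n ih =>
    change ev ι x (add (g n) (sumTo n g)) = _
    rw [ev_add, ih, Finset.sum_range_succ, add_comm]

theorem ev_subst (hι : ι * ι = -1) (g₀ g₁ g₂ g₃ p : Pl) : ev ι x (subst g₀ g₁ g₂ g₃ p) =
    ev ι ![ev ι x g₀, ev ι x g₁, ev ι x g₂, ev ι x g₃] p := by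
  induction p with
  | nil => rfl
  | cons a b c d r i tl ih =>
    change ev ι x (add (mulT 0 0 0 0 r i _) (subst g₀ g₁ g₂ g₃ tl)) = _
    rw [ev_add, ev_mulT hι, ih, ev_cons]
    simp only [ev_mul hι, ev_pow hι, Matrix.cons_val]
    ring

theorem ev_prodV (hι : ι * ι = -1) {F : ℕ → Pl} {f : ℕ → K} {t : K}
    (hF : ∀ v, ev ι x (F v) = t * f v) (vs : List ℕ) :
    ev ι x (prodV F vs) = t ^ vs.length * (vs.map f).prod := by
  induction vs with
  | nil => simp [prodV]
  | cons v vs ih =>
    change ev ι x (mul (F v) (prodV F vs)) = _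
    rw [ev_mul hι, ih, hF, List.map_cons, List.prod_cons, List.length_cons]; ring

end Pl

namespace Fm

noncomputable def poly (F : ℕ → Pl) (l : Fm) : Pl :=
  Fm.rec Pl.nil (fun r i vs _ ih => Pl.add (Pl.mulT 0 0 0 0 r i (Pl.prodV F vs)) ih) l

noncomputable def hom (D : ℕ) (l : Fm) : Bool :=
  Fm.rec true (fun _ _ vs _ ih => Nat.beq vs.length D && ih) l

variable {K : Type} [Field K]

noncomputable def ev (ι : K) (f : ℕ → K) (l : Fm) : K :=
  Fm.rec 0 (fun r i vs _ ih => ((r : K) + (i : K) * ι) * (vs.map f).prod + ih) l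

theorem ev_poly [CharP K 3] {ι : K} {x : Fin 4 → K} (hι : ι * ι = -1) {F : ℕ → Pl} {f : ℕ → K}
    {t : K} (hF : ∀ v, Pl.ev ι x (F v) = t * f v) {D : ℕ} {l : Fm} (h : hom D l = true) :
    Pl.ev ι x (poly F l) = t ^ D * ev ι f l := by
  induction l with
  | nil => exact (mul_zero _).symm
  | cons r i vs tl ih =>
    have h' : (Nat.beq vs.length D && hom D tl) = true := h
    rw [Bool.and_eq_true, Nat.beq_eq] at h'
    change Pl.ev ι x (Pl.add (Pl.mulT 0 0 0 0 r i _) (poly F tl)) =
      t ^ D * (((r : K) + (i : K) * ι) * (vs.map f).prod + ev ι f tl)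
    rw [Pl.ev_add, Pl.ev_mulT hι, Pl.ev_prodV hι hF, ih h'.2, h'.1]; ring

theorem ev_mem {k : Type} [Field k] [Algebra k K] (i : k) (f : ℕ → K) (S : Submodule k K)
    (hf : ∀ v, f v ∈ S) {D : ℕ} {l : Fm} (h : hom D l = true) :
    ev (algebraMap k K i) f l ∈ S ^ D := by
  induction l with
  | nil => exact zero_mem _
  | cons r j vs tl ih =>
    have h' : (Nat.beq vs.length D && hom D tl) = true := h
    rw [Bool.and_eq_true, Nat.beq_eq] at h'
    refine add_mem ?_ (ih h'.2)
    have h1 : (vs.map f).prod ∈ S ^ vs.length := by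
      clear h h'
      induction vs with
      | nil => simp [Submodule.one_le.1 le_rfl]
      | cons v vs ih =>
        rw [List.map_cons, List.prod_cons, List.length_cons, pow_succ']
        exact Submodule.mul_mem_mul (hf v) ih
    rw [show ((r : K) + (j : K) * algebraMap k K i) = algebraMap k K (r + j * i) by simp,
      ← Algebra.smul_def, ← h'.1]
    exact Submodule.smul_mem _ _ h1

end Fm

end Pool.Agent.Lib.MP_cd184e_ag.T
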