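import Pool.Agent.Lib.MP_cd184e_ag.T.Bun
import Pool.Agent.Lib.MP_cd184e_ag.T.Poly

set_option autoImplicit false
set_option linter.unusedSectionVars false

open Matrix
open scoped Kronecker

namespace Pool.Agent.Lib.MP_cd184e_ag.T

abbrev Mx : Type := ℕ → ℕ → Pl

noncomputable def ofL (l : List (List Pl)) : Mx := fun a b => nth Pl.nil (nth [] l a) b

noncomputable def ofLL (l : List (List (List Pl))) : ℕ → Mx := fun j => ofL (nth [] l j)

noncomputable def ofF (l : List (List Fm)) : ℕ → ℕ → Fm := fun a b => nth Fm.nil (nth [] l a) b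

noncomputable def ofN (l : List (List ℕ)) : ℕ → ℕ → ℕ := fun a b => nth 0 (nth [] l a) b

noncomputable def mm (l : ℕ) (A B : Mx) : Mx := fun a b =>
  Pl.sumTo l fun t => Pl.mul (A a t) (B t b)

def eye : Mx := fun a b => cond (Nat.beq a b) Pl.one Pl.nil

noncomputable def chkEq (n m : ℕ) (A B : Mx) : Bool :=
  allTo n fun a => allTo m fun b => Pl.eqv (A a b) (B a b)

theorem lt_of_blt {a b : ℕ} (h : Nat.blt a b = true) : a < b := by rwa [Nat.blt_eq] at h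

/-- Data of a bundle: rank, exponent, matrices. -/
structure PD where
  n : ℕ
  h : ℤ
  M : ℕ → Mx

def PD.triv (n : ℕ) : PD := ⟨n, 0, fun _ => eye⟩

def PD.t (P : PD) (a : ℤ) : PD := ⟨P.n, P.h - a, P.M⟩

noncomputable def PD.tens (P Q : PD) : PD := ⟨P.n * Q.n, P.h + Q.h, fun j a b =>
  Pl.mul (P.M j (a / Q.n) (b / Q.n)) (Q.M j (a % Q.n) (b % Q.n))⟩

def PD.sum (P Q : PD) : PD := ⟨P.n + Q.n, P.h, fun j a b =>
  cond (Nat.blt a P.n) (cond (Nat.blt b P.n) (P.M j a b) Pl.nil)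
    (cond (Nat.blt b P.n) Pl.nil (Q.M j (a - P.n) (b - P.n)))⟩

/-- Data of a morphism. -/
structure MD where
  D : ℕ
  a : ℕ
  b : ℕ
  L : ℕ → ℕ → Fm
  loc : ℕ → Mx

noncomputable def chkLink (F : ℕ → ℕ → Pl) (P Q : PD) (m : MD) : Bool :=
  allTo 6 fun j => allTo Q.n fun x => allTo P.n fun y => Fm.hom m.D (m.L x y) &&
    Pl.eqv (Pl.mul (Pl.pow (F j 0) m.a) (mm P.n (m.loc j) (P.M j) x y))
      (Pl.mul (Pl.pow (F j 0) m.b) (mm Q.n (Q.M j) (fun s t => Fm.poly (F j) (m.L s t)) x y))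

/-- Data of a globally generated bundle. -/
structure SD where
  r : ℕ
  h : ℕ
  L : ℕ → ℕ → Fm
  e : ℕ → ℕ → ℕ
  C : ℕ → Mx

noncomputable def SD.chk (F : ℕ → ℕ → Pl) (S : SD) : Bool :=
  (allTo S.r fun a => allTo S.h fun b => Fm.hom 1 (S.L a b)) &&
  (allTo 6 fun j => allTo S.r fun a => Nat.blt (S.e j a) S.h) &&
  chkEq S.r S.r (fun a t => Fm.poly (F 0) (S.L a (S.e 0 t))) eye &&
  allTo 6 fun j => chkEq S.r S.r
    (mm S.r (fun a t => Fm.poly (F j) (S.L a (S.e j t))) (fun t b => S.C j t (S.e 0 b)))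
    (fun a b => Fm.poly (F j) (S.L a (S.e 0 b))) &&
    allTo 6 fun i => chkEq S.r S.r
      (mm S.r (fun a t => Fm.poly (F j) (S.L a (S.e j t))) (fun t b => S.C j t (S.e i b)))
      (fun a b => Fm.poly (F j) (S.L a (S.e i b)))

def SD.pd (S : SD) : PD := ⟨S.r, 0, fun j a b => S.C j a (S.e 0 b)⟩

noncomputable def SD.pdDual (F : ℕ → ℕ → Pl) (S : SD) : PD :=
  ⟨S.r, 1, fun j a b => Fm.poly (F j) (S.L b (S.e j a))⟩

variable {k K : Type} [Field k] [Field K] [Algebra k K] [CharP K 3]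

/-- Coordinates on the six charts. -/
structure Ctx (X : ProjVar k K) (F : ℕ → ℕ → Pl) where
  i : k
  hi : algebraMap k K i * algebraMap k K i = -1
  u : X.J → Fin 4 → K
  hu : ∀ j t, u j t ∈ X.A {j.1}
  fN : ℕ → K
  hF : ∀ (j : X.J) v, Pl.ev (algebraMap k K i) (u j) (F j.1 v) = (X.f j.1)⁻¹ * fN v
  f0 : fN 0 = 1
  j0 : X.J
  hj0 : j0.1.val = 0
  fj0 : X.f j0.1 = 1
  hJ : ∀ j : X.J, j.1.val < 6

variable {X : ProjVar k K} {F : ℕ → ℕ → Pl} (C : Ctx X F)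

namespace Ctx

noncomputable def ev (j : X.J) (p : Pl) : K := Pl.ev (algebraMap k K C.i) (C.u j) p

noncomputable def evF (l : Fm) : K := Fm.ev (algebraMap k K C.i) C.fN l

omit [CharP K 3] in
theorem ev_mem (j : X.J) (p : Pl) : C.ev j p ∈ X.A {j.1} :=
  Pl.ev_mem _ (Subalgebra.algebraMap_mem _ _) (C.hu j) p

theorem ev_poly (j : X.J) {D : ℕ} {l : Fm} (h : Fm.hom D l = true) :
    C.ev j (Fm.poly (F j.1) l) = (X.f j.1)⁻¹ ^ D * C.evF l := Fm.ev_poly C.hi (C.hF j) h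

omit [CharP K 3] in
theorem ev_tau (j : X.J) : C.ev j (F j.1 0) = (X.f j.1)⁻¹ := by rw [ev, C.hF, C.f0, mul_one]

noncomputable def evM {α β : Type} {n m : ℕ} (j : X.J) (e : α ≃ Fin n) (e' : β ≃ Fin m) (A : Mx) :
    Matrix α β K := fun a b => C.ev j (A (e a) (e' b))

variable {α β γ : Type} {n m l : ℕ}

omit [CharP K 3] in
theorem evM_inA (j : X.J) (e : α ≃ Fin n) (e' : β ≃ Fin m) (A : Mx) :
    X.InA {j.1} (C.evM j e e' A) := fun _ _ => C.ev_mem j _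

theorem evM_mm [Fintype β] (j : X.J) (e : α ≃ Fin n) (e' : β ≃ Fin l) (e'' : γ ≃ Fin m)
    (A B : Mx) : C.evM j e e'' (mm l A B) = C.evM j e e' A * C.evM j e' e'' B := by
  ext a c
  rw [Matrix.mul_apply, evM, mm, ev, Pl.ev_sumTo, Finset.sum_range,
    ← e'.sum_comp fun t : Fin l => Pl.ev _ _ (Pl.mul (A (e a) t) (B t (e'' c)))]
  exact Finset.sum_congr rfl fun b _ => Pl.ev_mul C.hi _ _

omit [CharP K 3] in
theorem evM_eye [DecidableEq α] (j : X.J) (e : α ≃ Fin n) : C.evM j e e eye = 1 := by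
  ext a b
  rw [evM, eye, Matrix.one_apply]
  split_ifs with h
  · subst h; simp [ev]
  · have : Nat.beq (e a) (e b) = false := by
      rw [Bool.eq_false_iff, ne_eq, Nat.beq_eq]
      exact fun h' => h (e.injective (Fin.ext h'))
    simp [this, ev]

theorem evM_chk (j : X.J) (e : α ≃ Fin n) (e' : β ≃ Fin m) {A B : Mx}
    (h : chkEq n m A B = true) : C.evM j e e' A = C.evM j e e' B := by
  ext a b
  exact Pl.ev_eqv C.hi (allTo_spec (allTo_spec h (e a).2) (e' b).2)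

theorem evM_add (j : X.J) (e : α ≃ Fin n) (e' : β ≃ Fin m) (A B : Mx) :
    C.evM j e e' (fun a b => Pl.add (A a b) (B a b)) = C.evM j e e' A + C.evM j e e' B := by
  ext a b
  exact Pl.ev_add _ _

end Ctx

/-- The data `P` describe the bundle `E`. -/
structure PH (E : Bun X) (P : PD) where
  e : E.ι ≃ Fin P.n
  spec : ∀ j : X.J, (X.f j.1)⁻¹ ^ P.h • E.H j = C.evM j e e (P.M j.1)

namespace PH

def triv (n : ℕ) : PH C (Bun.triv X n) (PD.triv n) where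
  e := Equiv.refl _
  spec j := by
    change (X.f j.1)⁻¹ ^ (0 : ℤ) • (1 : Matrix (Fin n) (Fin n) K) = _
    rw [zpow_zero, one_smul]; exact (C.evM_eye j _).symm

variable {C} {E E' E'' E''' : Bun X} {P P' P'' P''' : PD}

noncomputable def t (p : PH C E P) (a : ℤ) : PH C (E.t a) (P.t a) where
  e := p.e
  spec j := by
    refine Eq.trans ?_ (p.spec j)
    change (X.f j.1)⁻¹ ^ (P.h - a) • X.f j.1 ^ (-a) • E.H j = _
    rw [smul_smul, _root_.zpow_neg, ← _root_.inv_zpow, ← zpow_add₀ (inv_ne_zero (X.ne _ j.2))]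
    simp

noncomputable def tens (p : PH C E P) (p' : PH C E' P') : PH C (E.tens E') (P.tens P') where
  e := (p.e.prodCongr p'.e).trans finProdFinEquiv
  spec j := by
    ext ⟨a, a'⟩ ⟨b, b'⟩
    have h1 := congrFun (congrFun (p.spec j) a) b
    have h2 := congrFun (congrFun (p'.spec j) a') b'
    have d (x : Fin P.n) (y : Fin P'.n) : (y + P'.n * x : ℕ) / P'.n = x := by
      rw [Nat.add_mul_div_left _ _ y.pos, Nat.div_eq_of_lt y.2, zero_add]
    have r (x : Fin P.n) (y : Fin P'.n) : (y + P'.n * x : ℕ) % P'.n = y := by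
      rw [Nat.add_mul_mod_self_left, Nat.mod_eq_of_lt y.2]
    change (X.f j.1)⁻¹ ^ (P.h + P'.h) * (E.H j a b * E'.H j a' b') = Pl.ev _ _ (Pl.mul
      (P.M j.1 ((p'.e a' + P'.n * p.e a : ℕ) / P'.n) ((p'.e b' + P'.n * p.e b : ℕ) / P'.n))
      (P'.M j.1 ((p'.e a' + P'.n * p.e a : ℕ) % P'.n) ((p'.e b' + P'.n * p.e b : ℕ) % P'.n)))
    rw [d, d, r, r, Pl.ev_mul C.hi, zpow_add₀ (inv_ne_zero (X.ne _ j.2)), mul_mul_mul_comm]
    exact congrArg₂ (· * ·) h1 h2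

noncomputable def sum (p : PH C E P) (p' : PH C E' P') (h : P.h = P'.h) :
    PH C (E.sum E') (P.sum P') where
  e := (p.e.sumCongr p'.e).trans finSumFinEquiv
  spec j := by
    have l (x : Fin P.n) : Nat.blt x P.n = true := by rw [Nat.blt_eq]; exact x.2
    have g (y : Fin P'.n) : Nat.blt (P.n + y) P.n = false := by
      rw [Bool.eq_false_iff, ne_eq, Nat.blt_eq]; omega
    ext (a | a) (b | b)
    · change (X.f j.1)⁻¹ ^ P.h * E.H j a b = C.ev j ((P.sum P').M j.1 (p.e a) (p.e b))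
      simp only [PD.sum, l, cond_true]
      exact congrFun (congrFun (p.spec j) a) b
    · change (X.f j.1)⁻¹ ^ P.h * 0 = C.ev j ((P.sum P').M j.1 (p.e a) (P.n + p'.e b))
      simp only [PD.sum, l, g, cond_true, cond_false]
      exact mul_zero _
    · change (X.f j.1)⁻¹ ^ P.h * 0 = C.ev j ((P.sum P').M j.1 (P.n + p'.e a) (p.e b))
      simp only [PD.sum, l, g, cond_true, cond_false]
      exact mul_zero _
    · change (X.f j.1)⁻¹ ^ P.h * E'.H j a b =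
        C.ev j ((P.sum P').M j.1 (P.n + p'.e a) (P.n + p'.e b))
      simp only [PD.sum, g, cond_false, Nat.add_sub_cancel_left]
      rw [h]
      exact congrFun (congrFun (p'.spec j) a) b

noncomputable def mat (p : PH C E P) (p' : PH C E' P') (m : MD) : Matrix E'.ι E.ι K :=
  fun x y => C.evF (m.L (p'.e x) (p.e y))

theorem link (p : PH C E P) (p' : PH C E' P') (m : MD) (h : chkLink F P P' m = true)
    (hd : (m.a : ℤ) + P.h = m.b + P'.h + m.D) (j : X.J) :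
    E'.H j * mat p p' m * E.G j = C.evM j p'.e p.e (m.loc j.1) := by
  have h0 := inv_ne_zero (X.ne _ j.2)
  have h1 := fun (x : E'.ι) (y : E.ι) => allTo_spec (allTo_spec (allTo_spec h (C.hJ j))
    (p'.e x).2) (p.e y).2
  simp only [Bool.and_eq_true] at h1
  have h2 : C.evM j p'.e p.e (fun s t => Fm.poly (F j.1) (m.L s t)) =
      (X.f j.1)⁻¹ ^ m.D • mat p p' m := by
    ext x y; exact C.ev_poly j (h1 x y).1
  have h3 : (X.f j.1)⁻¹ ^ m.a • C.evM j p'.e p.e (mm P.n (m.loc j.1) (P.M j.1)) =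
      (X.f j.1)⁻¹ ^ m.b • C.evM j p'.e p.e
        (mm P'.n (P'.M j.1) fun s t => Fm.poly (F j.1) (m.L s t)) := by
    ext x y
    have := Pl.ev_eqv (x := C.u j) C.hi (h1 x y).2
    rw [Pl.ev_mul C.hi, Pl.ev_mul C.hi, Pl.ev_pow C.hi, Pl.ev_pow C.hi] at this
    rw [← C.ev_tau]
    exact this
  rw [C.evM_mm j _ p.e, C.evM_mm j _ p'.e, h2, ← p.spec, ← p'.spec, Matrix.mul_smul,
    Matrix.mul_smul, Matrix.smul_mul, smul_smul, smul_smul, smul_smul, ← zpow_natCast,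
    ← zpow_natCast, ← zpow_natCast, ← zpow_add₀ h0, ← zpow_add₀ h0, ← zpow_add₀ h0, hd,
    add_right_comm] at h3
  rw [← smul_right_injective _ (zpow_ne_zero _ h0) h3, Matrix.mul_assoc, E.HG, Matrix.mul_one]

theorem conj {A B : Bun X} (j : X.J) {m : Matrix B.ι A.ι K} {M : Matrix B.ι A.ι K}
    (h : B.H j * m * A.G j = M) : m = B.G j * M * A.H j := by
  rw [← h]
  simp only [Matrix.mul_assoc]
  rw [A.GH, Matrix.mul_one, ← Matrix.mul_assoc, B.GH, Matrix.one_mul]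

theorem regOn_conj {A B : Bun X} (j : X.J) {M : Matrix B.ι A.ι K} (h : X.InA {j.1} M) :
    Bun.RegOn A B j (B.G j * M * A.H j) := by
  rw [Bun.RegOn]
  simp only [Matrix.mul_assoc]
  rwa [A.HG, Matrix.mul_one, ← Matrix.mul_assoc, B.HG, Matrix.one_mul]

theorem conj_mul {A B D : Bun X} (j : X.J) (M : Matrix D.ι B.ι K) (N : Matrix B.ι A.ι K) :
    D.G j * M * B.H j * (B.G j * N * A.H j) = D.G j * (M * N) * A.H j := by
  simp only [Matrix.mul_assoc]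
  rw [← Matrix.mul_assoc (B.H j), B.HG, Matrix.one_mul]

theorem conj_one {A : Bun X} (j : X.J) {M : Matrix A.ι A.ι K} (h : M = 1) :
    A.G j * M * A.H j = 1 := by rw [h, Matrix.mul_one, A.GH]

theorem conj_add {A B : Bun X} (j : X.J) (M N : Matrix B.ι A.ι K) :
    B.G j * M * A.H j + B.G j * N * A.H j = B.G j * (M + N) * A.H j := by
  rw [Matrix.mul_add, Matrix.add_mul]

theorem reg (p : PH C E P) (p' : PH C E' P') (m : MD) (h : chkLink F P P' m = true)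
    (hd : (m.a : ℤ) + P.h = m.b + P'.h + m.D) : Bun.Reg E E' (mat p p' m) := fun j => by
  rw [Bun.RegOn, link p p' m h hd]; exact C.evM_inA _ _ _ _

theorem retr (p : PH C E P) (p' : PH C E' P') (m m' : MD) (h : chkLink F P P' m = true)
    (hd : (m.a : ℤ) + P.h = m.b + P'.h + m.D) (h' : chkLink F P' P m' = true)
    (hd' : (m'.a : ℤ) + P'.h = m'.b + P.h + m'.D)
    (h1 : chkEq P.n P.n (mm P'.n (m'.loc 0) (m.loc 0)) eye = true) : Bun.Retr E E' := by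
  refine ⟨_, _, reg p p' m h hd, reg p' p m' h' hd', ?_⟩
  rw [conj _ (link p p' m h hd C.j0), conj _ (link p' p m' h' hd' C.j0), conj_mul, C.hj0,
    ← C.evM_mm, C.evM_chk _ _ _ h1]
  exact conj_one _ (C.evM_eye _ _)

noncomputable def chk3 (n₁ n₂ n₃ : ℕ) (m₁ m₂ r s : ℕ → Mx) : Bool :=
  chkEq n₃ n₁ (mm n₂ (m₂ 0) (m₁ 0)) (fun _ _ => Pl.nil) &&
  allTo 6 fun j => chkEq n₁ n₁ (mm n₂ (r j) (m₁ j)) eye &&
    chkEq n₂ n₂ (fun a b => Pl.add (mm n₁ (m₁ j) (r j) a b) (mm n₃ (s j) (m₂ j) a b)) eye &&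
    chkEq n₃ n₃ (mm n₂ (m₂ j) (s j)) eye

omit [CharP K 3] in
theorem conj_zero {A B : Bun X} (j : X.J) {n m : ℕ} (e : B.ι ≃ Fin n) (e' : A.ι ≃ Fin m) :
    B.G j * C.evM j e e' (fun _ _ => Pl.nil) * A.H j = 0 := by
  rw [show C.evM j e e' (fun _ _ => Pl.nil) = 0 from rfl, Matrix.mul_zero, Matrix.zero_mul]

theorem ex3 (p : PH C E P) (p' : PH C E' P') (p'' : PH C E'' P'') (m₁ m₂ : MD) (r s : ℕ → Mx)
    (h₁ : chkLink F P P' m₁ = true) (d₁ : (m₁.a : ℤ) + P.h = m₁.b + P'.h + m₁.D)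
    (h₂ : chkLink F P' P'' m₂ = true) (d₂ : (m₂.a : ℤ) + P'.h = m₂.b + P''.h + m₂.D)
    (h : chk3 P.n P'.n P''.n m₁.loc m₂.loc r s = true) : Bun.Ex3 E E' E'' := by
  rw [chk3, Bool.and_eq_true] at h
  refine ⟨_, _, reg p p' m₁ h₁ d₁, reg p' p'' m₂ h₂ d₂, ?_, fun j => ?_⟩
  · rw [conj _ (link p p' m₁ h₁ d₁ C.j0), conj _ (link p' p'' m₂ h₂ d₂ C.j0), conj_mul, C.hj0,
      ← C.evM_mm, C.evM_chk _ _ _ h.1, conj_zero]
  · have h2 := allTo_spec h.2 (C.hJ j)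
    simp only [Bool.and_eq_true] at h2
    refine ⟨_, _, regOn_conj j (C.evM_inA j p.e p'.e (r j.1)),
      regOn_conj j (C.evM_inA j p'.e p''.e (s j.1)), ?_⟩
    rw [conj _ (link p p' m₁ h₁ d₁ j), conj _ (link p' p'' m₂ h₂ d₂ j)]
    simp only [conj_mul, conj_add, ← C.evM_mm, ← C.evM_add]
    rw [C.evM_chk _ _ _ h2.1.1, C.evM_chk _ _ _ h2.1.2, C.evM_chk _ _ _ h2.2]
    exact ⟨conj_one _ (C.evM_eye _ _), conj_one _ (C.evM_eye _ _), conj_one _ (C.evM_eye _ _)⟩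

noncomputable def chk4 (n₁ n₂ n₃ n₄ : ℕ) (m₁ m₂ m₃ r h s : ℕ → Mx) : Bool :=
  chkEq n₃ n₁ (mm n₂ (m₂ 0) (m₁ 0)) (fun _ _ => Pl.nil) &&
  chkEq n₄ n₂ (mm n₃ (m₃ 0) (m₂ 0)) (fun _ _ => Pl.nil) &&
  allTo 6 fun j => chkEq n₁ n₁ (mm n₂ (r j) (m₁ j)) eye &&
    chkEq n₂ n₂ (fun a b => Pl.add (mm n₁ (m₁ j) (r j) a b) (mm n₃ (h j) (m₂ j) a b)) eye &&
    chkEq n₃ n₃ (fun a b => Pl.add (mm n₂ (m₂ j) (h j) a b) (mm n₄ (s j) (m₃ j) a b)) eye &&
    chkEq n₄ n₄ (mm n₃ (m₃ j) (s j)) eye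

theorem ex4 (p : PH C E P) (p' : PH C E' P') (p'' : PH C E'' P'') (p''' : PH C E''' P''')
    (m₁ m₂ m₃ : MD) (r g s : ℕ → Mx)
    (h₁ : chkLink F P P' m₁ = true) (d₁ : (m₁.a : ℤ) + P.h = m₁.b + P'.h + m₁.D)
    (h₂ : chkLink F P' P'' m₂ = true) (d₂ : (m₂.a : ℤ) + P'.h = m₂.b + P''.h + m₂.D)
    (h₃ : chkLink F P'' P''' m₃ = true) (d₃ : (m₃.a : ℤ) + P''.h = m₃.b + P'''.h + m₃.D)
    (h : chk4 P.n P'.n P''.n P'''.n m₁.loc m₂.loc m₃.loc r g s = true) :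
    Bun.Ex4 E E' E'' E''' := by
  rw [chk4, Bool.and_eq_true, Bool.and_eq_true] at h
  refine ⟨_, _, _, reg p p' m₁ h₁ d₁, reg p' p'' m₂ h₂ d₂, reg p'' p''' m₃ h₃ d₃, ?_, ?_,
    fun j => ?_⟩
  · rw [conj _ (link p p' m₁ h₁ d₁ C.j0), conj _ (link p' p'' m₂ h₂ d₂ C.j0), conj_mul, C.hj0,
      ← C.evM_mm, C.evM_chk _ _ _ h.1.1, conj_zero]
  · rw [conj _ (link p' p'' m₂ h₂ d₂ C.j0), conj _ (link p'' p''' m₃ h₃ d₃ C.j0), conj_mul, C.hj0,
      ← C.evM_mm, C.evM_chk _ _ _ h.1.2, conj_zero]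
  · have h2 := allTo_spec h.2 (C.hJ j)
    simp only [Bool.and_eq_true] at h2
    refine ⟨_, _, _, regOn_conj j (C.evM_inA j p.e p'.e (r j.1)),
      regOn_conj j (C.evM_inA j p'.e p''.e (g j.1)),
      regOn_conj j (C.evM_inA j p''.e p'''.e (s j.1)), ?_⟩
    rw [conj _ (link p p' m₁ h₁ d₁ j), conj _ (link p' p'' m₂ h₂ d₂ j),
      conj _ (link p'' p''' m₃ h₃ d₃ j)]
    simp only [conj_mul, conj_add, ← C.evM_mm, ← C.evM_add]
    rw [C.evM_chk _ _ _ h2.1.1.1, C.evM_chk _ _ _ h2.1.1.2, C.evM_chk _ _ _ h2.1.2,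
      C.evM_chk _ _ _ h2.2]
    exact ⟨conj_one _ (C.evM_eye _ _), conj_one _ (C.evM_eye _ _), conj_one _ (C.evM_eye _ _),
      conj_one _ (C.evM_eye _ _)⟩

end PH

namespace SD

variable (S : SD)

noncomputable def G (j : X.J) : Matrix (Fin S.r) (Fin S.r) K :=
  fun a t => C.evF (S.L a (S.e j.1 t))

theorem G_mul (h : S.chk F = true) (i j : X.J) : S.G C j * C.evM j (Equiv.refl _) (Equiv.refl _)
    (fun t b => S.C j.1 t (S.e i.1 b)) = S.G C i := by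
  simp only [chk, Bool.and_eq_true] at h
  obtain ⟨⟨⟨h1, h2⟩, -⟩, h4⟩ := h
  have h5 := allTo_spec h4 (C.hJ j)
  rw [Bool.and_eq_true] at h5
  have h6 := C.evM_chk j (Equiv.refl _) (Equiv.refl _) (allTo_spec h5.2 (C.hJ i))
  have h7 (l : X.J) : C.evM j (Equiv.refl (Fin S.r)) (Equiv.refl (Fin S.r))
      (fun a t => Fm.poly (F j.1) (S.L a (S.e l.1 t))) = (X.f j.1)⁻¹ ^ 1 • S.G C l := by
    ext a t
    exact C.ev_poly j (allTo_spec (allTo_spec h1 a.2)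
      (lt_of_blt (allTo_spec (allTo_spec h2 (C.hJ l)) t.2)))
  rw [C.evM_mm j _ (Equiv.refl _), h7, h7, Matrix.smul_mul] at h6
  exact smul_right_injective _ (pow_ne_zero _ (inv_ne_zero (X.ne _ j.2))) h6

theorem G_zero (h : S.chk F = true) : S.G C C.j0 = 1 := by
  simp only [chk, Bool.and_eq_true] at h
  obtain ⟨⟨⟨h1, h2⟩, h3⟩, -⟩ := h
  rw [← C.evM_eye C.j0 (Equiv.refl _), ← C.evM_chk _ _ _ h3]
  ext a t
  have := C.ev_poly C.j0 (allTo_spec (allTo_spec h1 a.2)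
      (lt_of_blt (allTo_spec (allTo_spec h2 (C.hJ C.j0)) t.2)))
  rw [C.fj0, inv_one, one_pow, one_mul] at this
  rw [G, ← this, C.hj0]; rfl

/-- The bundle generated by the columns of `S.L`. -/
@[reducible] noncomputable def bun (h : S.chk F = true) : Bun X where
  ι := Fin S.r
  G := S.G C
  H j := C.evM j (Equiv.refl _) (Equiv.refl _) fun t b => S.C j.1 t (S.e 0 b)
  HG j := mul_eq_one_comm.1 (by
    have := S.G_mul C h C.j0 j
    rwa [S.G_zero C h, C.hj0] at this)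
  reg i j := by
    have h0 := S.G_mul C h C.j0 j
    rw [S.G_zero C h, C.hj0] at h0
    rw [← S.G_mul C h i j, ← Matrix.mul_assoc, mul_eq_one_comm.1 h0, Matrix.one_mul]
    exact (C.evM_inA j _ _ _).mono (by simp)

noncomputable def ph (h : S.chk F = true) : PH C (S.bun C h) S.pd where
  e := Equiv.refl _
  spec j := by
    change (X.f j.1)⁻¹ ^ (0 : ℤ) • _ = _
    rw [zpow_zero, one_smul]; rfl

noncomputable def phDual (h : S.chk F = true) : PH C (S.bun C h).dual (S.pdDual F) where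
  e := Equiv.refl _
  spec j := by
    simp only [chk, Bool.and_eq_true] at h
    obtain ⟨⟨⟨h1, h2⟩, -⟩, -⟩ := h
    ext a b
    have := C.ev_poly j (allTo_spec (allTo_spec h1 b.2)
      (lt_of_blt (allTo_spec (allTo_spec h2 (C.hJ j)) a.2)))
    change (X.f j.1)⁻¹ ^ (1 : ℤ) * _ = _
    rw [zpow_one]; rw [pow_one] at this
    exact this.symm

end SD

end Pool.Agent.Lib.MP_cd184e_ag.T
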