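import Pool.Agent.Lib.MP_cd184e_ag.T.Seq1
import Pool.Agent.Lib.MP_cd184e_ag.T.Seq2
import Pool.Agent.Lib.MP_cd184e_ag.T.Seq3
import Pool.Agent.Lib.MP_cd184e_ag.T.Seq4

set_option autoImplicit false

namespace Pool.Agent.Lib.MP_cd184e_ag.T

variable {k K : Type} [Field k] [Field K] [Algebra k K] [CharP K 3] {X : ProjVar k K}
  (C : Ctx X FF)

open PH in
/-- The bundles and exact sequences on the fourfold. -/
noncomputable def data : Bun.Data X :=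
  let v := sV.ph C chk_sV
  let q := sQ.ph C chk_sQ
  let e1 := sE1.ph C chk_sE1
  let e0 := sE0.ph C chk_sE0
  let v' := sV.phDual C chk_sV
  let q' := sQ.phDual C chk_sQ
  let e1' := sE1.phDual C chk_sE1
  let e0' := sE0.phDual C chk_sE0
  { V := sV.bun C chk_sV
    Q := sQ.bun C chk_sQ
    E := fun e => Bool.rec (sE0.bun C chk_sE0) (sE1.bun C chk_sE1) e
    om := retr v (v'.t 1) om_m0 om_m1 om_l0 rfl om_l1 rfl om_c
    om' := retr (v'.t 1) v om_m1 om_m0 om_l1 rfl om_l0 rfl om_d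
    det := retr ((triv C 1).t 1) (v.tens v) det_m0 det_m1 det_l0 rfl det_l1 rfl det_c
    s2 := ex3 q' (triv C 7) v s2_m0 s2_m1 s2_x0 s2_x1 s2_l0 rfl s2_l1 rfl s2_c
    s3 := fun e => Bool.rec
      (ex3 e1' (triv C 6) e0 s30_m0 s30_m1 s30_x0 s30_x1 s30_l0 rfl s30_l1 rfl s30_c)
      (ex3 e0' (triv C 6) e1 s31_m0 s31_m1 s31_x0 s31_x1 s31_l0 rfl s31_l1 rfl s31_c) e
    s4 := ex3 ((v.tens v).t (-1)) ((triv C 1).sum q rfl) v s4_m0 s4_m1 s4_x0 s4_x1 s4_l0 rfl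
      s4_l1 rfl s4_c
    s5 := fun e => Bool.rec
      (ex3 e0 ((triv C 3).tens v) (e1'.t 1) s50_m0 s50_m1 s50_x0 s50_x1 s50_l0 rfl s50_l1 rfl
        s50_c)
      (ex3 e1 ((triv C 3).tens v) (e0'.t 1) s51_m0 s51_m1 s51_x0 s51_x1 s51_l0 rfl s51_l1 rfl
        s51_c) e
    s7 := ex4 q (((triv C 3).tens e1).sum ((triv C 3).tens e0) rfl) ((triv C 9).tens v) (q'.t 1)
      s7_m0 s7_m1 s7_m2 s7_x0 s7_x1 s7_x2 s7_l0 rfl s7_l1 rfl s7_l2 rfl s7_c
    s10 := fun e => Bool.rec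
      (ex3 ((v.tens e0).t (-1)) ((triv C 3).sum ((triv C 3).tens q) rfl)
        (((triv C 3).tens e1).sum e0 rfl) s100_m0 s100_m1 s100_x0 s100_x1 s100_l0 rfl s100_l1 rfl
        s100_c)
      (ex3 ((v.tens e1).t (-1)) ((triv C 3).sum ((triv C 3).tens q) rfl)
        (((triv C 3).tens e0).sum e1 rfl) s101_m0 s101_m1 s101_x0 s101_x1 s101_l0 rfl s101_l1 rfl
        s101_c) e }

end Pool.Agent.Lib.MP_cd184e_ag.T
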