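import Pool.Agent.Lib.MP_cd184e_ag.T.SeqB

set_option autoImplicit false

namespace Pool.Agent.Lib.MP_cd184e_ag.T

noncomputable def om_m0 : MD := ⟨0, 0, 0, zF 0
  [[0, 1], [2]], zPP
  [[[0, 1], [2]], [[0, 8], [4]], [[0, 7], [5]], [[0, 3], [6]], [[0, 5], [7]], [[0, 7], [5]]]⟩

theorem om_l0 : chkLink FF sV.pd
    ((sV.pdDual FF).t 1) om_m0 = true := by
  decide +kernel

noncomputable def om_m1 : MD := ⟨0, 0, 0, zF 0
  [[0, 2], [1]], zPP
  [[[0, 2], [1]], [[0, 5], [7]], [[0, 4], [8]], [[0, 3], [6]], [[0, 8], [4]], [[0, 4], [8]]]⟩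

theorem om_l1 : chkLink FF ((sV.pdDual FF).t 1)
    sV.pd om_m1 = true := by
  decide +kernel

theorem om_c : chkEq 2 2 (mm 2 (om_m1.loc 0) (om_m0.loc 0)) eye = true := by
  decide +kernel

theorem om_d : chkEq 2 2 (mm 2 (om_m0.loc 0) (om_m1.loc 0)) eye = true := by
  decide +kernel

noncomputable def det_m0 : MD := ⟨0, 1, 0, zF 0
  [[], [1], [2]], zPP
  [[[], [1], [2]], [[], [7], [5]], [[], [8], [4]], [[], [6], [3]], [[], [4], [8]], [[], [8], [4]]]⟩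

theorem det_l0 : chkLink FF ((PD.triv 1).t 1)
    (sV.pd.tens sV.pd) det_m0 = true := by
  decide +kernel

noncomputable def det_m1 : MD := ⟨0, 0, 1, zF 0
  [[0, 2, 1]], zPP
  [[[0, 2, 1]], [[0, 4, 8]], [[0, 5, 7]], [[0, 6, 3]], [[0, 7, 5]], [[0, 5, 7]]]⟩

theorem det_l1 : chkLink FF (sV.pd.tens sV.pd)
    ((PD.triv 1).t 1) det_m1 = true := by
  decide +kernel

theorem det_c : chkEq 1 1 (mm 4 (det_m1.loc 0) (det_m0.loc 0)) eye = true := by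
  decide +kernel

noncomputable def s2_m0 : MD := ⟨1, 0, 0, zF 1
  [[94, 113, 51, 105, 59], [110, 71, 102, 57, 16], [0, 0, 0, 0, 6], [0, 0, 0, 5], [0, 0, 5], [0,
  5], [8]], zPP
  [[[2722664596, 1446875152, 36870, 2310, 149], [1445105674, 174590221, 2307, 147, 16], [0, 0, 0,
  0, 6], [0, 0, 0, 5], [0, 0, 5], [0, 5], [8]], [[174590221, 17, 1444515851, 147, 2311], [0, 0, 0,
  0, 5], [1446285329, 145, 2720305304, 2308, 36867], [0, 0, 0, 5], [0, 0, 5], [0, 5], [8]], [[0, 0,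
  0, 0, 1], [0, 0, 0, 5], [10, 172230925, 148, 1448644621, 2311], [0, 0, 5], [0, 5], [149,
  1446285329, 2306, 2720305300, 36870], [8]], [[0, 0, 0, 0, 1], [0, 0, 0, 5], [0, 0, 6], [0, 5],
  [5], [11, 146, 2308, 172230929, 1448644621], [150, 2310, 36869, 1448644621, 2718535826]], [[0, 0,
  0, 0, 1], [0, 0, 0, 5], [0, 0, 6], [0, 5], [36870, 2311, 2718535826, 145, 1445695503], [5],
  [2312, 147, 1448644621, 16, 170461451]], [[0, 0, 0, 0, 1], [36868, 2722664600, 2307, 1444515851,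
  146], [0, 0, 0, 6], [0, 0, 5], [2310, 1446285329, 151, 170461450, 17], [0, 5], [8]]]⟩

theorem s2_l0 : chkLink FF (sQ.pdDual FF)
    (PD.triv 7) s2_m0 = true := by
  decide +kernel

noncomputable def s2_m1 : MD := ⟨1, 1, 0, zF 1
  [[1, 0, 58, 104, 50, 110, 91], [0, 1, 17, 61, 106, 69, 115]], zPP
  [[[1, 0, 148, 2309, 36869, 1445105674, 2719125649], [0, 1, 17, 151, 2311, 173410572,
  1448054798]], [[1, 2305, 0, 151, 1448644621, 15, 171051274], [0, 36871, 1, 2307, 2719715478, 152,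
  1444515851]], [[2309, 1447464972, 1, 147, 171641100, 0, 14], [36867, 2719715475, 0, 2308,
  1445695503, 1, 147]], [[1446285329, 171641103, 2311, 148, 13, 1], [2719125649, 1447464972, 36868,
  2309, 149, 0, 1]], [[1447464972, 152, 2721484947, 2305, 1, 36869], [171051274, 10, 1446875152,
  151, 0, 2310, 1]], [[145, 1, 1447464972, 2311, 0, 2721484950, 36865], [13, 0, 173410575, 145, 1,
  1445695503, 2308]]]⟩

theorem s2_l1 : chkLink FF (PD.triv 7)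
    sV.pd s2_m1 = true := by
  decide +kernel

noncomputable def s2_x0 : ℕ → Mx := zPP
  [[[0, 0, 0, 0, 0, 0, 7], [0, 0, 0, 0, 0, 4], [0, 0, 0, 0, 4], [0, 0, 0, 4], [0, 0, 3]], [[0, 0,
  0, 0, 0, 0, 7], [0, 0, 0, 0, 0, 4], [0, 0, 0, 0, 4], [0, 0, 0, 4], [0, 4]], [[0, 0, 0, 0, 0, 0,
  7], [0, 0, 0, 0, 4], [0, 0, 0, 4], [0, 4], [1]], [[0, 0, 0, 0, 4], [0, 0, 0, 4], [0, 0, 3], [0,
  4], [1]], [[0, 0, 0, 0, 0, 4], [0, 0, 0, 4], [0, 0, 3], [0, 4], [1]], [[0, 0, 0, 0, 0, 0, 7], [0,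
  0, 0, 0, 0, 4], [0, 0, 0, 4], [0, 0, 3], [1]]]

noncomputable def s2_x1 : ℕ → Mx := zPP
  [[[1], [0, 1]], [[1], [], [0, 1]], [[], [], [1], [], [], [0, 1]], [[], [], [], [], [], [1], [0,
  1]], [[], [], [], [], [1], [], [0, 1]], [[], [1], [], [], [0, 1]]]

theorem s2_c : PH.chk3 5 7 2 s2_m0.loc s2_m1.loc
    s2_x0 s2_x1 = true := by
  decide +kernel

noncomputable def s31_m0 : MD := ⟨1, 0, 0, zF 1
  [[114, 104, 55], [98, 49, 105], [0, 0, 8], [0, 7], [1], [70, 57, 14]], zPP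
  [[[1447464972, 2309, 145], [2720305304, 36868, 2310], [0, 0, 8], [0, 7], [1], [174000398, 147,
  14]], [[10, 151, 2305], [174000398, 1446875152, 2721484947], [152, 2305, 36872], [0, 7], [1], [0,
  0, 5]], [[0, 0, 1], [12, 172230925, 149], [145, 1445105674, 2312], [7], [2309, 2719125650,
  36865], [0, 5]], [[0, 1], [0, 0, 3], [14, 152, 2305], [150, 2305, 36871], [172820752, 1448054798,
  2722074773], [5]], [[0, 1], [0, 0, 3], [8], [2305, 146, 1446285329], [152, 13, 174590221],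
  [36872, 2308, 2719125649]], [[36869, 2305, 146], [0, 0, 3], [0, 8], [2311, 145, 10], [1],
  [2718535825, 1445105674, 174000400]]]⟩

theorem s31_l0 : chkLink FF (sE0.pdDual FF)
    (PD.triv 6) s31_m0 = true := by
  decide +kernel

noncomputable def s31_m1 : MD := ⟨1, 1, 0, zF 1
  [[1, 0, 59, 100, 111], [0, 1, 103, 51, 94], [0, 0, 12, 59, 68, 1]], zPP
  [[[1, 0, 149, 2305, 1445695503], [0, 1, 2308, 36870, 2722664596], [0, 0, 12, 149, 172820752, 1]],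
  [[1, 0, 0, 146, 11, 2312], [0, 1, 0, 1444515851, 172820752, 2720895127], [0, 0, 1, 2308, 148,
  36870]], [[151, 1, 0, 14, 0, 171641100], [2308, 0, 1, 148, 0, 1446285329], [36866, 0, 0, 2305, 1,
  2720305300]], [[148, 2307, 1, 0, 0, 11], [2306, 36868, 0, 1, 0, 149], [1446875152, 2720305304, 0,
  0, 1, 171051274]], [[145, 1446875152, 2309, 1], [17, 174000398, 146, 0, 1], [2312, 2721484947,
  36866, 0, 0, 1]], [[1, 150, 2309, 0, 36871], [0, 12, 149, 1, 2309], [0, 172230925, 1448054798, 0,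
  2719125650, 1]]]⟩

theorem s31_l1 : chkLink FF (PD.triv 6)
    sE1.pd s31_m1 = true := by
  decide +kernel

noncomputable def s31_x0 : ℕ → Mx := zPP
  [[[0, 0, 0, 0, 1], [0, 0, 0, 8], [0, 0, 7]], [[0, 0, 0, 0, 1], [0, 0, 0, 8], [0, 0, 0, 0, 0, 4]],
  [[0, 0, 0, 8], [0, 0, 0, 0, 0, 4], [1]], [[0, 0, 0, 0, 0, 4], [1], [0, 6]], [[0, 0, 7], [1], [0,
  6]], [[0, 0, 0, 0, 1], [0, 0, 7], [0, 6]]]

noncomputable def s31_x1 : ℕ → Mx := zPP
  [[[1], [0, 1], [], [], [], [0, 0, 1]], [[1], [0, 1], [0, 0, 1]], [[], [1], [0, 1], [], [0, 0,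
  1]], [[], [], [1], [0, 1], [0, 0, 1]], [[], [], [], [1], [0, 1], [0, 0, 1]], [[1], [], [], [0,
  1], [], [0, 0, 1]]]

theorem s31_c : PH.chk3 3 6 3 s31_m0.loc s31_m1.loc
    s31_x0 s31_x1 = true := by
  decide +kernel

noncomputable def s30_m0 : MD := ⟨1, 0, 0, zF 1
  [[111, 94, 68], [106, 53, 60], [56, 102, 16], [0, 0, 5], [1], [0, 3]], zPP
  [[[1445695503, 2722664596, 172820752], [2311, 36872, 150], [146, 2307, 16], [0, 0, 5], [1], [0,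
  3]], [[11, 172820752, 148], [149, 1448054798, 2306], [0, 0, 8], [2306, 2719715478, 36868], [1],
  [0, 3]], [[0, 0, 1], [15, 146, 2311], [0, 8], [174590225, 1444515851, 2718535825], [151, 2308,
  36866], [3]], [[0, 0, 1], [0, 7], [8], [16, 147, 174000398], [148, 2306, 1446875152], [2306,
  36869, 2720895127]], [[0, 1], [7], [2306, 148, 36868], [0, 0, 5], [145, 17, 2312], [1448644621,
  172230929, 2718535826]], [[36871, 2309, 2719125650], [0, 7], [2306, 146, 1444515851], [0, 0, 5],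
  [1], [145, 11, 172820750]]]⟩

theorem s30_l0 : chkLink FF (sE1.pdDual FF)
    (PD.triv 6) s30_m0 = true := by
  decide +kernel

noncomputable def s30_m1 : MD := ⟨1, 1, 0, zF 1
  [[1, 0, 0, 65, 114, 95], [0, 1, 0, 59, 104, 52], [0, 0, 1, 10, 55, 101]], zPP
  [[[1, 0, 0, 171051274, 1447464972, 2722074773], [0, 1, 0, 149, 2309, 36871], [0, 0, 1, 10, 145,
  2306]], [[1, 0, 145, 0, 10, 174590221], [0, 1, 2311, 0, 151, 1446285329], [0, 0, 36865, 1, 2305,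
  2719125649]], [[2309, 1, 151, 0, 0, 10], [2719125650, 0, 1446875152, 1, 0, 174000400], [36865, 0,
  2305, 0, 1, 148]], [[172820752, 149, 15, 1], [1448054798, 2312, 145, 0, 1], [2722074773, 36865,
  2311, 0, 0, 1]], [[152, 2312, 1, 36867], [13, 148, 0, 2310, 1], [174590221, 1445695503, 0,
  2722664596, 0, 1]], [[1, 2305, 0, 2720305300, 36869], [0, 152, 1, 1448644621, 2305], [0, 17, 0,
  171051275, 146, 1]]]⟩

theorem s30_l1 : chkLink FF (PD.triv 6)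
    sE0.pd s30_m1 = true := by
  decide +kernel

noncomputable def s30_x0 : ℕ → Mx := zPP
  [[[0, 0, 0, 0, 1], [0, 0, 0, 0, 0, 6], [0, 0, 0, 4]], [[0, 0, 0, 0, 1], [0, 0, 0, 0, 0, 6], [0,
  0, 7]], [[0, 0, 0, 0, 0, 6], [0, 0, 7], [1]], [[0, 0, 7], [0, 8], [1]], [[0, 8], [1], [0, 0, 0,
  4]], [[0, 0, 0, 0, 1], [0, 8], [0, 0, 0, 4]]]

noncomputable def s30_x1 : ℕ → Mx := zPP
  [[[1], [0, 1], [0, 0, 1]], [[1], [0, 1], [], [0, 0, 1]], [[], [1], [], [0, 1], [0, 0, 1]], [[],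
  [], [], [1], [0, 1], [0, 0, 1]], [[], [], [1], [], [0, 1], [0, 0, 1]], [[1], [], [0, 1], [], [],
  [0, 0, 1]]]

theorem s30_c : PH.chk3 3 6 3 s30_m0.loc s30_m1.loc
    s30_x0 s30_x1 = true := by
  decide +kernel

noncomputable def s4_m0 : MD := ⟨1, 0, 0, zF 1
  [[0, 1, 2], [55, 100, 100, 46], [11, 56, 56, 101], [4], [0, 4, 4], [0, 0, 0, 3]], zPP
  [[[0, 1, 2], [145, 2305, 2305, 36865], [11, 146, 146, 2306], [4], [0, 4, 4], [0, 0, 0, 3]], [[0,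
  8, 4], [2305, 148, 148, 15], [2], [36868, 2310, 2310, 151], [0, 3, 3], [0, 0, 0, 2]], [[0, 7, 5],
  [6], [2311, 146, 146, 13], [0, 1, 1], [36866, 2308, 2308, 150], [0, 0, 0, 7]], [[0, 3, 6], [4],
  [0, 5, 5], [0, 0, 0, 6], [2310, 145, 145, 12], [36871, 2308, 2308, 149]], [[0, 5, 7], [3], [0, 1,
  1], [145, 2308, 2308, 36870], [0, 0, 0, 3], [17, 147, 147, 2309]], [[0, 7, 5], [1], [146, 2311,
  2311, 36867], [0, 1, 1], [12, 148, 148, 2305], [0, 0, 0, 8]]]⟩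

theorem s4_l0 : chkLink FF ((sV.pd.tens sV.pd).t (-1))
    ((PD.triv 1).sum sQ.pd) s4_m0 = true := by
  decide +kernel

noncomputable def s4_m1 : MD := ⟨1, 1, 0, zF 1
  [[0, 1, 0, 61, 106, 48], [0, 0, 1, 14, 59, 105]], zPP
  [[[0, 1, 0, 151, 2311, 36867], [0, 0, 1, 14, 149, 2310]], [[0, 1, 2305, 0, 149, 15], [0, 0,
  36871, 6, 2310, 152]], [[0, 2309, 6, 150, 0, 11], [0, 36867, 0, 2312, 1, 151]], [[0, 2312, 152,
  10, 1], [0, 36871, 2311, 147, 0, 8]], [[0, 152, 2306, 5, 36869], [0, 10, 149, 0, 2310, 8]], [[0,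
  145, 1, 2309, 0, 36872], [0, 13, 0, 146, 5, 2307]]]⟩

theorem s4_l1 : chkLink FF ((PD.triv 1).sum sQ.pd)
    sV.pd s4_m1 = true := by
  decide +kernel

noncomputable def s4_x0 : ℕ → Mx := zPP
  [[[0, 0, 0, 5], [2, 0, 0, 0, 7], [1, 0, 0, 0, 7], [0, 0, 0, 0, 0, 6]], [[0, 0, 2], [5, 0, 0, 0,
  3], [7, 0, 0, 0, 3], [0, 0, 0, 0, 0, 2]], [[0, 3], [4, 0, 0, 2], [8, 0, 0, 2], [0, 0, 0, 0, 0,
  8]], [[0, 5], [3, 0, 8], [6, 0, 8], [0, 0, 0, 3]], [[0, 6], [8, 0, 2], [4, 0, 2], [0, 0, 0, 0,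
  6]], [[0, 1], [4, 0, 0, 2], [8, 0, 0, 2], [0, 0, 0, 0, 0, 7]]]

noncomputable def s4_x1 : ℕ → Mx := zPP
  [[[], [1], [0, 1]], [[], [1], [], [0, 3]], [[], [], [3], [], [0, 1]], [[], [], [], [], [1], [0,
  7]], [[], [], [], [4], [], [0, 7]], [[], [], [1], [], [0, 4]]]

theorem s4_c : PH.chk3 4 6 2 s4_m0.loc s4_m1.loc
    s4_x0 s4_x1 = true := by
  decide +kernel

noncomputable def s51_m0 : MD := ⟨1, 1, 0, zF 1
  [[101, 58, 50], [55, 17, 106], [0, 6], [1], [1], [0, 0, 8]], zPP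
  [[[2306, 148, 36869], [145, 17, 2311], [0, 6], [1], [1], [0, 0, 8]], [[145, 0, 14], [2311, 1,
  150], [2305, 6, 149], [36871, 0, 2310], [1], [0, 0, 3]], [[1], [0, 8], [2308, 150, 15], [36865,
  2312, 148], [0, 3], [0, 0, 6]], [[8], [0, 1], [152, 12], [2311, 146, 7], [2308, 150, 6], [36869,
  2305]], [[0, 0, 1], [1], [8], [0, 7], [2308, 36868, 150], [146, 2306, 17]], [[2305, 36865], [152,
  2308, 1], [1], [0, 8], [145, 2306, 8], [13, 148]]]⟩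

theorem s51_l0 : chkLink FF sE1.pd
    ((PD.triv 3).tens sV.pd) s51_m0 = true := by
  decide +kernel

noncomputable def s51_m1 : MD := ⟨1, 1, 0, zF 1
  [[0, 0, 0, 3, 6], [0, 1, 14, 59, 60, 105], [5, 0, 60, 105, 107, 53]], zPP
  [[[0, 0, 0, 3, 6], [0, 1, 14, 149, 150, 2310], [5, 0, 150, 2310, 2312, 36872]], [[0, 0, 0, 7,
  36870, 2311], [0, 8, 5, 0, 2310, 151], [5, 0, 0, 0, 151, 11]], [[36872, 2310, 0, 4, 2311, 146],
  [0, 4, 0, 0, 2], [2305, 148, 7, 0, 150, 14]], [[36868, 2309, 0, 0, 0, 7], [2308, 149, 0, 6, 5],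
  [152, 16, 4]], [[12, 149, 148, 2310, 0, 8], [147, 2309, 2308, 36870, 1], [0, 7, 6]], [[0, 0, 12,
  148, 0, 4], [0, 3, 150, 2308, 8], [7, 0, 2309, 36870]]]⟩

theorem s51_l1 : chkLink FF ((PD.triv 3).tens sV.pd)
    ((sE0.pdDual FF).t 1) s51_m1 = true := by
  decide +kernel

noncomputable def s51_x0 : ℕ → Mx := zPP
  [[[0, 0, 0, 1], [0, 0, 3], [0, 0, 0, 0, 0, 7]], [[0, 0, 0, 0, 1], [0, 1, 0, 0, 2309, 145], [0, 0,
  0, 0, 0, 6]], [[1], [0, 7], [0, 0, 0, 0, 0, 3]], [[7], [0, 1], [2309, 152, 0, 8]], [[0, 1], [0,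
  0, 0, 8], [1]], [[0, 0, 1], [0, 0, 0, 7], [0, 1, 148, 2305]]]

noncomputable def s51_x1 : ℕ → Mx := zPP
  [[[2305, 0, 4], [146, 1], [], [], [3]], [[0, 0, 4], [], [0, 4], [8]], [[], [], [0, 149, 8], [5,
  2310], [0, 2]], [[], [], [0, 0, 5], [], [0, 4], [8]], [[], [], [0, 0, 3], [], [0, 1, 2311], [7,
  0, 147]], [[0, 0, 8], [], [], [], [0, 7], [5]]]

theorem s51_c : PH.chk3 3 6 3 s51_m0.loc s51_m1.loc
    s51_x0 s51_x1 = true := by
  decide +kernel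

noncomputable def s50_m0 : MD := ⟨1, 1, 0, zF 1
  [[0, 101, 50], [1, 55, 106], [1, 58, 101], [0, 17, 55], [0, 1], [0, 0, 7]], zPP
  [[[0, 2306, 36869], [1, 145, 2311], [1, 148, 2306], [0, 17, 145], [0, 1], [0, 0, 7]], [[2305,
  145, 13], [36871, 2311, 146], [1], [0, 1], [0, 1], [0, 0, 3]], [[151, 0, 12], [2307, 5, 152],
  [1], [0, 0, 3], [2309, 3, 147], [36867, 0, 2308]], [[5], [0, 5], [0, 3], [0, 0, 4], [2308, 148,
  17], [36869, 2309, 151]], [[1], [0, 5], [2312, 36872], [145, 2305, 4], [145, 2305, 2], [16,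
  151]], [[1], [0, 1], [145, 2305, 36868], [13, 152, 2310], [0, 7], [0, 0, 2]]]⟩

theorem s50_l0 : chkLink FF sE0.pd
    ((PD.triv 3).tens sV.pd) s50_m0 = true := by
  decide +kernel

noncomputable def s50_m1 : MD := ⟨1, 1, 0, zF 1
  [[0, 1, 2, 0, 57, 102], [0, 0, 0, 6, 16, 61], [4, 0, 0, 0, 103, 49]], zPP
  [[[0, 1, 2, 0, 147, 2307], [0, 0, 0, 6, 16, 151], [4, 0, 0, 0, 2308, 36868]], [[0, 8, 36866,
  2312, 2307, 149], [0, 0, 0, 5, 7], [5, 0, 2311, 146, 152, 12]], [[0, 0, 36869, 2306, 0, 8], [0,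
  4, 2306, 152, 3], [4, 0, 145, 17]], [[36868, 2309, 2312, 151, 0, 8], [2310, 145, 147, 11, 2], [0,
  1, 8]], [[149, 2305, 0, 2, 8], [2309, 36865, 3], [10, 148, 0, 0, 0, 4]], [[10, 151, 0, 7, 147,
  2312], [145, 2309, 2, 0, 2310, 36872], [0, 1, 0, 0, 4]]]⟩

theorem s50_l1 : chkLink FF ((PD.triv 3).tens sV.pd)
    ((sE1.pdDual FF).t 1) s50_m1 = true := by
  decide +kernel

noncomputable def s50_x0 : ℕ → Mx := zPP
  [[[0, 1, 0, 0, 146, 2306], [0, 0, 0, 0, 1], [0, 0, 0, 0, 0, 8]], [[0, 0, 1], [0, 0, 0, 1], [0, 0,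
  0, 0, 0, 6]], [[0, 0, 1], [0, 4, 2311, 146], [0, 0, 0, 6]], [[4], [0, 4], [0, 0, 0, 5]], [[1],
  [0, 4], [151, 2306, 0, 5]], [[1], [0, 1], [0, 0, 0, 0, 0, 2]]]

noncomputable def s50_x1 : ℕ → Mx := zPP
  [[[0, 0, 5], [], [2], [0, 3]], [[0, 149, 4], [7, 2310], [], [], [0, 8]], [[0, 0, 5], [], [], [],
  [0, 6], [7]], [[], [], [0, 0, 7], [], [0, 2, 148], [7, 0, 2309]], [[], [], [0, 6], [], [7], [0,
  0, 5]], [[], [], [0, 2, 2308], [8, 0, 147], [0, 0, 5]]]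

theorem s50_c : PH.chk3 3 6 3 s50_m0.loc s50_m1.loc
    s50_x0 s50_x1 = true := by
  decide +kernel

end Pool.Agent.Lib.MP_cd184e_ag.T
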