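import Pool.Agent.Lib.MP_cd184e_ag.T.Var

set_option autoImplicit false

namespace Pool.Agent.Lib.MP_cd184e_ag.T

noncomputable def sV : SD := ⟨2, 7, zF 1
  [[1, 0, 58, 104, 50, 110, 91], [0, 1, 17, 61, 106, 69, 115]],
  ofN [[0, 1], [0, 2], [2, 5], [5, 6], [4, 6], [1, 4]], zPP
  [[[1, 0, 148, 2309, 36869, 1445105674, 2719125649], [0, 1, 17, 151, 2311, 173410572,
  1448054798]], [[1, 2305, 0, 151, 1448644621, 15, 171051274], [0, 36871, 1, 2307, 2719715478, 152,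
  1444515851]], [[2309, 1447464972, 1, 147, 171641100, 0, 14], [36867, 2719715475, 0, 2308,
  1445695503, 1, 147]], [[1446285329, 171641103, 2311, 148, 13, 1], [2719125649, 1447464972, 36868,
  2309, 149, 0, 1]], [[1447464972, 152, 2721484947, 2305, 1, 36869], [171051274, 10, 1446875152,
  151, 0, 2310, 1]], [[145, 1, 1447464972, 2311, 0, 2721484950, 36865], [13, 0, 173410575, 145, 1,
  1445695503, 2308]]]⟩

theorem chk_sV : sV.chk FF = true := by decide +kernel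

noncomputable def sQ : SD := ⟨5, 7, zF 1
  [[1, 0, 0, 0, 0, 116, 94], [0, 1, 0, 0, 0, 66, 113], [0, 0, 1, 0, 0, 104, 51], [0, 0, 0, 1, 0,
  59, 105], [0, 0, 0, 0, 1, 11, 59]],
  ofN [[0, 1, 2, 3, 4], [0, 1, 2, 3, 5], [0, 2, 3, 5, 6], [2, 3, 4, 5, 6], [1, 3, 4, 5, 6], [0, 1, 3, 4,
6]], zPP
  [[[1, 0, 0, 0, 0, 1448644621, 2722664596], [0, 1, 0, 0, 0, 171641103, 1446875152], [0, 0, 1, 0,
  0, 2309, 36870], [0, 0, 0, 1, 0, 149, 2310], [0, 0, 0, 0, 1, 11, 149]], [[1, 0, 0, 0, 1446875152,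
  0, 174590221], [0, 1, 0, 0, 147, 0, 17], [0, 0, 1, 0, 2720895127, 0, 1444515851], [0, 0, 0, 1,
  2309, 0, 147], [0, 0, 0, 0, 36866, 1, 2311]], [[1, 145, 0, 0, 12], [0, 1447464972, 1, 0,
  172820750], [0, 2312, 0, 1, 149], [0, 2721484950, 0, 0, 1448054798, 1], [0, 36871, 0, 0, 2308, 0,
  1]], [[152, 17, 1], [2312, 152, 0, 1], [36870, 2310, 0, 0, 1], [1444515851, 173410572, 0, 0, 0,
  1], [2722074773, 1445695503, 0, 0, 0, 0, 1]], [[2305, 1, 36871], [148, 0, 2306, 1], [1444515851,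
  0, 2720305304, 0, 1], [12, 0, 148, 0, 0, 1], [174000398, 0, 1446875152, 0, 0, 0, 1]], [[1, 0,
  2311, 0, 0, 36870], [0, 1, 1447464972, 0, 0, 2719715475], [0, 0, 146, 1, 0, 2309], [0, 0,
  172230925, 0, 1, 1446285329], [0, 0, 12, 0, 0, 152, 1]]]⟩

theorem chk_sQ : sQ.chk FF = true := by decide +kernel

noncomputable def sE1 : SD := ⟨3, 6, zF 1
  [[1, 0, 59, 100, 111], [0, 1, 103, 51, 94], [0, 0, 12, 59, 68, 1]],
  ofN [[0, 1, 5], [0, 1, 2], [1, 2, 4], [2, 3, 4], [3, 4, 5], [0, 3, 5]], zPP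
  [[[1, 0, 149, 2305, 1445695503], [0, 1, 2308, 36870, 2722664596], [0, 0, 12, 149, 172820752, 1]],
  [[1, 0, 0, 146, 11, 2312], [0, 1, 0, 1444515851, 172820752, 2720895127], [0, 0, 1, 2308, 148,
  36870]], [[151, 1, 0, 14, 0, 171641100], [2308, 0, 1, 148, 0, 1446285329], [36866, 0, 0, 2305, 1,
  2720305300]], [[148, 2307, 1, 0, 0, 11], [2306, 36868, 0, 1, 0, 149], [1446875152, 2720305304, 0,
  0, 1, 171051274]], [[145, 1446875152, 2309, 1], [17, 174000398, 146, 0, 1], [2312, 2721484947,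
  36866, 0, 0, 1]], [[1, 150, 2309, 0, 36871], [0, 12, 149, 1, 2309], [0, 172230925, 1448054798, 0,
  2719125650, 1]]]⟩

theorem chk_sE1 : sE1.chk FF = true := by decide +kernel

noncomputable def sE0 : SD := ⟨3, 6, zF 1
  [[1, 0, 0, 65, 114, 95], [0, 1, 0, 59, 104, 52], [0, 0, 1, 10, 55, 101]],
  ofN [[0, 1, 2], [0, 1, 3], [1, 3, 4], [3, 4, 5], [2, 4, 5], [0, 2, 5]], zPP
  [[[1, 0, 0, 171051274, 1447464972, 2722074773], [0, 1, 0, 149, 2309, 36871], [0, 0, 1, 10, 145,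
  2306]], [[1, 0, 145, 0, 10, 174590221], [0, 1, 2311, 0, 151, 1446285329], [0, 0, 36865, 1, 2305,
  2719125649]], [[2309, 1, 151, 0, 0, 10], [2719125650, 0, 1446875152, 1, 0, 174000400], [36865, 0,
  2305, 0, 1, 148]], [[172820752, 149, 15, 1], [1448054798, 2312, 145, 0, 1], [2722074773, 36865,
  2311, 0, 0, 1]], [[152, 2312, 1, 36867], [13, 148, 0, 2310, 1], [174590221, 1445695503, 0,
  2722664596, 0, 1]], [[1, 2305, 0, 2720305300, 36869], [0, 152, 1, 1448644621, 2305], [0, 17, 0,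
  171051275, 146, 1]]]⟩

theorem chk_sE0 : sE0.chk FF = true := by decide +kernel

end Pool.Agent.Lib.MP_cd184e_ag.T
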