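import Pool.Agent.Lib.MP_cd184e_ag.T.BunTw

set_option autoImplicit false

open CategoryTheory Limits Abelian

namespace Pool.Agent.Lib.MP_cd184e_ag.T

variable {k K : Type} [Field k] [Field K] [Algebra k K] {X : ProjVar k K}

namespace Bun

open Coh

theorem frob_mulVec (p : ℕ) [Fact p.Prime] [CharP K p] {ι : Type} [Fintype ι] (G : Matrix ι ι K)
    (P v : ι → K) :
    ∑ a, v a ^ p * ∑ c, G c a ^ p * P c = ∑ c, (G.mulVec v) c ^ p * P c := by
  simp only [Finset.mul_sum, Matrix.mulVec, dotProduct, sum_pow_char, Finset.sum_mul, mul_pow]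
  rw [Finset.sum_comm]
  exact Finset.sum_congr rfl fun c _ => Finset.sum_congr rfl fun a _ => by ring

/-- A matrix of regular functions acting on vectors of regular functions. -/
def actU {α β : Type} [Fintype β] {s : X.Idx} (m : Matrix α β K) (hm : X.InA s.1 m)
    (v : β → X.A s.1) : α → X.A s.1 := (unit X).act m hm v

theorem coe_actU {α β : Type} [Fintype β] {s : X.Idx} (m : Matrix α β K) (hm : X.InA s.1 m)
    (v : β → X.A s.1) : (fun a => (actU m hm v a : K)) = m.mulVec fun b => (v b : K) := by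
  funext a
  change ((∑ b, (⟨m a b, hm a b⟩ : X.A s.1) * v b : X.A s.1) : K) = _
  simp [Matrix.mulVec, dotProduct]

/-- The morphism `v ↦ ∑ v a ^ p * c a` into the Frobenius direct image. -/
noncomputable def splitApp (p : ℕ) [Fact p.Prime] [CharP k p] [PerfectField k] (E : Bun X)
    (e : ℤ) (s : X.Idx) (c : E.ι → X.A s.1) :
    E.sheaf.obj s →ₗ[X.A s.1] (frob p (O X e)).obj s where
  toFun := fun v : E.ι → X.A s.1 => (∑ a, v a ^ p * c a : X.A s.1)
  map_add' := fun v w : E.ι → X.A s.1 => by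
    change (∑ a, (v a + w a) ^ p * c a : X.A s.1) = ∑ a, v a ^ p * c a + ∑ a, w a ^ p * c a
    simp only [add_pow_char, add_mul, Finset.sum_add_distrib]
  map_smul' := fun (r : X.A s.1) (v : E.ι → X.A s.1) => by
    change (∑ a, (r * v a) ^ p * c a : X.A s.1) = r ^ p * ∑ a, v a ^ p * c a
    simp only [mul_pow, Finset.mul_sum, mul_assoc]

/-- Splitting of the Frobenius direct image: `P c` is the image of the basis vector `c`. -/
theorem split (p : ℕ) [Fact p.Prime] [CharP k p] [PerfectField k] (E : Bun X) (d : ℤ)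
    (P : E.ι → K) (hinj : ∀ v : E.ι → K, ∑ c, v c ^ p * P c = 0 → v = 0)
    (hmem : ∀ (j : X.J) (a : E.ι), (∑ c, E.G j c a ^ p * P c) / X.f j.1 ^ d ∈ X.A {j.1})
    (hsurj : ∀ (j : X.J), ∀ z ∈ X.A {j.1}, ∃ w : E.ι → K, (∀ a, w a ∈ X.A {j.1}) ∧
      z = ∑ a, w a ^ p * ((∑ c, E.G j c a ^ p * P c) / X.f j.1 ^ d)) (m : ℤ) :
    Nonempty ((E.t m).sheaf ≅ frob p (O X (p * m + d))) := by
  have : CharP K p := charP_of_injective_algebraMap (algebraMap k K).injective p
  let c : ∀ s : X.Idx, E.ι → X.A s.1 := fun s a =>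
    ⟨(∑ c, E.G (X.pt s) c a ^ p * P c) / X.fp s ^ d,
      X.A_mono (X.one_le (X.pt_mem s)) (hmem (X.pt s) a)⟩
  have hv : ∀ (s : X.Idx) (v : E.ι → X.A s.1), ((∑ a, v a ^ p * c s a : X.A s.1) : K) =
      (∑ b, ((E.G (X.pt s)).mulVec fun a => (v a : K)) b ^ p * P b) / X.fp s ^ d := fun s v => by
    rw [← frob_mulVec, Finset.sum_div]
    simp [c, mul_div_assoc]
  let φ : (E.t m).sheaf ⟶ frob p (O X (p * m + d)) :=
    ⟨fun s => splitApp p (E.t m) _ s (c s), fun {s t} h (x : E.ι → X.A s.1) => by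
      refine Subtype.ext ?_
      change ((∑ a, actU _ ((E.t m).reg_le h) (fun b => X.inc h (x b)) a ^ p
        * c t a : X.A t.1) : K) = ((X.tr h (p * m + d) * X.inc h (∑ a, x a ^ p * c s a) :
          X.A t.1) : K)
      rw [hv, coe_actU, MulMemClass.coe_mul, ProjVar.coe_inc, hv, ProjVar.coe_tr,
        Matrix.mulVec_mulVec, Matrix.smul_mul, Matrix.mul_smul, Matrix.mul_smul, Matrix.mul_smul,
        ← Matrix.mul_assoc, E.GH, Matrix.one_mul, smul_smul, Matrix.smul_mulVec]
      simp only [ProjVar.coe_inc, Pi.smul_apply, smul_eq_mul, mul_pow, mul_assoc,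
        ← Finset.mul_sum]
      have h1 := X.fp_ne s
      have h2 := X.fp_ne t
      change (X.fp t ^ (-m)) ^ p * ((X.fp s ^ m) ^ p * _) / _ = _
      rw [div_zpow, zpow_add₀ h1, zpow_add₀ h2, mul_comm (p : ℤ) m, zpow_mul, zpow_mul,
        zpow_natCast, zpow_natCast, zpow_neg, inv_pow]
      have := zpow_ne_zero d h1
      have := zpow_ne_zero d h2
      have := zpow_ne_zero m h2
      field_simp⟩
  have : IsIso φ := by
    refine isIso_of_bij φ (fun s => ?_) (surj_of_one φ fun j (z : X.A (X.one j).1) => ?_)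
    · rw [injective_iff_map_eq_zero]
      intro (x : E.ι → X.A s.1) hx
      have h1 : ((∑ a, x a ^ p * c s a : X.A s.1) : K) = 0 := congrArg Subtype.val hx
      rw [hv, div_eq_zero_iff, or_iff_left (zpow_ne_zero d (X.fp_ne s))] at h1
      have h2 := congrArg (E.H (X.pt s)).mulVec (hinj _ h1)
      rw [Matrix.mulVec_mulVec, E.HG, Matrix.one_mulVec, Matrix.mulVec_zero] at h2
      exact funext fun a => Subtype.ext (congrFun h2 a)
    · obtain ⟨w, hw, e⟩ := hsurj (X.pt (X.one j)) z.1 (by rw [X.pt_one]; exact z.2)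
      refine ⟨fun a => (⟨w a, X.A_mono (X.one_le (X.pt_mem _)) (hw a)⟩ : X.A (X.one j).1),
        Subtype.ext ?_⟩
      refine Eq.trans ?_ e.symm
      refine (hv _ _).trans ?_
      rw [← frob_mulVec, Finset.sum_div]
      exact Finset.sum_congr rfl fun a _ => mul_div_assoc _ _ _
  exact ⟨asIso φ⟩

end Bun

end Pool.Agent.Lib.MP_cd184e_ag.T
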