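import Pool.Agent.Lib.MP_cd184e_ag.T.SpD
import Pool.Agent.Lib.MP_cd184e_ag.T.Seq
import Pool.Agent.Lib.MP_cd184e_ag.T.Split

set_option autoImplicit false

open CategoryTheory

namespace Pool.Agent.Lib.MP_cd184e_ag.T

variable {k K : Type} [Field k] [Field K] [Algebra k K] [CharP K 3] {X : ProjVar k K}
  (C : Ctx X FF)

theorem six_G (τ : Fin 6) : ∃ e : ((data C).six τ).ι ≃ Fin (SS τ).r, ∀ (j : X.J) c a,
    ((data C).six τ).G j c a = C.evF ((SS τ).L (e c) ((SS τ).e j.1 (e a))) := by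
  have h (v : ℕ) : C.evF (.cons 1 0 [v] .nil) = C.fN v := by simp [Ctx.evF, Fm.ev]
  fin_cases τ
  · refine ⟨Equiv.refl (Fin 1), fun j (c a : Fin 1) => ?_⟩
    obtain rfl := Subsingleton.elim c a
    exact (Matrix.one_apply_eq c).trans ((h 0).trans C.f0).symm
  · exact ⟨Equiv.refl _, fun _ _ _ => rfl⟩
  · exact ⟨Equiv.refl _, fun _ _ _ => rfl⟩
  · exact ⟨Equiv.refl _, fun _ _ _ => rfl⟩
  · exact ⟨Equiv.refl _, fun _ _ _ => rfl⟩
  · refine ⟨Equiv.refl (Fin 1), fun j (c a : Fin 1) => ?_⟩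
    obtain rfl := Subsingleton.elim c a
    have h1 := (C.hF j j.1).symm.trans
      ((Pl.ev_eqv C.hi (allTo_spec chk_jj (C.hJ j))).trans Pl.ev_one)
    rw [inv_mul_eq_one₀ (X.ne _ j.2)] at h1
    change X.f j.1 ^ (1 : ℤ) * (1 : Matrix (Fin 1) (Fin 1) K) c c = C.evF (.cons 1 0 [j.1] .nil)
    rw [h, zpow_one, Matrix.one_apply_eq, mul_one, h1]

/-- The type of a summand. -/
noncomputable def tyF (x : Fin 40) : Fin 6 := ⟨ty x, Nat.mod_lt _ (by decide)⟩

theorem tyF_surj : Function.Surjective tyF := fun τ =>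
  (ty_surj τ).imp fun _ h => Fin.ext h

theorem ev_zero {D : ℕ} {l : Fm} (h : Fm.hom D l = true) :
    C.ev C.j0 (Fm.poly (FF 0) l) = C.evF l := by
  have := C.ev_poly C.j0 h
  rwa [C.fj0, inv_one, one_pow, one_mul, C.hj0] at this

theorem splitting [CharP k 3] [PerfectField k]
    (hA : ∀ j : X.J, X.A {j.1} = Algebra.adjoin k (Set.range (C.u j)))
    (hu : AlgebraicIndependent k (C.u C.j0)) [IsFractionRing (X.A {C.j0.1}) K] (m : ℤ) :
    Nonempty (((Bun.sigma fun x => (data C).six (tyF x)).t m).sheaf ≅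
      Coh.frob 3 (Coh.O X (3 * m + 3))) := by
  have h6 (x : Fin 40) : ∃ e : ((data C).six (tyF x)).ι ≃ Fin (SS (ty x)).r, ∀ (j : X.J) c a,
      ((data C).six (tyF x)).G j c a = C.evF ((SS (ty x)).L (e c) ((SS (ty x)).e j.1 (e a))) :=
    six_G C (tyF x)
  choose e he using h6
  let E := Bun.sigma fun x => (data C).six (tyF x)
  let P : E.ι → K := fun c => C.evF (Pf c.1 ((SS (ty c.1)).e 0 (e _ c.2)))
  have hS := fun x : Fin 40 => allTo_spec (t := ty x) chk_SS (tyF x).2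
  simp only [Bool.and_eq_true] at hS
  have hlt (j : X.J) (a : E.ι) :=
    lt_of_blt (allTo_spec (allTo_spec (hS a.1).2 (C.hJ j)) (e _ a.2).2)
  have hP := fun (j : X.J) (a : E.ι) => allTo_spec (allTo_spec chk_P a.1.2) (hlt j a)
  simp only [Bool.and_eq_true] at hP
  have hb (j : X.J) (a : E.ι) : (∑ c, E.G j c a ^ 3 * P c) / X.f j.1 ^ (3 : ℤ) =
      C.ev j (Fm.poly (FF j.1) (Pf a.1 ((SS (ty a.1)).e j.1 (e _ a.2)))) := by
    obtain ⟨x, a⟩ := a
    rw [C.ev_poly j (hP j ⟨x, a⟩).1, inv_pow, ← div_eq_inv_mul, ← zpow_natCast]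
    congr 1
    rw [← ev_zero C (hP j ⟨x, a⟩).1, Ctx.ev, ← Pl.ev_eqv C.hi (hP j ⟨x, a⟩).2, Pl.ev_sumTo,
      Finset.sum_range, Fintype.sum_sigma, Finset.sum_eq_single x]
    · refine Fintype.sum_equiv (e x) _ _ fun c => ?_
      rw [Pl.ev_mul C.hi, Pl.ev_cube C.hi]
      have h0 := hP C.j0 ⟨x, c⟩
      rw [C.hj0] at h0
      refine congrArg₂ (fun s t => s ^ 3 * t) ?_ (ev_zero C h0.1).symm
      exact ((Matrix.blockDiagonal'_apply_eq (fun x => ((data C).six (tyF x)).G j) x c a).trans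
        (he _ j c a)).trans
        (ev_zero C (allTo_spec (allTo_spec (hS x).1 (e _ c).2) (hlt j ⟨x, a⟩))).symm
    · intro y _ hy
      refine Finset.sum_eq_zero fun c _ => ?_
      rw [show E.G j ⟨y, c⟩ ⟨x, a⟩ = 0 from
        Matrix.blockDiagonal'_apply_ne (fun x => ((data C).six (tyF x)).G j) c a hy]
      simp
    · simp
  have hw (j : X.J) (n : Fin 4 → Fin 3) : ∃ w : E.ι → K, (∀ a, w a ∈ X.A {j.1}) ∧
      ∏ i, C.u j i ^ (n i : ℕ) = ∑ a, w a ^ 3 *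
        C.ev j (Fm.poly (FF j.1) (Pf a.1 ((SS (ty a.1)).e j.1 (e _ a.2)))) := by
    refine ⟨fun a => C.ev j (Ww j.1 (n 0 + 3 * n 1 + 9 * n 2 + 27 * n 3) (8 * a.1 + e _ a.2)),
      fun a => C.ev_mem j _, ?_⟩
    have h := Pl.ev_eqv (x := C.u j) C.hi (allTo_spec (allTo_spec (allTo_spec (allTo_spec
      (chk_W (C.hJ j)) (n 0).2) (n 1).2) (n 2).2) (n 3).2)
    rw [Pl.ev_sumTo, Finset.sum_range] at h
    rw [Fin.prod_univ_four, Fintype.sum_sigma]
    refine Eq.trans (by simp [Pl.ev_cons]) (h.trans (Finset.sum_congr rfl fun x _ => ?_))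
    rw [Pl.ev_sumTo, Finset.sum_range]
    refine (Fintype.sum_equiv (e x) _ _ fun c => ?_).symm
    rw [Pl.ev_mul C.hi, Pl.ev_cube C.hi]
    rfl
  refine Bun.split 3 E 3 P (fun v hv => ?_) (fun j a => ?_) (fun j => ?_) m
  · refine frob_inj 3 (C.u C.j0) hu _ (hA C.j0) ?_ P (fun n => ?_) v hv
    · rw [Fintype.card_sigma, ← sum_rk]
      exact Finset.sum_congr rfl fun x _ => (Fintype.card_congr (e _)).trans (Fintype.card_fin _)
    · obtain ⟨w, -, h⟩ := hw C.j0 n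
      refine ⟨w, h.trans (Finset.sum_congr rfl fun a _ => ?_)⟩
      have h0 := hP C.j0 a
      rw [C.hj0] at h0 ⊢
      rw [ev_zero C h0.1]
  · rw [hb]; exact C.ev_mem j _
  · simp only [hb]
    exact frob_span 3 (C.u j) _ (hA j) _ (hw j)

end Pool.Agent.Lib.MP_cd184e_ag.T
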