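import Pool.Agent.Lib.MP_cd184e_ag.T.Exact

set_option autoImplicit false

open CategoryTheory Limits

namespace Pool.Agent.Lib.MP_cd184e_ag.T

variable {k K : Type} [Field k] [Field K] [Algebra k K]

namespace ProjVar

variable (X : ProjVar k K)

/-- The chosen coordinate of the open set of index `s`. -/
noncomputable def fp (s : X.Idx) : K := X.f (X.pt s).1

theorem fp_ne (s : X.Idx) : X.fp s ≠ 0 := X.ne _ (X.pt s).2

@[simp] theorem fp_one (j : X.J) : X.fp (X.one j) = X.f j.1 := by rw [fp, pt_one]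

theorem zpow_mem {t : X.Idx} {i j : Fin X.n} (hi : i ∈ t.1) (hj : j ∈ t.1) (a : ℤ) :
    (X.f i / X.f j) ^ a ∈ X.A t.1 := by
  obtain ⟨n, rfl | rfl⟩ := Int.eq_nat_or_neg a
  · rw [zpow_natCast]; exact pow_mem (X.div_mem i hj) n
  · rw [zpow_neg, zpow_natCast, ← inv_pow, inv_div]; exact pow_mem (X.div_mem j hi) n

/-- Transition function of `O(a)`. -/
noncomputable def tr {s t : X.Idx} (h : s ≤ t) (a : ℤ) : X.A t.1 :=
  ⟨(X.fp s / X.fp t) ^ a, X.zpow_mem (h (X.pt_mem s)) (X.pt_mem t) a⟩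

@[simp] theorem coe_tr {s t : X.Idx} (h : s ≤ t) (a : ℤ) :
    (X.tr h a : K) = (X.fp s / X.fp t) ^ a := rfl

theorem isUnit_tr {s t : X.Idx} (h : s ≤ t) (a : ℤ) : IsUnit (X.tr h a) :=
  IsUnit.of_mul_eq_one (X.tr h (-a)) (Subtype.ext (by
    simp [zpow_ne_zero a (div_ne_zero (X.fp_ne s) (X.fp_ne t))]))

/-- Forms of degree `d` in the coordinates. -/
def Rd (d : ℕ) : Submodule k K := Submodule.span k (Set.range X.f) ^ d

/-- Global sections of `O(d)`, inside `K`. -/
def Deg (d : ℤ) : Submodule k K where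
  carrier := {r | ∀ s : X.Idx, r / X.fp s ^ d ∈ X.A s.1}
  zero_mem' s := by simp
  add_mem' ha hb s := by rw [add_div]; exact add_mem (ha s) (hb s)
  smul_mem' c r hr s := by rw [smul_div_assoc]; exact Subalgebra.smul_mem _ (hr s) c

/-- A section of `O(d)` as a function on the open set of index `s`. -/
noncomputable def sec {d : ℤ} (r : K) (hr : r ∈ X.Deg d) (s : X.Idx) : X.A s.1 :=
  ⟨r / X.fp s ^ d, hr s⟩

@[simp] theorem coe_sec {d : ℤ} (r : K) (hr : r ∈ X.Deg d) (s : X.Idx) :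
    (X.sec r hr s : K) = r / X.fp s ^ d := rfl

theorem mul_mem_Deg {a b : ℤ} {r r' : K} (hr : r ∈ X.Deg a) (hr' : r' ∈ X.Deg b) :
    r * r' ∈ X.Deg (a + b) := fun s => by
  rw [zpow_add₀ (X.fp_ne s), ← div_mul_div_comm]; exact mul_mem (hr s) (hr' s)

theorem mem_Deg_of_one {d : ℤ} {r : K} (h : ∀ j : X.J, r / X.f j.1 ^ d ∈ X.A {j.1}) :
    r ∈ X.Deg d := fun s => X.A_mono (X.one_le (X.pt_mem s)) (h (X.pt s))

theorem f_mem_Rd (l : Fin X.n) : X.f l ∈ X.Rd 1 := by
  rw [Rd, pow_one]; exact Submodule.subset_span ⟨l, rfl⟩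

theorem mul_mem_Rd {a b : ℕ} {r r' : K} (hr : r ∈ X.Rd a) (hr' : r' ∈ X.Rd b) :
    r * r' ∈ X.Rd (a + b) := by
  rw [Rd, pow_add]; exact Submodule.mul_mem_mul hr hr'

theorem pow_mem_Rd {r : K} (hr : r ∈ X.Rd 1) (t : ℕ) : r ^ t ∈ X.Rd t := by
  rw [Rd, pow_one] at hr; exact Submodule.pow_mem_pow _ hr t

theorem Rd_le_Deg (d : ℕ) : X.Rd d ≤ X.Deg d := by
  induction d with
  | zero =>
    rw [Rd, pow_zero, Submodule.one_eq_span, Submodule.span_le]
    rintro _ rfl s; simp
  | succ d ih =>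
    rw [Rd, pow_succ, Submodule.mul_le]
    intro a ha b hb
    have hb' : b ∈ X.Deg 1 := by
      refine (Submodule.span_le.2 ?_ : _ ≤ X.Deg 1) hb
      rintro _ ⟨l, rfl⟩ s
      rw [zpow_one]; exact X.div_mem l (X.pt_mem s)
    exact_mod_cast X.mul_mem_Deg (ih ha) hb'

end ProjVar

namespace Coh

variable {X : ProjVar k K}

/-- The twist `N(a)`. -/
@[reducible] noncomputable def twObj (a : ℤ) (N : Coh X) : Coh X where
  obj := N.obj
  res h := (DistribSMul.toAddMonoidHom _ (X.tr h a)).comp (N.res h)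
  res_smul h c x := by
    change X.tr h a • N.res h (c • x) = X.inc h c • X.tr h a • N.res h x
    rw [N.res_smul, smul_comm]
  res_refl {s} x := by
    change X.tr (le_rfl : s ≤ s) a • N.res le_rfl x = x
    have : X.tr (le_rfl : s ≤ s) a = 1 := Subtype.ext (by simp [X.fp_ne s])
    rw [this, one_smul, N.res_refl]
  res_res {s t u} h h' x := by
    change X.tr h' a • N.res h' (X.tr h a • N.res h x) = X.tr (h.trans h') a • N.res _ x
    have : X.tr h' a * X.inc h' (X.tr h a) = X.tr (h.trans h') a := Subtype.ext (by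
      have := X.fp_ne t
      have := X.fp_ne u
      simp only [MulMemClass.coe_mul, ProjVar.coe_inc, ProjVar.coe_tr, ← mul_zpow]
      congr 1; field_simp)
    rw [N.res_smul, N.res_res, ← mul_smul, this]
  fg := N.fg
  surj h y := by
    obtain ⟨a', x, ha, e⟩ := N.surj h ((X.isUnit_tr h a).unit⁻¹ • y)
    refine ⟨a', x, ha, ?_⟩
    change _ = X.tr h a • N.res h x
    rw [← e, smul_comm, Units.smul_def, ← mul_smul (X.tr h a), IsUnit.mul_val_inv, one_smul]
  inj h x hx := N.inj h x ((X.isUnit_tr h a).smul_eq_zero.1 hx)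

theorem twObj_res (a : ℤ) (N : Coh X) {s t : X.Idx} (h : s ≤ t) (x : N.obj s) :
    (twObj a N).res h x = X.tr h a • N.res h x := rfl

/-- The twist functor. -/
@[reducible] noncomputable def tw (a : ℤ) : Coh X ⥤ Coh X where
  obj := twObj a
  map φ := ⟨φ.app, fun h x => by
    rw [twObj_res, twObj_res]; exact ((φ.app _).map_smul _ _).trans (by rw [φ.nat])⟩

theorem tw_res (a : ℤ) (N : Coh X) {s t : X.Idx} (h : s ≤ t) (x : N.obj s) :
    ((tw a).obj N).res h x = X.tr h a • N.res h x := rfl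

theorem tw_map_app (a : ℤ) {M N : Coh X} (φ : M ⟶ N) (s : X.Idx) (x : M.obj s) :
    ((tw a).map φ).app s x = φ.app s x := rfl

instance (a : ℤ) : (tw (X := X) a).Additive where

instance (a : ℤ) : PreservesFiniteLimits (tw (X := X) a) :=
  (exact_functor _ fun _ _ h1 h2 h3 => ⟨h1, h2, h3⟩).1

instance (a : ℤ) : PreservesFiniteColimits (tw (X := X) a) :=
  (exact_functor _ fun _ _ h1 h2 h3 => ⟨h1, h2, h3⟩).2

/-- Multiplication `N(a) ⟶ N(b)` by a section `r` of `O(d)`, `a + d = b`. -/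
noncomputable def mu (N : Coh X) (a b : ℤ) {d : ℤ} (r : K) (hr : r ∈ X.Deg d) (hd : a + d = b) :
    (tw a).obj N ⟶ (tw b).obj N where
  app s := LinearMap.lsmul (X.A s.1) (N.obj s) (X.sec r hr s)
  nat {s t} h x := by
    change X.sec r hr t • X.tr h a • N.res h x = X.tr h b • N.res h (X.sec r hr s • x)
    rw [N.res_smul, ← mul_smul, ← mul_smul]
    congr 1
    have h1 := X.fp_ne s
    have h2 := X.fp_ne t
    refine Subtype.ext ?_
    simp only [MulMemClass.coe_mul, ProjVar.coe_inc, ProjVar.coe_tr, ProjVar.coe_sec, ← hd, div_zpow,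
      zpow_add₀ h1, zpow_add₀ h2]
    have := zpow_ne_zero d h1
    have := zpow_ne_zero d h2
    have := zpow_ne_zero a h2
    field_simp

theorem mu_app (N : Coh X) (a b : ℤ) {d : ℤ} (r : K) (hr : r ∈ X.Deg d) (hd : a + d = b)
    (s : X.Idx) (x : N.obj s) :
    (mu N a b r hr hd).app s x = X.sec r hr s • x := rfl

theorem mu_mu (N : Coh X) (a b c : ℤ) {d e : ℤ} (r r' : K) (hr : r ∈ X.Deg d) (hr' : r' ∈ X.Deg e)
    (hd : a + d = b) (he : b + e = c) :
    mu N a b r hr hd ≫ mu N b c r' hr' he =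
      mu N a c (r * r') (X.mul_mem_Deg hr hr') (by omega) := by
  refine hom_ext fun s x => ?_
  rw [comp_app, mu_app, mu_app, mu_app, ← mul_smul]
  refine congrArg (· • x) (Subtype.ext ?_)
  change r' / X.fp s ^ e * (r / X.fp s ^ d) = r * r' / X.fp s ^ (d + e)
  rw [zpow_add₀ (X.fp_ne s), mul_comm, div_mul_div_comm]

theorem mu_nat {M N : Coh X} (φ : M ⟶ N) (a b : ℤ) {d : ℤ} (r : K) (hr : r ∈ X.Deg d)
    (hd : a + d = b) : (tw a).map φ ≫ mu N a b r hr hd = mu M a b r hr hd ≫ (tw b).map φ :=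
  hom_ext fun s x => ((φ.app s).map_smul _ x).symm

/-- `N(0) = N`. -/
noncomputable def tw0 (N : Coh X) : (tw 0).obj N ≅ N where
  hom := ⟨fun _ => LinearMap.id, fun h x => by
    change X.tr h 0 • N.res h x = N.res h x
    rw [show X.tr h 0 = 1 from Subtype.ext (by simp), one_smul]⟩
  inv := ⟨fun _ => LinearMap.id, fun h x => by
    change N.res h x = X.tr h 0 • N.res h x
    rw [show X.tr h 0 = 1 from Subtype.ext (by simp), one_smul]⟩

theorem tr_add {s t : X.Idx} (h : s ≤ t) (a b : ℤ) : X.tr h (a + b) = X.tr h b * X.tr h a :=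
  Subtype.ext (by
    simp [zpow_add₀ (div_ne_zero (X.fp_ne s) (X.fp_ne t)), mul_comm])

/-- `N(a)(b) = N(a + b)`. -/
noncomputable def twtw (N : Coh X) (a b c : ℤ) (h : a + b = c) :
    (tw b).obj ((tw a).obj N) ≅ (tw c).obj N where
  hom := ⟨fun _ => LinearMap.id, fun h' x => by
    change X.tr h' b • X.tr h' a • N.res h' x = X.tr h' c • N.res h' x
    rw [← h, tr_add, mul_smul]⟩
  inv := ⟨fun _ => LinearMap.id, fun h' x => by
    change X.tr h' c • N.res h' x = X.tr h' b • X.tr h' a • N.res h' x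
    rw [← h, tr_add, mul_smul]⟩

/-- The line bundle `O(a)`. -/
noncomputable abbrev O (X : ProjVar k K) (a : ℤ) : Coh X := (tw a).obj (unit X)

/-- Locally projective sheaves. -/
def LocProj (G : Coh X) : Prop := ∀ j : X.J, Module.Projective (X.A (X.one j).1) (G.obj (X.one j))

theorem locProj_unit : LocProj (unit X) := fun j =>
  (inferInstance : Module.Projective (X.A {j.1}) (X.A {j.1}))

end Coh

end Pool.Agent.Lib.MP_cd184e_ag.T
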