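import Pool.Agent.Lib.MP_cd184e_ag.T.Enc
import Pool.Agent.Lib.MP_cd184e_ag.T.Cd
import Pool.Agent.Lib.MP_cd184e_ag.T.Chart

set_option autoImplicit false

namespace Pool.Agent.Lib.MP_cd184e_ag.T

def FFd : List (List ℕ) :=
  [[1, 10, 150638841925653, 592929154633359978705788950, 2405350906601486, 36865, 145, 170461451,
  904174944620700, 1655293719714062, 2719125649, 2305, 1444515851], [36865, 1, 10, 150986732507162,
  593292241896962803812016153, 2405003012481039, 2305, 145, 171051274, 902783374626977,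
  1654597935601935, 2718535826, 1447464972], [2405003011301392, 36865, 1, 10, 150638840746006,
  592808125545492370337046547, 2718535825, 2305, 145, 170461450, 903479159328929, 1655989504416014,
  1448644621], [592929154633359978705788950, 2405350906601486, 36865, 1, 10, 150638841925653,
  1655293719714062, 2719125649, 2305, 145, 170461451, 904174944620700, 1445105674],
  [150986732507162, 593292241896962803812016153, 2405003012481039, 36865, 1, 10, 902783374626977,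
  1654597935601935, 2718535826, 2305, 145, 171051274, 1445695503], [10, 150638840746006,
  592808125545492370337046547, 2405003011301392, 36865, 1, 170461450, 903479159328929,
  1655989504416014, 2718535825, 2305, 145, 1446285329]]

def FDd : List (List ℕ) :=
  [[0, 1, 3, 4, 3, 1, 1, 2, 3, 3, 2, 1, 2], [1, 0, 1, 3, 4, 3, 1, 1, 2, 3, 3, 2, 2], [3, 1, 0, 1,
  3, 4, 2, 1, 1, 2, 3, 3, 2], [4, 3, 1, 0, 1, 3, 3, 2, 1, 1, 2, 3, 2], [3, 4, 3, 1, 0, 1, 3, 3, 2,
  1, 1, 2, 2], [1, 3, 4, 3, 1, 0, 2, 3, 3, 2, 1, 1, 2]]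

def nbd : List (List ℕ) :=
  [[1, 6, 11, 5], [2, 7, 6, 0], [3, 8, 7, 1], [4, 9, 8, 2], [5, 10, 9, 3], [0, 11, 10, 4]]

def cvm : List ℕ :=
  [0, 0, 0, 0, 0, 0, 1, 1, 1, 1, 1, 1, 1]

def cvd : List (List ℕ) :=
  [[1, 0, 0, 0, 0, 0], [0, 1, 0, 0, 0, 0], [0, 0, 1, 0, 0, 0], [0, 0, 0, 1, 0, 0], [0, 0, 0, 0, 1,
  0], [0, 0, 0, 0, 0, 1], [64, 100, 0, 0, 0, 0], [0, 74, 55, 0, 0, 0], [0, 0, 82, 65, 0, 0], [0, 0,
  0, 91, 73, 0], [0, 0, 0, 0, 101, 82], [92, 0, 0, 0, 0, 55], [33, 42, 48, 0, 0, 0]]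

def ysd : List ℕ :=
  [10, 28, 46, 164, 2774]

def nzm : List ℕ :=
  [2, 0, 2, 0, 2, 0]

def nzd : List (List ℕ) :=
  [[4006615298, 1641, 4040557, 3979, 1], [1, 0, 0, 0, 0], [47769299980333946985, 1641, 4040557,
  1637445259, 1], [0, 1, 0, 0, 0], [1738982, 1641, 4040683, 614, 1416332], [0, 0, 1, 0, 0]]

/-- The coordinate `x v / x j` as a polynomial in the four coordinates of the chart `j`. -/
noncomputable def FF (j v : ℕ) : Pl := cond (Nat.blt v 13) (zP FFd j v) Pl.nil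

/-- The coordinates of the chart `j` are the `x (nb j t) / x j`. -/
noncomputable def nb : ℕ → ℕ → ℕ := ofN nbd

theorem chk_F : (allTo 6 fun j => allTo 13 fun v => Pl.hom (ofN FDd j v) (FF j v) &&
    Pl.eqv (Pl.mul (Pl.subst (FF 0 (nb j 0)) (FF 0 (nb j 1)) (FF 0 (nb j 2)) (FF 0 (nb j 3))
      (FF j v)) (FF 0 j)) (Pl.mul (FF 0 v) (Pl.pow (FF 0 j) (ofN FDd j v)))) = true := by
  decide +kernel

theorem chk_nb : (allTo 6 fun j => allTo 4 fun t => Nat.blt (nb j t) 13) = true := by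
  decide +kernel

theorem chk_ne : (allTo 6 fun j =>
    Pl.eqv (Pl.pow (Pl.subst Pl.one Pl.nil Pl.nil Pl.one (FF 0 j)) 8) Pl.one) = true := by
  decide +kernel

theorem chk_cv : (allTo 13 fun l =>
    chkCov (FF 0) (FF 0 l) (nth 0 cvm l) 6 (FF 0) (zF (nth 0 cvm l) cvd l)) = true := by
  decide +kernel

theorem chk_nz : (allTo 6 fun l => chkCov (FF 0) (FF 0 l) (nth 0 nzm l) 5
    (fun t => Fm.poly (FF 0) (Fm.dc 1 (nth 0 ysd t))) (zF (nth 0 nzm l) nzd l)) = true := by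
  decide +kernel

theorem chk_ys : (allTo 5 fun t => Fm.hom 1 (Fm.dc 1 (nth 0 ysd t))) = true := by
  decide +kernel

theorem chk_0 : (Pl.eqv (FF 0 0) Pl.one && Pl.eqv (FF 0 1) (.cons 1 0 0 0 1 0 .nil) &&
    Pl.eqv (FF 0 6) (.cons 0 1 0 0 1 0 .nil) && Pl.eqv (FF 0 11) (.cons 0 0 1 0 1 0 .nil) &&
    Pl.eqv (FF 0 5) (.cons 0 0 0 1 1 0 .nil)) = true := by
  decide +kernel

/-- The field of rational functions in four variables. -/
abbrev KK (k : Type) [Field k] : Type := FractionRing (MvPolynomial (Fin 4) k)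

variable {k : Type} [Field k] [CharP k 3]

instance : CharP (KK k) 3 := charP_of_injective_algebraMap (algebraMap k (KK k)).injective 3

noncomputable def xx (k : Type) [Field k] (t : Fin 4) : KK k :=
  algebraMap (MvPolynomial (Fin 4) k) _ (MvPolynomial.X t)

/-- The homogeneous coordinates of the generic point. -/
noncomputable def fN (i : k) (v : ℕ) : KK k := Pl.ev (algebraMap k _ i) (xx k) (FF 0 v)

variable {i : k} (hi : i ^ 2 = -1)
include hi

omit [CharP k 3] in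
theorem sq_map {K : Type} [Field K] [Algebra k K] :
    algebraMap k K i * algebraMap k K i = -1 := by
  rw [← map_mul, ← sq, hi, map_neg, map_one]

theorem fN_ne {j : ℕ} (hj : j < 6) : fN i j ≠ 0 := by
  intro h
  have h1 : algebraMap (MvPolynomial (Fin 4) k) (KK k) (Pl.toMv i (FF 0 j)) = 0 := by
    rw [← h, fN, ← Pl.aeval_toMv]
    exact DFunLike.congr_fun (MvPolynomial.algHom_ext (f := IsScalarTower.toAlgHom k _ (KK k))
      (g := MvPolynomial.aeval (xx k)) fun t => by simp [xx]) _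
  have h2 := (map_eq_zero_iff _ (IsFractionRing.injective _ _)).1 h1
  have h3 := Pl.ev_eqv (x := fun _ => (0 : k)) (sq_map (K := k) hi) (allTo_spec chk_ne hj)
  rw [Pl.ev_pow (sq_map hi), Pl.ev_subst (sq_map hi), ← Pl.aeval_toMv _ _ (FF 0 j), h2] at h3
  simp at h3

omit hi in
theorem FF_ge {j v : ℕ} (hv : ¬ v < 13) : FF j v = Pl.nil := by
  have : Nat.blt v 13 = false := by rwa [Bool.eq_false_iff, ne_eq, Nat.blt_eq]
  rw [FF, this, cond_false]

omit hi [CharP k 3] in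
theorem fN_mem (v : ℕ) : fN i v ∈ Submodule.span k (Set.range fun l : Fin 13 => fN i l) := by
  by_cases hv : v < 13
  · exact Submodule.subset_span ⟨⟨v, hv⟩, rfl⟩
  · rw [fN, FF_ge hv]; exact zero_mem _

theorem fN_base : fN i 0 = 1 ∧ fN i 1 = xx k 0 ∧ fN i 6 = xx k 1 ∧ fN i 11 = xx k 2 ∧
    fN i 5 = xx k 3 := by
  have h := chk_0
  simp only [Bool.and_eq_true] at h
  refine ⟨(Pl.ev_eqv (sq_map hi) h.1.1.1.1).trans ?_, (Pl.ev_eqv (sq_map hi) h.1.1.1.2).trans ?_,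
    (Pl.ev_eqv (sq_map hi) h.1.1.2).trans ?_, (Pl.ev_eqv (sq_map hi) h.1.2).trans ?_,
    (Pl.ev_eqv (sq_map hi) h.2).trans ?_⟩ <;> simp [Pl.ev_cons]

/-- The Mukai fourfold of genus ten. -/
@[reducible] noncomputable def V18 : ProjVar k (KK k) where
  n := 13
  f l := fN i l
  J := Finset.univ.filter fun l => l.val < 6
  ne j hj := fN_ne hi (Finset.mem_filter.1 hj).2
  nonempty := ⟨0, by simp⟩
  cover l := ⟨_, chkCov_spec (sq_map hi) (allTo_spec chk_cv l.2)
    (fun t ht => Submodule.subset_span ⟨⟨t, by omega⟩, by simpa using ht, rfl⟩) fN_mem⟩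

theorem V18_f (l : ℕ) (hl : l < 13) : (V18 hi).f ⟨l, hl⟩ = fN i l := rfl

theorem V18_lt (j : (V18 hi).J) : j.1.val < 6 := (Finset.mem_filter.1 j.2).2

/-- The chart with number `j`. -/
def ch (j : ℕ) (hj : j < 6) : (V18 hi).J :=
  ⟨⟨j, hj.trans (by decide : 6 < 13)⟩, Finset.mem_filter.2 ⟨Finset.mem_univ _, hj⟩⟩

theorem ev_FF (j : (V18 hi).J) (v : ℕ) : Pl.ev (algebraMap k (KK k) i)
    (fun t => (fN i j.1)⁻¹ * fN i (nb j.1 t)) (FF j.1 v) = (fN i j.1)⁻¹ * fN i v := by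
  by_cases hv : v < 13
  · have h := allTo_spec (allTo_spec chk_F (V18_lt hi j)) hv
    rw [Bool.and_eq_true] at h
    have h1 := Pl.ev_eqv (x := xx k) (sq_map hi) h.2
    have h0 := fN_ne hi (V18_lt hi j)
    rw [Pl.ev_mul (sq_map hi), Pl.ev_mul (sq_map hi), Pl.ev_pow (sq_map hi),
      Pl.ev_subst (sq_map hi)] at h1
    have h2 : (fun t : Fin 4 => fN i (nb j.1 t)) = ![fN i (nb j.1 0), fN i (nb j.1 1),
        fN i (nb j.1 2), fN i (nb j.1 3)] := by
      funext t; fin_cases t <;> rfl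
    rw [Pl.ev_hom h.1, h2]
    change _ * fN i j.1 = fN i v * fN i j.1 ^ _ at h1
    refine mul_right_cancel₀ h0 ?_
    rw [mul_assoc]
    refine (congrArg (_ * ·) h1).trans ?_
    rw [inv_pow]
    field_simp
  · rw [fN, fN, FF_ge hv, FF_ge hv]; exact (mul_zero _).symm

/-- Coordinates on the charts. -/
noncomputable def ctx : Ctx (V18 hi) FF where
  i := i
  hi := sq_map hi
  u j t := (fN i j.1)⁻¹ * fN i (nb j.1 t)
  hu j t := by
    have := (V18 hi).div_mem (s := {j.1})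
      ⟨nb j.1 t, lt_of_blt (allTo_spec (allTo_spec chk_nb (V18_lt hi j)) t.2)⟩
      (Finset.mem_singleton_self _)
    rwa [div_eq_inv_mul] at this
  fN := fN i
  hF := ev_FF hi
  f0 := (fN_base hi).1
  j0 := ch hi 0 (by decide)
  hj0 := rfl
  fj0 := (V18_f hi 0 (by decide)).trans (fN_base hi).1
  hJ := V18_lt hi

theorem A_eq (j : (V18 hi).J) :
    (V18 hi).A {j.1} = Algebra.adjoin k (Set.range ((ctx hi).u j)) := by
  refine le_antisymm (Algebra.adjoin_le ?_) (Algebra.adjoin_le ?_)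
  · rintro _ ⟨l, j', hj', rfl⟩
    obtain rfl := Finset.mem_singleton.1 hj'
    rw [div_eq_inv_mul]
    have := Pl.ev_mem (Algebra.adjoin k (Set.range ((ctx hi).u j)))
      (Subalgebra.algebraMap_mem _ i) (fun t => Algebra.subset_adjoin ⟨t, rfl⟩) (FF j.1 l)
    exact (ctx hi).hF j l ▸ this
  · rintro _ ⟨t, rfl⟩
    exact (ctx hi).hu j t

theorem chart (j : (V18 hi).J) : AlgebraicIndependent k ((ctx hi).u j) ∧
    IsFractionRing ((V18 hi).A {j.1}) (KK k) ∧
    Nonempty ((V18 hi).A {j.1} ≃ₐ[k] MvPolynomial (Fin 4) k) ∧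
    Algebra.Smooth k ((V18 hi).A {j.1}) := by
  refine chart_facts _ _ (A_eq hi j) fun t => ?_
  have h0 := fN_ne hi (V18_lt hi j)
  obtain ⟨e0, e1, e2, e3, e4⟩ := fN_base hi
  have key (l : ℕ) (hl : l < 13) (h : fN i l = xx k t) : ∃ p ∈ (V18 hi).A {j.1}, ∃ q ∈ (V18 hi).A {j.1},
      q ≠ 0 ∧ xx k t = p / q := by
    refine ⟨_, (V18 hi).div_mem ⟨l, hl⟩ (Finset.mem_singleton_self _), _,
      (V18 hi).div_mem ⟨0, (by decide : 0 < 13)⟩ (Finset.mem_singleton_self _), ?_, ?_⟩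
    · rw [V18_f hi 0, e0]; exact div_ne_zero one_ne_zero h0
    · rw [V18_f hi 0, V18_f hi l, e0, h,
        div_div_div_cancel_right₀ ((V18 hi).ne _ j.2), div_one]
  fin_cases t
  exacts [key 1 (by decide) e1, key 6 (by decide) e2, key 11 (by decide) e3,
    key 5 (by decide) e4]

theorem noZero : ∃ ys : List (KK k), (V18 hi).NoZero ys ∧ ys.length = 5 := by
  refine ⟨List.ofFn fun t : Fin 5 => Pl.ev (algebraMap k _ i) (xx k)
    (Fm.poly (FF 0) (Fm.dc 1 (nth 0 ysd t))), ⟨fun y hy => ?_, fun j => ?_⟩, List.length_ofFn⟩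
  · obtain ⟨t, rfl⟩ := List.mem_ofFn.1 hy
    have h := allTo_spec chk_ys t.2
    rw [Fm.ev_poly (sq_map hi) (t := 1) (f := fN i) (fun v => (one_mul _).symm) h, one_pow,
      one_mul]
    exact Fm.ev_mem i _ _ fN_mem h
  · exact ⟨_, chkCov_spec (sq_map hi) (allTo_spec chk_nz (V18_lt hi j))
      (fun t ht => Submodule.subset_span (List.mem_ofFn.2 ⟨⟨t, ht⟩, rfl⟩)) fN_mem⟩

end Pool.Agent.Lib.MP_cd184e_ag.T
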